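import Pool.Agent.MP_e1dc65_gt.Spec0
import Pool.Agent.MP_c8d41b_gt.gf.Spec
import Pool.Agent.MP_e1dc65_gt.Spec1
import Pool.Agent.MP_e1dc65_gt.k.Bump

-- ======== part 0: formerly Pool.Agent.MP_e1dc65_gt.fm.Api
section MrgPart0

/-! PROJECT HC: calculus of differential forms on manifolds. -/

open scoped ContDiff Manifold Topology
open Set Filter Function Module ExteriorAlgebra Pool.Agent.MP_c8d41b_gt.GF

set_option linter.unusedSectionVars false

noncomputable section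

namespace Pool.Agent.MP_e1dc65_gt

variable {E E' E'' : Type} [NormedAddCommGroup E] [NormedSpace ℝ E] [NormedAddCommGroup E']
  [NormedSpace ℝ E'] [NormedAddCommGroup E''] [NormedSpace ℝ E'']
  {X : Mf E} {Y : Mf E'} {Z : Mf E''} {f f' : X → Y} {g : Y → Z} {x : X} {U V : Set X}

/-! ### Pull-back -/

theorem SmAt.ev_mdf (h : SmAt X Y f x) :
    ∀ᶠ y in 𝓝 x, MDifferentiableAt 𝓘(ℝ, E) 𝓘(ℝ, E') f y :=
  ((contMDiffAt_iff_contMDiffAt_nhds (n := 1) (by simp)).1 (h.of_le (by simp))).mono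
    fun _ h => h.mdifferentiableAt one_ne_zero

theorem pbM_comp' (hf : MDifferentiableAt 𝓘(ℝ, E) 𝓘(ℝ, E') f x)
    (hg : MDifferentiableAt 𝓘(ℝ, E') 𝓘(ℝ, E'') g (f x)) (α : Z → Lam E'') :
    pbM X Z (fun x => g (f x)) α x = pbM X Y f (pbM Y Z g α) x := by
  have : Df X Z (fun x => g (f x)) x = (Df Y Z g (f x)).comp (Df X Y f x) := mfderiv_comp x hg hf
  simp only [pbM, this, mp_comp]

theorem pbM_comp (hf : SmAt X Y f x) (hg : SmAt Y Z g (f x)) (α : Z → Lam E'') :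
    pbM X Z (fun x => g (f x)) α x = pbM X Y f (pbM Y Z g α) x := pbM_comp' hf.md hg.md α

theorem pbM_congr (e : f =ᶠ[𝓝 x] f') (α : Y → Lam E') : pbM X Y f α x = pbM X Y f' α x := by
  rw [pbM, pbM, Df_congr e, e.eq_of_nhds]

theorem pbM_congr_right {α β : Y → Lam E'} (e : α (f x) = β (f x)) :
    pbM X Y f α x = pbM X Y f β x := by rw [pbM, pbM, e]

theorem pbM_ev {α β : Y → Lam E'} (hf : ContinuousAt f x) (e : α =ᶠ[𝓝 (f x)] β) :
    pbM X Y f α =ᶠ[𝓝 x] pbM X Y f β := (hf.eventually e).mono fun _ h => pbM_congr_right h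

@[simp] theorem pbM_id (α : X → Lam E) : pbM X X (fun x => x) α = α :=
  funext fun x => by rw [pbM, Df_id, mp_id]

/-- if `g ∘ f` is the identity near `x`, pulling back by `g` and then by `f` is the identity -/
theorem pbM_inv {k : Y → X} (hf : SmAt X Y f x) (hk : SmAt Y X k (f x))
    (e : ∀ᶠ y in 𝓝 x, k (f y) = y) (α : X → Lam E) : pbM X Y f (pbM Y X k α) x = α x := by
  rw [← pbM_comp hf hk, pbM_congr (f' := fun x => x) e, pbM_id]

section Alg
variable (α β : Y → Lam E')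
theorem pbM_add : pbM X Y f (fun y => α y + β y) x = pbM X Y f α x + pbM X Y f β x := map_add _ _ _
theorem pbM_sub : pbM X Y f (fun y => α y - β y) x = pbM X Y f α x - pbM X Y f β x := map_sub _ _ _
theorem pbM_neg : pbM X Y f (fun y => -α y) x = -pbM X Y f α x := map_neg _ _
theorem pbM_mul : pbM X Y f (fun y => α y * β y) x = pbM X Y f α x * pbM X Y f β x := map_mul _ _ _
theorem pbM_fsmul (h : Y → ℝ) :
    pbM X Y f (fun y => h y • α y) x = h (f x) • pbM X Y f α x := map_smul _ _ _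
theorem pbM_inv' : pbM X Y f (fun y => inv (α y)) x = inv (pbM X Y f α x) := (inv_mp _ _).symm
theorem pbM_prj (n : ℕ) : pbM X Y f (fun y => prj n (α y)) x = prj n (pbM X Y f α x) :=
  (prj_mp _ _ _).symm
theorem pbM_scalar (h : Y → ℝ) :
    pbM X Y f (fun y => algebraMap ℝ _ (h y)) x = algebraMap ℝ _ (h (f x)) := AlgHom.commutes _ _
variable {α}
theorem pbM_zero (h : α (f x) = 0) : pbM X Y f α x = 0 := by rw [pbM, h, map_zero]
theorem pbM_dg {n : ℕ} (h : α (f x) ∈ dg E' n) : pbM X Y f α x ∈ dg E n := dg_mp _ h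
theorem pbM_sum {I : Type} (s : Finset I) (γ : I → Y → Lam E') :
    pbM X Y f (fun y => ∑ i ∈ s, γ i y) x = ∑ i ∈ s, pbM X Y f (γ i) x := map_sum _ _ _
end Alg

theorem mp_injective {L : E →L[ℝ] E'} (h : L.IsInvertible) : Injective (mp L) := fun a b e => by
  have := congrArg (mp L.inverse) e
  rwa [← mp_comp, ← mp_comp, h.self_comp_inverse, mp_id, mp_id] at this

theorem LDAt.pbM_ne (h : LDAt X Y f x) {α : Y → Lam E'} (h0 : α (f x) ≠ 0) : pbM X Y f α x ≠ 0 :=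
  fun e => h0 (mp_injective h.inv (e.trans (map_zero _).symm))

variable [FiniteDimensional ℝ E] [FiniteDimensional ℝ E'] [FiniteDimensional ℝ E'']

theorem pbM_vs (f : E → E') (α : E' → Lam E') : pbM (vs E) (vs E') f α = pb f α :=
  funext fun x => by rw [pbM, Df_vs, pb]

/-- the differential of a function, as a form -/
def dF (X : Mf E) (h : X → ℝ) (x : X) : Lam E := ι ℝ (Df X (vs ℝ) h x)

/-- a form read in the chart at `x` -/
abbrev loc (X : Mf E) (x : X) (α : X → Lam E) : E → Lam E := pbM (vs E) X (ch X x).symm α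

theorem ch_left (X : Mf E) (x : X) : (ch X x).symm (ch X x x) = x :=
  (ch X x).left_inv (mem_chart_source E x)

theorem smAt_ch_self : SmAt X (vs E) (ch X x) x := smAt_ch (mem_chart_source E x)
theorem smAt_ch_symm_self : SmAt (vs E) X (ch X x).symm (ch X x x) :=
  smAt_ch_symm (mem_chart_target E x)

theorem Df_ch_symm_self : Df (vs E) X (ch X x).symm (ch X x x) = ContinuousLinearMap.id ℝ E := by
  have h := Df_comp (X := X) (Y := vs E) (Z := X) (x := x) smAt_ch_self smAt_ch_symm_self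
  rw [Df_congr (f' := fun x => x) ((ch X x).eventually_left_inverse (mem_chart_source E x)), Df_id,
    Df_ch_self, ContinuousLinearMap.comp_id] at h
  exact h.symm

theorem tendsto_ch_symm : Tendsto (ch X x).symm (𝓝 (ch X x x)) (𝓝 x) := by
  have := (smAt_ch_symm_self (x := x)).cont.tendsto
  rwa [ch_left] at this

theorem loc_self (α : X → Lam E) : loc X x α (ch X x x) = α x := by
  rw [loc, pbM, Df_ch_symm_self, mp_id, ch_left]

theorem pbM_loc {y : X} (hy : y ∈ (ch X x).source) (α : X → Lam E) :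
    pbM X (vs E) (ch X x) (loc X x α) y = α y :=
  pbM_inv (smAt_ch hy) (smAt_ch_symm ((ch X x).map_source hy))
    ((ch X x).eventually_left_inverse hy) α

theorem smAt_iff_loc {h : X → E'} :
    SmAt X (vs E') h x ↔ ContDiffAt ℝ ∞ (fun y => h ((ch X x).symm y)) (ch X x x) :=
  ⟨fun H => smAt_vs.1 (smAt_ch_symm_self.trans (by rwa [ch_left])), fun H =>
    (smAt_ch_self.trans (smAt_vs.2 H)).congr'
      (((ch X x).eventually_left_inverse (mem_chart_source E x)).mono fun _ e => by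
        simp only [e])⟩

theorem Df_loc {h : X → E'} (H : SmAt X (vs E') h x) :
    fderiv ℝ (fun y => h ((ch X x).symm y)) (ch X x x) = Df X (vs E') h x := by
  rw [← Df_vs, Df_comp smAt_ch_symm_self (by rwa [ch_left]), Df_ch_symm_self, ch_left,
    ContinuousLinearMap.comp_id]

/-- a pull-back read in charts -/
theorem loc_pbM (hf : SmAt X Y f x) (α : Y → Lam E') :
    loc X x (pbM X Y f α) =ᶠ[𝓝 (ch X x x)]
      pb (fun y => ch Y (f x) (f ((ch X x).symm y))) (loc Y (f x) α) := by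
  filter_upwards [(ch X x).open_target.mem_nhds (mem_chart_target E x),
    tendsto_ch_symm.eventually hf.ev_mdf, tendsto_ch_symm.eventually
      (hf.cont.preimage_mem_nhds ((ch Y (f x)).open_source.mem_nhds (mem_chart_source E' _)))]
    with y h1 h2 h3
  have h4 := (smAt_ch_symm h1).md
  have h5 := pbM_comp' (X := vs E) (Y := Y) (Z := vs E') (f := fun y => f ((ch X x).symm y))
    (h2.comp y h4) (smAt_ch h3).md (loc Y (f x) α)
  have h6 := pbM_comp' (X := vs E) (Y := X) (Z := Y) h4 h2 α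
  rw [← pbM_vs, h5]
  exact h6.symm.trans (pbM_congr_right (pbM_loc h3 α).symm)

theorem cda_chart (hf : SmAt X Y f x) :
    ContDiffAt ℝ ∞ (fun y => ch Y (f x) (f ((ch X x).symm y))) (ch X x x) :=
  smAt_iff_loc.1 (hf.trans smAt_ch_self)

theorem fderiv_chart (hf : SmAt X Y f x) :
    fderiv ℝ (fun y => ch Y (f x) (f ((ch X x).symm y))) (ch X x x) = Df X Y f x := by
  rw [Df_loc (hf.trans smAt_ch_self), Df_comp hf smAt_ch_self, Df_ch_self,
    ContinuousLinearMap.id_comp]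

variable {α β : X → Lam E}

theorem FmAt.pb {α : Y → Lam E'} (h : FmAt Y α (f x)) (hf : SmAt X Y f x) :
    FmAt X (pbM X Y f α) x :=
  (cda_pb (cda_chart hf) (by rw [ch_left]; exact h)).congr_of_eventuallyEq (loc_pbM hf α)

theorem dM_pb' {α : Y → Lam E'} (hf : SmAt X Y f x)
    (h : DifferentiableAt ℝ (loc Y (f x) α) (ch Y (f x) (f x))) :
    dM X (pbM X Y f α) x = pbM X Y f (dM Y α) x := by
  rw [dM, dd_congr (loc_pbM hf α), dd_pb (cda_chart hf) (by rw [ch_left]; exact h), pb,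
    fderiv_chart hf, ch_left]
  rfl

theorem FmAt.da (h : FmAt X α x) : DifferentiableAt ℝ (loc X x α) (ch X x x) :=
  h.differentiableAt (by simp)

/-- the exterior derivative commutes with pull-back -/
theorem dM_pb {α : Y → Lam E'} (hf : SmAt X Y f x) (h : FmAt Y α (f x)) :
    dM X (pbM X Y f α) x = pbM X Y f (dM Y α) x := dM_pb' hf h.da

theorem loc_vs (x : E) (α : E → Lam E) : loc (vs E) x α = α := pbM_id (X := vs E) α
theorem fmAt_vs {α : E → Lam E} {x : E} : FmAt (vs E) α x ↔ ContDiffAt ℝ ∞ α x := by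
  rw [FmAt]; exact (congrArg (ContDiffAt ℝ ∞ · x) (loc_vs x α)).to_iff
theorem dM_vs (α : E → Lam E) : dM (vs E) α = dd α := funext fun x =>
  congrArg (dd · x) (loc_vs x α)

/-! ### Locality -/

theorem loc_congr (e : α =ᶠ[𝓝 x] β) : loc X x α =ᶠ[𝓝 (ch X x x)] loc X x β :=
  (tendsto_ch_symm.eventually e).mono fun _ h => pbM_congr_right (X := vs E) h
theorem FmAt.congr' (h : FmAt X α x) (e : β =ᶠ[𝓝 x] α) : FmAt X β x :=
  h.congr_of_eventuallyEq (loc_congr e)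
theorem dM_congr (e : α =ᶠ[𝓝 x] β) : dM X α x = dM X β x := dd_congr (loc_congr e)
theorem dM_congr' (e : α =ᶠ[𝓝 x] β) : dM X α =ᶠ[𝓝 x] dM X β :=
  e.eventuallyEq_nhds.mono fun _ h => dM_congr h

theorem ev_pbM_loc (α : X → Lam E) : α =ᶠ[𝓝 x] pbM X (vs E) (ch X x) (loc X x α) := by
  filter_upwards [(ch X x).open_source.mem_nhds (mem_chart_source E x)] with y hy
  exact (pbM_loc hy α).symm

/-- smoothness descends along local diffeomorphisms -/
theorem LDAt.fmAt_of_pb {α : Y → Lam E'} (hf : LDAt X Y f x) (h : FmAt X (pbM X Y f α) x) :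
    FmAt Y α (f x) := by
  obtain ⟨k, U, W, -, hW, hx, -, hf', hk, m1, m2, l, r⟩ := hf.exists_inv univ_mem
  refine (FmAt.pb (f := k) (by rwa [l x hx]) (hk _ (m1 hx))).congr' ?_
  filter_upwards [hW.mem_nhds (m1 hx)] with y hy
  have := pbM_inv (hk y hy) (hf' _ (m2 hy)) (mem_of_superset (hW.mem_nhds hy) r) α
  exact this.symm

theorem dM_ev (h : FmAt X α x) : dM X α =ᶠ[𝓝 x] pbM X (vs E) (ch X x) (dd (loc X x α)) := by
  have h1 : ∀ᶠ z in 𝓝 (ch X x x), DifferentiableAt ℝ (loc X x α) z :=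
    ((h.of_le (m := 1) (by simp)).eventually (by simp)).mono fun _ h => h.differentiableAt one_ne_zero
  filter_upwards [(ch X x).open_source.mem_nhds (mem_chart_source E x),
    smAt_ch_self.cont.eventually h1] with y hy h2
  rw [← dM_vs, ← dM_pb' (Y := vs E) (smAt_ch hy) (by rw [loc_vs]; exact h2)]
  refine dM_congr ?_
  filter_upwards [(ch X x).open_source.mem_nhds hy] with z hz
  exact (pbM_loc hz α).symm

theorem FmAt.dM (h : FmAt X α x) : FmAt X (dM X α) x :=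
  (FmAt.pb (Y := vs E) (fmAt_vs.2 (cda_dd' h)) smAt_ch_self).congr' (dM_ev h)

theorem dM_dM (h : FmAt X α x) : dM X (dM X α) x = 0 := by
  rw [dM_congr (dM_ev h), dM_pb (Y := vs E) smAt_ch_self (fmAt_vs.2 (cda_dd' h)), dM_vs]
  exact pbM_zero (dd_dd h)

/-! ### Algebraic operations -/

theorem loc_add : loc X x (fun y => α y + β y) = fun y => loc X x α y + loc X x β y :=
  funext fun _ => pbM_add _ _
theorem loc_sub : loc X x (fun y => α y - β y) = fun y => loc X x α y - loc X x β y :=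
  funext fun _ => pbM_sub _ _
theorem loc_neg : loc X x (fun y => -α y) = fun y => -loc X x α y := funext fun _ => pbM_neg _
theorem loc_mul : loc X x (fun y => α y * β y) = fun y => loc X x α y * loc X x β y :=
  funext fun _ => pbM_mul _ _
theorem loc_fsmul (h : X → ℝ) :
    loc X x (fun y => h y • α y) = fun y => h ((ch X x).symm y) • loc X x α y :=
  funext fun _ => pbM_fsmul _ _
theorem loc_inv : loc X x (fun y => inv (α y)) = fun y => inv (loc X x α y) :=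
  funext fun _ => pbM_inv' _
theorem loc_prj (n : ℕ) : loc X x (fun y => prj n (α y)) = fun y => prj n (loc X x α y) :=
  funext fun _ => pbM_prj _ _
theorem loc_scalar (h : X → ℝ) :
    loc X x (fun y => algebraMap ℝ _ (h y)) = fun y => h ((ch X x).symm y) • (1 : Lam E) :=
  funext fun _ => (pbM_scalar _).trans (Algebra.algebraMap_eq_smul_one _)
theorem loc_zero : loc X x (fun _ => 0) = fun _ => 0 := funext fun _ => pbM_zero rfl

theorem fmAt_zero : FmAt X (fun _ => 0) x := by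
  change ContDiffAt ℝ ∞ (loc X x _) _; rw [loc_zero]; exact contDiffAt_const
theorem fmAt_of_ev (e : ∀ᶠ y in 𝓝 x, α y = 0) : FmAt X α x := fmAt_zero.congr' e
theorem FmAt.add (h : FmAt X α x) (h' : FmAt X β x) : FmAt X (fun y => α y + β y) x := by
  change ContDiffAt ℝ ∞ (loc X x _) _; rw [loc_add]; exact ContDiffAt.add h h'
theorem FmAt.sub (h : FmAt X α x) (h' : FmAt X β x) : FmAt X (fun y => α y - β y) x := by
  change ContDiffAt ℝ ∞ (loc X x _) _; rw [loc_sub]; exact ContDiffAt.sub h h'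
theorem FmAt.neg (h : FmAt X α x) : FmAt X (fun y => -α y) x := by
  change ContDiffAt ℝ ∞ (loc X x _) _; rw [loc_neg]; exact ContDiffAt.neg h
theorem FmAt.mul (h : FmAt X α x) (h' : FmAt X β x) : FmAt X (fun y => α y * β y) x := by
  change ContDiffAt ℝ ∞ (loc X x _) _; rw [loc_mul]; exact cda_mul h h'
theorem FmAt.fsmul {u : X → ℝ} (h : FmAt X α x) (hu : SmAt X (vs ℝ) u x) :
    FmAt X (fun y => u y • α y) x := by
  change ContDiffAt ℝ ∞ (loc X x _) _; rw [loc_fsmul]; exact (smAt_iff_loc.1 hu).smul h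
theorem FmAt.smul (h : FmAt X α x) (c : ℝ) : FmAt X (fun y => c • α y) x :=
  h.fsmul (smAt_const (Y := vs ℝ) c)
theorem FmAt.inv (h : FmAt X α x) : FmAt X (fun y => inv (α y)) x := by
  change ContDiffAt ℝ ∞ (loc X x _) _; rw [loc_inv]; exact cda_inv h
theorem FmAt.prj (h : FmAt X α x) (n : ℕ) : FmAt X (fun y => prj n (α y)) x := by
  change ContDiffAt ℝ ∞ (loc X x _) _; rw [loc_prj]; exact cda_lin _ h
theorem fmAt_scalar {u : X → ℝ} (hu : SmAt X (vs ℝ) u x) :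
    FmAt X (fun y => algebraMap ℝ _ (u y)) x := by
  change ContDiffAt ℝ ∞ (loc X x _) _; rw [loc_scalar]
  exact (smAt_iff_loc.1 hu).smul (contDiffAt_const (c := (1 : Lam E)))
theorem fmAt_sum {I : Type} {s : Finset I} {γ : I → X → Lam E} (h : ∀ i ∈ s, FmAt X (γ i) x) :
    FmAt X (fun y => ∑ i ∈ s, γ i y) x := by
  have : loc X x (fun y => ∑ i ∈ s, γ i y) = fun y => ∑ i ∈ s, loc X x (γ i) y :=
    funext fun _ => pbM_sum _ _
  change ContDiffAt ℝ ∞ (loc X x _) _; rw [this]; exact ContDiffAt.sum h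

theorem dM_zero : dM X (fun _ => 0) x = 0 := by
  change dd (loc X x _) _ = _; rw [loc_zero]; exact dd_const _ _
theorem dM_of_ev (e : ∀ᶠ y in 𝓝 x, α y = 0) : dM X α x = 0 := (dM_congr e).trans dM_zero
theorem dM_add (h : FmAt X α x) (h' : FmAt X β x) :
    dM X (fun y => α y + β y) x = dM X α x + dM X β x := by
  change dd (loc X x _) _ = _; rw [loc_add]; exact dd_add h.da h'.da
theorem dM_sub (h : FmAt X α x) (h' : FmAt X β x) :
    dM X (fun y => α y - β y) x = dM X α x - dM X β x := by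
  change dd (loc X x _) _ = _; rw [loc_sub]; exact dd_sub h.da h'.da
theorem dM_neg : dM X (fun y => -α y) x = -dM X α x := by
  change dd (loc X x _) _ = _; rw [loc_neg]; exact dd_neg
theorem dM_mul (h : FmAt X α x) (h' : FmAt X β x) :
    dM X (fun y => α y * β y) x = dM X α x * β x + inv (α x) * dM X β x := by
  change dd (loc X x _) _ = _; rw [loc_mul, dd_mul h.da h'.da, loc_self, loc_self]; rfl
theorem dM_fsmul {u : X → ℝ} (hu : SmAt X (vs ℝ) u x) (h : FmAt X α x) :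
    dM X (fun y => u y • α y) x = dF X u x * α x + u x • dM X α x := by
  change dd (loc X x _) _ = _
  rw [loc_fsmul, dd_fsmul ((smAt_iff_loc.1 hu).differentiableAt (by simp)) h.da, Df_loc hu,
    loc_self, ch_left]
  rfl
theorem dM_smul (c : ℝ) (h : FmAt X α x) : dM X (fun y => c • α y) x = c • dM X α x := by
  change dd (loc X x _) _ = _; rw [loc_fsmul (fun _ => c)]; exact dd_smul c h.da
theorem dM_inv (h : FmAt X α x) : dM X (fun y => inv (α y)) x = -inv (dM X α x) := by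
  change dd (loc X x _) _ = _; rw [loc_inv]; exact dd_inv h.da
theorem dM_prj (n : ℕ) (h : FmAt X α x) :
    dM X (fun y => prj n (α y)) x = prj (n + 1) (dM X α x) := by
  change dd (loc X x _) _ = _; rw [loc_prj]; exact dd_prj n h.da
theorem dM_scalar {u : X → ℝ} (hu : SmAt X (vs ℝ) u x) :
    dM X (fun y => algebraMap ℝ _ (u y)) x = dF X u x := by
  change dd (loc X x _) _ = _
  rw [loc_scalar, dd_fun ((smAt_iff_loc.1 hu).differentiableAt (by simp)), Df_loc hu]; rfl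
theorem dM_sum {I : Type} {s : Finset I} {γ : I → X → Lam E} (h : ∀ i ∈ s, FmAt X (γ i) x) :
    dM X (fun y => ∑ i ∈ s, γ i y) x = ∑ i ∈ s, dM X (γ i) x := by
  have : loc X x (fun y => ∑ i ∈ s, γ i y) = fun y => ∑ i ∈ s, loc X x (γ i) y :=
    funext fun _ => pbM_sum _ _
  change dd (loc X x _) _ = _; rw [this]; exact dd_sum fun i hi => (h i hi).da
theorem dg_dM {n : ℕ} (h : FmAt X α x) (hd : ∀ᶠ y in 𝓝 x, α y ∈ dg E n) :
    dM X α x ∈ dg E (n + 1) := by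
  rw [dM_congr (β := fun y => prj n (α y)) (hd.mono fun _ h => (prj_same h).symm), dM_prj n h]
  exact prj_mem _ _

/-! ### Differentials of functions -/

section Fun
variable {u v : X → ℝ}
theorem dF_dg (u : X → ℝ) (x : X) : dF X u x ∈ dg E 1 := dg_ι _
theorem dF_congr (e : u =ᶠ[𝓝 x] v) : dF X u x = dF X v x := by
  rw [dF, dF, Df_congr (Y := vs ℝ) e]
theorem dF_const (c : ℝ) : dF X (fun _ => c) x = 0 := by rw [dF, Df_const (Y := vs ℝ), map_zero]
theorem dF_of_ev {c : ℝ} (e : ∀ᶠ y in 𝓝 x, u y = c) : dF X u x = 0 :=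
  (dF_congr e).trans (dF_const c)
theorem pbM_dF' {u : Y → ℝ} (hf : MDifferentiableAt 𝓘(ℝ, E) 𝓘(ℝ, E') f x)
    (hu : MDifferentiableAt 𝓘(ℝ, E') 𝓘(ℝ, ℝ) u (f x)) :
    pbM X Y f (dF Y u) x = dF X (fun x => u (f x)) x := by
  have : Df X (vs ℝ) (fun x => u (f x)) x = (Df Y (vs ℝ) u (f x)).comp (Df X Y f x) :=
    mfderiv_comp x hu hf
  rw [pbM, dF, dF, this]
  exact ExteriorAlgebra.map_apply_ι _ _
theorem pbM_dF {u : Y → ℝ} (hf : SmAt X Y f x) (hu : SmAt Y (vs ℝ) u (f x)) :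
    pbM X Y f (dF Y u) x = dF X (fun x => u (f x)) x := pbM_dF' hf.md hu.md
theorem dF_vs (u : E → ℝ) (x : E) : dF (vs E) u x = ι ℝ (fderiv ℝ u x) := by rw [dF, Df_vs]
theorem loc_dF (hu : SmAt X (vs ℝ) u x) : loc X x (dF X u) =ᶠ[𝓝 (ch X x x)]
    fun y => ι ℝ (fderiv ℝ (fun y => u ((ch X x).symm y)) y) := by
  filter_upwards [(ch X x).open_target.mem_nhds (mem_chart_target E x),
    tendsto_ch_symm.eventually hu.ev_mdf] with y h1 h2
  exact (pbM_dF' (smAt_ch_symm h1).md h2).trans (dF_vs _ _)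
theorem fmAt_dF (hu : SmAt X (vs ℝ) u x) : FmAt X (dF X u) x :=
  (cda_ι ((smAt_iff_loc.1 hu).fderiv_right (by simp))).congr_of_eventuallyEq (loc_dF hu)
theorem dM_dF (hu : SmAt X (vs ℝ) u x) : dM X (dF X u) x = 0 :=
  (dd_congr (loc_dF hu)).trans (dd_ι_fderiv (smAt_iff_loc.1 hu))
theorem dF_comp {h : ℝ → ℝ} (hu : SmAt X (vs ℝ) u x) (hh : ContDiffAt ℝ ∞ h (u x)) :
    dF X (fun y => h (u y)) x = deriv h (u x) • dF X u x := by
  rw [dF, dF, Df_vcomp hu hh, ← map_smul]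
  congr 1
  ext w
  simp [mul_comm]
theorem SmAt.add (hu : SmAt X (vs ℝ) u x) (hv : SmAt X (vs ℝ) v x) :
    SmAt X (vs ℝ) (fun y => u y + v y) x :=
  smAt_iff_loc.2 ((smAt_iff_loc.1 hu).add (smAt_iff_loc.1 hv))
theorem SmAt.sub (hu : SmAt X (vs ℝ) u x) (hv : SmAt X (vs ℝ) v x) :
    SmAt X (vs ℝ) (fun y => u y - v y) x :=
  smAt_iff_loc.2 ((smAt_iff_loc.1 hu).sub (smAt_iff_loc.1 hv))
theorem SmAt.mul (hu : SmAt X (vs ℝ) u x) (hv : SmAt X (vs ℝ) v x) :
    SmAt X (vs ℝ) (fun y => u y * v y) x :=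
  smAt_iff_loc.2 ((smAt_iff_loc.1 hu).mul (smAt_iff_loc.1 hv))
theorem dF_add (hu : SmAt X (vs ℝ) u x) (hv : SmAt X (vs ℝ) v x) :
    dF X (fun y => u y + v y) x = dF X u x + dF X v x := by
  rw [← dM_scalar (hu.add hv), ← dM_scalar hu, ← dM_scalar hv,
    ← dM_add (fmAt_scalar hu) (fmAt_scalar hv)]
  simp only [map_add]
theorem dF_sub (hu : SmAt X (vs ℝ) u x) (hv : SmAt X (vs ℝ) v x) :
    dF X (fun y => u y - v y) x = dF X u x - dF X v x := by
  rw [← dM_scalar (hu.sub hv), ← dM_scalar hu, ← dM_scalar hv,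
    ← dM_sub (fmAt_scalar hu) (fmAt_scalar hv)]
  simp only [map_sub]
theorem dF_mul_dF (u : X → ℝ) (a : Lam E) : dF X u x * (dF X u x * a) = 0 := ι_ι_mul _ _
theorem inv_dF (u : X → ℝ) : inv (dF X u x) = -dF X u x := inv_ι _
end Fun

/-! ### Forms on sets -/

variable {k l : ℕ}

theorem Fm.mono (h : Fm X k α U) (hV : V ⊆ U) : Fm X k α V := fun x hx => h x (hV hx)
theorem Cl.mono (h : Cl X k α U) (hV : V ⊆ U) : Cl X k α V :=
  ⟨h.1.mono hV, fun x hx => h.2 x (hV hx)⟩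
theorem Fm.congr (h : Fm X k α U) (hU : IsOpen U) (e : EqOn β α U) : Fm X k β U := fun x hx =>
  ⟨(h x hx).1.congr' (e.eventuallyEq_of_mem (hU.mem_nhds hx)), e hx ▸ (h x hx).2⟩
theorem Cl.congr (h : Cl X k α U) (hU : IsOpen U) (e : EqOn β α U) : Cl X k β U :=
  ⟨h.1.congr hU e, fun x hx =>
    (dM_congr (e.eventuallyEq_of_mem (hU.mem_nhds hx))).trans (h.2 x hx)⟩
theorem fm_zero : Fm X k (fun _ => 0) U := fun _ _ => ⟨fmAt_zero, zero_mem _⟩
theorem cl_zero : Cl X k (fun _ => 0) U := ⟨fm_zero, fun _ _ => dM_zero⟩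
theorem Fm.add (h : Fm X k α U) (h' : Fm X k β U) : Fm X k (fun y => α y + β y) U := fun x hx =>
  ⟨(h x hx).1.add (h' x hx).1, add_mem (h x hx).2 (h' x hx).2⟩
theorem Fm.sub (h : Fm X k α U) (h' : Fm X k β U) : Fm X k (fun y => α y - β y) U := fun x hx =>
  ⟨(h x hx).1.sub (h' x hx).1, sub_mem (h x hx).2 (h' x hx).2⟩
theorem Fm.neg (h : Fm X k α U) : Fm X k (fun y => -α y) U := fun x hx =>
  ⟨(h x hx).1.neg, neg_mem (h x hx).2⟩
theorem Fm.fsmul {u : X → ℝ} (h : Fm X k α U) (hu : Sm X (vs ℝ) u U) :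
    Fm X k (fun y => u y • α y) U := fun x hx =>
  ⟨(h x hx).1.fsmul (hu x hx), Submodule.smul_mem _ _ (h x hx).2⟩
theorem Fm.smul (h : Fm X k α U) (c : ℝ) : Fm X k (fun y => c • α y) U :=
  h.fsmul fun _ _ => smAt_const (Y := vs ℝ) c
theorem Fm.mul (h : Fm X k α U) (h' : Fm X l β U) : Fm X (k + l) (fun y => α y * β y) U :=
  fun x hx => ⟨(h x hx).1.mul (h' x hx).1, dg_mul (h x hx).2 (h' x hx).2⟩
theorem Fm.dM (h : Fm X k α U) (hU : IsOpen U) : Cl X (k + 1) (dM X α) U :=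
  ⟨fun x hx => ⟨(h x hx).1.dM, dg_dM (h x hx).1
    (mem_of_superset (hU.mem_nhds hx) fun y hy => (h y hy).2)⟩, fun x hx => dM_dM (h x hx).1⟩
theorem Fm.pb {α : Y → Lam E'} {W : Set Y} (h : Fm Y k α W) (hf : Sm X Y f U) (m : MapsTo f U W) :
    Fm X k (pbM X Y f α) U := fun x hx =>
  ⟨(h _ (m hx)).1.pb (hf x hx), pbM_dg (h _ (m hx)).2⟩
theorem Cl.pb {α : Y → Lam E'} {W : Set Y} (h : Cl Y k α W) (hf : Sm X Y f U) (m : MapsTo f U W) :
    Cl X k (pbM X Y f α) U := ⟨h.1.pb hf m, fun x hx => by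
  rw [dM_pb (hf x hx) (h.1 _ (m hx)).1, pbM_zero (h.2 _ (m hx))]⟩
theorem Cl.add (h : Cl X k α U) (h' : Cl X k β U) : Cl X k (fun y => α y + β y) U :=
  ⟨h.1.add h'.1, fun x hx => by
    rw [dM_add (h.1 x hx).1 (h'.1 x hx).1, h.2 x hx, h'.2 x hx, add_zero]⟩
theorem Cl.sub (h : Cl X k α U) (h' : Cl X k β U) : Cl X k (fun y => α y - β y) U :=
  ⟨h.1.sub h'.1, fun x hx => by
    rw [dM_sub (h.1 x hx).1 (h'.1 x hx).1, h.2 x hx, h'.2 x hx, sub_zero]⟩
theorem Cl.mul (h : Cl X k α U) (h' : Cl X l β U) : Cl X (k + l) (fun y => α y * β y) U :=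
  ⟨h.1.mul h'.1, fun x hx => by
    rw [dM_mul (h.1 x hx).1 (h'.1 x hx).1, h.2 x hx, h'.2 x hx, zero_mul, mul_zero, add_zero]⟩
theorem cl_dF {u : X → ℝ} (hu : Sm X (vs ℝ) u U) : Cl X 1 (dF X u) U :=
  ⟨fun x hx => ⟨fmAt_dF (hu x hx), dF_dg u x⟩, fun x hx => dM_dF (hu x hx)⟩
theorem fm_scalar {u : X → ℝ} (hu : Sm X (vs ℝ) u U) :
    Fm X 0 (fun y => algebraMap ℝ _ (u y)) U := fun x hx =>
  ⟨fmAt_scalar (hu x hx), dg_algebraMap _⟩

/-- extension by zero -/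
theorem fmAt_of_closed {S : Set X} (hS : IsClosed S) (h : ∀ x ∈ S, FmAt X α x)
    (h0 : ∀ x ∉ S, α x = 0) (x : X) : FmAt X α x := by
  by_cases hx : x ∈ S
  · exact h x hx
  · exact fmAt_of_ev (mem_of_superset (hS.isOpen_compl.mem_nhds hx) h0)

theorem Ori.mono {N : ℕ} {o : X → Lam E} (h : Ori X N o U) (hV : V ⊆ U) : Ori X N o V :=
  ⟨h.dim, h.fm.mono hV, fun x hx => h.ne x (hV hx)⟩

theorem Ori.neg {N : ℕ} {o : X → Lam E} (h : Ori X N o U) : Ori X N (fun x => -o x) U :=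
  ⟨h.dim, h.fm.neg, fun x hx => neg_ne_zero.2 (h.ne x hx)⟩

theorem LDAt.finrank_eq (h : LDAt X Y f x) : finrank ℝ E = finrank ℝ E' := by
  obtain ⟨L, -⟩ := h.inv
  exact L.toLinearEquiv.finrank_eq

theorem Ori.pb {N : ℕ} {o : Y → Lam E'} {W : Set Y} (h : Ori Y N o W) (hd : finrank ℝ E = N)
    (hf : ∀ x ∈ U, LDAt X Y f x) (m : MapsTo f U W) : Ori X N (pbM X Y f o) U :=
  ⟨hd, h.fm.pb (fun x hx => (hf x hx).sm) m, fun x hx => (hf x hx).pbM_ne (h.ne _ (m hx))⟩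

/-! ### Compact supports -/

/-- smooth form (of mixed degree) with compact support inside `U` -/
structure OcM (X : Mf E) (U : Set X) (α : X → Lam E) : Prop where
  sm : ∀ x, FmAt X α x
  cpt : HasCompactSupport α
  sub : tsupport α ⊆ U

theorem OcM.of_compact {S : Set X} (hS : IsCompact S) (hSU : S ⊆ U) (h : ∀ x ∈ S, FmAt X α x)
    (h0 : ∀ x ∉ S, α x = 0) : OcM X U α :=
  have : tsupport α ⊆ S := closure_minimal (fun x hx => by_contra fun h => hx (h0 x h)) hS.isClosed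
  ⟨fmAt_of_closed hS.isClosed h h0, hS.of_isClosed_subset (isClosed_tsupport _) this,
    this.trans hSU⟩
theorem OcM.mono (h : OcM X U α) (hU : U ⊆ V) : OcM X V α := ⟨h.sm, h.cpt, h.sub.trans hU⟩
theorem OcM.zero_of (h : OcM X U α) (hx : x ∉ U) : α x = 0 :=
  image_eq_zero_of_notMem_tsupport fun h' => hx (h.sub h')
theorem OcM.ev_zero (hx : x ∉ tsupport α) : ∀ᶠ y in 𝓝 x, α y = 0 :=
  notMem_tsupport_iff_eventuallyEq.1 hx
theorem OcM.zero : OcM X U fun _ => 0 :=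
  .of_compact isCompact_empty (empty_subset _) (fun _ _ => fmAt_zero) fun _ _ => rfl
theorem OcM.dM (h : OcM X U α) : OcM X U (dM X α) :=
  .of_compact h.cpt h.sub (fun x _ => (h.sm x).dM) fun _ hx => dM_of_ev (OcM.ev_zero hx)
theorem OcM.add (h : OcM X U α) (h' : OcM X U β) : OcM X U fun y => α y + β y :=
  .of_compact (IsCompact.union h.cpt h'.cpt) (union_subset h.sub h'.sub)
    (fun x _ => (h.sm x).add (h'.sm x)) fun x hx => by
      rw [image_eq_zero_of_notMem_tsupport fun h => hx (Or.inl h),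
        image_eq_zero_of_notMem_tsupport fun h => hx (Or.inr h), add_zero]
/-- any smooth form that vanishes off the support of `α` -/
theorem OcM.of_zero (h : OcM X U α) (h' : ∀ x ∈ U, FmAt X β x) (h0 : ∀ x, α x = 0 → β x = 0) :
    OcM X U β := .of_compact h.cpt h.sub (fun x hx => h' x (h.sub hx))
  fun x hx => h0 x (image_eq_zero_of_notMem_tsupport hx)
theorem OcM.neg (h : OcM X U α) : OcM X U fun y => -α y :=
  h.of_zero (fun x _ => (h.sm x).neg) fun x e => by rw [e, neg_zero]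
theorem OcM.sub' (h : OcM X U α) (h' : OcM X U β) : OcM X U fun y => α y - β y := by
  simpa only [sub_eq_add_neg] using h.add h'.neg
theorem OcM.smul (h : OcM X U α) (c : ℝ) : OcM X U fun y => c • α y :=
  h.of_zero (fun x _ => (h.sm x).smul c) fun x e => by rw [e, smul_zero]
theorem OcM.fsmul {u : X → ℝ} (h : OcM X U α) (hu : Sm X (vs ℝ) u U) :
    OcM X U fun y => u y • α y :=
  h.of_zero (fun x hx => (h.sm x).fsmul (hu x hx)) fun x e => by rw [e, smul_zero]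
theorem OcM.inv (h : OcM X U α) : OcM X U fun y => inv (α y) :=
  h.of_zero (fun x _ => (h.sm x).inv) fun x e => by rw [e, map_zero]
theorem OcM.prj (h : OcM X U α) (n : ℕ) : OcM X U fun y => prj n (α y) :=
  h.of_zero (fun x _ => (h.sm x).prj n) fun x e => by rw [e, map_zero]
theorem OcM.mul_right (h : OcM X U α) (h' : ∀ x ∈ U, FmAt X β x) : OcM X U fun y => α y * β y :=
  h.of_zero (fun x hx => (h.sm x).mul (h' x hx)) fun x e => by rw [e, zero_mul]
theorem OcM.mul_left (h : OcM X U α) (h' : ∀ x ∈ U, FmAt X β x) : OcM X U fun y => β y * α y :=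
  h.of_zero (fun x hx => (h' x hx).mul (h.sm x)) fun x e => by rw [e, mul_zero]
theorem ocM_sum {I : Type} {s : Finset I} {γ : I → X → Lam E} (h : ∀ i ∈ s, OcM X U (γ i)) :
    OcM X U fun y => ∑ i ∈ s, γ i y := by
  classical
  induction s using Finset.induction_on with
  | empty => simpa using OcM.zero
  | insert a s ha ih =>
    simp only [Finset.sum_insert ha]
    exact (h a (Finset.mem_insert_self _ _)).add (ih fun i hi => h i (Finset.mem_insert_of_mem hi))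
theorem ocM_vs {U : Set E} {α : E → Lam E} : OcM (vs E) U α ↔ Oc U α :=
  ⟨fun h => ⟨contDiff_iff_contDiffAt.2 fun x => fmAt_vs.1 (h.sm x), h.cpt, h.sub⟩,
    fun h => ⟨fun _ => fmAt_vs.2 h.sm.contDiffAt, h.cpt, h.sub⟩⟩

/-! ### Push-forward by an open embedding -/

/-- push-forward by an open embedding, extended by zero -/
def psh (X : Mf E) (Y : Mf E') (f : X → Y) (U : Set X) (α : X → Lam E) : Y → Lam E' :=
  (f '' U).indicator (pbM Y X (invFunOn f U) α)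

theorem psh_of_notMem {y : Y} (hy : y ∉ f '' U) : psh X Y f U α y = 0 := indicator_of_notMem hy _

theorem OE.psh_ev (h : OE X Y f U) {y : Y} (hy : y ∈ f '' U) :
    psh X Y f U α =ᶠ[𝓝 y] pbM Y X (invFunOn f U) α :=
  mem_of_superset (h.symm.op.mem_nhds hy) fun _ hz => indicator_of_mem hz _

theorem OE.pbM_psh (h : OE X Y f U) (hx : x ∈ U) : pbM X Y f (psh X Y f U α) x = α x := by
  rw [pbM_congr_right (h.psh_ev (mem_image_of_mem f hx)).eq_of_nhds]
  exact pbM_inv (h.sm x hx) (h.symm.sm _ (mem_image_of_mem f hx))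
    (mem_of_superset (h.op.mem_nhds hx) fun _ hz => h.left hz) α

theorem OE.psh_pbM (h : OE X Y f U) {β : Y → Lam E'} {y : Y} (hy : y ∈ f '' U) :
    psh X Y f U (pbM X Y f β) y = β y := by
  obtain ⟨x, hx, rfl⟩ := hy
  exact mp_injective (h.ld x hx).inv (h.pbM_psh hx)

theorem OE.psh_zero (h : OE X Y f U) (hx : x ∈ U) (h0 : α x = 0) : psh X Y f U α (f x) = 0 := by
  rw [(h.psh_ev (mem_image_of_mem f hx)).eq_of_nhds]
  exact pbM_zero (by rwa [h.left hx])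

theorem OE.fmAt_psh (h : OE X Y f U) (hx : x ∈ U) (hα : FmAt X α x) :
    FmAt Y (psh X Y f U α) (f x) :=
  (FmAt.pb (by rwa [h.left hx]) (h.symm.sm _ (mem_image_of_mem f hx))).congr'
    (h.psh_ev (mem_image_of_mem f hx))

theorem OE.dM_psh (h : OE X Y f U) (hx : x ∈ U) (hα : FmAt X α x) :
    dM Y (psh X Y f U α) (f x) = psh X Y f U (dM X α) (f x) := by
  rw [dM_congr (h.psh_ev (mem_image_of_mem f hx)),
    dM_pb (h.symm.sm _ (mem_image_of_mem f hx)) (by rwa [h.left hx]),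
    (h.psh_ev (mem_image_of_mem f hx)).eq_of_nhds]

theorem OE.fm_psh (h : OE X Y f U) (hV : V ⊆ U) (hα : Fm X k α V) :
    Fm Y k (psh X Y f U α) (f '' V) := by
  rintro _ ⟨x, hx, rfl⟩
  refine ⟨h.fmAt_psh (hV hx) (hα x hx).1, ?_⟩
  rw [(h.psh_ev (mem_image_of_mem f (hV hx))).eq_of_nhds]
  exact pbM_dg (by rw [h.left (hV hx)]; exact (hα x hx).2)

theorem OE.ocM_psh (h : OE X Y f U) (hV : V ⊆ U) (hα : OcM X V α) :
    OcM Y (f '' V) (psh X Y f U α) := by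
  refine .of_compact (hα.cpt.isCompact.image_of_continuousOn
    (h.sm.contOn.mono (hα.sub.trans hV))) (image_mono hα.sub) ?_ fun y hy => ?_
  · rintro _ ⟨x, hx, rfl⟩
    exact h.fmAt_psh (hV (hα.sub hx)) (hα.sm x)
  · by_cases h1 : y ∈ f '' U
    · obtain ⟨x, hx, rfl⟩ := h1
      exact h.psh_zero hx (image_eq_zero_of_notMem_tsupport fun h2 => hy ⟨x, h2, rfl⟩)
    · exact psh_of_notMem h1

/-- vanishing of de Rham groups is invariant under diffeomorphisms -/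
theorem OE.hz_image (h : OE X Y f U) (hz : HZ X k U) : HZ Y k (f '' U) := fun α hα => by
  obtain ⟨β, h1, h2⟩ := hz _ (hα.pb h.sm (mapsTo_image f U))
  refine ⟨_, h.fm_psh subset_rfl h1, ?_⟩
  rintro _ ⟨x, hx, rfl⟩
  rw [h.dM_psh hx (h1 x hx).1, ← h.psh_pbM (β := α) (mem_image_of_mem f hx),
    (h.psh_ev (mem_image_of_mem f hx)).eq_of_nhds, (h.psh_ev (mem_image_of_mem f hx)).eq_of_nhds]
  exact pbM_congr_right (by rw [h.left hx]; exact h2 x hx)

theorem OE.hz_of_image (h : OE X Y f U) (hz : HZ Y k (f '' U)) : HZ X k U := by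
  have := h.symm.hz_image hz
  rwa [h.inj.invFunOn_image subset_rfl] at this

end Pool.Agent.MP_e1dc65_gt

end
end MrgPart0

-- ======== part 1: formerly Pool.Agent.MP_e1dc65_gt.fm.Spec
section MrgPart1

/-! PROJECT HC: statements of the toolkit for forms, connections and spin structures. -/

open scoped ContDiff Manifold Topology
open Set Filter Function Module MeasureTheory Pool.Agent.MP_c8d41b_gt.GF

noncomputable section

namespace Pool.Agent.MP_e1dc65_gt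

section Defs
variable {E E' : Type} [NormedAddCommGroup E] [NormedSpace ℝ E] [FiniteDimensional ℝ E]
  [NormedAddCommGroup E'] [NormedSpace ℝ E'] [FiniteDimensional ℝ E']

/-- finite partition of unity near a compact set -/
theorem pouK (X : Mf E) {K : Set X} (hK : IsCompact K) {O : X → Set X} (hO : ∀ x ∈ K, O x ∈ 𝓝 x) :
    ∃ (s : Finset X) (ρ : X → X → ℝ), (∀ i ∈ s, i ∈ K ∧ Sm X (vs ℝ) (ρ i) univ ∧
      IsCompact (tsupport (ρ i)) ∧ tsupport (ρ i) ⊆ O i ∧ ∀ x, 0 ≤ ρ i x) ∧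
      ∀ x ∈ K, ∑ i ∈ s, ρ i x = 1 := by
  classical
  have h : ∀ x, ∃ C, x ∈ K → C ∈ 𝓝 x ∧ C ⊆ O x ∧ IsCompact C := fun x => by
    by_cases hx : x ∈ K
    · exact (local_compact_nhds (hO x hx)).imp fun _ h _ => h
    · exact ⟨∅, fun h => (hx h).elim⟩
  choose C hC using h
  obtain ⟨s, hs, hc⟩ := hK.elim_nhds_subcover (fun x => interior (C x)) fun x hx =>
    interior_mem_nhds.2 (hC x hx).1
  have hS : IsOpen (⋃ x ∈ s, interior (C x)) := isOpen_biUnion fun _ _ => isOpen_interior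
  obtain ⟨ρ, r1, r2, r3, -, r5⟩ := (bumpM E X).2 s (fun i => interior (C i)) _ hS
    (fun _ => isOpen_interior) fun x hx => by simpa using hx
  obtain ⟨χ, c1, c2, c3, c4, -⟩ := (bumpM E X).1 K _ hK.isClosed hS hc
  refine ⟨s, fun i x => if h : i ∈ s then χ x • ρ ⟨i, h⟩ x else 0, fun i hi => ?_, fun x hx => ?_⟩
  · simp only [dif_pos hi]
    have h1 : tsupport (fun x => χ x • ρ ⟨i, hi⟩ x) ⊆ C i :=
      closure_minimal (fun x hx => by_contra fun h2 => hx (by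
        by_cases h3 : χ x = 0
        · simp [h3]
        · simp [(r3 ⟨i, hi⟩ x (c4 (subset_closure h3))
            fun h => h2 (interior_subset h)).eq_of_nhds])) (hC i (hs i hi)).2.2.isClosed
    exact ⟨hs i hi, fun x _ => smAt_cut (c1 x trivial) fun h => r1 _ x (c4 h),
      (hC i (hs i hi)).2.2.of_isClosed_subset (isClosed_tsupport _) h1,
      h1.trans (hC i (hs i hi)).2.1, fun x => mul_nonneg (c2 x).1 (r2 _ x)⟩
  · rw [← r5 x (hc hx), finsum_eq_sum_of_fintype, ← Finset.sum_coe_sort s]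
    exact Finset.sum_congr rfl fun i _ => by simp [c3.self_of_nhdsSet x hx]

/-- properties of the integral -/
structure IntP (X : Mf E) (N : ℕ) (o : X → Lam E) : Prop where
  add : ∀ α β, OcM X univ α → OcM X univ β →
    intM X o (fun x => α x + β x) = intM X o α + intM X o β
  smul : ∀ (c : ℝ) α, intM X o (fun x => c • α x) = c * intM X o α
  chart : ∀ (b : Basis (Fin N) ℝ E) (φ : E → X) (W : Set E) α, OE (vs E) X φ W →
    (∀ y ∈ W, 0 < ev (List.ofFn b) (pbM (vs E) X φ o y)) → OcM X (φ '' W) α →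
    intM X o α = itg b (W.indicator (pbM (vs E) X φ α))
  stokes : ∀ α, OcM X univ α → intM X o (dM X α) = 0

/-- Poincare duality on `U`: the cone of `Ω(U) → Ω_c(U)^*` is acyclic -/
def ConeM (X : Mf E) (o : X → Lam E) (U : Set X) : Prop :=
  ∀ (φ : (X → Lam E) →ₗ[ℝ] ℝ) (A : X → Lam E), (∀ x ∈ U, FmAt X A x) → (∀ x ∈ U, dM X A x = 0) →
    (∀ α, OcM X U α → -φ (dM X fun x => inv (α x)) = intM X o fun x => α x * A x) →
    ∃ (φ' : (X → Lam E) →ₗ[ℝ] ℝ) (A' : X → Lam E), (∀ x ∈ U, FmAt X A' x) ∧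
      (∀ x ∈ U, dM X A' x = A x) ∧
      ∀ α, OcM X U α → φ α = -φ' (dM X fun x => inv (α x)) + intM X o fun x => α x * A' x

/-- push-forward of a compactly supported form by a local diffeomorphism -/
def pushF (Y : Mf E') (V : Mf E) (p : Y → V) (θ : Y → Lam E') (w : V) : Lam E :=
  ∑ᶠ y ∈ p ⁻¹' {w}, mp (Df Y V p y).inverse (θ y)

/-- matrices of forms -/
abbrev MF (E : Type) [NormedAddCommGroup E] [NormedSpace ℝ E] : Type :=
  Matrix (Fin 5) (Fin 5) (Lam E)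

/-- the gauge law at a point -/
def Gau (X : Mf E) (Θ : X → E →L[ℝ] Rn 5) (A : X → MF E) (Θ' : X → E →L[ℝ] Rn 5) (A' : X → MF E)
    (x : X) : Prop :=
  dMat X (fun y => mF (tm (Θ y) (Θ' y))) x + A x * mF (tm (Θ x) (Θ' x)) =
    mF (tm (Θ x) (Θ' x)) * A' x

/-- the connection has the matrix `A` in the coframe `Θ` on `W` -/
structure Con.Mat {X : Mf E} {U : Set X} (c : Con X U) (W : Set X) (Θ : X → E →L[ℝ] Rn 5)
    (A : X → MF E) : Prop where
  op : IsOpen W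
  sub : W ⊆ U
  cof : Cof X ∞ Θ W
  fm : ∀ a b, Fm X 1 (fun x => A x a b) W
  gau : ∀ j, ∀ x ∈ W ∩ c.W j, Gau X Θ A (c.Θ j) (c.A j) x

/-- `tr F²` of a matrix of one-forms -/
def trF (X : Mf E) (A : X → MF E) (x : X) : Lam E := (curv X A x * curv X A x).trace

/-- `sp'` contains all charts of `sp` with their transition functions -/
structure Spin.Ext {C : SpinCover} {X : Mf E} {U U' : Set X} (sp : Spin C X U) (sp' : Spin C X U')
    (a : sp.ι → sp'.ι) : Prop where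
  W : ∀ i, sp'.W (a i) = sp.W i
  Θ : ∀ i, sp'.Θ (a i) = sp.Θ i
  g : ∀ i j, sp'.g (a i) (a j) = sp.g i j

/-- all charts are positive for `o` -/
def Spin.Pos {C : SpinCover} {X : Mf E} {U : Set X} (sp : Spin C X U) (o : X → Lam E) : Prop :=
  ∀ i, ∀ x ∈ sp.W i, PosB (Pi.basisFun ℝ (Fin 5)) (o x) (sp.Θ i x)

/-- product neighbourhood of the compact regular level `u = c` -/
structure Lev (V : Mf E) (u : V → ℝ) (c δ : ℝ) (X : Mf E') (ν : X.cyl → V) : Prop where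
  pos : 0 < δ
  cpt : CompactSpace X
  oe : OE X.cyl V ν (univ ×ˢ Ioo (-δ) δ)
  val : ∀ z, ∀ t ∈ Ioo (-δ) δ, u (ν (z, t)) = c + t
  img : ν '' (univ ×ˢ Ioo (-δ) δ) = u ⁻¹' Ioo (c - δ) (c + δ)

/-- a smooth step from `0` to `1` inside `[a, b]` -/
structure Step (χ : ℝ → ℝ) (a b : ℝ) : Prop where
  sm : ContDiff ℝ ∞ χ
  zero : ∀ t ≤ a, χ t = 0
  one : ∀ t, b ≤ t → χ t = 1

end Defs

/-! ### Integration -/

/-- row VOL: the measure of an orientation form -/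
def VolStmt : Prop :=
  ∀ (E : Type) [NormedAddCommGroup E] [NormedSpace ℝ E] [FiniteDimensional ℝ E] (X : Mf E) (N : ℕ)
    (o : X → Lam E), Ori X N o univ →
    letI : MeasurableSpace X := borel X
    IsVol X o (vol X o) ∧ (∀ μ, IsVol X o μ → μ = vol X o) ∧
      IsFiniteMeasureOnCompacts (vol X o) ∧ (vol X o).IsOpenPosMeasure ∧
      ∀ α x, FmAt X α x → SmAt X (vs ℝ) (fun y => cf (o y) (α y)) x

/-- row INT, part 1 -/
def IntMStmt : Prop :=
  ∀ (E : Type) [NormedAddCommGroup E] [NormedSpace ℝ E] [FiniteDimensional ℝ E] (X : Mf E) (N : ℕ)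
    (o : X → Lam E), Ori X N o univ → IntP X N o

/-- row INT, part 2: invariance under orientation preserving open embeddings -/
def IntOEStmt : Prop :=
  ∀ (E E' : Type) [NormedAddCommGroup E] [NormedSpace ℝ E] [FiniteDimensional ℝ E]
    [NormedAddCommGroup E'] [NormedSpace ℝ E'] [FiniteDimensional ℝ E'] (X : Mf E) (Y : Mf E')
    (N : ℕ) (o : X → Lam E) (o' : Y → Lam E') (f : X → Y) (U : Set X) (β : X → Lam E),
    Ori X N o univ → Ori Y N o' univ → OE X Y f U →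
    (∀ x ∈ U, 0 < cf (o x) (pbM X Y f o' x)) → OcM X U β →
    intM Y o' (psh X Y f U β) = intM X o β

/-- row PUSH: local sections over a compact set, and unfolding -/
def PushStmt : Prop :=
  ∀ (E E' : Type) [NormedAddCommGroup E] [NormedSpace ℝ E] [FiniteDimensional ℝ E]
    [NormedAddCommGroup E'] [NormedSpace ℝ E'] [FiniteDimensional ℝ E'] (Y : Mf E') (V : Mf E)
    (p : Y → V), (∀ y, LDAt Y V p y) →
    (∀ (K : Set Y) (w : V), IsCompact K → ∃ (O : Set V) (s : Finset Y) (σ : Y → V → Y),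
      IsOpen O ∧ w ∈ O ∧ (∀ i ∈ s, Sm V Y (σ i) O ∧ ∀ x ∈ O, p (σ i x) = x) ∧
      (∀ i ∈ s, ∀ j ∈ s, ∀ x ∈ O, σ i x = σ j x → i = j) ∧
      (∀ y ∈ K, p y ∈ O → ∃ i ∈ s, σ i (p y) = y) ∧
      ∀ θ : Y → Lam E', (∀ y ∉ K, θ y = 0) →
        ∀ x ∈ O, pushF Y V p θ x = ∑ i ∈ s, pbM V Y (σ i) θ x) ∧
    ∀ (N : ℕ) (o Ω : V → Lam E) (θ : Y → Lam E'), Ori V N o univ → OcM Y univ θ →
      (∀ w, FmAt V Ω w) → OcM V univ (pushF Y V p θ) ∧
        (intM V o fun w => pushF Y V p θ w * Ω w) =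
          intM Y (pbM Y V p o) fun y => θ y * pbM Y V p Ω y

/-! ### De Rham groups -/

/-- row HOM: the homotopy formula on a cylinder -/
def HomStmt : Prop :=
  ∀ (E : Type) [NormedAddCommGroup E] [NormedSpace ℝ E] [FiniteDimensional ℝ E] (X : Mf E) (k : ℕ)
    (Ω : X.cyl → Lam (E × ℝ)) (U : Set X) (O : Set X.cyl) (a b : ℝ), IsOpen U → IsOpen O →
    U ×ˢ uIcc a b ⊆ O → Cl X.cyl (k + 1) Ω O → ∃ β, Fm X k β U ∧ ∀ x ∈ U, dM X β x =
      pbM X X.cyl (fun x => (x, b)) Ω x - pbM X X.cyl (fun x => (x, a)) Ω x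

/-- row HZA: homotopy invariance -/
def HzaStmt : Prop :=
  ∀ (E : Type) [NormedAddCommGroup E] [NormedSpace ℝ E] [FiniteDimensional ℝ E] (k : ℕ),
    (∀ (X : Mf E) (U V : Set X) (O : Set X.cyl) (H : X.cyl → X), IsOpen U → IsOpen V → V ⊆ U →
      IsOpen O → U ×ˢ Icc 0 1 ⊆ O → Sm X.cyl X H O → MapsTo H O U → (∀ x ∈ U, H (x, 0) = x) →
      (∀ x ∈ U, H (x, 1) ∈ V) → HZ X k V → HZ X k U) ∧
    (∀ (X : Mf E) (U : Set X) (J : Set ℝ), IsOpen U → IsOpen J → OrdConnected J →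
      HZ X k U → HZ X.cyl k (U ×ˢ J)) ∧
    (∀ (X : Mf E) (U : Set X) (J : Set ℝ), IsOpen U → IsOpen J → J.Nonempty →
      HZ X.cyl k (U ×ˢ J) → HZ X k U) ∧
    ∀ (S : Set E) (x : E), IsOpen S → StarConvex ℝ x S → HZ (vs E) k S

/-- row HZB: unions -/
def HzbStmt : Prop :=
  ∀ (E : Type) [NormedAddCommGroup E] [NormedSpace ℝ E] [FiniteDimensional ℝ E] (X : Mf E),
    (∀ (k : ℕ) (U V : Set X), IsOpen U → IsOpen V → HZ X (k + 1) U → HZ X (k + 1) V →
      HZ X k (U ∩ V) → HZ X (k + 1) (U ∪ V)) ∧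
    (∀ U V : Set X, IsOpen U → IsOpen V → HZ X 0 U → HZ X 0 V → IsPreconnected (U ∩ V) →
      HZ X 0 (U ∪ V)) ∧
    (∀ (k : ℕ) (ι : Type) (U : ι → Set X), (∀ i, IsOpen (U i)) →
      Pairwise (fun i j => Disjoint (U i) (U j)) → (∀ i, HZ X k (U i)) → HZ X k (⋃ i, U i)) ∧
    ∀ U : Set X, IsOpen U → Perf U → HZ X 0 U

/-- row NEAR: closed forms are exact near a compact set that deforms into an acyclic set -/
def NearStmt : Prop :=
  ∀ (E : Type) [NormedAddCommGroup E] [NormedSpace ℝ E] [FiniteDimensional ℝ E] (X : Mf E) (k : ℕ)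
    (W O K : Set X) (H : X × ℝ → X) (A : X → Lam E), IsOpen W → IsOpen O → O ⊆ W → IsCompact K →
    K ⊆ W → ContinuousOn H (W ×ˢ Icc 0 1) → MapsTo H (W ×ˢ Icc 0 1) W → (∀ x ∈ W, H (x, 0) = x) →
    (∀ x ∈ K, H (x, 1) ∈ O) → HZ X k O → Cl X (k + 1) A W →
    ∃ (O' : Set X) (B : X → Lam E), IsOpen O' ∧ K ⊆ O' ∧ O' ⊆ W ∧ Fm X k B O' ∧
      ∀ x ∈ O', dM X B x = A x

/-! ### Poincare duality -/

/-- row PD1: Mayer-Vietoris step -/
def ConeMVStmt : Prop :=
  ∀ (E : Type) [NormedAddCommGroup E] [NormedSpace ℝ E] [FiniteDimensional ℝ E] (X : Mf E) (N : ℕ)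
    (o : X → Lam E) (U V : Set X), Ori X N o univ → IsOpen U → IsOpen V → ConeM X o U →
    ConeM X o V → ConeM X o (U ∩ V) → ConeM X o (U ∪ V)

/-- row PD2: boxes in charts, disjoint unions -/
def ConeBoxStmt : Prop :=
  ∀ (E : Type) [NormedAddCommGroup E] [NormedSpace ℝ E] [FiniteDimensional ℝ E] (X : Mf E) (N : ℕ)
    (o : X → Lam E), Ori X N o univ →
    (∀ (b : Basis (Fin N) ℝ E) (φ : E → X) (B : Set E), Pool.Agent.MP_c8d41b_gt.GF.Box b B →
      OE (vs E) X φ B → ConeM X o (φ '' B)) ∧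
    ∀ (ι : Type) (U : ι → Set X), (∀ i, IsOpen (U i)) →
      Pairwise (fun i j => Disjoint (U i) (U j)) → (∀ i, ConeM X o (U i)) → ConeM X o (⋃ i, U i)

/-- row GHV: induction over open sets -/
def GhvStmt : Prop :=
  ∀ (X : Type) [TopologicalSpace X] [T2Space X] [SecondCountableTopology X]
    [LocallyCompactSpace X] (P : Set X → Prop) (B : Set (Set X)), (∀ U ∈ B, IsOpen U ∧ P U) →
    (∀ U ∈ B, ∀ V ∈ B, U ∩ V ∈ B) →
    (∀ U V, IsOpen U → IsOpen V → P U → P V → P (U ∩ V) → P (U ∪ V)) →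
    (∀ (ι : Type) (U : ι → Set X), (∀ i, IsOpen (U i)) →
      Pairwise (fun i j => Disjoint (U i) (U j)) → (∀ i, P (U i)) → P (⋃ i, U i)) →
    ∀ U, IsOpen U → (∀ x ∈ U, ∀ O ∈ 𝓝 x, ∃ V ∈ B, x ∈ V ∧ V ⊆ O) → P U

/-- row PD3: duality -/
def PdStmt : Prop :=
  ∀ (E : Type) [NormedAddCommGroup E] [NormedSpace ℝ E] [FiniteDimensional ℝ E] (X : Mf E)
    (k l : ℕ) (o ζ : X → Lam E) (U : Set X), Ori X (k + 1 + l) o univ → IsOpen U → OcM X U ζ →
    Cl X (k + 1) ζ univ → (∀ A, Cl X l A U → (intM X o fun x => ζ x * A x) = 0) →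
    ∃ γ, OcM X U γ ∧ Fm X k γ univ ∧ ∀ x, dM X γ x = ζ x

/-! ### Orientations and levels -/

/-- row ORI -/
def OriCalcStmt : Prop :=
  ∀ (E : Type) [NormedAddCommGroup E] [NormedSpace ℝ E] [FiniteDimensional ℝ E] (X : Mf E) (N : ℕ),
    (∀ o U, Ori X N o U → Ori X.cyl (N + 1) (fun p => oc (o p.1)) (U ×ˢ univ)) ∧
    (∀ (o : X.cyl → Lam (E × ℝ)) (O : Set X.cyl) (U : Set X), Ori X.cyl (N + 1) o O →
      (∀ x ∈ U, (x, 0) ∈ O) → ∃ o', Ori X N o' U ∧ ∀ x ∈ U, 0 < cf (oc (o' x)) (o (x, 0))) ∧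
    (∀ o o' U, Ori X N o U → Ori X N o' U → IsPreconnected U →
      (∀ x ∈ U, 0 < cf (o x) (o' x)) ∨ ∀ x ∈ U, 0 < cf (o x) (-o' x)) ∧
    (∀ (ι : Type) (U : ι → Set X) (o : ι → X → Lam E), finrank ℝ E = N → (∀ i, IsOpen (U i)) →
      (∀ i, Ori X N (o i) (U i)) → (∀ i j, ∀ x ∈ U i ∩ U j, 0 < cf (o i x) (o j x)) →
      ∃ o', Ori X N o' (⋃ i, U i) ∧ ∀ i, ∀ x ∈ U i, 0 < cf (o i x) (o' x)) ∧
    ∀ (o : X → Lam E) (S : Set X) (H : X × ℝ → X), IsOpen S → Ori X N o S → Continuous H →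
      (∀ x, H (x, 0) = x) → (∀ x, H (x, 1) ∈ S) → ∃ o', Ori X N o' univ

/-- row SARD: regular values of a smooth function are dense -/
def SardMStmt : Prop :=
  ∀ (E : Type) [NormedAddCommGroup E] [NormedSpace ℝ E] [FiniteDimensional ℝ E] (X : Mf E)
    (f : X → ℝ) (a b : ℝ), Sm X (vs ℝ) f univ → a < b →
    ∃ c ∈ Ioo a b, ∀ x, f x = c → Df X (vs ℝ) f x ≠ 0

/-- row LEV, part 1: a proper function has a regular level with a product neighbourhood -/
def LevStmt : Prop :=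
  ∀ (E E' : Type) [NormedAddCommGroup E] [NormedSpace ℝ E] [FiniteDimensional ℝ E]
    [NormedAddCommGroup E'] [NormedSpace ℝ E'] [FiniteDimensional ℝ E'] (V : Mf E) (u : V → ℝ)
    (a b : ℝ), finrank ℝ E' + 1 = finrank ℝ E → Sm V (vs ℝ) u univ → a < b →
    IsCompact (u ⁻¹' Icc a b) → (∀ c ∈ Ioo a b, ∃ x, u x = c) →
    ∃ (c δ : ℝ) (X : Mf E') (ν : X.cyl → V), a < c - δ ∧ c + δ < b ∧ Lev V u c δ X ν

/-- row LEV, part 2: the integral over a level -/
def LevIntStmt : Prop :=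
  ∀ (E E' : Type) [NormedAddCommGroup E] [NormedSpace ℝ E] [FiniteDimensional ℝ E]
    [NormedAddCommGroup E'] [NormedSpace ℝ E'] [FiniteDimensional ℝ E'] (V : Mf E) (u : V → ℝ)
    (c δ : ℝ) (X : Mf E') (ν : X.cyl → V) (o : V → Lam E) (o' : X → Lam E') (Ω : V → Lam E)
    (χ : ℝ → ℝ) (a b : ℝ), Sm V (vs ℝ) u univ → Lev V u c δ X ν → Ori V 5 o univ →
    Ori X 4 o' univ → (∀ x, 0 < cf (oc (o' x)) (pbM X.cyl V ν o (x, 0))) →
    Cl V 4 Ω (u ⁻¹' Ioo (c - δ) (c + δ)) → Step χ a b → c - δ < a → b < c + δ →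
    (intM V o fun y => dF V (fun y => χ (u y)) y * Ω y) =
      intM X o' (pbM X V (fun x => ν (x, 0)) Ω)

/-! ### Connections -/

/-- row CW1: matrices of one-forms and the gauge law (any dimension) -/
def Cw1Stmt : Prop :=
  ∀ (E : Type) [NormedAddCommGroup E] [NormedSpace ℝ E] [FiniteDimensional ℝ E] (X : Mf E)
    (W : Set X) (A : X → MF E), IsOpen W → (∀ a b, Fm X 1 (fun x => A x a b) W) →
    Cl X 4 (trF X A) W ∧
    (∀ (g : X → M5) (A' : X → MF E), (∀ a b, Sm X (vs ℝ) (fun x => g x a b) W) →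
      (∀ x ∈ W, (g x).det ≠ 0) → (∀ a b, Fm X 1 (fun x => A' x a b) W) →
      (∀ x ∈ W, dMat X (fun y => mF (g y)) x + A x * mF (g x) = mF (g x) * A' x) →
      ∀ x ∈ W, trF X A x = trF X A' x) ∧
    ∀ (E' : Type) [NormedAddCommGroup E'] [NormedSpace ℝ E'] [FiniteDimensional ℝ E'] (Y : Mf E')
      (f : Y → X) (y : Y), SmAt Y X f y → f y ∈ W →
      trF Y (fun y => Matrix.of fun a b => pbM Y X f (fun x => A x a b) y) y =
        pbM Y X f (trF X A) y

/-- row CW2: calculus of connections -/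
def Cw2Stmt : Prop :=
  ∀ (E : Type) [NormedAddCommGroup E] [NormedSpace ℝ E] [FiniteDimensional ℝ E] (X : Mf E),
    (∀ (W : Set X) Θ Θ' Θ'' (A A' A'' : X → MF E), IsOpen W → Cof X ∞ Θ W → Cof X ∞ Θ' W →
      Cof X ∞ Θ'' W → ∀ x ∈ W, Gau X Θ A Θ A x ∧ (Gau X Θ A Θ' A' x → Gau X Θ' A' Θ A x) ∧
        (Gau X Θ A Θ' A' x → Gau X Θ' A' Θ'' A'' x → Gau X Θ A Θ'' A'' x)) ∧
    (∀ (U W : Set X) (c : Con X U) Θ, IsOpen W → W ⊆ U → Cof X ∞ Θ W → ∃ A, c.Mat W Θ A) ∧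
    (∀ (U : Set X) (c : Con X U), ∃ Ω, c.Tr Ω ∧ Cl X 4 Ω U) ∧
    (∀ (U W : Set X) (c : Con X U) Θ A Ω, c.Mat W Θ A → c.Tr Ω → ∀ x ∈ W, Ω x = trF X A x) ∧
    ∀ (E' : Type) [NormedAddCommGroup E'] [NormedSpace ℝ E'] [FiniteDimensional ℝ E'] (Y : Mf E')
      (f : Y → X) (U : Set X) (V : Set Y) (c : Con X U), IsOpen V → (∀ y ∈ V, LDAt Y X f y) →
      MapsTo f V U → ∃ c' : Con Y V, (∀ Ω, c.Tr Ω → c'.Tr (pbM Y X f Ω)) ∧
        ∀ W Θ A, c.Mat W Θ A → c'.Mat (V ∩ f ⁻¹' W) (fun y => (Θ (f y)).comp (Df Y X f y))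
          fun y => Matrix.of fun a b => pbM Y X f (fun x => A x a b) y

/-- row CW3: extension and union of connections -/
def Cw3Stmt : Prop :=
  ∀ (E : Type) [NormedAddCommGroup E] [NormedSpace ℝ E] [FiniteDimensional ℝ E] (X : Mf E),
    (∀ (S W : Set X) Θ (A : X → MF E), finrank ℝ E = 5 → IsClosed S → IsOpen W → S ⊆ W →
      Cof X ∞ Θ W → (∀ a b, Fm X 1 (fun x => A x a b) W) →
      ∃ (c : Con X univ) (W' : Set X), S ⊆ W' ∧ W' ⊆ W ∧ c.Mat W' Θ A) ∧
    ∀ (U U' : Set X) (c : Con X U) (c' : Con X U') Θ A, c.Mat (U ∩ U') Θ A → c'.Mat (U ∩ U') Θ A →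
      ∃ c'' : Con X (U ∪ U'), ∀ Ω, c.Tr Ω → c'.Tr Ω → c''.Tr Ω

/-! ### Spin structures -/

/-- row SPA, part 1: lifting matrix-valued functions -/
def LiftGStmt : Prop :=
  ∀ (C : SpinCover) (X : Type) [TopologicalSpace X] [LocallyPathConnectedSpace X] (S : Set X)
    (A : X → M5), IsOpen S → Perf S → ContinuousOn A S → (∀ x ∈ S, 0 < (A x).det) →
    ∃ a : X → C.G, ContinuousOn a S ∧ ∀ x ∈ S, C.π (a x) = A x

/-- row SPA, part 2: calculus of `Perf` -/
def PerfStmt : Prop :=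
  (∀ (X : Type) [TopologicalSpace X] (S S' : Set X) (H : ℝ × X → X),
    ContinuousOn H (Icc 0 1 ×ˢ S) → MapsTo H (Icc 0 1 ×ˢ S) S → (∀ x ∈ S, H (0, x) = x) →
    (∀ x ∈ S, H (1, x) ∈ S') → S' ⊆ S → Perf S' → Perf S) ∧
  (∀ (X Y : Type) [TopologicalSpace X] [TopologicalSpace Y] (S : Set X) (f : X → Y) (g : Y → X),
    ContinuousOn f S → ContinuousOn g (f '' S) → (∀ x ∈ S, g (f x) = x) → Perf S →
    Perf (f '' S)) ∧
  (∀ (X : Type) [TopologicalSpace X] (S : Set X) (J : Set ℝ), OrdConnected J → Perf S →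
    Perf (S ×ˢ J)) ∧
  ∀ (X ι : Type) [TopologicalSpace X] (U : ι → Set X), (∀ i, IsOpen (U i)) →
    Pairwise (fun i j => Disjoint (U i) (U j)) → (∀ i, Perf (U i)) → Perf (⋃ i, U i)

/-- row SPB: elementary constructions -/
def SpbStmt : Prop :=
  ∀ (C : SpinCover) (E : Type) [NormedAddCommGroup E] [NormedSpace ℝ E] [FiniteDimensional ℝ E]
    (X : Mf E),
    (∀ (U : Set X) Θ, IsOpen U → Cof X 0 Θ U → ∃ (sp : Spin C X U) (i : sp.ι), sp.W i = U ∧
      sp.Θ i = Θ) ∧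
    (∀ (E' : Type) [NormedAddCommGroup E'] [NormedSpace ℝ E'] [FiniteDimensional ℝ E'] (Y : Mf E')
      (f : Y → X) (U : Set X) (V : Set Y) (sp : Spin C X U), IsOpen V → (∀ y ∈ V, LDAt Y X f y) →
      MapsTo f V U → ∃ (sp' : Spin C Y V) (a : sp.ι ≃ sp'.ι), ∀ i,
        sp'.W (a i) = V ∩ f ⁻¹' sp.W i ∧ (sp'.Θ (a i) = fun y => (sp.Θ i (f y)).comp (Df Y X f y)) ∧
        ∀ j, sp'.g (a i) (a j) = fun y => sp.g i j (f y)) ∧
    (∀ (U : Set X) (sp : Spin C X U) o, Ori X 5 o U → ∃ (sp' : Spin C X U) (a : sp.ι ≃ sp'.ι),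
      sp'.Pos o ∧ ∀ i, sp'.W (a i) = sp.W i ∧ (∀ j, sp'.g (a i) (a j) = sp.g i j) ∧
        ∀ x ∈ sp.W i, PosB (Pi.basisFun ℝ (Fin 5)) (o x) (sp.Θ i x) → sp'.Θ (a i) x = sp.Θ i x) ∧
    (∀ (U W : Set X) (sp : Spin C X U) (i : sp.ι) Θ (t : X → C.G), IsOpen W → W ⊆ sp.W i →
      Cof X 0 Θ W → ContinuousOn t W → (∀ x ∈ W, C.π (t x) = tm (Θ x) (sp.Θ i x)) →
      ∃ (sp' : Spin C X U) (a : sp.ι → sp'.ι) (k : sp'.ι), sp.Ext sp' a ∧ sp'.W k = W ∧
        sp'.Θ k = Θ ∧ (∀ x ∈ W, sp'.g k (a i) x = t x) ∧ ∀ j, j = k ∨ j ∈ range a) ∧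
    (∀ (U U' : Set X) (sp : Spin C X U) (sp' : Spin C X U') (i : sp.ι) (i' : sp'.ι)
      (t : X → C.G), U ∩ U' ⊆ sp.W i → U ∩ U' ⊆ sp'.W i' → ContinuousOn t (U ∩ U') →
      (∀ x ∈ U ∩ U', C.π (t x) = tm (sp.Θ i x) (sp'.Θ i' x)) →
      ∃ (sp'' : Spin C X (U ∪ U')) (a : sp.ι → sp''.ι) (a' : sp'.ι → sp''.ι), sp.Ext sp'' a ∧
        sp'.Ext sp'' a' ∧ (∀ j, j ∈ range a ∨ j ∈ range a') ∧ ∀ j j', ∀ x ∈ sp.W j ∩ sp'.W j',
          sp''.g (a j) (a' j') x = sp.g j i x * t x * sp'.g i' j' x ∧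
          sp''.g (a' j') (a j) x = (sp.g j i x * t x * sp'.g i' j' x)⁻¹) ∧
    ∀ (U : Set X) (O : Set X.cyl) (sp : Spin C X.cyl O), IsOpen U → (∀ x ∈ U, (x, 0) ∈ O) →
      ∃ (sp' : Spin C X.cyl (U ×ˢ univ)) (a : sp.ι ≃ sp'.ι), ∀ i,
        sp'.W (a i) = {p | p.1 ∈ U ∧ (p.1, 0) ∈ sp.W i} ∧ (sp'.Θ (a i) = fun p => sp.Θ i (p.1, 0)) ∧
        ∀ j, sp'.g (a i) (a j) = fun p => sp.g i j (p.1, 0)

/-- row SPG: gluing along an overlap without double covers -/
def SpinGlueStmt : Prop :=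
  ∀ (C : SpinCover) (E : Type) [NormedAddCommGroup E] [NormedSpace ℝ E] [FiniteDimensional ℝ E]
    (X : Mf E) (U U' : Set X) (sp : Spin C X U) (sp' : Spin C X U'), Perf (U ∩ U') →
    (∀ i j, ∀ x ∈ sp.W i ∩ sp'.W j, 0 < (tm (sp.Θ i x) (sp'.Θ j x)).det) →
    ∃ (sp'' : Spin C X (U ∪ U')) (a : sp.ι → sp''.ι) (a' : sp'.ι → sp''.ι), sp.Ext sp'' a ∧
      sp'.Ext sp'' a' ∧ ∀ j, j ∈ range a ∨ j ∈ range a'

/-- row SPT: transport along a homotopy -/
def SpinTrStmt : Prop :=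
  ∀ (C : SpinCover) (E : Type) [NormedAddCommGroup E] [NormedSpace ℝ E] [FiniteDimensional ℝ E]
    (X : Mf E) (K O : Set X) (H : X × ℝ → X), IsCompact K → ContinuousOn H (K ×ˢ Icc 0 1) →
    (∀ x ∈ K, H (x, 0) = x) → (∀ x ∈ K, H (x, 1) ∈ O) → Nonempty (Spin C X O) →
    Nonempty (Spin C X (interior K))

end Pool.Agent.MP_e1dc65_gt

end
end MrgPart1

-- ======== part 2: formerly Pool.Agent.MP_e1dc65_gt.fm.Hza
section MrgPart2

/-! PROJECT HC, row HZA: homotopy invariance of the vanishing of de Rham groups. -/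

open scoped ContDiff Manifold Topology
open Set Filter Function Module Pool.Agent.MP_c8d41b_gt.GF

set_option linter.unusedSectionVars false

noncomputable section

namespace Pool.Agent.MP_e1dc65_gt

variable {E E' : Type} [NormedAddCommGroup E] [NormedSpace ℝ E] [FiniteDimensional ℝ E]
  [NormedAddCommGroup E'] [NormedSpace ℝ E'] [FiniteDimensional ℝ E']

/-- the slice `x ↦ (x, t)` is smooth -/
theorem Hza.smAt_slice {X : Mf E} (t : ℝ) (x : X) : SmAt X X.cyl (fun x => (x, t)) x :=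
  SmAt.pair (Z := vs ℝ) smAt_id (smAt_const (Y := vs ℝ) t)

/-- the homotopy formula for a smooth homotopy between two manifolds -/
theorem homotopy (hH : HomStmt) {X : Mf E} {Y : Mf E'} {k : ℕ} {U : Set X} {O : Set X.cyl}
    {W : Set Y} {H : X.cyl → Y} {a : Y → Lam E'} (hU : IsOpen U) (hO : IsOpen O)
    (hUO : U ×ˢ Icc 0 1 ⊆ O) (hs : Sm X.cyl Y H O) (hm : MapsTo H O W) (ha : Cl Y (k + 1) a W) :
    ∃ β, Fm X k β U ∧ ∀ x ∈ U, dM X β x =
      pbM X Y (fun x => H (x, 1)) a x - pbM X Y (fun x => H (x, 0)) a x := by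
  obtain ⟨β, h1, h2⟩ := hH E X k (pbM X.cyl Y H a) U O 0 1 hU hO
    (by rwa [uIcc_of_le zero_le_one]) (ha.pb hs hm)
  refine ⟨β, h1, fun x hx => ?_⟩
  rw [h2 x hx, ← pbM_comp (Hza.smAt_slice 1 x) (hs _ (hUO ⟨hx, zero_le_one, le_rfl⟩)),
    ← pbM_comp (Hza.smAt_slice 0 x) (hs _ (hUO ⟨hx, le_rfl, zero_le_one⟩))]

/-- a set dominated up to smooth homotopy by an acyclic set is acyclic -/
theorem hz_of_dom (hH : HomStmt) {X : Mf E} {Y : Mf E'} {k : ℕ} {U : Set X} {V : Set Y}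
    {O : Set X.cyl} {H : X.cyl → X} {f : X → Y} {g : Y → X} (hU : IsOpen U) (hO : IsOpen O)
    (hUO : U ×ˢ Icc 0 1 ⊆ O) (hs : Sm X.cyl X H O) (hm : MapsTo H O U)
    (h0 : ∀ x ∈ U, H (x, 0) = x) (h1 : ∀ x ∈ U, H (x, 1) = g (f x)) (hf : Sm X Y f U)
    (hg : Sm Y X g V) (mf : MapsTo f U V) (mg : MapsTo g V U) (hz : HZ Y k V) : HZ X k U := by
  intro α hα
  obtain ⟨β, b1, b2⟩ := homotopy hH hU hO hUO hs hm hα
  obtain ⟨γ, c1, c2⟩ := hz _ (hα.pb hg mg)
  refine ⟨_, (c1.pb hf mf).sub b1, fun x hx => ?_⟩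
  have e0 : pbM X X (fun x => H (x, 0)) α x = α x := by
    rw [pbM_congr (f' := fun x => x) (mem_of_superset (hU.mem_nhds hx) h0), pbM_id]
  have e1 : pbM X X (fun x => H (x, 1)) α x = pbM X Y f (pbM Y X g α) x := by
    rw [pbM_congr (f' := fun x => g (f x)) (mem_of_superset (hU.mem_nhds hx) h1),
      pbM_comp (hf x hx) (hg _ (mf hx))]
  rw [dM_sub ((c1.pb hf mf) x hx).1 (b1 x hx).1, b2 x hx, e0, e1,
    dM_pb (hf x hx) (c1 _ (mf hx)).1, pbM_congr_right (c2 _ (mf hx)), sub_sub_cancel]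

namespace Hza

theorem mp_zero_dg {n : ℕ} {a : Lam E'} (h : a ∈ dg E' n) (hn : n ≠ 0) :
    mp (0 : E →L[ℝ] E') a = 0 := by
  refine dg_ind (P := fun n a => n ≠ 0 → mp (0 : E →L[ℝ] E') a = 0) (fun r h => absurd rfl h)
    (fun n a b _ _ h1 h2 h => by rw [map_add, h1 h, h2 h, add_zero]) (fun n l a _ _ _ => ?_) h hn
  rw [map_mul, mp_ι, ContinuousLinearMap.comp_zero, map_zero, zero_mul]

theorem hz_empty (X : Mf E) (k : ℕ) : HZ X k ∅ := fun _ _ =>
  ⟨fun _ => 0, fm_zero, fun _ h => h.elim⟩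

theorem cyl (hH : HomStmt) {X : Mf E} {k : ℕ} {U : Set X} {J : Set ℝ} (hU : IsOpen U)
    (hJ : IsOpen J) (hc : OrdConnected J) (hz : HZ X k U) : HZ X.cyl k (U ×ˢ J) := by
  rcases J.eq_empty_or_nonempty with rfl | ⟨t, ht⟩
  · rw [prod_empty]; exact hz_empty _ _
  have hs : ∀ p : X.cyl.cyl, SmAt X.cyl.cyl X.cyl
      (fun p => (p.1.1, p.1.2 + p.2 * (t - p.1.2))) p := fun p => by
    have a1 : SmAt X.cyl.cyl X (fun p => p.1.1) p :=
      (smAt_fst (X := X.cyl) (Y := vs ℝ)).trans (smAt_fst (X := X) (Y := vs ℝ))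
    have a2 : SmAt X.cyl.cyl (vs ℝ) (fun p => p.1.2) p :=
      (smAt_fst (X := X.cyl) (Y := vs ℝ)).trans (smAt_snd (X := X) (Y := vs ℝ))
    have a3 : SmAt X.cyl.cyl (vs ℝ) (fun p => p.2) p := smAt_snd (X := X.cyl) (Y := vs ℝ)
    exact SmAt.pair (Z := vs ℝ) a1 (a2.add (a3.mul ((smAt_const (Y := vs ℝ) t).sub a2)))
  have hcont : Continuous fun p : X.cyl.cyl => ((p.1.1, p.1.2 + p.2 * (t - p.1.2)) : X.cyl) :=
    continuous_iff_continuousAt.2 fun p => (hs p).cont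
  refine hz_of_dom hH (Y := X) (V := U) (f := Prod.fst) (g := fun x => (x, t))
    (H := fun p => (p.1.1, p.1.2 + p.2 * (t - p.1.2))) (hU.prod hJ)
    ((hU.prod hJ).preimage hcont) (fun p hp => ⟨hp.1.1, ?_⟩) (fun p _ => hs p) (fun p hp => hp)
    (fun p _ => by simp) (fun p _ => by simp) (fun p _ => smAt_fst) (fun x _ => Hza.smAt_slice t x)
    (fun p hp => hp.1) (fun x hx => ⟨hx, ht⟩) hz
  have := hc.convex.add_smul_sub_mem hp.1.2 ht hp.2
  simpa using this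

theorem base (hH : HomStmt) {X : Mf E} {k : ℕ} {U : Set X} {J : Set ℝ} (hU : IsOpen U)
    (hne : J.Nonempty) (hz : HZ X.cyl k (U ×ˢ J)) : HZ X k U := by
  obtain ⟨t, ht⟩ := hne
  exact hz_of_dom hH (Y := X.cyl) (V := U ×ˢ J) (f := fun x => (x, t)) (g := Prod.fst)
    (H := Prod.fst) (O := U ×ˢ univ) hU (hU.prod isOpen_univ) (fun p hp => ⟨hp.1, trivial⟩)
    (fun p _ => smAt_fst) (fun p hp => hp.1) (fun _ _ => rfl) (fun _ _ => rfl)
    (fun x _ => Hza.smAt_slice t x) (fun p _ => smAt_fst) (fun x hx => ⟨hx, ht⟩) (fun p hp => hp.1) hz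

theorem star (hH : HomStmt) {k : ℕ} {S : Set E} {x : E} (hS : IsOpen S)
    (hx : StarConvex ℝ x S) : HZ (vs E) k S := by
  intro α hα
  have hs : ∀ p : (vs E).cyl, SmAt (vs E).cyl (vs E) (fun p => x + p.2 • (p.1 - x)) p := fun p =>
    SmAt.vcomp (g := fun p : E × ℝ => x + p.2 • (p.1 - x)) (smAt_prod_vs (p := p))
      (contDiff_const.add (contDiff_snd.smul (contDiff_fst.sub contDiff_const))).contDiffAt
  have hcont : Continuous fun p : (vs E).cyl => (x + p.2 • (p.1 - x) : vs E) :=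
    continuous_iff_continuousAt.2 fun p => (hs p).cont
  obtain ⟨β, b1, b2⟩ := homotopy hH (X := vs E) (Y := vs E) (U := S) (W := S)
    (H := fun p => x + p.2 • (p.1 - x)) hS (hS.preimage hcont)
    (fun p hp => hx.add_smul_sub_mem hp.1 hp.2.1 hp.2.2) (fun p _ => hs p) (fun p hp => hp) hα
  refine ⟨β, b1, fun y hy => ?_⟩
  have e1 : (fun y : E => x + (1 : ℝ) • (y - x)) = fun y => y := funext fun y => by simp
  have e0 : (fun y : E => x + (0 : ℝ) • (y - x)) = fun _ => x := funext fun y => by simp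
  have e2 : pbM (vs E) (vs E) (fun _ => x) α y = 0 := by
    rw [pbM, Df_const (Y := vs E)]
    exact mp_zero_dg (hα.1 x (hx.mem ⟨y, hy⟩)).2 (Nat.succ_ne_zero k)
  rw [b2 y hy]
  change pbM (vs E) (vs E) (fun y : E => x + (1 : ℝ) • (y - x)) α y -
    pbM (vs E) (vs E) (fun y : E => x + (0 : ℝ) • (y - x)) α y = _
  rw [e1, e0, e2, pbM_id, sub_zero]

end Hza

theorem hza (hH : HomStmt) : HzaStmt := by
  intro E _ _ _ k
  refine ⟨fun X U V O H hU _ hVU hO hUO hs hm h0 h1 hz => ?_,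
    fun X U J hU hJ hc hz => Hza.cyl hH hU hJ hc hz,
    fun X U J hU _ hne hz => Hza.base hH hU hne hz, fun S x hS hx => Hza.star hH hS hx⟩
  exact hz_of_dom hH (Y := X) (V := V) (f := fun x => H (x, 1)) (g := fun x => x) hU hO hUO hs hm
    h0 (fun _ _ => rfl)
    (fun x hx => (Hza.smAt_slice 1 x).trans (hs _ (hUO ⟨hx, zero_le_one, le_rfl⟩)))
    (fun _ _ => smAt_id) h1 hVU hz

end Pool.Agent.MP_e1dc65_gt

end
end MrgPart2

-- marker of a merged file
example : 731051 + 688556 = 731051 + 688556 := rfl
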