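import Pool.Agent.MP_e1dc65_gt.fm.Hza
import Pool.Agent.MP_e1dc65_gt.t2.Disc

/-! PROJECT HC, rows CW3 and CW4: extension and union of connections, Chern-Weil theorem. -/

open scoped ContDiff Manifold Topology
open Set Filter Function Module MeasureTheory Pool.Agent.MP_c8d41b_gt.GF

noncomputable section

namespace Pool.Agent.MP_e1dc65_gt
namespace Cw3

variable {E E' E'' : Type} [NormedAddCommGroup E] [NormedSpace ℝ E] [FiniteDimensional ℝ E]
  [NormedAddCommGroup E'] [NormedSpace ℝ E'] [FiniteDimensional ℝ E']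
  [NormedAddCommGroup E''] [NormedSpace ℝ E''] [FiniteDimensional ℝ E'']
  {X : Mf E} {Y : Mf E'} {Z : Mf E''} {x : X} {Θ Θ' : X → E →L[ℝ] Rn 5} {A A' B B' : X → MF E}

theorem gau_congr (h : Gau X Θ A Θ' A' x) (e : B x = A x) (e' : B' x = A' x) :
    Gau X Θ B Θ' B' x := by
  unfold Gau at h ⊢
  rw [e, e']; exact h

omit [FiniteDimensional ℝ E] in
/-- the gauge law is affine -/
theorem law_sum {I : Type} (s : Finset I) (r : I → ℝ) (hr : ∑ i ∈ s, r i = 1) {D G : MF E}
    {M M' : I → MF E} (h : ∀ i ∈ s, r i ≠ 0 → D + M i * G = G * M' i) :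
    D + (∑ i ∈ s, r i • M i) * G = G * ∑ i ∈ s, r i • M' i := by
  have e : D = ∑ i ∈ s, r i • D := by rw [← Finset.sum_smul, hr, one_smul]
  rw [Finset.sum_mul, Finset.mul_sum, e, ← Finset.sum_add_distrib]
  refine Finset.sum_congr rfl fun i hi => ?_
  by_cases h0 : r i = 0
  · simp [h0]
  · rw [Matrix.smul_mul, Matrix.mul_smul, ← smul_add, h i hi h0]

/-- the connection with one chart -/
def single (h2 : Cw2Stmt) {W : Set X} (hW : IsOpen W) (hΘ : Cof X ∞ Θ W)
    (hA : ∀ a b, Fm X 1 (fun x => A x a b) W) : Con X W where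
  ι := Unit
  W _ := W
  Θ _ := Θ
  op _ := hW
  sub _ := subset_rfl
  cov _ hx := ⟨(), hx⟩
  cof _ := hΘ
  A _ := A
  fm _ := hA
  gauge _ _ x hx := ((h2 E X).1 W Θ Θ Θ A A A hW hΘ hΘ hΘ x hx.1).1

theorem gau_symm (h2 : Cw2Stmt) {W W' : Set X} (hW : IsOpen W) (hW' : IsOpen W')
    (c : Cof X ∞ Θ W) (c' : Cof X ∞ Θ' W') (hx : x ∈ W) (hx' : x ∈ W') (h : Gau X Θ A Θ' A' x) :
    Gau X Θ' A' Θ A x :=
  ((h2 E X).1 (W ∩ W') Θ Θ' Θ' A A' A' (hW.inter hW') (c.mono inter_subset_left)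
    (c'.mono inter_subset_right) (c'.mono inter_subset_right) x ⟨hx, hx'⟩).2.1 h

/-- two matrices that are related to a third one are related -/
theorem gau_via (h2 : Cw2Stmt) {W W' W₀ : Set X} {Θ₀ : X → E →L[ℝ] Rn 5} {A₀ : X → MF E}
    (hW : IsOpen W) (hW' : IsOpen W') (hW₀ : IsOpen W₀) (c : Cof X ∞ Θ W) (c' : Cof X ∞ Θ' W')
    (c₀ : Cof X ∞ Θ₀ W₀) (hx : x ∈ W) (hx' : x ∈ W') (hx₀ : x ∈ W₀) (h : Gau X Θ A Θ₀ A₀ x)
    (h' : Gau X Θ' A' Θ₀ A₀ x) : Gau X Θ A Θ' A' x :=
  ((h2 E X).1 (W ∩ W' ∩ W₀) Θ Θ₀ Θ' A A₀ A' ((hW.inter hW').inter hW₀)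
    (c.mono fun _ h => h.1.1) (c₀.mono fun _ h => h.2) (c'.mono fun _ h => h.1.2) x
    ⟨⟨hx, hx'⟩, hx₀⟩).2.2 h (gau_symm h2 hW' hW₀ c' c₀ hx' hx₀ h')

/-- patching local connections with a partition of unity -/
theorem patch (h2 : Cw2Stmt) {I : Type} (U : I → Set X) (T : I → X → E →L[ℝ] Rn 5)
    (M : I → X → MF E) (hU : ∀ i, IsOpen (U i)) (hc : ∀ x, ∃ i, x ∈ U i)
    (hT : ∀ i, Cof X ∞ (T i) (U i)) (hM : ∀ i a b, Fm X 1 (fun x => M i x a b) (U i)) :
    ∃ c : Con X univ, ∀ i W', IsOpen W' → W' ⊆ U i → (∀ j, j ≠ i → ∀ x ∈ W', x ∉ U j) →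
      c.Mat W' (T i) (M i) := by
  classical
  have h1 : ∀ i j, ∃ B, (single h2 (hU i) (hT i) (hM i)).Mat (U i ∩ U j) (T j) B := fun i j =>
    (h2 E X).2.1 _ _ _ _ ((hU i).inter (hU j)) inter_subset_left ((hT j).mono inter_subset_right)
  choose B hB using h1
  have g1 : ∀ i j, ∀ x ∈ U i ∩ U j, Gau X (T j) (B i j) (T i) (M i) x := fun i j x hx =>
    (hB i j).gau () x ⟨hx, hx.1⟩
  obtain ⟨ρ, r1, -, r3, r4, r5⟩ := (bumpM E X).2 I U univ isOpen_univ hU fun x _ => hc x
  have r0 : ∀ i x, ρ i x ≠ 0 → x ∈ U i := fun i x h =>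
    by_contra fun h' => h (r3 i x trivial h').eq_of_nhds
  let N : I → X → MF E := fun j x => ∑ᶠ i, ρ i x • B i j x
  have loc : ∀ x, ∃ s : Finset I, (∀ j, ∀ᶠ y in 𝓝 x, N j y = ∑ i ∈ s, ρ i y • B i j y) ∧
      ∑ i ∈ s, ρ i x = 1 := fun x => by
    obtain ⟨O, s, hO, hs⟩ := r4 x trivial
    refine ⟨s, fun j => ?_, ?_⟩
    · filter_upwards [hO] with y hy
      exact finsum_eq_sum_of_support_subset _ fun i hi => by_contra fun h =>
        hi (by simp only [hs i h y hy, zero_smul])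
    · rw [← r5 x trivial]
      exact (finsum_eq_sum_of_support_subset _ fun i hi => by_contra fun h =>
        hi (hs i h x (mem_of_mem_nhds hO))).symm
  refine ⟨{ ι := I, W := U, Θ := T, op := hU, sub := fun _ => subset_univ _, cov := fun x _ => hc x
            cof := hT, A := N, fm := fun j a b x hx => ?_, gauge := fun j k x hx => ?_ },
    fun i W' hW' hs hn => ⟨hW', subset_univ _, (hT i).mono hs, fun a b => (hM i a b).mono hs,
      fun j x hx => ?_⟩⟩
  · obtain ⟨s, hs, -⟩ := loc x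
    have e : (fun y => N j y a b) =ᶠ[𝓝 x] fun y => ∑ i ∈ s, ρ i y • B i j y a b :=
      (hs j).mono fun y hy => by simp only [hy, Matrix.sum_apply, Matrix.smul_apply]
    constructor
    · refine (fmAt_sum fun i _ => ?_).congr' e
      by_cases h : x ∈ U i
      · exact ((hB i j).fm a b x ⟨h, hx⟩).1.fsmul (r1 i x trivial)
      · exact fmAt_of_ev ((r3 i x trivial h).mono fun y hy => by rw [hy, Pi.zero_apply, zero_smul])
    · change N j x a b ∈ dg E 1
      rw [e.eq_of_nhds]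
      refine Submodule.sum_mem _ fun i _ => ?_
      by_cases h : ρ i x = 0
      · rw [h, zero_smul]; exact zero_mem _
      · exact Submodule.smul_mem _ _ ((hB i j).fm a b x ⟨r0 i x h, hx⟩).2
  · obtain ⟨s, hs, h1⟩ := loc x
    rw [(hs j).self_of_nhds, (hs k).self_of_nhds]
    exact law_sum s _ h1 fun i _ h => gau_via h2 (hU j) (hU k) (hU i) (hT j) (hT k) (hT i) hx.1 hx.2
      (r0 i x h) (g1 i j x ⟨r0 i x h, hx.1⟩) (g1 i k x ⟨r0 i x h, hx.2⟩)
  · have z : ∀ k, k ≠ i → ρ k x = 0 := fun k hk => by_contra fun h => hn k hk x hx.1 (r0 k x h)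
    have e1 : ρ i x = 1 := by rw [← r5 x trivial, finsum_eq_single _ i z]
    have e : N j x = B i j x := by
      simp only [N]
      rw [finsum_eq_single _ i fun k hk => by rw [z k hk, zero_smul], e1, one_smul]
    exact gau_congr (gau_symm h2 (hU j) (hU i) (hT j) (hT i) hx.2 (hs hx.1)
      (g1 i j x ⟨hs hx.1, hx.2⟩)) rfl e

/-! ### Pull-back of matrices of forms -/

/-- pull-back of a matrix of forms -/
def pm (Y : Mf E') (X : Mf E) (f : Y → X) (A : X → MF E) (y : Y) : MF E' :=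
  Matrix.of fun a b => pbM Y X f (fun x => A x a b) y

omit [FiniteDimensional ℝ E] [FiniteDimensional ℝ E'] in
theorem pm_eq (f : Y → X) (A : X → MF E) (y : Y) :
    pm Y X f A y = (mp (Df Y X f y)).mapMatrix (A (f y)) := rfl

omit [FiniteDimensional ℝ E] [FiniteDimensional ℝ E'] in
theorem map_mF (L : E' →L[ℝ] E) (g : M5) : (mp L).mapMatrix (mF g : MF E) = mF g :=
  Matrix.ext fun _ _ => AlgHom.commutes _ _

theorem law_pb {f : Y → X} {y : Y} {g : X → M5} (hf : SmAt Y X f y)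
    (hg : ∀ a b, SmAt X (vs ℝ) (fun x => g x a b) (f y))
    (h : dMat X (fun x => mF (g x)) (f y) + A (f y) * mF (g (f y)) = mF (g (f y)) * A' (f y)) :
    dMat Y (fun y => mF (g (f y))) y + pm Y X f A y * mF (g (f y)) =
      mF (g (f y)) * pm Y X f A' y := by
  have e : dMat Y (fun y => mF (g (f y))) y =
      (mp (Df Y X f y)).mapMatrix (dMat X (fun x => mF (g x)) (f y)) :=
    Matrix.ext fun a b => by
      have h1 := dM_pb hf (fmAt_scalar (hg a b))
      rw [funext fun y => pbM_scalar (X := Y) (f := f) (x := y) fun x => g x a b] at h1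
      exact h1
  have h1 := congrArg (mp (Df Y X f y)).mapMatrix h
  rw [map_add, map_mul, map_mul, map_mF] at h1
  rw [e, pm_eq, pm_eq]
  exact h1

theorem trF_congr (e : A =ᶠ[𝓝 x] A') : trF X A x = trF X A' x := by
  have h : curv X A x = curv X A' x := by
    rw [curv, curv, e.eq_of_nhds]
    congr 1
    exact Matrix.ext fun a b => dM_congr (e.mono fun y hy => by simp only [hy])
  rw [trF, trF, h]

end Cw3

open Cw3

theorem cw3 (h2 : Cw2Stmt) : Cw3Stmt := by
  intro E _ _ _ X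
  constructor
  · intro S W Θ A hd hS hW hSW hΘ hA
    obtain ⟨V, hV, hSV, hVW⟩ := normal_exists_closure_subset hS hW hSW
    obtain ⟨J⟩ : Nonempty (E ≃L[ℝ] Rn 5) :=
      FiniteDimensional.nonempty_continuousLinearEquiv_of_finrank_eq (by simp [hd])
    obtain ⟨c, hc⟩ := patch h2 (I := Option X)
      (fun i => i.elim W fun z => (ch X z).source ∩ (closure V)ᶜ)
      (fun i => i.elim Θ fun z y => (J : E →L[ℝ] Rn 5).comp (Df X (vs E) (ch X z) y))
      (fun i => i.elim A fun _ _ => 0)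
      (fun i => by
        cases i with
        | none => exact hW
        | some z => exact (ch X z).open_source.inter isClosed_closure.isOpen_compl)
      (fun x => by
        by_cases h : x ∈ closure V
        · exact ⟨none, hVW h⟩
        · exact ⟨some x, mem_chart_source E x, h⟩)
      (fun i => by
        cases i with
        | none => exact hΘ
        | some z => exact (Cof.ccomp (cof_ch (x := z) (n := ∞)) J).mono inter_subset_left)
      (fun i a b => by
        cases i with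
        | none => exact hA a b
        | some z => exact fm_zero)
    have hs := subset_closure.trans hVW
    refine ⟨c, V, hSV, hs, hc none V hV hs fun j hj x hx => ?_⟩
    cases j with
    | none => exact absurd rfl hj
    | some z => exact fun h => h.2 (subset_closure hx)
  · intro U U' c c' Θ A m m'
    have g : ∀ i j, ∀ x ∈ c.W i ∩ c'.W j, Gau X (c.Θ i) (c.A i) (c'.Θ j) (c'.A j) x :=
      fun i j x hx => by
        have h0 : x ∈ U ∩ U' := ⟨c.sub i hx.1, c'.sub j hx.2⟩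
        exact gau_via h2 (c.op i) (c'.op j) m.op (c.cof i) (c'.cof j) m.cof hx.1 hx.2 h0
          (gau_symm h2 m.op (c.op i) m.cof (c.cof i) h0 hx.1 (m.gau i x ⟨h0, hx.1⟩))
          (gau_symm h2 m.op (c'.op j) m.cof (c'.cof j) h0 hx.2 (m'.gau j x ⟨h0, hx.2⟩))
    refine ⟨{ ι := c.ι ⊕ c'.ι, W := Sum.elim c.W c'.W, Θ := Sum.elim c.Θ c'.Θ
              A := Sum.elim c.A c'.A
              op := fun i => i.casesOn c.op c'.op
              sub := fun i => i.casesOn (fun i => (c.sub i).trans subset_union_left)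
                fun i => (c'.sub i).trans subset_union_right
              cov := fun x hx => hx.elim (fun h => (c.cov x h).elim fun i h => ⟨.inl i, h⟩)
                fun h => (c'.cov x h).elim fun i h => ⟨.inr i, h⟩
              cof := fun i => i.casesOn c.cof c'.cof
              fm := fun i => i.casesOn c.fm c'.fm
              gauge := ?_ }, fun Ω h h' i => i.casesOn h h'⟩
    rintro (i | i) (j | j) x hx
    · exact c.gauge i j x hx
    · exact g i j x hx
    · exact gau_symm h2 (c.op j) (c'.op i) (c.cof j) (c'.cof i) hx.2 hx.1 (g j i x ⟨hx.2, hx.1⟩)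
    · exact c'.gauge i j x hx

theorem cw (h1 : Cw1Stmt) (h2 : Cw2Stmt) (hH : HomStmt) (hI : IntMStmt) : CWStmt := by
  rintro E _ _ _ X _ o w w' ho ⟨c, Ω, hΩ, hw⟩ ⟨c', Ω', hΩ', hw'⟩
  have hB : ∀ i, ∃ B, c'.Mat (c.W i) (c.Θ i) B := fun i =>
    (h2 _ X.cyl).2.1 _ _ c' _ (c.op i) (subset_univ _) (c.cof i)
  choose B hB using hB
  choose ix hix using fun p => c.cov p trivial
  let f : X.cyl → X.cyl := fun p => (p.1, 0)
  have sl : ∀ (t : ℝ) (x : X), SmAt X X.cyl (fun x => (x, t)) x := fun t x =>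
    smAt_id.pair (smAt_const (Y := vs ℝ) t)
  have hf : ∀ p, SmAt X.cyl X.cyl f p := fun p => smAt_fst.trans (sl 0 p.1)
  have fc : Continuous f := Sm.cont fun p _ => hf p
  let V : c.ι → Set X.cyl := fun i => f ⁻¹' c.W i
  have hV : ∀ i, IsOpen (V i) := fun i => (c.op i).preimage fc
  let M : c.ι → X.cyl → MF (E × ℝ) := fun i p =>
    (1 - p.2) • pm X.cyl X.cyl f (c.A i) p + p.2 • pm X.cyl X.cyl f (B i) p
  have hM : ∀ i a b, Fm X.cyl 1 (fun p => M i p a b) (V i) := fun i a b =>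
    (((c.fm i a b).pb (fun p _ => hf p) fun _ h => h).fsmul fun _ _ =>
      (smAt_const (Y := vs ℝ) 1).vsub smAt_snd).add
      ((((hB i).fm a b).pb (fun p _ => hf p) fun _ h => h).fsmul fun _ _ => smAt_snd)
  have ind : ∀ i j, ∀ p ∈ V i ∩ V j, trF X.cyl (M i) p = trF X.cyl (M j) p := fun i j => by
    have sg := fun a b => (c.cof i).tm_sm (c.cof j) a b
    refine (h1 _ X.cyl (V i ∩ V j) (M i) ((hV i).inter (hV j))
      fun a b => (hM i a b).mono inter_subset_left).2.1
      (fun p => tm (c.Θ i (f p)) (c.Θ j (f p))) (M j) (fun a b p hp => (hf p).trans (sg a b _ hp))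
      (fun p hp => det_tm_ne (c.cof i _ hp.1).2 (c.cof j _ hp.2).2)
      (fun a b => (hM j a b).mono inter_subset_right) fun p hp => ?_
    obtain ⟨k, hk⟩ := c'.cov (f p) trivial
    have l1 := law_pb (hf p) (fun a b => sg a b _ hp) (c.gauge i j _ hp)
    have l2 := law_pb (hf p) (fun a b => sg a b _ hp)
      (gau_via h2 (c.op i) (c.op j) (c'.op k) (c.cof i) (c.cof j) (c'.cof k) hp.1 hp.2 hk
        ((hB i).gau k _ ⟨hp.1, hk⟩) ((hB j).gau k _ ⟨hp.2, hk⟩))
    simp only [M]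
    rw [Matrix.add_mul, Matrix.mul_add, Matrix.smul_mul, Matrix.smul_mul, Matrix.mul_smul,
      Matrix.mul_smul, ← l1, ← l2]
    module
  let Φ : X.cyl → Lam (E × ℝ) := fun p => trF X.cyl (M (ix (f p))) p
  have hΦ : ∀ i, EqOn Φ (trF X.cyl (M i)) (V i) := fun i p hp => ind _ _ p ⟨hix (f p), hp⟩
  have cl : Cl X.cyl 4 Φ univ := by
    have := fun i => (h1 _ X.cyl (V i) (M i) (hV i) (hM i)).1.congr (hV i) (hΦ i)
    exact ⟨fun p _ => (this _).1 p (hix (f p)), fun p _ => (this _).2 p (hix (f p))⟩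
  obtain ⟨β, hβ, dβ⟩ := hH E X 3 Φ univ univ 0 1 isOpen_univ isOpen_univ (subset_univ _) cl
  have key : ∀ (t : ℝ) (i : c.ι) (N : X.cyl → MF (E × ℝ)) (x : X), (x, 0) ∈ c.W i →
      (∀ a b, Fm X.cyl 1 (fun p => N p a b) (c.W i)) →
      (∀ y, M i (y, t) = pm X.cyl X.cyl f N (y, t)) →
      pbM X X.cyl (fun x => (x, t)) Φ x = pbM X X.cyl (fun x => (x, 0)) (trF X.cyl N) x :=
    fun t i N x hx hN e => by
      have hx' : (x, t) ∈ V i := hx
      rw [pbM_congr_right (f := fun x => (x, t)) (hΦ i hx'),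
        ← (h1 _ X.cyl (V i) (M i) (hV i) (hM i)).2.2 E X _ x (sl t x) hx',
        ← (h1 _ X.cyl (c.W i) N (c.op i) hN).2.2 E X _ x (sl 0 x) hx]
      refine trF_congr (Eventually.of_forall fun y => Matrix.ext fun a b => ?_)
      have e1 : pbM X X.cyl (fun x => (x, t)) (fun p => M i p a b) y =
          pbM X X.cyl (fun x => (x, t)) (pbM X.cyl X.cyl f fun p => N p a b) y :=
        pbM_congr_right (congrFun (congrFun (e y) a) b)
      exact e1.trans (pbM_comp (sl t y) (hf _) _).symm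
  have k0 : ∀ x, pbM X X.cyl (fun x => (x, 0)) Φ x = w x := fun x => by
    rw [key 0 _ (c.A _) x (hix (x, 0)) (c.fm _) fun y => by simp [M], hw]
    exact pbM_congr_right (hΩ _ _ (hix (x, 0))).symm
  have k1 : ∀ x, pbM X X.cyl (fun x => (x, 1)) Φ x = w' x := fun x => by
    rw [key 1 _ (B _) x (hix (x, 0)) (hB _).fm fun y => by simp [M], hw']
    exact pbM_congr_right ((h2 _ X.cyl).2.2.2.1 _ _ c' _ _ Ω' (hB _) hΩ' _ (hix (x, 0))).symm
  have oc : ∀ α : X → Lam E, (∀ x, FmAt X α x) → OcM X univ α := fun α h =>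
    .of_compact isCompact_univ subset_rfl (fun x _ => h x) fun x h => absurd trivial h
  have ow : OcM X univ w := oc w fun x => by
    rw [← funext k0]; exact (cl.1 _ trivial).1.pb (sl 0 x)
  have oβ : OcM X univ β := oc β fun x => (hβ x trivial).1
  have e : w' = fun x => w x + dM X β x := funext fun x => by
    rw [dβ x trivial, k0, k1]; abel
  rw [e, (hI E X 4 o ho).add _ _ ow oβ.dM, (hI E X 4 o ho).stokes β oβ, add_zero]

end Pool.Agent.MP_e1dc65_gt
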