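import Mathlib.MeasureTheory.Function.Jacobian
import Pool.Agent.MP_e1dc65_gt.fm.Hza
import Pool.Agent.MP_e1dc65_gt.t2.Disc
import Pool.Agent.MP_e1dc65_gt.k.Mk
import Pool.Agent.MP_e1dc65_gt.u.Spec
import Pool.Agent.MP_e1dc65_gt.b.Adapt
import Mathlib.Analysis.SpecialFunctions.Log.Deriv
import Mathlib.LinearAlgebra.Basis.VectorSpace

-- ======== part 0: formerly Pool.Agent.MP_e1dc65_gt.fm.Vol
section MrgPart0

/-! PROJECT HC, row VOL: the measure of an orientation form. -/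

open scoped ContDiff Manifold Topology ENNReal
open Set Filter Function Module MeasureTheory Pool.Agent.MP_c8d41b_gt.GF

set_option linter.unusedSectionVars false

noncomputable section

namespace Pool.Agent.MP_e1dc65_gt

namespace Vol

variable {E : Type} [NormedAddCommGroup E] [NormedSpace ℝ E] [FiniteDimensional ℝ E] {X : Mf E}
  {N N' : ℕ} {o : X → Lam E} {φ φ' : Rn N → X} {W W' : Set (Rn N)}

/-- the coefficient of the form in a parametrisation -/
def co (o : X → Lam E) (φ : Rn N → X) (y : Rn N) : ℝ :=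
  ev (List.ofFn (Pi.basisFun ℝ (Fin N))) (pbM (vs (Rn N)) X φ o y)

theorem dim (h : OE (vs (Rn N)) X φ W) (hW : W.Nonempty) : finrank ℝ E = N := by
  obtain ⟨y, hy⟩ := hW
  obtain ⟨L, -⟩ := (h.ld y hy).inv
  simpa using L.toLinearEquiv.finrank_eq.symm

theorem cda_ev (l : List E) {F : Type} [NormedAddCommGroup F] [NormedSpace ℝ F] {α : F → Lam E}
    {y : F} (h : ContDiffAt ℝ ∞ α y) : ContDiffAt ℝ ∞ (fun y => ev l (α y)) y := by
  simp only [ev_eq]
  exact cda_lin _ h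

theorem co_cont (ho : Ori X N' o univ) (h : OE (vs (Rn N)) X φ W) : ContinuousOn (co o φ) W :=
  fun y hy =>
    (cda_ev _ (fmAt_vs.1 ((ho.fm _ trivial).1.pb (h.sm y hy)))).continuousAt.continuousWithinAt

theorem co_ne (ho : Ori X N o univ) (h : OE (vs (Rn N)) X φ W) {y : Rn N} (hy : y ∈ W) :
    co o φ y ≠ 0 :=
  ev_basis_ne _ (pbM_dg (ho.fm _ trivial).2) ((h.ld y hy).pbM_ne (ho.ne _ trivial))

variable [MeasurableSpace X] [BorelSpace X] {S : Set X} {f : X → ℝ≥0∞}

theorem meas_pre (h : OE (vs (Rn N)) X φ W) (hS : MeasurableSet S) :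
    MeasurableSet (W ∩ φ ⁻¹' S) := by
  have := h.op.measurableSet.subtype_image
    ((continuousOn_iff_continuous_domRestrict.1 h.sm.contOn).measurable hS)
  convert this using 1
  ext y
  simp [and_comm]

/-- change of parametrisation -/
theorem change (h : OE (vs (Rn N)) X φ W) (h' : OE (vs (Rn N)) X φ' W') (hS : MeasurableSet S)
    (s : S ⊆ φ '' W) (s' : S ⊆ φ' '' W') (f : X → ℝ≥0∞) :
    ∫⁻ y in W ∩ φ ⁻¹' S, f (φ y) * ENNReal.ofReal |co o φ y| =
      ∫⁻ y in W' ∩ φ' ⁻¹' S, f (φ' y) * ENNReal.ofReal |co o φ' y| := by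
  have r : ∀ x ∈ φ' '' W', φ' (invFunOn φ' W' x) = x := fun x hx => invFunOn_eq hx
  have hs : ∀ y ∈ W ∩ φ ⁻¹' S, SmAt (vs (Rn N)) (vs (Rn N)) (fun y => invFunOn φ' W' (φ y)) y :=
    fun y hy => (h.sm y hy.1).trans (h'.symm.sm _ (s' hy.2))
  have im : (fun y => invFunOn φ' W' (φ y)) '' (W ∩ φ ⁻¹' S) = W' ∩ φ' ⁻¹' S := by
    ext z
    constructor
    · rintro ⟨y, hy, rfl⟩
      exact ⟨invFunOn_mem (s' hy.2), by rw [mem_preimage, r _ (s' hy.2)]; exact hy.2⟩
    · rintro ⟨hz, hz'⟩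
      obtain ⟨y, hy, e⟩ := s hz'
      exact ⟨y, ⟨hy, by rw [mem_preimage, e]; exact hz'⟩, by simp only [e, h'.left hz]⟩
  rw [← im, lintegral_image_eq_lintegral_abs_det_fderiv_mul volume (meas_pre h hS)
    (fun y hy => ((smAt_vs.1 (hs y hy)).differentiableAt (by simp)).hasFDerivAt.hasFDerivWithinAt)
    fun y hy y' hy' e => h.inj hy.1 hy'.1 (by
      rw [← r _ (s' hy.2), ← r _ (s' hy'.2)]; exact congrArg φ' e)]
  refine setLIntegral_congr_fun (meas_pre h hS) fun y hy => ?_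
  have e : φ =ᶠ[𝓝 y] fun y => φ' (invFunOn φ' W' (φ y)) := by
    filter_upwards [(h.sm y hy.1).cont.preimage_mem_nhds (h'.symm.op.mem_nhds (s' hy.2))] with z hz
    exact (r _ hz).symm
  have e2 : co o φ y = (fderiv ℝ (fun y => invFunOn φ' W' (φ y)) y).det *
      co o φ' (invFunOn φ' W' (φ y)) := by
    rw [co, pbM_congr e, pbM_comp (hs y hy) (h'.sm _ (invFunOn_mem (s' hy.2))), pbM, Df_vs,
      ev_mp_det, co]
  simp only [e2, r _ (s' hy.2), abs_mul, ENNReal.ofReal_mul (abs_nonneg _), mul_left_comm]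

/-- the measure of one parametrisation -/
def mu (o : X → Lam E) (φ : Rn N → X) (W : Set (Rn N)) : Measure X :=
  ((volume.restrict W).withDensity fun y => ENNReal.ofReal |co o φ y|).map φ

theorem mu_int (ho : Ori X N' o univ) (h : OE (vs (Rn N)) X φ W) (hS : MeasurableSet S)
    (hf : Measurable f) : ∫⁻ x in S, f x ∂mu o φ W =
      ∫⁻ y in W ∩ φ ⁻¹' S, f (φ y) * ENNReal.ofReal |co o φ y| := by
  have h1 : AEMeasurable φ (volume.restrict W) := h.sm.contOn.aemeasurable h.op.measurableSet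
  rw [← lintegral_indicator hS, mu, lintegral_map' (hf.indicator hS).aemeasurable
    (h1.mono' (withDensity_absolutelyContinuous _ _)), lintegral_withDensity_eq_lintegral_mul₀
    ((co_cont ho h).abs.aemeasurable h.op.measurableSet).ennreal_ofReal
    ((hf.indicator hS).comp_aemeasurable' h1),
    ← inter_eq_left.2 (inter_subset_left (s := W) (t := φ ⁻¹' S)),
    ← Measure.restrict_restrict (meas_pre h hS), ← lintegral_indicator (meas_pre h hS)]
  refine setLIntegral_congr_fun h.op.measurableSet fun y hy => ?_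
  by_cases hy' : φ y ∈ S
  · simp [indicator, hy, hy', mul_comm]
  · simp [indicator, hy']

omit [MeasurableSpace X] [BorelSpace X] in
theorem par (hN : finrank ℝ E = N) (x : X) :
    ∃ (φ : Rn N → X) (W : Set (Rn N)), OE (vs (Rn N)) X φ W ∧ x ∈ φ '' W := by
  let L : Rn N ≃L[ℝ] E := ContinuousLinearEquiv.ofFinrankEq (by simp [hN])
  refine ⟨fun y => (ch X x).symm (L y), L ⁻¹' (ch X x).target,
    OE.trans (X := vs (Rn N)) (Y := vs E) (f := L)
    ⟨(ch X x).open_target.preimage L.continuous, fun y _ => ldAt_cle L y, L.injective.injOn⟩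
    oe_ch_symm fun _ h => h, L.symm (ch X x x), ?_, ?_⟩
  · simp
  · simp

omit [MeasurableSpace X] [BorelSpace X] in
theorem cover (hN : finrank ℝ E = N) : ∃ (φ : ℕ → Rn N → X) (W : ℕ → Set (Rn N)),
    (∀ n, OE (vs (Rn N)) X (φ n) (W n)) ∧ ⋃ n, φ n '' W n = univ := by
  choose φ W h hx using par (X := X) hN
  obtain ⟨s, hs, hc⟩ := TopologicalSpace.countable_cover_nhds fun x => (h x).symm.op.mem_nhds (hx x)
  obtain ⟨g, rfl⟩ := hs.exists_eq_range (nonempty_iff_ne_empty.2 fun e => by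
    rw [e] at hc; simpa using hc.symm)
  exact ⟨fun n => φ (g n), fun n => W (g n), fun n => h _, by rw [← hc, biUnion_range]⟩

theorem exists_vol (ho : Ori X N o univ) : ∃ μ, IsVol X o μ := by
  obtain ⟨ψ, V, h, hc⟩ := cover (X := X) ho.dim
  have hD : ∀ n, MeasurableSet (disjointed (fun n => ψ n '' V n) n) :=
    MeasurableSet.disjointed fun n => (h n).symm.op.measurableSet
  refine ⟨Measure.sum fun n => (mu o (ψ n) (V n)).restrict (disjointed (fun n => ψ n '' V n) n),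
    fun M φ W hφ f hf => ?_⟩
  rcases W.eq_empty_or_nonempty with rfl | hW
  · simp
  obtain rfl : N = M := ho.dim.symm.trans (dim hφ hW)
  have hm := hφ.symm.op.measurableSet
  have e : W = ⋃ n, W ∩ φ ⁻¹' (φ '' W ∩ disjointed (fun n => ψ n '' V n) n) := by
    rw [← inter_iUnion, ← preimage_iUnion, ← inter_iUnion, iUnion_disjointed, hc, inter_univ,
      inter_eq_left.2 (subset_preimage_image φ W)]
  rw [Measure.restrict_sum _ hm, lintegral_sum_measure]
  conv_rhs => rw [e]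
  rw [lintegral_iUnion (fun n => meas_pre hφ (hm.inter (hD n))) fun n m hnm =>
    (((disjoint_disjointed _ hnm).mono inter_subset_right inter_subset_right).preimage φ).mono
      inter_subset_right inter_subset_right]
  refine tsum_congr fun n => ?_
  rw [Measure.restrict_restrict hm, mu_int ho (h n) (hm.inter (hD n)) hf]
  exact change (h n) hφ (hm.inter (hD n)) (inter_subset_right.trans (disjointed_subset _ n))
    inter_subset_left f

theorem unique (hN : finrank ℝ E = N) {μ ν : Measure X} (h : IsVol X o μ) (h' : IsVol X o ν) :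
    μ = ν := by
  obtain ⟨ψ, V, hψ, hc⟩ := cover (X := X) hN
  exact Measure.ext_of_iUnion_eq_univ hc fun n => Measure.ext_of_lintegral _ fun f hf =>
    (h N _ _ (hψ n) f hf).trans (h' N _ _ (hψ n) f hf).symm

theorem apply {μ : Measure X} (h : IsVol X o μ) (hφ : OE (vs (Rn N)) X φ W) :
    μ (φ '' W) = ∫⁻ y in W, ENNReal.ofReal |co o φ y| := by
  simpa [co] using h N φ W hφ (fun _ => 1) measurable_const

theorem locFin (ho : Ori X N o univ) {μ : Measure X} (h : IsVol X o μ) :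
    IsLocallyFiniteMeasure μ := ⟨fun x => by
  obtain ⟨φ, W, hφ, y, hy, rfl⟩ := par ho.dim x
  obtain ⟨K, hK, h1, h2⟩ := exists_compact_subset hφ.op hy
  have h3 := hφ.mono isOpen_interior (interior_subset.trans h2)
  refine ⟨_, h3.symm.op.mem_nhds ⟨y, h1, rfl⟩, ?_⟩
  rw [apply h h3]
  refine (lintegral_mono_set interior_subset).trans_lt ?_
  simpa only [HasFiniteIntegral, Real.enorm_eq_ofReal_abs] using
    (((co_cont ho hφ).mono h2).integrableOn_compact (μ := volume) hK).hasFiniteIntegral⟩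

theorem openPos (ho : Ori X N o univ) {μ : Measure X} (h : IsVol X o μ) : μ.IsOpenPosMeasure :=
  ⟨fun U hU ⟨x, hx⟩ h0 => by
    obtain ⟨φ, W, hφ, y, hy, rfl⟩ := par ho.dim x
    have h1 := hφ.sm.contOn.isOpen_inter_preimage hφ.op hU
    have h3 := hφ.mono h1 inter_subset_left
    have h4 := measure_mono_null (image_subset_iff.2 inter_subset_right : φ '' (W ∩ φ ⁻¹' U) ⊆ U) h0
    rw [apply h h3, lintegral_eq_zero_iff'
      ((co_cont ho h3).abs.aemeasurable h1.measurableSet).ennreal_ofReal, EventuallyEq,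
      ae_restrict_iff' h1.measurableSet, ae_iff] at h4
    refine h1.measure_ne_zero volume ⟨y, hy, hx⟩ (measure_mono_null (fun z hz => ?_) h4)
    exact fun hz' => (abs_pos.2 (co_ne ho h3 hz)).not_ge (ENNReal.ofReal_eq_zero.1 (hz' hz))⟩

omit [MeasurableSpace X] [BorelSpace X] in
theorem sm_cf (ho : Ori X N o univ) {α : X → Lam E} {x : X} (h : FmAt X α x) :
    SmAt X (vs ℝ) (fun y => cf (o y) (α y)) x := by
  obtain rfl := ho.dim
  have h0 : ev (List.ofFn (finBasis ℝ E)) (loc X x o (ch X x x)) ≠ 0 := by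
    rw [loc_self]
    exact ev_basis_ne _ (ho.fm _ trivial).2 (ho.ne _ trivial)
  refine smAt_iff_loc.2 (((cda_ev (List.ofFn (finBasis ℝ E)) h).div
    (cda_ev _ (ho.fm x trivial).1) h0).congr_of_eventuallyEq ?_)
  filter_upwards [(ch X x).open_target.mem_nhds (mem_chart_target E x)] with z hz
  obtain ⟨L, hL⟩ := (ldAt_ch_symm hz).inv
  simp only [cf, pbM, ev_mp_det, Pi.div_apply]
  rw [mul_div_mul_left _ _ (hL ▸ L.toLinearEquiv.isUnit_det'.ne_zero)]

end Vol

theorem volM : VolStmt := by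
  intro E _ _ _ X N o ho
  let _ : MeasurableSpace X := borel X
  have : BorelSpace X := ⟨rfl⟩
  have h := Vol.exists_vol ho
  have h1 : IsVol X o (vol X o) := by
    rw [vol, dif_pos h]
    exact h.choose_spec
  have := Vol.locFin ho h1
  exact ⟨h1, fun μ hμ => Vol.unique ho.dim hμ h1, inferInstance, Vol.openPos ho h1,
    fun α x => Vol.sm_cf ho⟩

end Pool.Agent.MP_e1dc65_gt

end
end MrgPart0

-- ======== part 1: formerly Pool.Agent.MP_e1dc65_gt.b.Int
section MrgPart1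

/-! PROJECT HC: the interior as a manifold, and the collar of one boundary component. -/

open scoped ContDiff Manifold Topology
open Set Filter Function Topology

noncomputable section

namespace Pool.Agent.MP_e1dc65_gt.B

variable {M : Mf E4} {W : Type} [TopologicalSpace W] [ChartedSpace (EuclideanHalfSpace 5) W]
  [IsManifold (𝓡∂ 5) ∞ W] {i : M → W}

variable (W) in
/-- interior points -/
abbrev Int : Type := {w : W // (𝓡∂ 5).IsInteriorPoint w}

theorem int_ext (x : W) {w : W} (h : w ∈ (chartAt (EuclideanHalfSpace 5) x).source) :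
    (𝓡∂ 5).IsInteriorPoint w ↔ extChartAt (𝓡∂ 5) x w ∈ interior (extChartAt (𝓡∂ 5) x).target :=
  (𝓡∂ 5).isInteriorPoint_iff_of_mem_atlas (n := ∞) (by simp) (chart_mem_atlas _ x) h

theorem int_symm (x : W) {y} (h : y ∈ interior (extChartAt (𝓡∂ 5) x).target) :
    (𝓡∂ 5).IsInteriorPoint ((extChartAt (𝓡∂ 5) x).symm y) := by
  have k := (extChartAt (𝓡∂ 5) x).map_target (interior_subset h)
  rw [int_ext x (by rwa [extChartAt_source] at k),
    (extChartAt (𝓡∂ 5) x).right_inv (interior_subset h)]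
  exact h

open Classical in
/-- charts of the interior -/
def intCh (x : Int W) : OpenPartialHomeomorph (Int W) (E4 × ℝ) where
  toFun v := cons5.symm (extChartAt (𝓡∂ 5) x.1 v.1)
  invFun p := if h : cons5 p ∈ interior (extChartAt (𝓡∂ 5) x.1).target then
    ⟨_, int_symm x.1 h⟩ else x
  source := {v | v.1 ∈ (chartAt (EuclideanHalfSpace 5) x.1).source}
  target := {p | cons5 p ∈ interior (extChartAt (𝓡∂ 5) x.1).target}
  map_source' v hv := by
    rw [mem_ofPred_eq, cons5.apply_symm_apply]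
    exact (int_ext x.1 hv).1 v.2
  map_target' p hp := by
    rw [mem_ofPred_eq] at hp
    rw [dif_pos hp, mem_ofPred_eq, ← extChartAt_source (𝓡∂ 5)]
    exact (extChartAt (𝓡∂ 5) x.1).map_target (interior_subset hp)
  left_inv' v hv := by
    simp only [cons5.apply_symm_apply, dif_pos ((int_ext x.1 hv).1 v.2)]
    exact Subtype.ext ((extChartAt (𝓡∂ 5) x.1).left_inv (by rwa [extChartAt_source]))
  right_inv' p hp := by
    rw [mem_ofPred_eq] at hp
    simp only [dif_pos hp]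
    rw [(extChartAt (𝓡∂ 5) x.1).right_inv (interior_subset hp), cons5.symm_apply_apply]
  open_source := (chartAt _ x.1).open_source.preimage continuous_subtype_val
  open_target := isOpen_interior.preimage cons5.continuous
  continuousOn_toFun := cons5.symm.continuous.comp_continuousOn
    ((continuousOn_extChartAt x.1).comp continuous_subtype_val.continuousOn
      fun v hv => by rwa [extChartAt_source])
  continuousOn_invFun := by
    rw [IsEmbedding.subtypeVal.continuousOn_iff]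
    refine ((continuousOn_extChartAt_symm x.1).comp cons5.continuous.continuousOn
      fun p hp => interior_subset hp).congr fun p hp => ?_
    exact congrArg Subtype.val (dif_pos hp)

theorem intCh_symm (x : Int W) {p} (hp : p ∈ (intCh x).target) :
    ((intCh x).symm p).1 = (extChartAt (𝓡∂ 5) x.1).symm (cons5 p) :=
  congrArg Subtype.val (dif_pos hp)

theorem intCh_sm (x : Int W) {p} (hp : p ∈ (intCh x).target) :
    ContMDiffAt 𝓘(ℝ, E4 × ℝ) (𝓡∂ 5) ∞ (fun p => ((intCh x).symm p).1) p := by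
  refine (((contMDiffOn_extChartAt_symm x.1).contMDiffAt (mem_interior_iff_mem_nhds.1 hp)).comp p
    cons5.contDiff.contMDiff.contMDiffAt).congr_of_eventuallyEq ?_
  filter_upwards [(intCh x).open_target.mem_nhds hp] with q hq using intCh_symm x hq

variable [T2Space W] [CompactSpace W] [Nonempty (Int W)]

variable (W) in
/-- the interior as a manifold -/
def IntM : Mf (E4 × ℝ) :=
  haveI : SecondCountableTopology (EuclideanHalfSpace 5) :=
    inferInstanceAs (SecondCountableTopology {x : EuclideanSpace ℝ (Fin 5) // 0 ≤ x 0})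
  haveI := ChartedSpace.secondCountable_of_sigmaCompact (EuclideanHalfSpace 5) W
  haveI : SecondCountableTopology (Int W) := TopologicalSpace.Subtype.secondCountableTopology _
  Mf.ofCharts (Int W) intCh (fun x => mem_chart_source _ x.1) fun x y z hx hy => by
    have k := (intCh x).map_source hx
    refine cons5.symm.contDiff.contDiffAt.comp _ (contMDiffAt_iff_contDiffAt.1
      (ContMDiffAt.comp _ (contMDiffAt_extChartAt' ?_) (intCh_sm x k)))
    rwa [(intCh x).left_inv hx]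

theorem val_sm (w : IntM W) : ContMDiffAt 𝓘(ℝ, E4 × ℝ) (𝓡∂ 5) ∞ (fun v : IntM W => v.1) w := by
  have k := mem_ch (IntM W) w
  refine ((intCh_sm w ((intCh w).map_source k)).comp w (smAt_ch k)).congr_of_eventuallyEq ?_
  filter_upwards [(intCh w).open_source.mem_nhds k] with v hv
  exact congrArg Subtype.val ((intCh w).left_inv hv).symm

theorem sm_into {E : Type} [NormedAddCommGroup E] [NormedSpace ℝ E] {X : Mf E} {g : X → IntM W}
    {x : X} (h : ContMDiffAt 𝓘(ℝ, E) (𝓡∂ 5) ∞ (fun y => (g y).1) x) : SmAt X (IntM W) g x :=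
  (ldAt_ch (mem_ch (IntM W) (g x))).sm_of_lift
    (IsEmbedding.subtypeVal.continuousAt_iff.2 h.continuousAt)
    (cons5.symm.contDiff.contDiffAt.comp_contMDiffAt (contMDiffAt_extChartAt.comp x h))

open Classical in
theorem Ad.ld {φ Ψ Φ S T} (h : Ad i φ Ψ Φ S T) (w : IntM W) (hw : w.1 ∈ S) :
    LDAt (IntM W) (vs (E4 × ℝ)) (fun v => Ψ v.1) w := by
  have o : IsOpen (T ∩ {p | 0 < p.2}) := h.oT.inter (isOpen_lt continuous_const continuous_snd)
  have m : T ∩ {p | 0 < p.2} ⊆ T ∩ Hs E4 := fun p hp => ⟨hp.1, mem_Hs.2 (le_of_lt hp.2)⟩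
  have k : ∀ p ∈ T ∩ {p | 0 < p.2}, (𝓡∂ 5).IsInteriorPoint (Φ p) := fun p hp =>
    (h.int _ (h.mΦ (m hp))).2 (by rw [h.right _ (m hp)]; exact hp.2)
  have n : ∀ v : IntM W, v.1 ∈ S → Ψ v.1 ∈ T ∩ {p | 0 < p.2} := fun v hv =>
    ⟨(h.mΨ hv).1, (h.int _ hv).1 v.2⟩
  obtain ⟨g, hg⟩ : ∃ g : E4 × ℝ → IntM W, ∀ p ∈ T ∩ {p | 0 < p.2}, (g p).1 = Φ p :=
    ⟨fun p => if e : p ∈ T ∩ {p | 0 < p.2} then ⟨Φ p, k p e⟩ else w,
      fun p hp => congrArg Subtype.val (dif_pos hp)⟩
  refine ldAt_of_inv (Y := vs (E4 × ℝ)) (U := {v | v.1 ∈ S}) (g := g)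
    (h.oS.preimage continuous_subtype_val) o hw
    (fun v hv => (h.Ψs.contMDiffAt (h.oS.mem_nhds hv)).comp v (val_sm v))
    (fun p hp => sm_into (((h.Φs.mono m).contMDiffAt (o.mem_nhds hp)).congr_of_eventuallyEq
      ((o.eventually_mem hp).mono hg))) n
    (fun p hp => ?_) (fun v hv => Subtype.ext ((hg _ (n v hv)).trans (h.left _ hv))) fun p hp => ?_
  · rw [mem_ofPred_eq, hg p hp]
    exact h.mΦ (m hp)
  · rw [hg p hp]
    exact h.right _ (m hp)

theorem Gd.loc {O π ρ} (h : Gd i O π ρ) {y : M} (hy : i y ∈ O) :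
    (∃ V ∈ 𝓝 (i y), InjOn (fun w => (π w, ρ w)) V) ∧
    (∀ Q ∈ 𝓝 (i y), (fun w => (π w, ρ w)) '' Q ∈ 𝓝[univ ×ˢ Ici 0] (y, (0 : ℝ))) ∧
    ∀ᶠ w in 𝓝 (i y), ((𝓡∂ 5).IsInteriorPoint w ↔ 0 < ρ w) ∧
      ∀ v : IntM W, v.1 = w → LDAt (IntM W) M.cyl (fun v => (π v.1, ρ v.1)) v := by
  obtain ⟨φ, Ψ, Φ, S, T, c, a, hS, hc, hl⟩ := h.low y hy
  obtain ⟨y1, y2⟩ := a.inc y hS
  have o1 : IsOpen (O ∩ π ⁻¹' φ.source) :=
    ContinuousOn.isOpen_inter_preimage (fun w hw => (h.πs w hw).continuousAt.continuousWithinAt)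
      h.op φ.open_source
  obtain ⟨T', oT', eT'⟩ := continuousOn_iff'.1 a.Φs.continuousOn _ o1
  have mT : ∀ p ∈ T' ∩ T ∩ Hs E4, Φ p ∈ O ∩ π ⁻¹' φ.source := fun p hp =>
    ((Set.ext_iff.1 eT' p).2 ⟨hp.1.1, hp.1.2, hp.2⟩).1
  have p0 : (φ y, (0 : ℝ)) ∈ T ∩ Hs E4 := y2 ▸ a.mΨ hS
  have Φ0 : Φ (φ y, 0) = i y := by rw [← y2, a.left _ hS]
  have tΦ : Tendsto Φ (𝓝[Hs E4] (φ y, 0)) (𝓝 (i y)) := by
    rw [← Φ0, ← nhdsWithin_inter_of_mem (nhdsWithin_le_nhds (a.oT.mem_nhds p0.1))]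
    exact a.Φs.continuousOn _ p0
  have eT : ∀ᶠ p in 𝓝[Hs E4] (φ y, (0 : ℝ)), p ∈ T ∩ Hs E4 :=
    inter_mem (nhdsWithin_le_nhds (a.oT.mem_nhds p0.1)) self_mem_nhdsWithin
  have fs : ContDiffOn ℝ ∞ (fun p => (φ (π (Φ p)), ρ (Φ p))) (T' ∩ T ∩ Hs E4) := by
    rw [← contMDiffOn_iff_contDiffOn]
    intro p hp
    have k := (a.Φs p ⟨hp.1.2, hp.2⟩).mono (t := T' ∩ T ∩ Hs E4) fun q hq => ⟨hq.1.2, hq.2⟩
    exact (((a.φ1 _ (mT p hp).2).comp _ (h.πs _ (mT p hp).1)).comp_contMDiffWithinAt p k).prodMk_space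
      ((h.ρs _ (mT p hp).1).comp_contMDiffWithinAt p k)
  obtain ⟨B, oB, B0, BT, b1, b2, b3⟩ := half (oT'.inter a.oT)
    ⟨((Set.ext_iff.1 eT' _).1 ⟨by
      rw [mem_preimage, Φ0]
      exact ⟨hy, by rw [mem_preimage, (h.inc y hy).1]; exact y1⟩, p0⟩).1, p0.1⟩ fs
    (fun v hv => by
      have m : (v, (0 : ℝ)) ∈ T ∩ Hs E4 := ⟨hv.2, mem_Hs.2 le_rfl⟩
      have e := a.onto _ (a.mΦ m) (by rw [a.right _ m])
      have f := a.fst _ (a.mΦ m)
      rw [a.right _ m] at e f
      have k := h.inc _ (e ▸ (mT _ ⟨hv, m.2⟩).1)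
      rw [e, k.1, k.2, φ.right_inv f]) hc
    (by filter_upwards [tΦ.eventually hl, eT] with p h1 h2; rwa [a.right _ h2] at h1)
  have oV : IsOpen (S ∩ Ψ ⁻¹' B) := a.Ψs.continuousOn.isOpen_inter_preimage a.oS oB
  have V0 : S ∩ Ψ ⁻¹' B ∈ 𝓝 (i y) := oV.mem_nhds ⟨hS, by rwa [mem_preimage, y2]⟩
  have mV : ∀ w ∈ S ∩ Ψ ⁻¹' B, w ∈ O ∩ π ⁻¹' φ.source := fun w hw => by
    have := mT _ ⟨BT hw.2, (a.mΨ hw.1).2⟩
    rwa [a.left _ hw.1] at this
  refine ⟨⟨_, V0, fun w hw w' hw' e => ?_⟩, fun Q hQ => ?_, ?_⟩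
  · rw [← a.left _ hw.1, ← a.left _ hw'.1,
      b1 ⟨hw.2, (a.mΨ hw.1).2⟩ ⟨hw'.2, (a.mΨ hw'.1).2⟩]
    simp only [a.left _ hw.1, a.left _ hw'.1, (Prod.mk.inj e).1, (Prod.mk.inj e).2]
  · obtain ⟨B', hB', s⟩ := mem_nhdsWithin_iff_exists_mem_nhds_inter.1
      (tΦ.eventually (inter_mem hQ V0))
    have t : Tendsto (fun z : M × ℝ => (φ z.1, z.2)) (𝓝[univ ×ˢ Ici 0] (y, (0 : ℝ)))
        (𝓝[Hs E4] (φ y, 0)) :=
      ContinuousWithinAt.tendsto_nhdsWithin (f := fun z : M × ℝ => (φ z.1, z.2))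
        (((φ.continuousAt y1).prodMap continuousAt_id).continuousWithinAt)
        fun z hz => mem_Hs.2 hz.2
    filter_upwards [t.eventually (b3 B' hB'), nhdsWithin_le_nhds
      (continuousAt_fst.preimage_mem_nhds (φ.open_source.mem_nhds y1))]
    rintro z ⟨p, hp, e⟩ hz
    exact ⟨Φ p, (s hp).1, Prod.ext (φ.injOn (mV _ (s hp).2).2 hz (Prod.mk.inj e).1)
      (Prod.mk.inj e).2⟩
  · filter_upwards [V0, hl] with w hw h1
    refine ⟨⟨fun k => (mul_pos hc ((a.int _ hw.1).1 k)).trans_le h1, fun k => ?_⟩, ?_⟩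
    · by_contra n
      have e := a.onto _ hw.1 (le_antisymm (not_lt.1 fun l => n ((a.int _ hw.1).2 l))
        (mem_Hs.1 (a.mΨ hw.1).2))
      rw [e, (h.inc _ (e ▸ (mV _ hw).1)).2] at k
      exact lt_irrefl _ k
    · rintro v rfl
      have p2 := (a.int _ hw.1).1 v.2
      have o : IsOpen (T' ∩ T ∩ {p | 0 < p.2}) :=
        (oT'.inter a.oT).inter (isOpen_lt continuous_const continuous_snd)
      have l1 := ldAt_vs (o.mem_nhds ⟨BT hw.2, p2⟩) (fun p hp => (fs.mono fun q hq =>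
        ⟨hq.1, mem_Hs.2 (le_of_lt hq.2)⟩).contDiffAt (o.mem_nhds hp)) (b2 _ hw.2 p2)
      have l2 : LDAt M.cyl (vs (E4 × ℝ)) (fun z => (φ z.1, z.2)) (π v.1, ρ v.1) := by
        refine ldAt_of_inv (Y := vs (E4 × ℝ)) (g := fun z => (φ.symm z.1, z.2))
          (φ.open_source.prod isOpen_univ) (φ.open_target.prod isOpen_univ) ⟨(mV _ hw).2, trivial⟩
          (fun z hz => (smAt_fst.trans (a.φ1 _ hz.1)).vpair smAt_snd)
          (fun z hz => ((smAt_vs.2 contDiffAt_fst).trans (a.φ2 _ hz.1)).pair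
            (smAt_vs.2 contDiffAt_snd))
          (fun z hz => ⟨φ.map_source hz.1, trivial⟩) (fun z hz => ⟨φ.map_target hz.1, trivial⟩)
          (fun z hz => by simp only [φ.left_inv hz.1]) fun z hz => by simp only [φ.right_inv hz.1]
      have c1 := ((h.πs _ (mV _ hw).1).comp v (val_sm v)).continuousAt
      have c2 := ((h.ρs _ (mV _ hw).1).comp v (val_sm v)).continuousAt
      refine LDAt.ld_of_lift (Y := M.cyl) (f := fun v : IntM W => (π v.1, ρ v.1)) l2 (c1.prodMk c2)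
        (((a.ld v hw.1).trans l1).congr' ?_)
      filter_upwards [(a.oS.preimage continuous_subtype_val).mem_nhds hw.1] with u hu
      simp only [a.left _ hu]

end Pool.Agent.MP_e1dc65_gt.B

end
end MrgPart1

-- ======== part 2: formerly Pool.Agent.MP_e1dc65_gt.b.Sdr
section MrgPart2

/-! PROJECT HC: strong deformation retractions from collars. -/

open scoped Topology
open Set Filter Function Topology

noncomputable section

namespace Pool.Agent.MP_e1dc65_gt.B

variable {X A B P Y : Type} [TopologicalSpace X] [TopologicalSpace A] [TopologicalSpace B]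
  [TopologicalSpace P] [TopologicalSpace Y]

/-- clamp to the unit interval -/
def cl (u : ℝ) : ℝ := max 0 (min u 1)

@[fun_prop] theorem cl_cont : Continuous cl := by unfold cl; fun_prop
theorem cl_nn (u : ℝ) : 0 ≤ cl u := le_max_left _ _
theorem cl_le (u : ℝ) : cl u ≤ 1 := max_le zero_le_one (min_le_right _ _)
theorem cl_of {u : ℝ} (h : 0 ≤ u) (h' : u ≤ 1) : cl u = u := by
  rw [cl, min_eq_left h', max_eq_right h]
@[simp] theorem cl_zero : cl 0 = 0 := cl_of le_rfl zero_le_one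
@[simp] theorem cl_one : cl 1 = 1 := cl_of zero_le_one le_rfl

/-- the data of a collar of `a` -/
structure Clr (a : A → X) (l : X → ℝ) (q : X → A) (S : X × ℝ → X) : Prop where
  ac : Continuous a
  lc : Continuous l
  qc : ContinuousOn q {x | l x ≤ 1}
  Sc : Continuous S
  nn : ∀ x, 0 ≤ l x
  la : ∀ m, l (a m) = 0
  qa : ∀ m, q (a m) = m
  S0 : ∀ x, S (x, 0) = x
  Sa : ∀ x u, 2 * l x ≤ u → u ≤ 1 → S (x, u) = a (q x)

variable {a : A → X} {l : X → ℝ} {q : X → A} {S : X × ℝ → X}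

/-- homotopy extension -/
theorem Clr.hep (h : Clr a l q S) {f : X × P → Y} {G : (A × P) × ℝ → Y} (hf : Continuous f)
    (hG : Continuous G) (h0 : ∀ m p, G ((m, p), 0) = f (a m, p)) :
    Continuous fun z : (X × P) × ℝ => if 2 * l z.1.1 ≤ cl z.2 then
      G ((q z.1.1, z.1.2), cl z.2 - 2 * l z.1.1) else f (S (z.1.1, cl z.2), z.1.2) := by
  have := h.lc
  have := h.Sc
  refine continuous_if_le (by fun_prop) (by fun_prop) (hG.comp_continuousOn
    (((h.qc.comp (by fun_prop) fun z hz => ?_).prodMk (by fun_prop)).prodMk (by fun_prop)))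
    (Continuous.continuousOn (by fun_prop)) fun z hz => ?_
  · have h1 : 2 * l z.1.1 ≤ cl z.2 := hz
    change l z.1.1 ≤ 1
    linarith [cl_le z.2, h.nn z.1.1]
  · rw [h.Sa _ _ hz.le (cl_le _), ← hz, sub_self, h0]

theorem Clr.sdr (h : Clr a l q S) {r₀ : X → A} {G : A × ℝ → A} {k : X × ℝ → X}
    (hr : Continuous r₀) (hG : Continuous G) (hk : Continuous k) (G0 : ∀ m, G (m, 0) = r₀ (a m))
    (G1 : ∀ m, G (m, 1) = m) (k0 : ∀ x, k (x, 0) = a (r₀ x)) (k1 : ∀ x, k (x, 1) = x) :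
    ∃ (r : X → A) (D : X × ℝ → X), Continuous r ∧ Continuous D ∧ (∀ x, D (x, 0) = x) ∧
      (∀ x, D (x, 1) = a (r x)) ∧ (∀ m, r (a m) = m) ∧ ∀ m s, D (a m, s) = a m := by
  have ac := h.ac
  have Sc := h.Sc
  obtain ⟨R, Rc, R0, R1⟩ : ∃ R : X × ℝ → A, Continuous R ∧ (∀ x, R (x, 0) = r₀ x) ∧
      ∀ m, R (a m, 1) = m := by
    refine ⟨_, (h.hep (P := Unit) (f := fun z => r₀ z.1) (G := fun z => G (z.1.1, z.2))
      (by fun_prop) (by fun_prop) fun m _ => G0 m).comp
      (f := fun z : X × ℝ => ((z.1, ()), z.2)) (by fun_prop), fun x => ?_, fun m => ?_⟩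
    · simp only [comp_apply, cl_zero, h.S0]
      split_ifs with e
      · rw [show l x = 0 by linarith [h.nn x], mul_zero, sub_zero, G0,
          ← h.Sa x 0 e zero_le_one, h.S0]
      · rfl
    · simp [h.la, h.qa, G1]
  obtain ⟨g, gc, g0, g1⟩ : ∃ g : X × ℝ → X, Continuous g ∧ (∀ x, g (x, 0) = a (R (x, 1))) ∧
      ∀ x, g (x, 1) = x := by
    refine ⟨fun z => if z.2 ≤ 1 / 2 then a (R (z.1, 1 - 2 * z.2)) else k (z.1, 2 * z.2 - 1),
      Continuous.if_le (by fun_prop) (by fun_prop) (by fun_prop) (by fun_prop) fun z hz => ?_,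
      fun x => by norm_num, fun x => by norm_num [k1]⟩
    rw [hz]; norm_num [R0, k0]
  have Kc : Continuous fun z : X × ℝ =>
      if z.2 ≤ 1 / 2 then g (a (R (z.1, 1)), 1 - 2 * z.2) else g (z.1, 2 * z.2 - 1) := by
    refine Continuous.if_le (by fun_prop) (by fun_prop) (by fun_prop) (by fun_prop) fun z hz => ?_
    rw [hz]; norm_num [g0, R1]
  obtain ⟨E, Ec, E0, E1, Ea⟩ : ∃ E : X × ℝ → X, Continuous E ∧
      (∀ x, E (x, 0) = a (R (S (x, 1), 1))) ∧ (∀ x, E (x, 1) = S (x, 1)) ∧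
      ∀ m t, E (a m, t) = a m := by
    refine ⟨_, (h.hep (G := fun z => g (a z.1.1, z.2 + (1 - z.2) * |1 - 2 * z.1.2|)) Kc
      (by fun_prop) fun m t => ?_).comp (f := fun z : X × ℝ => (z, 1)) (by fun_prop),
      fun x => ?_, fun x => ?_, fun m t => ?_⟩
    · simp only [R1, zero_add, sub_zero, one_mul]
      split_ifs with e
      · rw [abs_of_nonneg (by linarith)]
      · rw [abs_of_nonpos (by linarith), neg_sub]
    · simp only [comp_apply, cl_one]
      split_ifs with e e'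
      · rw [h.Sa x 1 e le_rfl, R1]; norm_num [g1]
      · norm_num [g1]
      · norm_num at e'
    · simp only [comp_apply, cl_one]
      split_ifs with e e'
      · rw [h.Sa x 1 e le_rfl]; norm_num [g1]
      · norm_num at e'
      · norm_num [g1]
    · simp [h.la, h.qa, g1]
  have Sa : ∀ m u, S (a m, cl u) = a m := fun m u => by
    rw [h.Sa _ _ (by rw [h.la, mul_zero]; exact cl_nn u) (cl_le u), h.qa]
  refine ⟨fun x => R (S (x, 1), 1),
    fun z => if z.2 ≤ 1 / 2 then S (z.1, cl (2 * z.2)) else E (z.1, 2 - 2 * z.2), by fun_prop,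
    Continuous.if_le (by fun_prop) (by fun_prop) (by fun_prop) (by fun_prop) fun z hz => ?_,
    fun x => by norm_num [h.S0], fun x => by norm_num [E0], fun m => ?_, fun m s => ?_⟩
  · rw [hz]; norm_num [E1]
  · have := Sa m 1
    rw [cl_one] at this
    simp only [this, R1]
  · simp only [Sa, Ea, ite_self]

/-! ### Ends -/

variable {W : Type} [TopologicalSpace W] {c : A × ℝ → W} {c' : B × ℝ → W}

open Classical in
theorem glue [Nonempty A] (hc : IsOpenEmbedding c) {T : ℝ} (hT : IsClosed (c '' (univ ×ˢ Ici T)))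
    {α : (A × ℝ) × P → Y} {β : W × P → Y} (hα : Continuous α) (hβ : Continuous β)
    (e : ∀ m t p, t < T → α ((m, t), p) = β (c (m, t), p)) :
    ∃ φ : W × P → Y, Continuous φ ∧ (∀ z p, φ (c z, p) = α (z, p)) ∧
      ∀ w ∉ range c, ∀ p, φ (w, p) = β (w, p) := by
  refine ⟨fun z => if z.1 ∈ range c then α (invFun c z.1, z.2) else β z,
    continuous_iff_continuousAt.2 fun z => ?_,
    fun z p => by simp [leftInverse_invFun hc.injective z], fun w hw p => if_neg hw⟩
  by_cases hz : z.1 ∈ range c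
  · obtain ⟨⟨y, p⟩, rfl⟩ : z ∈ range (Prod.map c (id : P → P)) := by
      obtain ⟨y, hy⟩ := hz
      exact ⟨(y, z.2), by simp [hy]⟩
    rw [← (hc.prodMap IsOpenEmbedding.id).continuousAt_iff]
    refine (hα.congr fun z => ?_).continuousAt
    simp [leftInverse_invFun hc.injective z.1]
  · refine hβ.continuousAt.congr ?_
    filter_upwards [continuous_fst.continuousAt.preimage_mem_nhds (hT.isOpen_compl.mem_nhds
      fun k => hz (image_subset_range _ _ k))] with y hy
    split_ifs with k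
    · obtain ⟨⟨m, t⟩, k⟩ := k
      rw [← k, leftInverse_invFun hc.injective, e m t _
        (not_le.1 fun l => hy ⟨(m, t), ⟨trivial, l⟩, k⟩), k]
    · rfl

theorem slide [Nonempty A] (hc : IsOpenEmbedding c) {T : ℝ}
    (hT : IsClosed (c '' (univ ×ˢ Ici T))) {g : ℝ × ℝ → ℝ} (hg : Continuous g)
    (e : ∀ t s, t < T → g (t, s) = t) :
    ∃ φ : W × ℝ → W, Continuous φ ∧ (∀ m t s, φ (c (m, t), s) = c (m, g (t, s))) ∧
      ∀ w ∉ range c, ∀ s, φ (w, s) = w := by
  have := hc.continuous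
  obtain ⟨φ, h1, h2, h3⟩ := glue hc hT (α := fun z => c (z.1.1, g (z.1.2, z.2)))
    (β := Prod.fst) (by fun_prop) continuous_fst fun m t p k => by rw [e _ _ k]
  exact ⟨φ, h1, fun m t s => h2 _ _, h3⟩

omit [TopologicalSpace A] [TopologicalSpace B] [TopologicalSpace W] in
theorem mem_core {T : ℝ} {w : W} : w ∈ Core c c' T ↔
    (∀ m t, w = c (m, t) → t ≤ T) ∧ ∀ n t, w = c' (n, t) → t ≤ T := by
  simp only [Core, mem_compl_iff, mem_union, not_or, mem_image, not_exists, not_and, Prod.forall,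
    mem_prod, mem_univ, true_and, mem_Ioi]
  exact ⟨fun h => ⟨fun m t e => not_lt.1 fun k => h.1 m t k e.symm,
    fun m t e => not_lt.1 fun k => h.2 m t k e.symm⟩,
    fun h => ⟨fun m t k e => not_lt.2 (h.1 m t e.symm) k,
      fun m t k e => not_lt.2 (h.2 m t e.symm) k⟩⟩

omit [TopologicalSpace A] [TopologicalSpace B] [TopologicalSpace W] in
theorem core_comm (T : ℝ) : Core c c' T = Core c' c T := by rw [Core, Core, union_comm]

omit [TopologicalSpace A] [TopologicalSpace B] [TopologicalSpace W] in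
theorem core_left (hc : Injective c) (hd : ∀ p q, c p ≠ c' q) {T t : ℝ} (m : A) :
    c (m, t) ∈ Core c c' T ↔ t ≤ T :=
  ⟨fun h => (mem_core.1 h).1 m t rfl, fun h => mem_core.2
    ⟨fun _ _ e => (congrArg Prod.snd (hc e)).symm.trans_le h, fun _ _ e => absurd e (hd _ _)⟩⟩

/-- pushing both ends into the core -/
theorem push [Nonempty A] [Nonempty B] (hc : IsOpenEmbedding c) (hc' : IsOpenEmbedding c')
    (hd : ∀ p q, c p ≠ c' q) (hT : IsClosed (c '' (univ ×ˢ Ici 0)))
    (hT' : IsClosed (c' '' (univ ×ˢ Ici 0))) :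
    ∃ U : W × ℝ → W, Continuous U ∧ (∀ m t s, U (c (m, t), s) = c (m, t - s * max t 0)) ∧
      (∀ m t s, U (c' (m, t), s) = c' (m, t - s * max t 0)) ∧
      (∀ w ∈ Core c c' 0, ∀ s, U (w, s) = w) ∧ (∀ w, U (w, 0) = w) ∧
      ∀ w, U (w, 1) ∈ Core c c' 0 := by
  have e : ∀ t s : ℝ, t < 0 → t - s * max t 0 = t := fun t s k => by simp [max_eq_right k.le]
  obtain ⟨φ, a1, a2, a3⟩ := slide hc hT (g := fun z => z.1 - z.2 * max z.1 0) (by fun_prop) e
  obtain ⟨ψ, b1, b2, b3⟩ := slide hc' hT' (g := fun z => z.1 - z.2 * max z.1 0) (by fun_prop) e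
  have u1 : ∀ m t s, ψ (φ (c (m, t), s), s) = c (m, t - s * max t 0) := fun m t s => by
    rw [a2, b3 _ fun ⟨y, k⟩ => hd _ _ k.symm]
  have u2 : ∀ m t s, ψ (φ (c' (m, t), s), s) = c' (m, t - s * max t 0) := fun m t s => by
    rw [a3 _ fun ⟨y, k⟩ => hd _ _ k, b2]
  have tri : ∀ w, (∃ m t, w = c (m, t)) ∨ (∃ m t, w = c' (m, t)) ∨
      (w ∈ Core c c' 0 ∧ ∀ s, ψ (φ (w, s), s) = w) := fun w => by
    by_cases k : w ∈ range c
    · obtain ⟨⟨m, t⟩, rfl⟩ := k
      exact Or.inl ⟨m, t, rfl⟩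
    by_cases k' : w ∈ range c'
    · obtain ⟨⟨m, t⟩, rfl⟩ := k'
      exact Or.inr (Or.inl ⟨m, t, rfl⟩)
    exact Or.inr (Or.inr ⟨mem_core.2 ⟨fun _ _ e => absurd ⟨_, e.symm⟩ k,
      fun _ _ e => absurd ⟨_, e.symm⟩ k'⟩, fun s => by rw [a3 _ k, b3 _ k']⟩)
  have m0 : ∀ t : ℝ, t - 1 * max t 0 ≤ 0 := fun t => by linarith [le_max_left t 0]
  refine ⟨fun z => ψ (φ z, z.2), by fun_prop, u1, u2, fun w hw s => ?_, fun w => ?_, fun w => ?_⟩
  · rcases tri w with ⟨m, t, rfl⟩ | ⟨m, t, rfl⟩ | k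
    · simp [u1, max_eq_right ((mem_core.1 hw).1 m t rfl)]
    · simp [u2, max_eq_right ((mem_core.1 hw).2 m t rfl)]
    · exact k.2 s
  · rcases tri w with ⟨m, t, rfl⟩ | ⟨m, t, rfl⟩ | k
    · simp [u1]
    · simp [u2]
    · exact k.2 0
  · rcases tri w with ⟨m, t, rfl⟩ | ⟨m, t, rfl⟩ | k
    · simp only [u1]; exact (core_left hc.injective hd m).2 (m0 t)
    · simp only [u2]
      rw [core_comm]
      exact (core_left hc'.injective (fun p q => (hd q p).symm) m).2 (m0 t)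
    · simp only [k.2]; exact k.1

/-- from a homotopy equivalence to a strong deformation -/
theorem sdr [Nonempty A] [Nonempty B] (hc : IsOpenEmbedding c) (hc' : IsOpenEmbedding c')
    (hd : ∀ p q, c p ≠ c' q) (hT : ∀ T, IsClosed (c '' (univ ×ˢ Ici T)))
    (hT' : IsClosed (c' '' (univ ×ˢ Ici 0))) {r₀ : W → A} {G : A × ℝ → A} {k : W × ℝ → W}
    (hr : Continuous r₀) (hG : Continuous G) (hk : Continuous k)
    (G0 : ∀ m, G (m, 0) = r₀ (c (m, 0))) (G1 : ∀ m, G (m, 1) = m)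
    (k0 : ∀ x, k (x, 0) = c (r₀ x, 0)) (k1 : ∀ x ∈ Core c c' 0, k (x, 1) = x)
    (kc : ∀ z, k z ∈ Core c c' 0) : ∃ r H, Sdr c c' r H := by
  obtain ⟨U, Uc, U1, U2, U3, U4, U5⟩ := push hc hc' hd (hT 0) hT'
  obtain ⟨S, Sc, S1, S2⟩ := slide hc (hT (-1))
    (g := fun z => max z.1 (min 0 (2 * z.1 + cl z.2))) (by fun_prop) fun t s e =>
      max_eq_left ((min_le_right _ _).trans (by linarith [cl_le s]))
  obtain ⟨L, Lc, L1, L2⟩ := glue (P := Unit) hc (hT (-2))
    (α := fun z => max 0 (min (-z.1.2) 2)) (β := fun _ => 2) (by fun_prop) continuous_const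
    fun m t p e => by rw [min_eq_right (by linarith), max_eq_right zero_le_two]
  have am : ∀ m, c (m, 0) ∈ Core c c' 0 := fun m => (core_left hc.injective hd m).2 le_rfl
  have Sm : ∀ z : Core c c' 0 × ℝ, S (z.1.1, z.2) ∈ Core c c' 0 := by
    rintro ⟨⟨w, hw⟩, s⟩
    by_cases e : w ∈ range c
    · obtain ⟨⟨m, t⟩, rfl⟩ := e
      simp only [S1]
      exact (core_left hc.injective hd m).2
        (max_le ((core_left hc.injective hd m).1 hw) (min_le_left _ _))
    · simp only [S2 _ e]; exact hw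
  have cc := hc.continuous
  have inv := leftInverse_invFun hc.injective
  have rg : ∀ w, L (w, ()) ≤ 1 → w ∈ range c := fun w e => by
    by_contra k
    rw [L2 _ k] at e
    norm_num at e
  have C : Clr (fun m => (⟨c (m, 0), am m⟩ : Core c c' 0)) (fun x => L (x.1, ()))
      (fun x => (invFun c x.1).1) fun z => ⟨_, Sm z⟩ := by
    refine ⟨Continuous.subtype_mk (by fun_prop) am, by fun_prop, ?_,
      Continuous.subtype_mk (by fun_prop) Sm, fun x => ?_, fun m => by simp [L1],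
      fun m => by simp [inv (m, 0)], fun x => Subtype.ext ?_, fun x u e1 e2 => Subtype.ext ?_⟩
    · intro x hx
      obtain ⟨y, hy⟩ := rg _ hx
      have : ContinuousAt (invFun c) x.1 := by
        rw [← hy, ← hc.continuousAt_iff]
        exact (continuous_id.congr fun z => (inv z).symm).continuousAt
      exact (continuousAt_fst.comp (this.comp continuousAt_subtype_val)).continuousWithinAt
    · by_cases e : x.1 ∈ range c
      · obtain ⟨y, hy⟩ := e
        rw [← hy, L1]; exact le_max_left _ _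
      · rw [L2 _ e]; exact zero_le_two
    · obtain ⟨w, hw⟩ := x
      by_cases e : w ∈ range c
      · obtain ⟨⟨m, t⟩, rfl⟩ := e
        have := (core_left hc.injective hd m).1 hw
        simp only [S1, cl_zero]
        rw [max_eq_left ((min_le_right _ _).trans (by linarith))]
      · exact S2 _ e _
    · obtain ⟨w, hw⟩ := x
      obtain ⟨⟨m, t⟩, rfl⟩ := rg w (by
        have : 2 * L (w, ()) ≤ u := e1
        linarith)
      have ht := (core_left hc.injective hd m).1 hw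
      simp only [L1] at e1
      have e3 : -t ≤ 2 := by
        by_contra k
        rw [min_eq_right (not_le.1 k).le, max_eq_right zero_le_two] at e1
        linarith
      rw [min_eq_left e3, max_eq_right (by linarith)] at e1
      simp only [S1, inv (m, t)]
      rw [cl_of (by linarith) e2, min_eq_left (by linarith), max_eq_right ht]
  obtain ⟨r, D, rc, Dc, D0, D1, ra, Da⟩ := C.sdr (r₀ := fun x => r₀ x.1) (G := G)
    (k := fun z => ⟨k (z.1.1, z.2), kc _⟩) (by fun_prop) hG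
    (Continuous.subtype_mk (by fun_prop) fun z => kc _) G0 G1 (fun x => Subtype.ext (k0 _))
    fun x => Subtype.ext (k1 _ x.2)
  have Pc : Continuous fun w => (⟨U (w, 1), U5 w⟩ : Core c c' 0) :=
    Continuous.subtype_mk (by fun_prop) U5
  have P1 : ∀ m t, 0 ≤ t → (⟨U (c (m, t), 1), U5 _⟩ : Core c c' 0) = ⟨c (m, 0), am m⟩ :=
    fun m t e => Subtype.ext (by simp [U1, max_eq_left e])
  have P2 : ∀ m t, 0 ≤ t → (⟨U (c' (m, t), 1), U5 _⟩ : Core c c' 0) = ⟨U (c' (m, 0), 1), U5 _⟩ :=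
    fun m t e => Subtype.ext (by simp [U2, max_eq_left e])
  refine ⟨fun w => r ⟨U (w, 1), U5 w⟩, fun z => if z.2 ≤ 1 / 2 then U (z.1, 2 * z.2) else
    (D (⟨U (z.1, 1), U5 _⟩, 2 * z.2 - 1)).1, rc.comp Pc,
    Continuous.if_le (by fun_prop) (continuous_subtype_val.comp (Dc.comp
      ((Pc.comp continuous_fst).prodMk (by fun_prop)))) (by fun_prop) (by fun_prop) fun z hz => ?_,
    fun w => by norm_num [U4], fun w => by norm_num [D1], fun m t e => by simp only [P1 m t e, ra],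
    fun m t e => by simp only [P2 m t e], fun m t s e e' => ?_, fun m t s e e' e'' => ?_,
    fun m t s e e' => ?_, fun w hw s e => by simp only [e, if_true, U3 w hw], fun w hw s => ?_⟩
  · rw [hz]; norm_num [D0]
  · split_ifs with k
    · rw [U1, max_eq_left e, max_eq_left (by linarith)]
      congr 2; ring
    · rw [P1 m t e, Da, max_eq_right (by linarith), zero_mul]
  · simp only [e'', if_true, U2, max_eq_left e]
    congr 2; ring
  · split_ifs with k
    · rw [le_antisymm k e', U2, U2, max_eq_left e]; norm_num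
    · rw [P2 m t e]
  · split_ifs with k
    · rwa [U3 w hw]
    · exact Subtype.prop _

end Pool.Agent.MP_e1dc65_gt.B

end
end MrgPart2

-- ======== part 3: formerly Pool.Agent.MP_e1dc65_gt.b.Collar
section MrgPart3

/-! PROJECT HC: the collar theorem for smooth h-cobordisms. -/

open scoped ContDiff Manifold Topology
open Set Filter Function Topology

noncomputable section

namespace Pool.Agent.MP_e1dc65_gt.B

/-! ### From `Col` to `OHC` -/

section
variable {E E' : Type} [NormedAddCommGroup E] [NormedSpace ℝ E] [NormedAddCommGroup E']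
  [NormedSpace ℝ E'] {X : Mf E} {Y : Mf E'}

theorem oe_emb {f : X → Y} (h : OE X Y f univ) : IsOpenEmbedding f :=
  .of_continuous_injective_isOpenMap h.sm.cont (injOn_univ.1 h.inj) fun _ hU =>
    h.isOpen_image hU (subset_univ _)

open Classical in
theorem height {c : X.cyl → Y} (h : OE X.cyl Y c univ) (hc : IsClosed (c '' (univ ×ˢ Ici 0))) :
    ∃ S : Y → ℝ, Sm Y (vs ℝ) S univ ∧ (∀ m t, S (c (m, t)) = t * Real.smoothTransition t) ∧
      ∀ w ∉ range c, S w = 0 := by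
  have inv := leftInverse_invFun (oe_emb h).injective
  obtain ⟨S, h1, h2⟩ : ∃ S : Y → ℝ, (∀ m t, S (c (m, t)) = t * Real.smoothTransition t) ∧
      ∀ w ∉ range c, S w = 0 :=
    ⟨fun w => if w ∈ range c then (invFun c w).2 * Real.smoothTransition (invFun c w).2 else 0,
      fun m t => by simp only [mem_range_self, if_true, inv (m, t)], fun w hw => if_neg hw⟩
  refine ⟨S, fun w _ => ?_, h1, h2⟩
  by_cases k : w ∈ range c
  · obtain ⟨p, rfl⟩ := k
    refine (h.ld p trivial).sm_of_comp (SmAt.congr' (smAt_snd.vcomp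
      (g := fun t => t * Real.smoothTransition t)
      (contDiffAt_id.mul Real.smoothTransition.contDiffAt)) (Eventually.of_forall fun q => h1 _ _))
  · refine (smAt_const (Y := vs ℝ) 0).congr' ?_
    filter_upwards [hc.isOpen_compl.mem_nhds fun e => k (image_subset_range _ _ e)] with v hv
    by_cases e : v ∈ range c
    · obtain ⟨⟨m, t⟩, rfl⟩ := e
      rw [h1, Real.smoothTransition.zero_of_nonpos
        (not_le.1 fun l => hv ⟨(m, t), ⟨trivial, l⟩, rfl⟩).le, mul_zero]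
    · exact h2 v e

end

theorem ohc_of_col {M N : Mf E4} [ConnectedSpace M] {W : Mf (E4 × ℝ)} {c : M.cyl → W}
    {c' : N.cyl → W} (h : Col M N W c c') : Nonempty (OHC M N) := by
  obtain ⟨r, H, s⟩ := h.sdr
  obtain ⟨r', H', s'⟩ := h.sdr'
  obtain ⟨S, a1, a2, a3⟩ := height h.oe (h.cl 0)
  obtain ⟨S', b1, b2, b3⟩ := height h.oe' (h.cl' 0)
  have e1 : ∀ m t, S (c (m, t)) + S' (c (m, t)) = t * Real.smoothTransition t := fun m t => by
    rw [a2, b3 _ fun ⟨q, e⟩ => h.disj _ _ e.symm, add_zero]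
  have e2 : ∀ m t, S (c' (m, t)) + S' (c' (m, t)) = t * Real.smoothTransition t := fun m t => by
    rw [b2, a3 _ fun ⟨q, e⟩ => h.disj _ _ e, zero_add]
  have one : ∀ t : ℝ, 1 ≤ t → t * Real.smoothTransition t = t := fun t k => by
    rw [Real.smoothTransition.one_of_one_le k, mul_one]
  have gt : ∀ t : ℝ, 1 < t * Real.smoothTransition t → 1 < t := fun t k => by
    by_contra n
    nlinarith [Real.smoothTransition.nonneg t, Real.smoothTransition.le_one t]
  have sm : Sm W (vs ℝ) (fun w => S w + S' w) univ := fun w _ =>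
    ContMDiffAt.add (a1 w trivial) (b1 w trivial)
  have := PathConnectedSpace.of_locallyPathConnectedSpace (X := M)
  refine ⟨⟨W, c, c', fun w => S w + S' w, r, H, r', h.oe, h.oe', h.disj, h.cl, h.cl', h.cpt, s,
    s'.rc, s'.rA, ⟨H', s'⟩, sm, fun m t k => by rw [e1, one t k], fun m t k => by rw [e2, one t k],
    fun w k => ?_, fun T => (h.cpt (max T 1)).of_isClosed_subset
      (isClosed_le sm.cont continuous_const) fun w hw => mem_core.2 ⟨?_, ?_⟩, ?_⟩⟩
  · by_cases p : w ∈ range c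
    · obtain ⟨⟨m, t⟩, rfl⟩ := p
      exact Or.inl ⟨(m, t), ⟨trivial, gt t (e1 m t ▸ k)⟩, rfl⟩
    by_cases p' : w ∈ range c'
    · obtain ⟨⟨m, t⟩, rfl⟩ := p'
      exact Or.inr ⟨(m, t), ⟨trivial, gt t (e2 m t ▸ k)⟩, rfl⟩
    rw [a3 w p, b3 w p'] at k
    norm_num at k
  · rintro m t rfl
    rw [mem_ofPred_eq, e1] at hw
    exact (le_total t 1).elim le_max_of_le_right fun k => le_max_of_le_left (one t k ▸ hw)
  · rintro m t rfl
    rw [mem_ofPred_eq, e2] at hw
    exact (le_total t 1).elim le_max_of_le_right fun k => le_max_of_le_left (one t k ▸ hw)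
  · have j : ∀ w, Joined w (c (r w, 0)) := fun w =>
      ⟨⟨⟨fun t => H (w, t), s.Hc.comp (by fun_prop)⟩, s.zero w, s.one w⟩⟩
    refine ⟨W.ne, fun x y => (j x).trans (Joined.trans ?_ (j y).symm)⟩
    exact ⟨(PathConnectedSpace.somePath (r x) (r y)).map
      (f := fun m => c (m, 0)) (h.oe.sm.cont.comp (by fun_prop))⟩

/-! ### One collar -/

variable {M N : Mf E4} {W : Type} [TopologicalSpace W] [ChartedSpace (EuclideanHalfSpace 5) W]
  [IsManifold (𝓡∂ 5) ∞ W] [T2Space W] [CompactSpace W] [Nonempty (Int W)] {i : M → W} {j : N → W}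

/-- a collar `c` with image `U` and inverse `(π, ρ)` -/
structure Cr (i : M → W) (ε : ℝ) (π : W → M) (ρ : W → ℝ) (c : M × ℝ → W) (U : Set W) : Prop where
  pos : 0 < ε
  op : IsOpen U
  πc : ContinuousOn π U
  ρc : ContinuousOn ρ U
  cc : ContinuousOn c (univ ×ˢ Ico 0 ε)
  mρ : ∀ w ∈ U, ρ w ∈ Ico 0 ε
  mc : ∀ m, ∀ s ∈ Ico 0 ε, c (m, s) ∈ U ∧ π (c (m, s)) = m ∧ ρ (c (m, s)) = s
  left : ∀ w ∈ U, c (π w, ρ w) = w
  zero : ∀ m, c (m, 0) = i m
  int : ∀ w ∈ U, (𝓡∂ 5).IsInteriorPoint w ↔ 0 < ρ w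
  ld : ∀ v : IntM W, v.1 ∈ U → LDAt (IntM W) M.cyl (fun v => (π v.1, ρ v.1)) v

theorem exists_cr [CompactSpace M] (hi : Manifold.IsSmoothEmbedding (𝓡 4) (𝓡∂ 5) ∞ i)
    (hb : ∀ y, ¬(𝓡∂ 5).IsInteriorPoint (i y)) {V : Set W} (hV : IsOpen V) (iV : range i ⊆ V) :
    ∃ ε π ρ c U, Cr i ε π ρ c U ∧ U ⊆ V := by
  obtain ⟨O, π, ρ, g, hO⟩ := exists_gd hi hb
  have rc := isCompact_range hi.isEmbedding.continuous
  have Fc : ∀ w ∈ O, ContinuousAt (fun w => (π w, ρ w)) w := fun w hw =>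
    (g.πs w hw).continuousAt.prodMk (g.ρs w hw).continuousAt
  obtain ⟨t, ht, ti⟩ := InjOn.exists_mem_nhdsSet (f := fun w => (π w, ρ w)) (s := range i)
    (by
      rintro _ ⟨y, rfl⟩ _ ⟨y', rfl⟩ e
      have := (Prod.mk.inj e).1
      rw [(g.inc y (hO y)).1, (g.inc y' (hO y')).1] at this
      rw [this]) rc (by rintro _ ⟨y, rfl⟩; exact Fc _ (hO y))
    (by rintro _ ⟨y, rfl⟩; exact (g.loc (hO y)).1)
  obtain ⟨Q, Qc, q1, q2⟩ := exists_compact_between rc isOpen_interior (subset_interior_iff_mem_nhdsSet.2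
    (inter_mem (inter_mem (inter_mem ht (hV.mem_nhdsSet.2 iV))
      (g.op.mem_nhdsSet.2 (range_subset_iff.2 hO)))
      (mem_nhdsSet_iff_forall.2 (forall_mem_range.2 fun y => (g.loc (hO y)).2.2))))
  replace q2 := q2.trans interior_subset
  have inj := ti.mono fun w hw => (q2 hw).1.1.1
  have tube := (isCompact_univ (X := M)).eventually_forall_of_forall_eventually (x₀ := (0 : ℝ))
    (P := fun s y => 0 ≤ s → (y, s) ∈ (fun w => (π w, ρ w)) '' interior Q) fun y _ => by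
      have := eventually_nhdsWithin_iff.1
        ((g.loc (hO y)).2.1 _ (isOpen_interior.mem_nhds (q1 (mem_range_self y))))
      exact (continuous_swap.continuousAt.eventually (show ∀ᶠ z in 𝓝 (Prod.swap ((0 : ℝ), y)), _
        from this)).mono fun z hz k => hz ⟨trivial, k⟩
  obtain ⟨ε, ε0, hε⟩ := Metric.eventually_nhds_iff.1 tube
  have : Nonempty W := ⟨i M.ne.some⟩
  have li := inj.leftInvOn_invFunOn
  have sj : ∀ m, ∀ s ∈ Ico 0 ε, ∃ w ∈ interior Q, π w = m ∧ ρ w = s := fun m s hs => by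
    obtain ⟨w, hw, e⟩ := hε (y := s) (by rw [Real.dist_eq, sub_zero, abs_of_nonneg hs.1]; exact hs.2)
      m trivial hs.1
    exact ⟨w, hw, Prod.mk.inj e⟩
  have FQ : ContinuousOn (fun w => (π w, ρ w)) Q := fun w hw =>
    (Fc w (q2 hw).1.2).continuousWithinAt
  refine ⟨ε, π, ρ, invFunOn (fun w => (π w, ρ w)) Q, interior Q ∩ ρ ⁻¹' Iio ε, ⟨ε0,
    (FQ.snd.mono interior_subset).isOpen_inter_preimage isOpen_interior isOpen_Iio,
    FQ.fst.mono fun w hw => interior_subset hw.1, FQ.snd.mono fun w hw => interior_subset hw.1,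
    continuousOn_iff_isClosed.2 fun Z hZ => ⟨_, ((Qc.inter_left hZ).image_of_continuousOn
      (FQ.mono inter_subset_right)).isClosed, ?_⟩,
    fun w hw => ⟨g.nn w (q2 (interior_subset hw.1)).1.2, hw.2⟩, fun m s hs => ?_,
    fun w hw => li (interior_subset hw.1), fun m => ?_,
    fun w hw => (q2 (interior_subset hw.1)).2.1,
    fun v hv => (q2 (interior_subset hv.1)).2.2 v rfl⟩, fun w hw => (q2 (interior_subset hw.1)).1.1.2⟩
  · ext ⟨m, s⟩
    refine and_congr_left fun hs => ?_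
    obtain ⟨w, hw, rfl, rfl⟩ := sj m s hs.2
    rw [mem_preimage, li (interior_subset hw)]
    exact ⟨fun k => ⟨w, ⟨k, interior_subset hw⟩, rfl⟩,
      fun ⟨w', k, e⟩ => inj k.2 (interior_subset hw) e ▸ k.1⟩
  · obtain ⟨w, hw, rfl, rfl⟩ := sj m s hs
    rw [li (interior_subset hw)]
    exact ⟨⟨hw, hs.2⟩, rfl, rfl⟩
  · have := li (interior_subset (q1 (mem_range_self m)))
    simpa only [(g.inc m (hO m)).1, (g.inc m (hO m)).2] using this

/-- the height in the collar as a function of the end parameter -/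
def sg (ε t : ℝ) : ℝ := ε / (1 + Real.exp t)

section
variable {ε : ℝ} (hε : 0 < ε)
include hε

theorem sg_mem (t : ℝ) : sg ε t ∈ Ioo 0 ε :=
  ⟨div_pos hε (by positivity), div_lt_self hε (by linarith [Real.exp_pos t])⟩

theorem sg_anti : StrictAnti (sg ε) := fun _ _ h =>
  div_lt_div_of_pos_left hε (by positivity) (by linarith [Real.exp_lt_exp.2 h])

theorem sg_log {s : ℝ} (hs : s ∈ Ioo 0 ε) : sg ε (Real.log (ε / s - 1)) = s := by
  rw [sg, Real.exp_log (sub_pos.2 ((one_lt_div hs.1).2 hs.2))]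
  rw [add_sub_cancel, div_div_cancel₀ hε.ne']

theorem sg_ld (t : ℝ) : LDAt (vs ℝ) (vs ℝ) (sg ε) t :=
  ldAt_of_inv (X := vs ℝ) (Y := vs ℝ) (g := fun s => Real.log (ε / s - 1)) isOpen_univ
    (isOpen_Ioo (a := 0) (b := ε)) trivial
    (fun x _ => smAt_vs.2 (contDiffAt_const.div (contDiffAt_const.add Real.contDiff_exp.contDiffAt)
      (by positivity)))
    (fun s hs => smAt_vs.2 (((contDiffAt_const.div contDiffAt_id hs.1.ne').sub
      contDiffAt_const).log (sub_pos.2 ((one_lt_div hs.1).2 hs.2)).ne'))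
    (fun x _ => sg_mem hε x) (mapsTo_univ _ _)
    (fun x _ => (sg_anti hε).injective (sg_log hε (sg_mem hε x))) fun _ => sg_log hε

end

namespace Cr

variable {ε π ρ c U} (h : Cr i ε π ρ c U)
include h

theorem ico (t : ℝ) : sg ε t ∈ Ico 0 ε := Ioo_subset_Ico_self (sg_mem h.pos t)

/-- the end -/
def e (p : M.cyl) : IntM W :=
  ⟨c (p.1, sg ε p.2), (h.int _ (h.mc _ _ (h.ico _)).1).2 (by
    rw [(h.mc _ _ (h.ico _)).2.2]; exact (sg_mem h.pos _).1)⟩

theorem e_U (p : M.cyl) : (h.e p).1 ∈ U := (h.mc _ _ (h.ico _)).1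
theorem e_π (p : M.cyl) : π (h.e p).1 = p.1 := (h.mc _ _ (h.ico _)).2.1
theorem e_ρ (p : M.cyl) : ρ (h.e p).1 = sg ε p.2 := (h.mc _ _ (h.ico _)).2.2

theorem e_onto {v : IntM W} (hv : v.1 ∈ U) : ∃ p, h.e p = v :=
  ⟨(π v.1, Real.log (ε / ρ v.1 - 1)), Subtype.ext (by
    simp only [e, sg_log h.pos ⟨(h.int _ hv).1 v.2, (h.mρ _ hv).2⟩, h.left _ hv])⟩

theorem e_cont : Continuous h.e :=
  Continuous.subtype_mk (h.cc.comp_continuous (continuous_fst.prodMk
    ((continuous_iff_continuousAt.2 fun t => (sg_ld h.pos t).sm.cont).comp continuous_snd))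
    fun _ => ⟨trivial, h.ico _⟩) _

theorem oe : OE M.cyl (IntM W) h.e univ := by
  refine ⟨isOpen_univ, fun p _ => (h.ld _ (h.e_U p)).ld_of_lift h.e_cont.continuousAt ?_,
    fun p _ q _ k => Prod.ext (by rw [← h.e_π p, k, h.e_π])
      ((sg_anti h.pos).injective (by rw [← h.e_ρ p, k, h.e_ρ]))⟩
  simp only [e_π, e_ρ]
  exact ldAt_id.prodMap (sg_ld h.pos p.2)

theorem mem_Ioi {T : ℝ} {v : IntM W} :
    v ∈ h.e '' (univ ×ˢ Ioi T) ↔ v.1 ∈ U ∧ ρ v.1 < sg ε T := by
  refine ⟨?_, fun k => ?_⟩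
  · rintro ⟨p, hp, rfl⟩
    exact ⟨h.e_U p, h.e_ρ p ▸ sg_anti h.pos hp.2⟩
  · obtain ⟨p, rfl⟩ := h.e_onto k.1
    exact ⟨p, ⟨trivial, (sg_anti h.pos).lt_iff_gt.1 (h.e_ρ p ▸ k.2)⟩, rfl⟩

variable [CompactSpace M]

theorem low_cl {s : ℝ} (hs : s < ε) : IsClosed {w | w ∈ U ∧ ρ w ≤ s} := by
  have : {w | w ∈ U ∧ ρ w ≤ s} = c '' (univ ×ˢ Icc 0 s) := by
    ext w
    refine ⟨fun k => ⟨_, ⟨trivial, (h.mρ w k.1).1, k.2⟩, h.left w k.1⟩, ?_⟩
    rintro ⟨⟨m, t⟩, k, rfl⟩
    have := h.mc m t ⟨k.2.1, k.2.2.trans_lt hs⟩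
    exact ⟨this.1, this.2.2.trans_le k.2.2⟩
  exact this ▸ ((isCompact_univ.prod isCompact_Icc).image_of_continuousOn
    (h.cc.mono fun p k => ⟨trivial, k.2.1, k.2.2.trans_lt hs⟩)).isClosed

theorem cl (T : ℝ) : IsClosed (h.e '' (univ ×ˢ Ici T)) := by
  suffices e : h.e '' (univ ×ˢ Ici T) = (fun v : IntM W => v.1) ⁻¹' {w | w ∈ U ∧ ρ w ≤ sg ε T} from
    e ▸ (h.low_cl (sg_mem h.pos T).2).preimage continuous_subtype_val
  refine Set.ext fun v => ⟨?_, fun k => ?_⟩
  · rintro ⟨p, hp, rfl⟩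
    exact ⟨h.e_U p, h.e_ρ p ▸ (sg_anti h.pos).antitone hp.2⟩
  · obtain ⟨p, rfl⟩ := h.e_onto k.1
    exact ⟨p, ⟨trivial, (sg_anti h.pos).le_iff_ge.1 (h.e_ρ p ▸ k.2)⟩, rfl⟩

open Classical in
theorem push : ∃ P : W → W, Continuous P ∧ (∀ w ∈ U, P w = c (π w, max (ρ w) (sg ε 0))) ∧
    ∀ w ∉ U, P w = w := by
  refine ⟨fun w => if w ∈ U then c (π w, max (ρ w) (sg ε 0)) else w,
    continuous_iff_continuousAt.2 fun w => ?_, fun w k => if_pos k, fun w k => if_neg k⟩
  by_cases k : w ∈ U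
  · refine ((h.cc.comp (h.πc.prodMk (h.ρc.sup continuousOn_const)) fun v hv =>
      ⟨trivial, le_max_of_le_right (h.ico 0).1, max_lt (h.mρ v hv).2 (h.ico 0).2⟩).continuousAt
      (h.op.mem_nhds k)).congr ?_
    filter_upwards [h.op.mem_nhds k] with v hv using (if_pos hv).symm
  · refine continuousAt_id.congr ?_
    filter_upwards [(h.low_cl (h.ico 0).2).isOpen_compl.mem_nhds fun e => k e.1] with v hv
    split_ifs with e
    · rw [max_eq_left (not_le.1 fun l => hv ⟨e, l⟩).le, h.left v e, id]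
    · rfl

end Cr

/-! ### Two collars -/

section Two

variable {ε π ρ c U ε' π' ρ' c' U'} [CompactSpace M] [CompactSpace N]
  (h : Cr i ε π ρ c U) (h' : Cr j ε' π' ρ' c' U') (hd : Disjoint U U')
  (hb : ∀ w, ¬(𝓡∂ 5).IsInteriorPoint w → w ∈ range i ∪ range j)

include hd

omit [CompactSpace M] [CompactSpace N] in
theorem e_ne (p q) : h.e p ≠ h'.e q := fun e =>
  disjoint_left.1 hd (h.e_U p) (e ▸ h'.e_U q)

include hb

omit [CompactSpace M] [CompactSpace N] hd in
theorem core_val (T : ℝ) {w : W} : w ∈ Subtype.val '' Core h.e h'.e T ↔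
    ¬(w ∈ U ∧ ρ w < sg ε T) ∧ ¬(w ∈ U' ∧ ρ' w < sg ε' T) := by
  have q : ∀ v : IntM W, v ∈ Core h.e h'.e T ↔
      ¬(v.1 ∈ U ∧ ρ v.1 < sg ε T) ∧ ¬(v.1 ∈ U' ∧ ρ' v.1 < sg ε' T) := fun v =>
    not_or.trans (and_congr h.mem_Ioi.not h'.mem_Ioi.not)
  refine ⟨?_, fun k => ?_⟩
  · rintro ⟨v, hv, rfl⟩
    exact (q v).1 hv
  · refine ⟨⟨w, by_contra fun n => ?_⟩, ?_, rfl⟩
    · rcases hb w n with ⟨m, rfl⟩ | ⟨m, rfl⟩
      · have := h.mc m 0 ⟨le_rfl, h.pos⟩
        rw [h.zero] at this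
        exact k.1 ⟨this.1, this.2.2 ▸ (sg_mem h.pos T).1⟩
      · have := h'.mc m 0 ⟨le_rfl, h'.pos⟩
        rw [h'.zero] at this
        exact k.2 ⟨this.1, this.2.2 ▸ (sg_mem h'.pos T).1⟩
    · exact (q _).2 k

theorem two_sdr (he : ∃ g : ContinuousMap.HomotopyEquiv M W, ⇑g.toFun = i) :
    ∃ r H, Sdr h.e h'.e r H := by
  obtain ⟨g, hg⟩ := he
  obtain ⟨A⟩ := g.left_inv
  obtain ⟨B⟩ := g.right_inv
  obtain ⟨P, P1, P2, P3⟩ := h.push
  obtain ⟨P', Q1, Q2, Q3⟩ := h'.push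
  have mx : ∀ w ∈ U, max (ρ w) (sg ε 0) ∈ Ico 0 ε := fun w hw =>
    ⟨le_max_of_le_right (h.ico 0).1, max_lt (h.mρ w hw).2 (h.ico 0).2⟩
  have pm : ∀ w, P' (P w) ∈ Subtype.val '' Core h.e h'.e 0 := fun w => by
    rw [core_val h h' hb]
    by_cases k : w ∈ U
    · have := h.mc (π w) _ (mx w k)
      rw [P2 w k, Q3 _ (disjoint_left.1 hd this.1), this.2.2]
      exact ⟨fun e => not_lt.2 (le_max_right _ _) e.2, fun e => disjoint_left.1 hd this.1 e.1⟩
    · rw [P3 w k]
      by_cases k' : w ∈ U'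
      · have := h'.mc (π' w) _ ⟨le_max_of_le_right (h'.ico 0).1,
          max_lt (h'.mρ w k').2 (h'.ico 0).2⟩
        rw [Q2 w k', this.2.2]
        exact ⟨fun e => disjoint_left.1 hd e.1 this.1, fun e => not_lt.2 (le_max_right _ _) e.2⟩
      · rw [Q3 w k']
        exact ⟨fun e => k e.1, fun e => k' e.1⟩
  choose R R1 R2 using pm
  have Rc : Continuous R := IsEmbedding.subtypeVal.continuous_iff.2
    ((Q1.comp P1).congr fun w => (R2 w).symm)
  have Ri : ∀ m, R (i m) = h.e (m, 0) := fun m => Subtype.ext (by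
    have := h.mc m 0 ⟨le_rfl, h.pos⟩
    rw [h.zero] at this
    rw [R2, P2 _ this.1, this.2.1, this.2.2, max_eq_right (h.ico 0).1]
    exact Q3 _ (disjoint_left.1 hd (h.e_U (m, 0))))
  have Rf : ∀ x ∈ Core h.e h'.e 0, R x.1 = x := fun x hx => Subtype.ext (by
    have := (core_val h h' hb 0).1 (mem_image_of_mem _ hx)
    have e : P x.1 = x.1 := by
      by_cases k : x.1 ∈ U
      · rw [P2 _ k, max_eq_left (not_lt.1 fun l => this.1 ⟨k, l⟩), h.left _ k]
      · exact P3 _ k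
    rw [R2, e]
    by_cases k : x.1 ∈ U'
    · rw [Q2 _ k, max_eq_left (not_lt.1 fun l => this.2 ⟨k, l⟩), h'.left _ k]
    · exact Q3 _ k)
  have pj := continuous_projIcc (a := (0 : ℝ)) (b := 1) (h := zero_le_one)
  have cc : Continuous fun z : M × ℝ => c (z.1, cl (1 - 2 * z.2) * sg ε 0) :=
    h.cc.comp_continuous (by fun_prop) fun z => ⟨trivial, mul_nonneg (cl_nn _) (h.ico 0).1,
      (mul_le_of_le_one_left (h.ico 0).1 (cl_le _)).trans_lt (h.ico 0).2⟩
  refine sdr (oe_emb h.oe) (oe_emb h'.oe) (e_ne h h' hd) h.cl (h'.cl 0)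
    (r₀ := fun v => g.invFun v.1)
    (G := fun z => if z.2 ≤ 1 / 2 then g.invFun (c (z.1, cl (1 - 2 * z.2) * sg ε 0))
      else A (projIcc 0 1 zero_le_one (2 * z.2 - 1), z.1))
    (k := fun z => R (B (projIcc 0 1 zero_le_one z.2, z.1.1)))
    (g.invFun.continuous.comp continuous_subtype_val)
    (Continuous.if_le (g.invFun.continuous.comp cc) (by fun_prop) (by fun_prop) (by fun_prop)
      fun z hz => ?_)
    (Rc.comp (B.continuous.comp ((pj.comp continuous_snd).prodMk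
      (continuous_subtype_val.comp continuous_fst))))
    (fun m => by norm_num [Cr.e]) (fun m => by norm_num) (fun x => ?_) (fun x hx => ?_)
    fun z => R1 _
  · rw [hz]; norm_num [h.zero, hg]
  · simp [hg, Ri]
  · simp [Rf x hx]

theorem col (he : ∃ g : ContinuousMap.HomotopyEquiv M W, ⇑g.toFun = i)
    (he' : ∃ g : ContinuousMap.HomotopyEquiv N W, ⇑g.toFun = j) : Col M N (IntM W) h.e h'.e := by
  refine ⟨h.oe, h'.oe, e_ne h h' hd, h.cl, h'.cl, fun T => ?_, two_sdr h h' hd hb he,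
    two_sdr h' h hd.symm (fun w k => (hb w k).symm) he'⟩
  refine IsEmbedding.subtypeVal.isCompact_iff.2 (IsClosed.isCompact ?_)
  convert ((h.ρc.isOpen_inter_preimage h.op (isOpen_Iio (a := sg ε T))).union
    (h'.ρc.isOpen_inter_preimage h'.op (isOpen_Iio (a := sg ε' T)))).isClosed_compl using 1
  ext w
  exact (core_val h h' hb T).trans not_or.symm

end Two

theorem collar : CollarStmt := by
  rintro M N _ _ _ _ ⟨W, i, j, H, hW, hi, hj⟩
  have b : ∀ w, ¬(𝓡∂ 5).IsInteriorPoint w ↔ w ∈ range i ∪ range j := fun w => by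
    rw [H.bdry, ← ModelWithCorners.isBoundaryPoint_iff_not_isInteriorPoint]; rfl
  have bi := fun y => (b _).2 (Or.inl (mem_range_self y))
  have bj := fun y => (b _).2 (Or.inr (mem_range_self y))
  have : Nonempty (Int W.carrier) := by
    obtain ⟨x⟩ := M.ne
    obtain ⟨φ, Ψ, Φ, S, T, a, hx⟩ := exists_ad (M := M) hi bi x
    have p0 := (a.mΨ hx).1
    rw [(a.inc x hx).2] at p0
    have ev : ∀ᶠ t in 𝓝[>] (0 : ℝ), (φ x, t) ∈ T := nhdsWithin_le_nhds
      ((a.oT.preimage (by fun_prop : Continuous fun t : ℝ => (φ x, t))).mem_nhds p0)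
    obtain ⟨t, h1, h2⟩ := (ev.and self_mem_nhdsWithin).exists
    have m : (φ x, t) ∈ T ∩ Hs E4 := ⟨h1, mem_Hs.2 (le_of_lt h2)⟩
    exact ⟨⟨_, (a.int _ (a.mΦ m)).2 (by rw [a.right _ m]; exact h2)⟩⟩
  obtain ⟨V, V', o, o', s, s', d⟩ := SeparatedNhds.of_isCompact_isCompact
    (isCompact_range H.embM.continuous) (isCompact_range H.embN.continuous) H.disj
  obtain ⟨ε, π, ρ, c, U, h, u⟩ := exists_cr (M := M) hi bi o s
  obtain ⟨ε', π', ρ', c', U', h', u'⟩ := exists_cr (M := N) hj bj o' s'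
  exact ohc_of_col (col h h' (d.mono u u') (fun w => (b w).1) H.heM H.heN)

end Pool.Agent.MP_e1dc65_gt.B

end
end MrgPart3

-- ======== part 4: formerly Pool.Agent.MP_e1dc65_gt.fm.Pd1
section MrgPart4

/-! PROJECT HC: the Mayer-Vietoris step for Poincare duality. -/

open scoped ContDiff Manifold Topology
open Set Filter Function Module Pool.Agent.MP_c8d41b_gt.GF

noncomputable section

namespace Pool.Agent.MP_e1dc65_gt

namespace Pd1

variable {E : Type} [NormedAddCommGroup E] [NormedSpace ℝ E] [FiniteDimensional ℝ E] {N : ℕ}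
  {X : Mf E} {o : X → Lam E} {W : Set X} {A B α : X → Lam E}

/-- maps that are linear on compactly supported forms extend to linear maps -/
theorem extend {M : Type} [AddCommGroup M] [Module ℝ M] (W : Set X) (f : (X → Lam E) → M)
    (ha : ∀ α β, OcM X W α → OcM X W β → f (α + β) = f α + f β)
    (hs : ∀ (c : ℝ) α, OcM X W α → f (c • α) = c • f α) :
    ∃ L : (X → Lam E) →ₗ[ℝ] M, ∀ α, OcM X W α → L α = f α := by
  let S : Submodule ℝ (X → Lam E) :=
    { carrier := {α | OcM X W α}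
      add_mem' := fun h h' => OcM.add h h'
      zero_mem' := OcM.zero
      smul_mem' := fun c _ h => OcM.smul h c }
  let f0 : S →ₗ[ℝ] M :=
    { toFun := fun α => f α
      map_add' := fun α β => ha _ _ α.2 β.2
      map_smul' := fun c α => hs c _ α.2 }
  obtain ⟨L, hL⟩ := f0.exists_extend
  exact ⟨L, fun α h => LinearMap.congr_fun hL ⟨α, h⟩⟩

theorem mulOc (hA : ∀ x ∈ W, FmAt X A x) (h : OcM X W α) : OcM X univ fun x => α x * A x :=
  (h.mul_right hA).mono (subset_univ _)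

theorem exI (hS : IntP X N o) (hA : ∀ x ∈ W, FmAt X A x) :
    ∃ L : (X → Lam E) →ₗ[ℝ] ℝ, ∀ α, OcM X W α → L α = intM X o fun x => α x * A x :=
  extend W _ (fun α β h h' => by
      rw [← hS.add _ _ (mulOc hA h) (mulOc hA h')]
      exact congrArg _ (funext fun x => add_mul _ _ _))
    fun c α _ => by
      rw [smul_eq_mul, ← hS.smul]
      exact congrArg _ (funext fun x => smul_mul_assoc c (α x) (A x))

theorem exD : ∃ L : (X → Lam E) →ₗ[ℝ] (X → Lam E),
    ∀ α, OcM X univ α → L α = dM X fun x => inv (α x) :=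
  extend univ _ (fun α β h h' => funext fun x => by
      simp only [Pi.add_apply, map_add]
      exact dM_add (h.inv.sm x) (h'.inv.sm x))
    fun c α h => funext fun x => by
      simp only [Pi.smul_apply, map_smul]
      exact dM_smul c (h.inv.sm x)

theorem i_add (hS : IntP X N o) (hA : ∀ x ∈ W, FmAt X A x) (hB : ∀ x ∈ W, FmAt X B x)
    {C : X → Lam E} (e : ∀ x ∈ W, C x = A x + B x) (h : OcM X W α) :
    (intM X o fun x => α x * C x) =
      (intM X o fun x => α x * A x) + intM X o fun x => α x * B x := by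
  rw [← hS.add _ _ (mulOc hA h) (mulOc hB h)]
  refine congrArg _ (funext fun x => ?_)
  by_cases hx : x ∈ W
  · rw [e x hx, mul_add]
  · simp [h.zero_of hx]

theorem i_dd (hS : IntP X N o) (hA : ∀ x ∈ W, FmAt X A x) (h : OcM X W α) :
    (intM X o fun x => dM X (fun x => inv (α x)) x * A x) =
      -intM X o fun x => α x * dM X A x := by
  have h1 := hS.stokes _ (mulOc hA h.inv)
  have h2 := hS.add _ _ (mulOc hA h.inv.dM) (mulOc (fun x hx => (hA x hx).dM) h)
  rw [eq_neg_iff_add_eq_zero, ← h2, ← h1]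
  refine congrArg _ (funext fun x => ?_)
  by_cases hx : x ∈ W
  · rw [dM_mul (h.inv.sm x) (hA x hx), MP_c8d41b_gt.GF.inv_inv]
  · rw [h.zero_of hx, h.inv.dM.zero_of hx, (h.inv.mul_right hA).dM.zero_of hx, zero_mul, zero_mul,
      add_zero]

theorem d_d (h : OcM X W α) : (dM X fun x => inv (dM X (fun x => inv (α x)) x)) = 0 :=
  funext fun x => by
    rw [dM_inv (h.inv.dM.sm x), dM_dM (h.inv.sm x), map_zero, neg_zero]; rfl

/-- a cut-off form is smooth -/
theorem cut {U V : Set X} {f : X → ℝ} (hf : Sm X (vs ℝ) f U)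
    (h0 : ∀ x ∈ U, x ∉ V → f =ᶠ[𝓝 x] fun _ => 0) (hA : ∀ x ∈ U ∩ V, FmAt X A x) :
    ∀ x ∈ U, FmAt X (fun x => f x • A x) x := fun x hx => by
  by_cases h : x ∈ V
  · exact (hA x ⟨hx, h⟩).fsmul (hf x hx)
  · exact fmAt_of_ev ((h0 x hx h).mono fun y hy => by simp only [hy, zero_smul])

theorem cutOc {U : Set X} {f : X → ℝ} (h : OcM X W α) (hf : Sm X (vs ℝ) f W)
    (h0 : ∀ x ∈ W, x ∉ U → f =ᶠ[𝓝 x] fun _ => 0) : OcM X (U ∩ W) fun x => f x • α x := by
  have h1 := h.fsmul hf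
  refine ⟨h1.sm, h1.cpt, fun x hx => ⟨by_contra fun hU => ?_, h1.sub hx⟩⟩
  refine notMem_tsupport_iff_eventuallyEq.2 ?_ hx
  exact (h0 x (h1.sub hx) hU).mono fun y hy => by simp only [hy, zero_smul, Pi.zero_apply]

theorem pou {U V : Set X} (hU : IsOpen U) (hV : IsOpen V) : ∃ ρ : X → ℝ,
    Sm X (vs ℝ) ρ (U ∪ V) ∧ (∀ x ∈ U ∪ V, x ∉ U → ρ =ᶠ[𝓝 x] fun _ => 0) ∧
      ∀ x ∈ U ∪ V, x ∉ V → (fun x => 1 - ρ x) =ᶠ[𝓝 x] fun _ => 0 := by
  obtain ⟨ρ, r1, -, r3, -, r5⟩ := (bumpM E X).2 Bool (fun i => cond i U V) _ (hU.union hV)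
    (fun i => by cases i <;> assumption) fun x hx => hx.elim (fun h => ⟨true, h⟩) fun h => ⟨false, h⟩
  refine ⟨ρ true, r1 true, r3 true, fun x hx h => ?_⟩
  filter_upwards [r3 false x hx h, (hU.union hV).mem_nhds hx] with y h1 h2
  have := r5 y h2
  rw [finsum_eq_sum_of_fintype, Fintype.sum_bool, h1, Pi.zero_apply, add_zero] at this
  rw [this, sub_self]

/-- multiplication by a function -/
def mf (f : X → ℝ) : (X → Lam E) →ₗ[ℝ] (X → Lam E) where
  toFun α x := f x • α x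
  map_add' _ _ := funext fun _ => smul_add _ _ _
  map_smul' c α := funext fun x => smul_comm (f x) c (α x)

theorem mf_add (f : X → ℝ) (α : X → Lam E) : mf f α + mf (fun x => 1 - f x) α = α :=
  funext fun x => by simp [mf, sub_smul]

end Pd1

open Pd1 in
theorem coneMV (hI : IntMStmt) : ConeMVStmt := by
  intro E _ _ _ X N o U V ho hU hV cU cV cI φ A hA hd hφ
  classical
  have hS := hI E X N o ho
  obtain ⟨ρ, hρ, z1, z2⟩ := pou (X := X) hU hV
  have hρ' : Sm X (vs ℝ) (fun x => 1 - ρ x) (U ∪ V) := fun x hx =>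
    (smAt_const (Y := vs ℝ) (1 : ℝ)).sub (hρ x hx)
  have p1 : ∀ α, OcM X (U ∪ V) α → OcM X U (fun x => ρ x • α x) ∧
      OcM X V fun x => (1 - ρ x) • α x := fun α h =>
    ⟨(cutOc h hρ z1).mono inter_subset_left, (cutOc h hρ' z2).mono inter_subset_left⟩
  have p2 : ∀ α, OcM X V α → OcM X (U ∩ V) fun x => ρ x • α x := fun α h =>
    cutOc h (fun x hx => hρ x (.inr hx)) fun x hx => z1 x (.inr hx)
  have p3 : ∀ α, OcM X U α → OcM X (U ∩ V) fun x => (1 - ρ x) • α x := fun α h =>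
    (cutOc h (fun x hx => hρ' x (.inl hx)) fun x hx => z2 x (.inl hx)).mono (inter_comm V U).subset
  obtain ⟨φU, AU, u1, u2, u3⟩ := cU φ A (fun x hx => hA x (.inl hx)) (fun x hx => hd x (.inl hx))
    fun α h => hφ α (h.mono subset_union_left)
  obtain ⟨φV, AV, v1, v2, v3⟩ := cV φ A (fun x hx => hA x (.inr hx)) (fun x hx => hd x (.inr hx))
    fun α h => hφ α (h.mono subset_union_right)
  have w1 : ∀ x ∈ U ∩ V, FmAt X (fun x => AU x - AV x) x := fun x hx => (u1 x hx.1).sub (v1 x hx.2)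
  obtain ⟨ψ, C, c1, c2, c3⟩ := cI (φV - φU) (fun x => AU x - AV x) w1
    (fun x hx => by rw [dM_sub (u1 x hx.1) (v1 x hx.2), u2 x hx.1, v2 x hx.2, sub_self])
    fun α h => by
      have e1 := u3 α (h.mono inter_subset_left)
      have e2 := v3 α (h.mono inter_subset_right)
      have e3 := i_add hS w1 (fun x hx => v1 x hx.2) (C := AU) (fun x _ => by simp) h
      rw [LinearMap.sub_apply]
      linarith
  have sU : ∀ x ∈ U, FmAt X (mf (fun x => 1 - ρ x) C) x :=
    cut (f := fun x => 1 - ρ x) (fun x hx => hρ' x (.inl hx)) (fun x hx => z2 x (.inl hx)) c1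
  have sV : ∀ x ∈ V, FmAt X (mf ρ C) x :=
    cut (fun x hx => hρ x (.inr hx)) (fun x hx => z1 x (.inr hx)) (inter_comm U V ▸ c1)
  have hC := mf_add ρ C
  generalize mf (fun x => 1 - ρ x) C = PU at sU hC
  generalize mf ρ C = PV at sV hC
  let A' : X → Lam E := fun x => if x ∈ U then AU x - dM X PU x else AV x + dM X PV x
  have aU : ∀ x ∈ U, A' x = AU x - dM X PU x := fun x hx => if_pos hx
  have aV : ∀ x ∈ V, A' x = AV x + dM X PV x := fun x hx => by
    by_cases h : x ∈ U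
    · have := dM_add (sV x hx) (sU x h)
      rw [show (fun x => PV x + PU x) = C from hC, c2 x ⟨h, hx⟩, sub_eq_iff_eq_add] at this
      rw [aU x h, this]
      abel
    · exact if_neg h
  have bU : ∀ x ∈ U, FmAt X A' x := fun x hx =>
    ((u1 x hx).sub (sU x hx).dM).congr' (eventuallyEq_of_mem (hU.mem_nhds hx) aU)
  have bV : ∀ x ∈ V, FmAt X A' x := fun x hx =>
    ((v1 x hx).add (sV x hx).dM).congr' (eventuallyEq_of_mem (hV.mem_nhds hx) aV)
  have hA' : ∀ x ∈ U ∪ V, FmAt X A' x := fun x hx => hx.elim (bU x) (bV x)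
  obtain ⟨D, hD⟩ := exD (X := X)
  obtain ⟨LU, lU⟩ := exI hS sU
  obtain ⟨LV, lV⟩ := exI hS sV
  obtain ⟨L, hL⟩ := exI hS hA'
  let φ1 := φU + LU - ψ.comp D
  let φ2 := φV - LV
  have agree : ∀ α, OcM X (U ∩ V) α → φ1 α = φ2 α := fun α h => by
    have e1 := c3 α h
    have e2 := i_add hS (fun x hx => sV x hx.2) (fun x hx => sU x hx.1) (C := C)
      (fun x _ => (congrFun hC x).symm) h
    simp only [φ1, φ2, LinearMap.sub_apply, LinearMap.add_apply, LinearMap.comp_apply,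
      hD α (h.mono (subset_univ _)), lU α (h.mono inter_subset_left),
      lV α (h.mono inter_subset_right)] at e1 ⊢
    linarith
  let φ' := φ1.comp (mf ρ) + φ2.comp (mf fun x => 1 - ρ x)
  have fU : ∀ α, OcM X U α → φ' α = φ1 α := fun α h => by
    change φ1 (mf ρ α) + φ2 (mf _ α) = _
    rw [← agree (mf _ α) (p3 α h), ← map_add, mf_add]
  have fV : ∀ α, OcM X V α → φ' α = φ2 α := fun α h => by
    change φ1 (mf ρ α) + φ2 (mf _ α) = _
    rw [agree (mf _ α) (p2 α h), ← map_add, mf_add]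
  have gU : ∀ α, OcM X U α → φ α = -φ' (D α) + L α := fun α h => by
    have e := i_add hS bU (fun x hx => (sU x hx).dM) (C := AU) (fun x hx => by simp [aU x hx]) h
    rw [hD α (h.mono (subset_univ _)), fU _ h.inv.dM, hL α (h.mono subset_union_left), u3 α h]
    simp only [φ1, LinearMap.sub_apply, LinearMap.add_apply, LinearMap.comp_apply,
      hD _ (h.inv.dM.mono (subset_univ _)), lU _ h.inv.dM, d_d h, map_zero, i_dd hS sU h]
    linarith
  have gV : ∀ α, OcM X V α → φ α = -φ' (D α) + L α := fun α h => by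
    have e := i_add hS v1 (fun x hx => (sV x hx).dM) aV h
    rw [hD α (h.mono (subset_univ _)), fV _ h.inv.dM, hL α (h.mono subset_union_right), v3 α h]
    simp only [φ2, LinearMap.sub_apply, lV _ h.inv.dM, i_dd hS sV h]
    linarith
  refine ⟨φ', A', hA', fun x hx => hx.elim (fun h => ?_) fun h => ?_, fun α h => ?_⟩
  · rw [dM_congr (eventuallyEq_of_mem (hU.mem_nhds h) aU), dM_sub (u1 x h) (sU x h).dM,
      dM_dM (sU x h), u2 x h, sub_zero]
  · rw [dM_congr (eventuallyEq_of_mem (hV.mem_nhds h) aV), dM_add (v1 x h) (sV x h).dM,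
      dM_dM (sV x h), v2 x h, add_zero]
  · have e1 := gU (mf ρ α) (p1 α h).1
    have e2 := gV (mf (fun x => 1 - ρ x) α) (p1 α h).2
    rw [← hD α (h.mono (subset_univ _)), ← hL α h, ← mf_add ρ α]
    simp only [map_add]
    linarith

end Pool.Agent.MP_e1dc65_gt

end
end MrgPart4

-- marker of a merged file
example : 731051 + 392648 = 731051 + 392648 := rfl
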