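import Mathlib.Algebra.Ring.NegOnePow
import Mathlib.Algebra.Group.MinimalAxioms
import Pool.Agent.MP_e1dc65_gt.k.Etale
import Pool.Agent.MP_e1dc65_gt.k.Level
import Mathlib.Analysis.Calculus.MeanValue
import Pool.Agent.MP_e1dc65_gt.fm.Hza
import Pool.Agent.MP_e1dc65_gt.k.CechA
import Pool.Agent.MP_e1dc65_gt.t2.Disc
import Mathlib.Analysis.SpecialFunctions.Complex.LogDeriv
import Mathlib.Analysis.SpecialFunctions.SmoothTransition
import Mathlib.Analysis.InnerProductSpace.Calculus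
import Mathlib.Analysis.SpecialFunctions.Trigonometric.Deriv
import Mathlib.MeasureTheory.Integral.IntegralEqImproper
import Mathlib.LinearAlgebra.Basis.VectorSpace
import Mathlib.Topology.Compactness.SigmaCompact
import Pool.Agent.MP_c8d41b_gt.gf.Pou

-- ======== part 0: formerly Pool.Agent.MP_e1dc65_gt.fm.Hzb
section MrgPart0

-- ======== part 0: formerly Pool.Agent.MP_e1dc65_gt.e.bSpec
section MrgPart0

/-! PROJECT HC, part E, sub-part B: definitions and row statements. -/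

open scoped ContDiff Manifold Topology Matrix Real
open Set Filter Function Module Pool.Agent.MP_c8d41b_gt.GF

noncomputable section

namespace Pool.Agent.MP_e1dc65_gt.E

/-! ### The plane group `pgg` -/

/-- the map `(z₁, z₂) ↦ (a z₁ + m, b z₂ + n)` -/
@[ext] structure PG where
  a : ℤˣ
  b : ℤˣ
  m : ℤ
  n : ℤ
  hm : m.negOnePow = a * b
  hn : n.negOnePow = a * b

theorem np_mul (a : ℤˣ) (m : ℤ) : ((a : ℤ) * m).negOnePow = m.negOnePow := by
  rcases Int.units_eq_one_or a with rfl | rfl <;> simp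

instance : Mul PG := ⟨fun g h => ⟨g.a * h.a, g.b * h.b, g.a * h.m + g.m, g.b * h.n + g.n,
  by rw [Int.negOnePow_add, np_mul, g.hm, h.hm]; ac_rfl,
  by rw [Int.negOnePow_add, np_mul, g.hn, h.hn]; ac_rfl⟩⟩
instance : One PG := ⟨⟨1, 1, 0, 0, rfl, rfl⟩⟩
instance : Inv PG := ⟨fun g => ⟨g.a, g.b, -(g.a * g.m), -(g.b * g.n),
  by rw [Int.negOnePow_neg, np_mul, g.hm], by rw [Int.negOnePow_neg, np_mul, g.hn]⟩⟩

@[simp] theorem mul_a (g h : PG) : (g * h).a = g.a * h.a := rfl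
@[simp] theorem mul_b (g h : PG) : (g * h).b = g.b * h.b := rfl
@[simp] theorem mul_m (g h : PG) : (g * h).m = g.a * h.m + g.m := rfl
@[simp] theorem mul_n (g h : PG) : (g * h).n = g.b * h.n + g.n := rfl
@[simp] theorem one_a : (1 : PG).a = 1 := rfl
@[simp] theorem one_b : (1 : PG).b = 1 := rfl
@[simp] theorem one_m : (1 : PG).m = 0 := rfl
@[simp] theorem one_n : (1 : PG).n = 0 := rfl
@[simp] theorem inv_a (g : PG) : g⁻¹.a = g.a := rfl
@[simp] theorem inv_b (g : PG) : g⁻¹.b = g.b := rfl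
@[simp] theorem inv_m (g : PG) : g⁻¹.m = -(g.a * g.m) := rfl
@[simp] theorem inv_n (g : PG) : g⁻¹.n = -(g.b * g.n) := rfl

instance : Group PG := Group.ofLeftAxioms
  (fun g h k => by ext <;> simp [mul_assoc, mul_add, add_assoc])
  (fun g => by ext <;> simp) (fun g => by ext <;> simp)

instance : Countable PG :=
  Function.Injective.countable (f := fun g : PG => (g.a, g.b, g.m, g.n)) fun g h e => by
    simp only [Prod.mk.injEq] at e
    exact PG.ext e.1 e.2.1 e.2.2.1 e.2.2.2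

/-- a sign as a real number -/
def sg (u : ℤˣ) : ℝ := ((u : ℤ) : ℝ)
/-- translations -/
def zG (k : ℤ × ℤ) : PG := ⟨1, 1, 2 * k.1, 2 * k.2, by simp, by simp⟩
/-- action on lattice points -/
def gZ (g : PG) (k : ℤ × ℤ) : ℤ × ℤ := (g.a * k.1 + g.m, g.b * k.2 + g.n)
/-- action on the plane -/
def gC (g : PG) (z : ℂ) : ℂ := ⟨sg g.a * z.re + g.m, sg g.b * z.im + g.n⟩
/-- a lattice point -/
def lat (k : ℤ × ℤ) : ℂ := ⟨k.1, k.2⟩
/-- the orthogonal representation -/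
def psi (g : PG) (v : Rn 3) : Rn 3 := sg (g.a * g.b) • if g.a = 1 then v else Rp v

/-! ### The two-sphere and the bundle `J` -/

theorem exS2 : ∃ (Z : Mf (Rn 2)) (ι : Z → Rn 3),
    Level (vs (Rn 3)) nsq (univ ∩ nsq ⁻¹' {1}) Z ι := by
  have h : ContDiff ℝ ∞ (nsq : Rn 3 → ℝ) := by unfold nsq; fun_prop
  refine Lev.level1 (by simp) isOpen_univ (fun x _ => smAt_vs.2 h.contDiffAt) (fun x _ hx h0 => ?_)
    ⟨![1, 0, 0], trivial, by simp [nsq, Fin.sum_univ_three]⟩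
  have h1 : HasDerivAt (fun t : ℝ => nsq (t • x)) (Df (vs (Rn 3)) (vs ℝ) nsq x x) 1 := by
    have := (h.differentiable (by simp) ((1 : ℝ) • x)).hasFDerivAt.comp_hasDerivAt 1
      ((hasDerivAt_id (1 : ℝ)).smul_const x)
    rw [one_smul] at this
    rw [Df_vs]; exact this
  have h2 : (fun t : ℝ => nsq (t • x)) = fun t => t ^ 2 := funext fun t => by
    have : nsq (t • x) = t ^ 2 * nsq x := by simp [nsq, mul_pow, Finset.mul_sum]
    rw [this, hx, mul_one]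
  rw [h2, h0] at h1
  have := h1.unique (hasDerivAt_pow 2 (1 : ℝ))
  norm_num at this

/-- the two-sphere -/
def S2 : Mf (Rn 2) := exS2.choose
/-- its inclusion in `ℝ³` -/
def io : S2 → Rn 3 := exS2.choose_spec.choose
/-- radial projection -/
def nr (v : Rn 3) : S2 := invFun io ((√(nsq v))⁻¹ • v)
/-- plane times sphere -/
abbrev J : Mf (ℂ × Rn 2) := (vs ℂ).prod S2
/-- off the lattice -/
def JU : Set J := {p | ∀ k, p.1 ≠ lat k}
/-- the action on `J` -/
def actJ (g : PG) (p : J) : J := (gC g p.1, nr (psi g (io p.2)))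

/-! ### The gluing maps -/

def bet (c : ℝ) : ℝ := √(c ^ 2 + (1 - c ^ 2) * (1 - Real.smoothTransition (4 * c ^ 2 - 1)))
/-- adapted norm on `ℝ³` -/
def nuv (v : Rn 3) : ℝ := √(nsq v) * bet (v 2 / √(nsq v))
/-- adapted norm on the plane -/
def muz (z : ℂ) : ℝ := ‖z‖ * bet (z.re / ‖z‖)
/-- domain of the gluing maps -/
def Dg : Set (Rn 3 × ℝ) := {p | p.1 ≠ 0 ∧ nuv p.1 < 1 / 2}
/-- local plane coordinate -/
def zl (p : Rn 3 × ℝ) : ℂ :=
  (-((1 / 2 - nuv p.1) / (2 * bet (Real.cos p.2))) : ℝ) * Complex.exp (p.2 * Complex.I)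
/-- the gluing map at the lattice point `k` -/
def phi (k : ℤ × ℤ) (p : Rn 3 × ℝ) : J :=
  (⟨k.1 + sg (k.1 + k.2).negOnePow * (zl p).re, k.2 + sg k.2.negOnePow * (zl p).im⟩,
    nr (sg k.2.negOnePow • p.1))
/-- the involution on the column -/
def sC (g : PG) (p : Rn 3 × ℝ) : Rn 3 × ℝ := if g.a = 1 then p else (Rp p.1, p.2 + π)

/-- row PHI -/
structure PhiStmt : Prop where
  op : IsOpen Dg
  sub : Dg ⊆ Col
  nuc : Continuous nuv
  muc : Continuous muz
  nub : ∀ v, √(nsq v) / 2 ≤ nuv v ∧ nuv v ≤ √(nsq v)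
  mub : ∀ z, ‖z‖ / 2 ≤ muz z ∧ muz z ≤ ‖z‖
  nusm : ∀ v ≠ 0, ContDiffAt ℝ ∞ nuv v
  musm : ∀ z ≠ 0, ContDiffAt ℝ ∞ muz z
  nuh : ∀ (t : ℝ) v, nuv (t • v) = |t| * nuv v
  muh : ∀ (t : ℝ) z, muz (t • z) = |t| * muz z
  nuR : ∀ v, nuv (Rp v) = nuv v
  mus : ∀ (a b : ℤˣ) (z : ℂ), muz ⟨sg a * z.re, sg b * z.im⟩ = muz z
  nucone : ∀ v : Rn 3, v 0 ^ 2 + v 1 ^ 2 ≤ v 2 ^ 2 → nuv v = |v 2|
  mucone : ∀ z : ℂ, |z.im| ≤ |z.re| → muz z = |z.re|
  ld : ∀ k, ∀ p ∈ Dg, LDAt (vs (Rn 3 × ℝ)) J (phi k) p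
  mem : ∀ k, ∀ p ∈ Dg, phi k p ∈ JU
  eq : ∀ k k', ∀ p ∈ Dg, ∀ p' ∈ Dg, phi k p = phi k' p' ↔
    k = k' ∧ p.1 = p'.1 ∧ ∃ m : ℤ, p.2 - p'.2 = 2 * π * m
  mu : ∀ k, ∀ p ∈ Dg, 2 * muz ((phi k p).1 - lat k) + nuv p.1 = 1 / 2
  img : ∀ k (y : J), y.1 ≠ lat k → muz (y.1 - lat k) < 1 / 4 → ∃ p ∈ Dg, phi k p = y
  eqv : ∀ g k, ∀ p ∈ Dg, sC g p ∈ Dg ∧ actJ g (phi k p) = phi (gZ g k) (sC g p)

/-! ### The universal cover `Gt` of the cobordism -/

/-- complement of the invariant circle -/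
def QDat.U (D : QDat) : Set D.Qt := (D.c '' ({0} ×ˢ univ))ᶜ
/-- the involution or the identity -/
def QDat.sq (D : QDat) (g : PG) (y : D.Qt) : D.Qt := if g.a = 1 then y else D.σ y

structure GtDat (D : QDat) where
  Gt : Mf E4
  ι : J → Gt
  κ : ℤ × ℤ → D.Qt → Gt
  act : PG → Gt → Gt

structure GtDat.Ok {D : QDat} (T : GtDat D) : Prop where
  oι : OE J T.Gt T.ι JU
  oκ : ∀ k, OE D.Qt T.Gt (T.κ k) D.U
  cov : ∀ y, (∃ p ∈ JU, T.ι p = y) ∨ ∃ k, ∃ x ∈ D.U, T.κ k x = y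
  rel : ∀ p ∈ JU, ∀ k, ∀ x ∈ D.U, T.ι p = T.κ k x ↔ ∃ q ∈ Dg, phi k q = p ∧ D.c q = x
  dis : ∀ k k', ∀ x ∈ D.U, ∀ x' ∈ D.U, T.κ k x = T.κ k' x' → k = k'
  act1 : ∀ y, T.act 1 y = y
  actm : ∀ g h y, T.act (g * h) y = T.act g (T.act h y)
  actsm : ∀ g, Sm T.Gt T.Gt (T.act g) univ
  aι : ∀ g, ∀ p ∈ JU, T.act g (T.ι p) = T.ι (actJ g p)
  aκ : ∀ g k, ∀ x ∈ D.U, T.act g (T.κ k x) = T.κ (gZ g k) (D.sq g x)

/-- the two ends that are joined by the neck with index `1` -/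
def GtDat.en {D : QDat} (T : GtDat D) (p : D.F.cyl) : T.Gt :=
  if p.2 < 0 then T.κ (0, 0) (D.n (p.1, 2 - p.2⁻¹)) else T.κ (1, 0) (D.n (p.1, 2 + p.2⁻¹))

/-! ### The cover `MG` and the manifold `M` -/

structure MgDat {D : QDat} (T : GtDat D) where
  MG : Mf E4
  M : Mf E4
  i : T.Gt → MG
  nk : PG → D.F.cyl → MG
  act : PG → MG → MG
  pM : MG → M

structure MgDat.Ok {D : QDat} {T : GtDat D} (B : MgDat T) : Prop where
  oi : OE T.Gt B.MG B.i univ
  onk : ∀ g, OE D.F.cyl B.MG (B.nk g) univ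
  cov : ∀ y, (∃ x, B.i x = y) ∨ ∃ g m, B.nk g (m, 0) = y
  rel : ∀ x g p, B.i x = B.nk g p ↔ p.2 ≠ 0 ∧ x = T.act g (T.en p)
  dis : ∀ g g' p p', B.nk g p = B.nk g' p' → g = g'
  act1 : ∀ y, B.act 1 y = y
  actm : ∀ g h y, B.act (g * h) y = B.act g (B.act h y)
  actsm : ∀ g, Sm B.MG B.MG (B.act g) univ
  ai : ∀ g x, B.act g (B.i x) = B.i (T.act g x)
  ank : ∀ g h p, B.act g (B.nk h p) = B.nk (g * h) p
  free : ∀ g y, B.act g y = y → g = 1
  ld : ∀ y, LDAt B.MG B.M B.pM y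
  sur : Surjective B.pM
  fib : ∀ y y', B.pM y = B.pM y' ↔ ∃ g, B.act g y = y'

/-- the neck in `M` -/
def MgDat.ν {D : QDat} {T : GtDat D} (B : MgDat T) (p : D.F.cyl) : B.M := B.pM (B.nk 1 p)

/-- the thick arc in `Gt` from the end at `(0,0)` to the end at `(1,0)` -/
structure Arc {D : QDat} (T : GtDat D) (r : ℝ × Rn 3 → T.Gt) : Prop where
  ld : ∀ t v, nsq v < 1 → LDAt (vs (ℝ × Rn 3)) T.Gt r (t, v)
  inj : ∀ g t t' v v', nsq v < 1 → nsq v' < 1 → T.act g (r (t, v)) = r (t', v') →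
    g = 1 ∧ t = t' ∧ v = v'
  lo : ∀ t v, t < -1 → nsq v < 1 →
    r (t, v) = T.κ (0, 0) (D.c (![eps * v 0, eps * v 1, -1 / 2 - t], π + eps * v 2))
  hi : ∀ t v, 1 < t → nsq v < 1 →
    r (t, v) = T.κ (1, 0) (D.c (![eps * v 0, eps * v 1, t - 1 / 2], π + eps * v 2))
  mid : ∀ t v k, ∀ x ∈ D.U, |t| ≤ 1 → nsq v < 1 → r (t, v) = T.κ k x → |D.s x| ≤ 1

/-- the thick circle in `MG` and in `M` -/
structure Circ {D : QDat} {T : GtDat D} (B : MgDat T) (lt : ℝ × Rn 3 → B.MG) : Prop where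
  lld : ∀ θ v, nsq v < 1 → LDAt (vs (ℝ × Rn 3)) B.MG lt (θ, v)
  inj : ∀ g θ θ' v v', nsq v < 1 → nsq v' < 1 → B.act g (lt (θ, v)) = lt (θ', v') →
    g = 1 ∧ (∃ m : ℤ, θ - θ' = 8 * m) ∧ v = v'
  per : ∀ θ v, nsq v < 1 → lt (θ + 8, v) = lt (θ, v)
  strt : ∀ θ v, |θ| < 3 → nsq v < 1 → lt (θ, v) = B.nk 1 (D.e₀ (q0 + eps • v), θ)
  off : ∀ θ v g p, 3 ≤ θ → θ ≤ 5 → nsq v < 1 → lt (θ, v) = B.nk g p → 3 ≤ |p.2|

/-! ### Row statements -/

/-- row GT -/
def GtStmt : Prop := ∀ D : QDat, D.Ok → ∃ T : GtDat D, T.Ok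
/-- row MG -/
def MgStmt : Prop := ∀ (D : QDat) (T : GtDat D), D.Ok → T.Ok → ∃ B : MgDat T, B.Ok
/-- row CPT -/
def CptStmt : Prop := ∀ (D : QDat) (T : GtDat D) (B : MgDat T), D.Ok → T.Ok → B.Ok →
  CompactSpace B.M ∧ ConnectedSpace T.Gt ∧ ConnectedSpace B.MG ∧ ConnectedSpace B.M ∧
    OE D.F.cyl B.M B.ν univ ∧ B.pM ⁻¹' (B.ν '' (univ ×ˢ {0}))ᶜ = range B.i
/-- row SCG -/
def ScgStmt : Prop := ∀ (D : QDat) (T : GtDat D), D.Ok → T.Ok → SC (univ : Set T.Gt)
/-- row ARC -/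
def ArcStmt : Prop := ∀ (D : QDat) (T : GtDat D), D.Ok → T.Ok → ∃ r, Arc T r
/-- row CIRC -/
def CircStmt : Prop := ∀ (D : QDat) (T : GtDat D) (B : MgDat T) (r : ℝ × Rn 3 → T.Gt),
  D.Ok → T.Ok → B.Ok → Arc T r → ∃ lt, Circ B lt
/-- row SC1 -/
def Sc1Stmt : Prop := ∀ (D : QDat) (T : GtDat D) (B : MgDat T) (lt : ℝ × Rn 3 → B.MG),
  B.Ok → Circ B lt → SC (univ : Set T.Gt) →
    SC (range B.i) ∧ SC (range B.i \ B.pM ⁻¹' ((fun p => B.pM (lt p)) '' (univ ×ˢ {0})))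
/-- row SPIN -/
def SpinStmt : Prop := ∀ (C : SpinCover) (D : QDat) (T : GtDat D) (B : MgDat T),
  D.Ok → T.Ok → B.Ok → Nonempty (Spin C B.MG.cyl univ) ∧ ∃ o, Ori B.M 4 o univ
/-- row H2 -/
def H2Stmt : Prop := ∀ (D : QDat) (T : GtDat D) (B : MgDat T), D.Ok → T.Ok → B.Ok →
  HZ B.M 1 (range fun x => B.pM (B.i x))

/-- `α` is exact on `U` -/
def Ex {E : Type} [NormedAddCommGroup E] [NormedSpace ℝ E] [FiniteDimensional ℝ E] (X : Mf E)
    (k : ℕ) (α : X → Lam E) (U : Set X) : Prop := ∃ β, Fm X k β U ∧ ∀ x ∈ U, dM X β x = α x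

section
variable {D : QDat} {T : GtDat D} (B : MgDat T)
/-- the image of `J` in `M` -/
def MgDat.JM : Set B.M := (fun p => B.pM (B.i (T.ι p))) '' JU
/-- the image of a copy of `Qt` minus the circle -/
def MgDat.QM (k : ℤ × ℤ) : Set B.M := (fun x => B.pM (B.i (T.κ k x))) '' D.U
/-- the overlap -/
def MgDat.OM (k : ℤ × ℤ) : Set B.M := (fun q => B.pM (B.i (T.κ k (D.c q)))) '' Dg
end

/-- row H2A -/
def H2aStmt : Prop := ∀ (D : QDat) (T : GtDat D) (B : MgDat T), D.Ok → T.Ok → B.Ok →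
  HZ B.M 1 B.JM
/-- row H2B -/
def H2bStmt : Prop := ∀ (D : QDat) (T : GtDat D) (B : MgDat T), D.Ok → T.Ok → B.Ok →
  ∀ k α, Cl B.M 2 α (B.QM k) → Ex B.M 1 α (B.OM k) → Ex B.M 1 α (B.QM k)
/-- row H2C -/
def H2cStmt : Prop := ∀ (D : QDat) (T : GtDat D) (B : MgDat T), D.Ok → T.Ok → B.Ok →
  ∀ k k' : ℤ × ℤ, (k = (0, 0) ∧ k' = (1, 0)) ∨ (k = (1, 0) ∧ k' = (0, 0)) →
    ∃ θ, Cl B.M 1 θ B.JM ∧ Ex B.M 0 θ (B.OM k') ∧
      ∀ γ, Cl B.M 1 γ (B.OM k) → ∃ c : ℝ, Ex B.M 0 (fun x => γ x - c • θ x) (B.OM k)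
/-- row H2D -/
def H2dStmt : Prop := H2aStmt → H2bStmt → H2cStmt → H2Stmt

end Pool.Agent.MP_e1dc65_gt.E

end
end MrgPart0

-- ======== part 1: formerly Pool.Agent.MP_e1dc65_gt.fm.Hzb
section MrgPart1

/-! PROJECT HC, row HZB: vanishing of de Rham groups of unions. -/

open scoped ContDiff Manifold Topology
open Set Filter Function Module ExteriorAlgebra Pool.Agent.MP_c8d41b_gt.GF

noncomputable section

namespace Pool.Agent.MP_e1dc65_gt

namespace Hzb

variable {E : Type} [NormedAddCommGroup E] [NormedSpace ℝ E] [FiniteDimensional ℝ E] {X : Mf E}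
  {k : ℕ} {α β : X → Lam E} {U V W : Set X} {x : X}

/-- gluing of primitives that agree on overlaps -/
theorem glue {I : Type} {U : I → Set X} {β : I → X → Lam E} (hU : ∀ i, IsOpen (U i))
    (h1 : ∀ i, Fm X k (β i) (U i)) (h2 : ∀ i, ∀ x ∈ U i, dM X (β i) x = α x)
    (h3 : ∀ i j, ∀ x ∈ U i, x ∈ U j → β i x = β j x) :
    ∃ γ, Fm X k γ (⋃ i, U i) ∧ ∀ x ∈ ⋃ i, U i, dM X γ x = α x := by
  classical
  let γ : X → Lam E := fun x => if h : ∃ i, x ∈ U i then β h.choose x else 0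
  have e : ∀ i, EqOn γ (β i) (U i) := fun i x hx => by
    have h : ∃ i, x ∈ U i := ⟨i, hx⟩
    simp only [γ, dif_pos h]
    exact h3 _ _ x h.choose_spec hx
  refine ⟨γ, fun x hx => ?_, fun x hx => ?_⟩
  · obtain ⟨i, hi⟩ := mem_iUnion.1 hx
    exact (h1 i).congr (hU i) (e i) x hi
  · obtain ⟨i, hi⟩ := mem_iUnion.1 hx
    exact (dM_congr ((e i).eventuallyEq_of_mem ((hU i).mem_nhds hi))).trans (h2 i x hi)

theorem glue2 {β' : X → Lam E} (hU : IsOpen U) (hV : IsOpen V) (h1 : Fm X k β U)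
    (h1' : Fm X k β' V) (h2 : ∀ x ∈ U, dM X β x = α x) (h2' : ∀ x ∈ V, dM X β' x = α x)
    (h3 : ∀ x ∈ U, x ∈ V → β x = β' x) :
    ∃ γ, Fm X k γ (U ∪ V) ∧ ∀ x ∈ U ∪ V, dM X γ x = α x := by
  rw [union_eq_iUnion]
  refine glue (β := fun b => cond b β β') ?_ ?_ ?_ ?_
  · rintro (_ | _) <;> assumption
  · rintro (_ | _) <;> assumption
  · rintro (_ | _) <;> assumption
  · rintro (_ | _) (_ | _) x h h'
    · rfl
    · exact (h3 x h' h).symm
    · exact h3 x h h'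
    · rfl

theorem scal {a : Lam E} (h : a ∈ dg E 0) : a = algebraMap ℝ _ (algebraMapInv a) :=
  eq_scalar fun v => (dg_ctr v h).2 rfl

theorem sm_coef (h : FmAt X β x) : SmAt X (vs ℝ) (fun y => algebraMapInv (β y)) x := by
  refine smAt_iff_loc.2 ?_
  have := cda_lin (algebraMapInv : Lam E →ₐ[ℝ] ℝ).toLinearMap h
  refine this.congr_of_eventuallyEq (Eventually.of_forall fun y => ?_)
  exact (algebraMapInv_mp _ _).symm

/-- a function with vanishing differential is locally constant -/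
theorem lc_fun {u : X → ℝ} (hW : IsOpen W) (h : Sm X (vs ℝ) u W)
    (h0 : ∀ y ∈ W, Df X (vs ℝ) u y = 0) (hx : x ∈ W) : ∀ᶠ y in 𝓝 x, u y = u x := by
  have h1 : (ch X x).target ∩ (ch X x).symm ⁻¹' W ∈ 𝓝 (ch X x x) :=
    inter_mem ((ch X x).open_target.mem_nhds (mem_chart_target E x))
      (tendsto_ch_symm (hW.mem_nhds hx))
  obtain ⟨r, hr, hb⟩ := Metric.mem_nhds_iff.1 h1
  have h2 : ∀ z ∈ Metric.ball (ch X x x) r,
      SmAt (vs E) (vs ℝ) (fun z => u ((ch X x).symm z)) z := fun z hz =>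
    (smAt_ch_symm (hb hz).1).trans (h _ (hb hz).2)
  have h3 : ∀ z ∈ Metric.ball (ch X x x) r, u ((ch X x).symm z) = u ((ch X x).symm (ch X x x)) :=
    fun z hz => Metric.isOpen_ball.is_const_of_fderiv_eq_zero (𝕜 := ℝ)
      (f := fun z => u ((ch X x).symm z)) (convex_ball _ _).isPreconnected
      (fun w hw => ((smAt_vs.1 (h2 w hw)).differentiableAt (by simp)).differentiableWithinAt)
      (fun w hw => by
        rw [← Df_vs, Df_comp (smAt_ch_symm (hb hw).1) (h _ (hb hw).2), h0 _ (hb hw).2]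
        simp) hz (Metric.mem_ball_self hr)
  filter_upwards [(ch X x).open_source.mem_nhds (mem_chart_source E x),
    (smAt_ch_self (x := x)).cont.preimage_mem_nhds (Metric.ball_mem_nhds _ hr)] with y hy hy'
  have := h3 _ hy'
  rwa [(ch X x).left_inv hy, ch_left] at this

/-- a closed form of degree zero is locally constant -/
theorem lc (hW : IsOpen W) (h : Cl X 0 β W) (hx : x ∈ W) :
    ∀ᶠ y in 𝓝 x, algebraMapInv (β y) = algebraMapInv (β x) := by
  refine lc_fun (u := fun y => algebraMapInv (β y)) hW (fun y hy => sm_coef (h.1 y hy).1)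
    (fun y hy => ?_) hx
  have e : β =ᶠ[𝓝 y] fun z => algebraMap ℝ _ (algebraMapInv (β z)) :=
    mem_of_superset (hW.mem_nhds hy) fun z hz => scal (h.1 z hz).2
  have h1 := h.2 y hy
  rw [dM_congr e, dM_scalar (sm_coef (h.1 y hy).1), dF] at h1
  exact ι_eq_zero_iff _ |>.1 h1

/-- the difference of two primitives is closed -/
theorem cl_sub {β' : X → Lam E} (h1 : Fm X k β U) (h1' : Fm X k β' V)
    (h2 : ∀ x ∈ U, dM X β x = α x) (h2' : ∀ x ∈ V, dM X β' x = α x) :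
    Cl X k (fun y => β y - β' y) (U ∩ V) :=
  ⟨(h1.mono inter_subset_left).sub (h1'.mono inter_subset_right), fun x hx => by
    rw [dM_sub (h1 x hx.1).1 (h1' x hx.2).1, h2 x hx.1, h2' x hx.2, sub_self]⟩

/-- adding a locally constant function to a primitive -/
theorem add_lc {c : X → ℝ} (h1 : Fm X 0 β W) (h2 : ∀ x ∈ W, dM X β x = α x)
    (hc : ∀ x ∈ W, ∀ᶠ y in 𝓝 x, c y = c x) :
    Fm X 0 (fun y => β y + algebraMap ℝ _ (c y)) W ∧
      ∀ x ∈ W, dM X (fun y => β y + algebraMap ℝ _ (c y)) x = α x := by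
  have hs : Sm X (vs ℝ) c W := fun x hx => (smAt_const (Y := vs ℝ) (c x)).congr' (hc x hx)
  refine ⟨h1.add (fm_scalar hs), fun x hx => ?_⟩
  rw [dM_add (h1 x hx).1 (fmAt_scalar (hs x hx)), dM_scalar (hs x hx), dF_of_ev (hc x hx), add_zero,
    h2 x hx]

/-- a form on `U ∩ V` cut off by a function that vanishes near `U` minus `V` -/
theorem cut {ρ : X → ℝ} {γ : X → Lam E} (hρ : Sm X (vs ℝ) ρ U) (hγ : Fm X k γ (U ∩ V))
    (h0 : ∀ x ∈ U, x ∉ V → ρ =ᶠ[𝓝 x] 0) : Fm X k (fun y => ρ y • γ y) U := fun x hx => by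
  by_cases hv : x ∈ V
  · exact ⟨(hγ x ⟨hx, hv⟩).1.fsmul (hρ x hx), Submodule.smul_mem _ _ (hγ x ⟨hx, hv⟩).2⟩
  · refine ⟨fmAt_of_ev ((h0 x hx hv).mono fun y hy => by simp [hy]), ?_⟩
    simp [(h0 x hx hv).eq_of_nhds]

theorem mv (hU : IsOpen U) (hV : IsOpen V) (h1 : HZ X (k + 1) U) (h2 : HZ X (k + 1) V)
    (h3 : HZ X k (U ∩ V)) : HZ X (k + 1) (U ∪ V) := fun α hα => by
  obtain ⟨β, b1, b2⟩ := h1 α (hα.mono subset_union_left)
  obtain ⟨β', b1', b2'⟩ := h2 α (hα.mono subset_union_right)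
  obtain ⟨γ, g1, g2⟩ := h3 _ (cl_sub b1 b1' b2 b2')
  obtain ⟨ρ, r1, -, r3, -, r5⟩ := (bumpM E X).2 Bool (fun b => cond b U V) (U ∪ V) (hU.union hV)
    (by rintro (_ | _) <;> assumption)
    (by rintro x (h | h); exacts [⟨true, h⟩, ⟨false, h⟩])
  have c1 : Fm X k (fun y => ρ false y • γ y) U :=
    cut ((r1 false).mono subset_union_left) g1 fun x hx hv => r3 false x (Or.inl hx) hv
  have c2 : Fm X k (fun y => ρ true y • γ y) V :=
    cut ((r1 true).mono subset_union_right) (inter_comm U V ▸ g1)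
      fun x hx hv => r3 true x (Or.inr hx) hv
  refine glue2 (β := fun y => β y - dM X (fun y => ρ false y • γ y) y)
    (β' := fun y => β' y + dM X (fun y => ρ true y • γ y) y) hU hV (b1.sub (c1.dM hU).1)
    (b1'.add (c2.dM hV).1) (fun x hx => ?_) (fun x hx => ?_) fun x hx hx' => ?_
  · rw [dM_sub (b1 x hx).1 (c1 x hx).1.dM, dM_dM (c1 x hx).1, sub_zero, b2 x hx]
  · rw [dM_add (b1' x hx).1 (c2 x hx).1.dM, dM_dM (c2 x hx).1, add_zero, b2' x hx]
  · have e : γ =ᶠ[𝓝 x] fun y => ρ true y • γ y + ρ false y • γ y := by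
      filter_upwards [hU.mem_nhds hx] with y hy
      have := r5 y (Or.inl hy)
      rw [finsum_eq_sum_of_fintype, Fintype.sum_bool] at this
      rw [← add_smul, this, one_smul]
    have := g2 x ⟨hx, hx'⟩
    rw [dM_congr e, dM_add (c2 x hx').1 (c1 x hx).1] at this
    rw [sub_eq_iff_eq_add, add_assoc, this, add_sub_cancel]

theorem mv0 (hU : IsOpen U) (hV : IsOpen V) (h1 : HZ X 0 U) (h2 : HZ X 0 V)
    (h3 : IsPreconnected (U ∩ V)) : HZ X 0 (U ∪ V) := fun α hα => by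
  obtain ⟨β, b1, b2⟩ := h1 α (hα.mono subset_union_left)
  obtain ⟨β', b1', b2'⟩ := h2 α (hα.mono subset_union_right)
  have hc := cl_sub b1 b1' b2 b2'
  obtain ⟨c, hc'⟩ : ∃ c : ℝ, ∀ x ∈ U ∩ V, algebraMapInv (β x - β' x) = c := by
    rcases (U ∩ V).eq_empty_or_nonempty with h | ⟨x, hx⟩
    · exact ⟨0, by simp [h]⟩
    · refine ⟨algebraMapInv (β x - β' x), fun y hy => ?_⟩
      refine h3.induction₂ (fun y x => algebraMapInv (β y - β' y) = algebraMapInv (β x - β' x))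
        (fun z hz => ?_) (fun a b c _ _ _ h h' => h.trans h') (fun a b _ _ h => h.symm) hy hx
      exact mem_nhdsWithin_of_mem_nhds ((lc (hU.inter hV) hc hz).mono fun w hw => hw.symm)
  obtain ⟨a1, a2⟩ := add_lc (c := fun _ => c) b1' b2' fun _ _ => Eventually.of_forall fun _ => rfl
  refine glue2 hU hV b1 a1 b2 a2 fun x hx hx' => ?_
  rw [← hc' x ⟨hx, hx'⟩, ← scal (hc.1 x ⟨hx, hx'⟩).2, add_sub_cancel]

theorem disj {I : Type} {U : I → Set X} (hU : ∀ i, IsOpen (U i))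
    (hd : Pairwise fun i j => Disjoint (U i) (U j)) (h : ∀ i, HZ X k (U i)) :
    HZ X k (⋃ i, U i) := fun α hα => by
  choose β b1 b2 using fun i => h i α (hα.mono (subset_iUnion U i))
  refine glue hU b1 b2 fun i j x hi hj => ?_
  by_cases e : i = j
  · rw [e]
  · exact (disjoint_left.1 (hd e) hi hj).elim

theorem small (hA : HzaStmt) (hU : IsOpen U) (x : X) :
    ∃ W, IsOpen W ∧ W ⊆ U ∧ (x ∈ U → x ∈ W) ∧ HZ X 0 W := by
  by_cases hx : x ∈ U
  · have h1 : (ch X x).target ∩ (ch X x).symm ⁻¹' U ∈ 𝓝 (ch X x x) :=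
      inter_mem ((ch X x).open_target.mem_nhds (mem_chart_target E x))
        (tendsto_ch_symm (hU.mem_nhds hx))
    obtain ⟨r, hr, hb⟩ := Metric.mem_nhds_iff.1 h1
    have h2 : OE (vs E) X (ch X x).symm (Metric.ball (ch X x x) r) :=
      oe_ch_symm.mono Metric.isOpen_ball fun z hz => (hb hz).1
    refine ⟨_, h2.isOpen_image h2.op subset_rfl, ?_, fun _ => ⟨_, Metric.mem_ball_self hr, ch_left X x⟩,
      h2.hz_image ((hA E 0).2.2.2 _ _ Metric.isOpen_ball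
        ((convex_ball _ _).starConvex (Metric.mem_ball_self hr)))⟩
    rintro _ ⟨z, hz, rfl⟩
    exact (hb hz).2
  · exact ⟨∅, isOpen_empty, empty_subset _, fun h => (hx h).elim,
      fun _ _ => ⟨fun _ => 0, fm_zero, fun _ h => h.elim⟩⟩

theorem perf (hA : HzaStmt) (hU : IsOpen U) (hP : Perf U) : HZ X 0 U := fun α hα => by
  choose W w1 w2 w3 w4 using small hA hU
  choose β b1 b2 using fun i => w4 i α (hα.mono (w2 i))
  have hc := fun i j => cl_sub (b1 i) (b1 j) (b2 i) (b2 j)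
  obtain ⟨τ, s, t1, t2, t3⟩ := cech X (Multiplicative ℝ) X U W
    (fun i j z => Multiplicative.ofAdd (algebraMapInv (β i z - β j z))) w1
    (fun x hx => ⟨x, w3 x hx⟩)
    (fun i j x hx => mem_nhdsWithin_of_mem_nhds
      ((lc ((w1 i).inter (w1 j)) (hc i j) ⟨hx.1.2, hx.2⟩).mono fun y hy =>
        congrArg Multiplicative.ofAdd hy))
    (fun i j k x _ => by rw [← ofAdd_add, ← map_add, sub_add_sub_cancel])
  obtain ⟨σ, hσ⟩ := hP _ τ t1
  have hl : ∀ i, ∀ x ∈ W i, ∀ᶠ y in 𝓝 x, (σ y * (s i y)⁻¹).toAdd = (σ x * (s i x)⁻¹).toAdd := by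
    intro i x hx
    filter_upwards [pathComponentIn_mem_nhds ((w1 i).mem_nhds hx)] with y hy
    obtain ⟨γ, hγ⟩ := hy
    rw [hσ x y γ fun t => w2 i (hγ t), t2 i x y γ fun t => ⟨w2 i (hγ t), hγ t⟩, mul_inv_rev,
      mul_assoc, mul_inv_cancel_left]
  have ha := fun i => add_lc (b1 i) (b2 i) (hl i)
  have hU' : U = ⋃ i, W i := Subset.antisymm (fun x hx => mem_iUnion.2 ⟨x, w3 x hx⟩)
    (iUnion_subset w2)
  rw [hU']
  refine glue w1 (fun i => (ha i).1) (fun i => (ha i).2) fun i j x hi hj => ?_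
  have h2 : β i x - β j x = algebraMap ℝ _ (algebraMapInv (β i x - β j x)) :=
    scal ((hc i j).1 x ⟨hi, hj⟩).2
  rw [t3 i j x ⟨⟨w2 i hi, hi⟩, hj⟩]
  simp only [mul_inv, toAdd_mul, toAdd_inv, toAdd_ofAdd, map_add, map_neg]
  rw [← h2]
  abel

end Hzb

theorem hzb (hA : HzaStmt) : HzbStmt := fun _ _ _ _ _ =>
  ⟨fun _ _ _ => Hzb.mv, fun _ _ => Hzb.mv0, fun _ _ _ => Hzb.disj, fun _ => Hzb.perf hA⟩

end Pool.Agent.MP_e1dc65_gt

end
end MrgPart1

-- marker of a merged file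
example : 731051 + 197986 = 731051 + 197986 := rfl

end MrgPart0

-- ======== part 1: formerly Pool.Agent.MP_e1dc65_gt.fm.Spb
section MrgPart1

/-! PROJECT HC, row SPB: elementary constructions of spin structures. -/

open scoped ContDiff Manifold Topology Matrix
open Set Filter Function Module Pool.Agent.MP_c8d41b_gt.GF

noncomputable section

namespace Pool.Agent.MP_e1dc65_gt

namespace SPB

variable {C : SpinCover} {E E' : Type} [NormedAddCommGroup E] [NormedSpace ℝ E]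
  [FiniteDimensional ℝ E] [NormedAddCommGroup E'] [NormedSpace ℝ E'] [FiniteDimensional ℝ E']
  {X : Mf E} {Y : Mf E'} {U : Set X}

theorem g_self (sp : Spin C X U) (i : sp.ι) {x : X} (hx : x ∈ sp.W i) : sp.g i i x = 1 :=
  mul_left_cancel ((sp.coc i i i x ⟨⟨hx, hx⟩, hx⟩).trans (mul_one _).symm)

omit [FiniteDimensional ℝ E] in
theorem pi_inv {a b : E →L[ℝ] Rn 5} {h : C.G} (ha : a.IsInvertible) (hb : b.IsInvertible)
    (e : C.π h = tm a b) : C.π h⁻¹ = tm b a := by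
  rw [← Matrix.one_mul (C.π h⁻¹), ← tm_self hb, ← tm_mul ha, ← e, Matrix.mul_assoc, ← map_mul,
    mul_inv_cancel, map_one, Matrix.mul_one]

/-- a single chart -/
def one (C : SpinCover) {Θ : X → E →L[ℝ] Rn 5} (hU : IsOpen U) (h : Cof X 0 Θ U) : Spin C X U where
  ι := Unit
  W _ := U
  Θ _ := Θ
  op _ := hU
  sub _ := subset_rfl
  cov _ hx := ⟨(), hx⟩
  cof _ := h
  g _ _ _ := 1
  cont _ _ := continuousOn_const
  proj _ _ x hx := by rw [map_one, tm_self (h x hx.1).2]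
  coc _ _ _ _ _ := one_mul _

/-- pull-back by a local diffeomorphism -/
def pb (sp : Spin C X U) {f : Y → X} {V : Set Y} (hV : IsOpen V) (hf : ∀ y ∈ V, LDAt Y X f y)
    (m : MapsTo f V U) : Spin C Y V where
  ι := sp.ι
  W i := V ∩ f ⁻¹' sp.W i
  Θ i y := (sp.Θ i (f y)).comp (Df Y X f y)
  op i := ContinuousOn.isOpen_inter_preimage
    (fun y hy => (hf y hy).sm.cont.continuousWithinAt) hV (sp.op i)
  sub _ := inter_subset_left
  cov y hy := (sp.cov _ (m hy)).imp fun _ h => ⟨hy, h⟩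
  cof i := (sp.cof i).pb (fun y hy => hf y hy.1) fun _ hy => hy.2
  g i j y := sp.g i j (f y)
  cont i j := (sp.cont i j).comp (fun y hy => (hf y hy.1.1).sm.cont.continuousWithinAt)
    fun _ hy => ⟨hy.1.2, hy.2.2⟩
  proj i j y hy := by rw [tm_comp (hf y hy.1.1).inv, sp.proj i j _ ⟨hy.1.2, hy.2.2⟩]
  coc i j k _ hy := sp.coc i j k _ ⟨⟨hy.1.1.2, hy.1.2.2⟩, hy.2.2⟩

omit [FiniteDimensional ℝ E] in
theorem inv_neg {a : E →L[ℝ] Rn 5} (ha : a.IsInvertible) : (-a).IsInvertible := by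
  obtain ⟨L, rfl⟩ := ha
  exact ⟨L.trans (ContinuousLinearEquiv.neg ℝ), by ext; simp⟩

omit [FiniteDimensional ℝ E] in
theorem posB_neg {a : E →L[ℝ] Rn 5} (ha : a.IsInvertible) (o : Lam E) :
    PosB (Pi.basisFun ℝ (Fin 5)) o (-a) ↔ PosB (Pi.basisFun ℝ (Fin 5)) (-o) a := by
  have e : tm a (-a) = -1 := tm_eq (inv_neg ha) fun v => by simp [Matrix.neg_mulVec]
  rw [posB_iff', posB_iff', ev_inverse_det _ ha, ← det_tm, e, Matrix.det_neg, map_neg, ev_neg]
  norm_num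

omit [FiniteDimensional ℝ E] in
theorem not_both {a : E →L[ℝ] Rn 5} {o : Lam E} (h : PosB (Pi.basisFun ℝ (Fin 5)) (-o) a) :
    ¬PosB (Pi.basisFun ℝ (Fin 5)) o a := by
  rw [posB_iff'] at h ⊢
  rw [map_neg, ev_neg] at h
  linarith

omit [FiniteDimensional ℝ E] in
theorem tm_neg {a b : E →L[ℝ] Rn 5} (hb : b.IsInvertible) : tm (-a) (-b) = tm a b :=
  tm_eq (inv_neg hb) fun v => by simp [Matrix.mulVec_neg, tm_mulVec hb]

open Classical in
/-- change of sign of the negative coframes -/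
def fix (sp : Spin C X U) {o : X → Lam E} (ho : Ori X 5 o U) : Spin C X U where
  ι := sp.ι
  W := sp.W
  Θ i x := if PosB (Pi.basisFun ℝ (Fin 5)) (o x) (sp.Θ i x) then sp.Θ i x else -sp.Θ i x
  op := sp.op
  sub := sp.sub
  cov := sp.cov
  cof i x hx := by
    obtain ⟨h1, h2⟩ := sp.cof i x hx
    obtain ⟨o1, o2⟩ := ho.fm x (sp.sub i hx)
    rcases posB_or (Pi.basisFun ℝ (Fin 5)) o2 (ho.ne x (sp.sub i hx)) h2 with h | h
    · refine ⟨h1.congr' ?_, by beta_reduce; rwa [if_pos h]⟩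
      filter_upwards [h1.ev_pos h2 o1 h] with y hy
      rw [if_pos hy]
    · refine ⟨h1.neg.congr' ?_, by beta_reduce; rw [if_neg (not_both h)]; exact inv_neg h2⟩
      filter_upwards [h1.neg.ev_pos (inv_neg h2) o1 ((posB_neg h2 _).2 h), h1.ev_inv h2]
        with y hy h3
      rw [if_neg (not_both ((posB_neg h3 _).1 hy))]
  g := sp.g
  cont := sp.cont
  proj i j x hx := by
    have hi := (sp.cof i x hx.1).2
    have hj := (sp.cof j x hx.2).2
    rw [sp.proj i j x hx]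
    by_cases h : PosB (Pi.basisFun ℝ (Fin 5)) (o x) (sp.Θ i x)
    · rw [if_pos h, if_pos ((h.iff_tm hi).2 (sp.proj i j x hx ▸ C.pos _))]
    · rw [if_neg h, if_neg fun h' => h ((PosB.iff_tm h' hj).2
        (sp.proj j i x ⟨hx.2, hx.1⟩ ▸ C.pos _)), tm_neg hj]
  coc := sp.coc

/-- one more chart -/
def add (sp : Spin C X U) (i : sp.ι) {W : Set X} {Θ : X → E →L[ℝ] Rn 5} {t : X → C.G}
    (hW : IsOpen W) (hs : W ⊆ sp.W i) (hΘ : Cof X 0 Θ W) (ht : ContinuousOn t W)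
    (hp : ∀ x ∈ W, C.π (t x) = tm (Θ x) (sp.Θ i x)) : Spin C X U where
  ι := Option sp.ι
  W k := k.elim W sp.W
  Θ k := k.elim Θ sp.Θ
  op k := by cases k; exacts [hW, sp.op _]
  sub k := by cases k; exacts [hs.trans (sp.sub i), sp.sub _]
  cov x hx := (sp.cov x hx).elim fun j h => ⟨some j, h⟩
  cof k := by cases k; exacts [hΘ, sp.cof _]
  g k l := match k, l with
    | none, none => fun _ => 1
    | none, some l => fun x => t x * sp.g i l x
    | some k, none => fun x => (t x * sp.g i k x)⁻¹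
    | some k, some l => sp.g k l
  cont k l := by
    rcases k with _ | k <;> rcases l with _ | l
    · exact continuousOn_const
    · exact (ht.mono inter_subset_left).mul ((sp.cont i l).mono fun x hx => ⟨hs hx.1, hx.2⟩)
    · exact ((ht.mono inter_subset_right).mul
        ((sp.cont i k).mono fun x hx => ⟨hs hx.2, hx.1⟩)).inv
    · exact sp.cont k l
  proj k l x hx := by
    have key : ∀ l, x ∈ W → x ∈ sp.W l → C.π (t x * sp.g i l x) = tm (Θ x) (sp.Θ l x) :=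
      fun l h1 h2 => by
        rw [map_mul, hp x h1, sp.proj i l x ⟨hs h1, h2⟩, tm_mul (sp.cof i x (hs h1)).2]
    rcases k with _ | k <;> rcases l with _ | l
    · exact (map_one _).trans (tm_self (hΘ x hx.1).2).symm
    · exact key l hx.1 hx.2
    · exact pi_inv (hΘ x hx.2).2 (sp.cof k x hx.1).2 (key k hx.2 hx.1)
    · exact sp.proj k l x hx
  coc j k l x hx := by
    rcases j with _ | j <;> rcases k with _ | k <;> rcases l with _ | l <;> dsimp only
    · group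
    · group
    · group
    · rw [← sp.coc i k l x ⟨⟨hs hx.1.1, hx.1.2⟩, hx.2⟩]; group
    · group
    · rw [← sp.coc i j l x ⟨⟨hs hx.1.2, hx.1.1⟩, hx.2⟩]; group
    · rw [← sp.coc i j k x ⟨⟨hs hx.2, hx.1.1⟩, hx.1.2⟩]; group
    · exact sp.coc j k l x hx

/-- the union of two spin structures -/
def uni {U' : Set X} (sp : Spin C X U) (sp' : Spin C X U') (i : sp.ι) (i' : sp'.ι) {t : X → C.G}
    (h : U ∩ U' ⊆ sp.W i) (h' : U ∩ U' ⊆ sp'.W i') (ht : ContinuousOn t (U ∩ U'))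
    (hp : ∀ x ∈ U ∩ U', C.π (t x) = tm (sp.Θ i x) (sp'.Θ i' x)) : Spin C X (U ∪ U') where
  ι := sp.ι ⊕ sp'.ι
  W := Sum.elim sp.W sp'.W
  Θ := Sum.elim sp.Θ sp'.Θ
  op k := by cases k; exacts [sp.op _, sp'.op _]
  sub k := by
    cases k; exacts [(sp.sub _).trans subset_union_left, (sp'.sub _).trans subset_union_right]
  cov x hx := hx.elim (fun h => (sp.cov x h).elim fun j h => ⟨.inl j, h⟩)
    fun h => (sp'.cov x h).elim fun j h => ⟨.inr j, h⟩
  cof k := by cases k; exacts [sp.cof _, sp'.cof _]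
  g k l := match k, l with
    | .inl k, .inl l => sp.g k l
    | .inl k, .inr l => fun x => sp.g k i x * t x * sp'.g i' l x
    | .inr k, .inl l => fun x => (sp.g l i x * t x * sp'.g i' k x)⁻¹
    | .inr k, .inr l => sp'.g k l
  cont k l := by
    have key : ∀ k l, ContinuousOn (fun x => sp.g k i x * t x * sp'.g i' l x) (sp.W k ∩ sp'.W l) :=
      fun k l => (((sp.cont k i).mono fun x hx => ⟨hx.1, h ⟨sp.sub k hx.1, sp'.sub l hx.2⟩⟩).mul
        (ht.mono fun x hx => ⟨sp.sub k hx.1, sp'.sub l hx.2⟩)).mul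
        ((sp'.cont i' l).mono fun x hx => ⟨h' ⟨sp.sub k hx.1, sp'.sub l hx.2⟩, hx.2⟩)
    rcases k with k | k <;> rcases l with l | l
    exacts [sp.cont k l, key k l, ((key l k).mono fun x hx => ⟨hx.2, hx.1⟩).inv, sp'.cont k l]
  proj k l x hx := by
    have key : ∀ k l, x ∈ sp.W k → x ∈ sp'.W l →
        C.π (sp.g k i x * t x * sp'.g i' l x) = tm (sp.Θ k x) (sp'.Θ l x) := fun k l h1 h2 => by
      have h3 : x ∈ U ∩ U' := ⟨sp.sub k h1, sp'.sub l h2⟩
      rw [map_mul, map_mul, hp x h3, sp.proj k i x ⟨h1, h h3⟩, sp'.proj i' l x ⟨h' h3, h2⟩,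
        tm_mul (sp.cof i x (h h3)).2, tm_mul (sp'.cof i' x (h' h3)).2]
    rcases k with k | k <;> rcases l with l | l
    exacts [sp.proj k l x hx, key k l hx.1 hx.2,
      pi_inv (sp.cof l x hx.2).2 (sp'.cof k x hx.1).2 (key l k hx.2 hx.1), sp'.proj k l x hx]
  coc j k l x hx := by
    rcases j with j | j <;> rcases k with k | k <;> rcases l with l | l <;> dsimp only
    · exact sp.coc j k l x hx
    · rw [← sp.coc j k i x ⟨hx.1, h ⟨sp.sub j hx.1.1, sp'.sub l hx.2⟩⟩]; group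
    · rw [← sp.coc j l i x ⟨⟨hx.1.1, hx.2⟩, h ⟨sp.sub j hx.1.1, sp'.sub k hx.1.2⟩⟩]; group
    · rw [← sp'.coc i' k l x ⟨⟨h' ⟨sp.sub j hx.1.1, sp'.sub l hx.2⟩, hx.1.2⟩, hx.2⟩]; group
    · rw [← sp.coc k l i x ⟨⟨hx.1.2, hx.2⟩, h ⟨sp.sub l hx.2, sp'.sub j hx.1.1⟩⟩]; group
    · rw [← sp'.coc i' j l x ⟨⟨h' ⟨sp.sub k hx.1.2, sp'.sub l hx.2⟩, hx.1.1⟩, hx.2⟩]; group
    · rw [← sp'.coc i' j k x ⟨⟨h' ⟨sp.sub l hx.2, sp'.sub j hx.1.1⟩, hx.1.1⟩, hx.1.2⟩]; group
    · exact sp'.coc j k l x hx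

theorem cyl0 {Θ : X.cyl → (E × ℝ) →L[ℝ] Rn 5} {p : X.cyl} (h : CfAt X.cyl 0 Θ (p.1, 0)) :
    CfAt X.cyl 0 (fun q => Θ (q.1, 0)) p := by
  have c := (cof_ch (X := X) (x := p.1) (n := 0)).cyl
  have hz : SmAt X.cyl X.cyl (fun q => (q.1, (0 : ℝ))) p :=
    smAt_fst.pair (smAt_const (Y := vs ℝ) 0)
  have c1 := c p ⟨mem_chart_source E p.1, trivial⟩
  have c0 := c (p.1, 0) ⟨mem_chart_source E p.1, trivial⟩
  exact c1.1.of_trans c1.2 (hz.cn (h.trans_cn c0.1 c0.2))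

/-- the structure on the cylinder that is constant along the lines -/
def cyl {O : Set X.cyl} (sp : Spin C X.cyl O) (hU : IsOpen U) (h : ∀ x ∈ U, (x, 0) ∈ O) :
    Spin C X.cyl (U ×ˢ univ) where
  ι := sp.ι
  W i := {p | p.1 ∈ U ∧ (p.1, 0) ∈ sp.W i}
  Θ i p := sp.Θ i (p.1, 0)
  op i := (hU.preimage continuous_fst).inter
    ((sp.op i).preimage (continuous_fst.prodMk continuous_const))
  sub _ _ hp := ⟨hp.1, trivial⟩
  cov _ hp := (sp.cov _ (h _ hp.1)).imp fun _ h => ⟨hp.1, h⟩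
  cof i _ hp := ⟨cyl0 (sp.cof i _ hp.2).1, (sp.cof i _ hp.2).2⟩
  g i j p := sp.g i j (p.1, 0)
  cont i j := (sp.cont i j).comp (continuous_fst.prodMk continuous_const).continuousOn
    fun _ hp => ⟨hp.1.2, hp.2.2⟩
  proj i j _ hp := sp.proj i j _ ⟨hp.1.2, hp.2.2⟩
  coc i j k _ hp := sp.coc i j k _ ⟨⟨hp.1.1.2, hp.1.2.2⟩, hp.2.2⟩

end SPB

open SPB in
theorem spb : SpbStmt := by
  intro C E _ _ _ X
  refine ⟨fun U Θ hU h => ⟨one C hU h, (), rfl, rfl⟩,
    fun E' _ _ _ Y f U V sp hV hf m => ⟨pb sp hV hf m, .refl _, fun i => ⟨rfl, rfl, fun _ => rfl⟩⟩,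
    fun U sp o ho => ⟨fix sp ho, .refl _, fun i x hx => ?_, fun i =>
      ⟨rfl, fun _ => rfl, fun x _ h => if_pos h⟩⟩,
    fun U W sp i Θ t hW hs hΘ ht hp => ⟨add sp i hW hs hΘ ht hp, some, none,
      ⟨fun _ => rfl, fun _ => rfl, fun _ _ => rfl⟩, rfl, rfl, fun x hx => ?_, fun j => ?_⟩,
    fun U U' sp sp' i i' t h h' ht hp => ⟨uni sp sp' i i' h h' ht hp, .inl, .inr,
      ⟨fun _ => rfl, fun _ => rfl, fun _ _ => rfl⟩, ⟨fun _ => rfl, fun _ => rfl, fun _ _ => rfl⟩,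
      fun j => ?_, fun _ _ _ _ => ⟨rfl, rfl⟩⟩,
    fun U O sp hU h => ⟨cyl sp hU h, .refl _, fun i => ⟨rfl, rfl, fun _ => rfl⟩⟩⟩
  · have h2 := (sp.cof i x hx).2
    rcases posB_or (Pi.basisFun ℝ (Fin 5)) (ho.fm x (sp.sub i hx)).2 (ho.ne x (sp.sub i hx)) h2
      with h | h
    · have e : (fix sp ho).Θ i x = sp.Θ i x := if_pos h
      rwa [e]
    · have e : (fix sp ho).Θ i x = -sp.Θ i x := if_neg (not_both h)
      rw [e]
      exact (posB_neg h2 _).2 h
  · show t x * sp.g i i x = t x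
    rw [g_self sp i (hs hx), mul_one]
  · cases j; exacts [.inl rfl, .inr ⟨_, rfl⟩]
  · cases j; exacts [.inl ⟨_, rfl⟩, .inr ⟨_, rfl⟩]

end Pool.Agent.MP_e1dc65_gt

end
end MrgPart1

-- ======== part 2: formerly Pool.Agent.MP_e1dc65_gt.e.bPhi
section MrgPart2

/-! PROJECT HC, part E, sub-part B, row PHI: the gluing maps. -/

open scoped ContDiff Manifold Topology Matrix Real
open Set Filter Function Module Pool.Agent.MP_c8d41b_gt.GF

noncomputable section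

namespace Pool.Agent.MP_e1dc65_gt.E

namespace PhiP

/-! ### The function `bet` -/

theorem q_ge (c : ℝ) :
    1 / 4 ≤ c ^ 2 + (1 - c ^ 2) * (1 - Real.smoothTransition (4 * c ^ 2 - 1)) := by
  rcases le_total (c ^ 2) (1 / 4) with h | h
  · rw [Real.smoothTransition.zero_of_nonpos (by linarith)]; linarith
  rcases le_total (c ^ 2) (1 / 2) with h' | h'
  · have := Real.smoothTransition.le_one (4 * c ^ 2 - 1)
    nlinarith
  · rw [Real.smoothTransition.one_of_one_le (by linarith)]; linarith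

theorem bet_ge (c : ℝ) : 1 / 2 ≤ bet c := Real.le_sqrt_of_sq_le (by linarith [q_ge c])

theorem bet_pos (c : ℝ) : 0 < bet c := by linarith [bet_ge c]

theorem bet_le {c : ℝ} (h : c ^ 2 ≤ 1) : bet c ≤ 1 := by
  refine Real.sqrt_le_one.2 ?_
  have := Real.smoothTransition.nonneg (4 * c ^ 2 - 1)
  nlinarith

theorem bet_eq {c : ℝ} (h : 1 / 2 ≤ c ^ 2) : bet c = |c| := by
  rw [bet, Real.smoothTransition.one_of_one_le (by linarith), ← Real.sqrt_sq_eq_abs]
  congr 1; ring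

theorem bet_congr {c d : ℝ} (h : c ^ 2 = d ^ 2) : bet c = bet d := by rw [bet, bet, h]

theorem bet_sm : ContDiff ℝ ∞ bet := by
  refine ContDiff.sqrt ?_ fun c => by linarith [q_ge c]
  have : ContDiff ℝ ∞ fun c : ℝ => Real.smoothTransition (4 * c ^ 2 - 1) :=
    Real.smoothTransition.contDiff.comp (by fun_prop)
  fun_prop

/-- the common shape of the two adapted norms -/
theorem shape_le {s c : ℝ} (hs : 0 ≤ s) (h : c ^ 2 ≤ s ^ 2) :
    s / 2 ≤ s * bet (c / s) ∧ s * bet (c / s) ≤ s := by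
  have h1 : (c / s) ^ 2 ≤ 1 := by
    rw [div_pow]; exact div_le_one_of_le₀ h (sq_nonneg _)
  have := bet_ge (c / s)
  have := bet_le h1
  constructor <;> nlinarith

theorem shape_smul (t s c : ℝ) : |t| * s * bet (t * c / (|t| * s)) = |t| * (s * bet (c / s)) := by
  rcases eq_or_ne t 0 with rfl | ht
  · simp
  rw [mul_assoc, bet_congr (d := c / s)]
  rw [div_pow, div_pow, mul_pow, mul_pow, sq_abs, mul_div_mul_left _ _ (pow_ne_zero 2 ht)]

theorem shape_cone {s c : ℝ} (hs : 0 ≤ s) (h : c ^ 2 ≤ s ^ 2) (h' : s ^ 2 ≤ 2 * c ^ 2) :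
    s * bet (c / s) = |c| := by
  rcases hs.eq_or_lt with rfl | hs
  · have : c = 0 := by nlinarith [sq_nonneg c]
    simp [this]
  rw [bet_eq, abs_div, abs_of_pos hs, mul_div_cancel₀ _ hs.ne']
  rw [div_pow, le_div_iff₀ (by positivity)]
  linarith

/-! ### The adapted norms -/

theorem nsq3 (v : Rn 3) : nsq v = v 0 ^ 2 + v 1 ^ 2 + v 2 ^ 2 := by
  simp [nsq, Fin.sum_univ_three]

theorem nsq_nn (v : Rn 3) : 0 ≤ nsq v := by rw [nsq3]; positivity

theorem nsq_pos {v : Rn 3} (h : v ≠ 0) : 0 < nsq v := by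
  refine (nsq_nn v).lt_of_ne fun e => h ?_
  rw [nsq3] at e
  funext i
  fin_cases i
  · show v 0 = 0
    nlinarith [sq_nonneg (v 0), sq_nonneg (v 1), sq_nonneg (v 2)]
  · show v 1 = 0
    nlinarith [sq_nonneg (v 0), sq_nonneg (v 1), sq_nonneg (v 2)]
  · show v 2 = 0
    nlinarith [sq_nonneg (v 0), sq_nonneg (v 1), sq_nonneg (v 2)]

theorem rt_pos {v : Rn 3} (h : v ≠ 0) : 0 < √(nsq v) := Real.sqrt_pos.2 (nsq_pos h)

theorem rt_smul (t : ℝ) (v : Rn 3) : √(nsq (t • v)) = |t| * √(nsq v) := by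
  have : nsq (t • v) = t ^ 2 * nsq v := by simp [nsq3]; ring
  rw [this, Real.sqrt_mul (sq_nonneg t), Real.sqrt_sq_eq_abs]

theorem nsq_sm : ContDiff ℝ ∞ (nsq : Rn 3 → ℝ) := by unfold nsq; fun_prop

theorem rt_sm {v : Rn 3} (h : v ≠ 0) : ContDiffAt ℝ ∞ (fun v : Rn 3 => √(nsq v)) v :=
  nsq_sm.contDiffAt.sqrt (nsq_pos h).ne'

theorem nub (v : Rn 3) : √(nsq v) / 2 ≤ nuv v ∧ nuv v ≤ √(nsq v) :=
  shape_le (Real.sqrt_nonneg _) (by rw [Real.sq_sqrt (nsq_nn v), nsq3]; nlinarith)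

theorem mub (z : ℂ) : ‖z‖ / 2 ≤ muz z ∧ muz z ≤ ‖z‖ :=
  shape_le (norm_nonneg _) (by rw [← sq_abs]; gcongr; exact Complex.abs_re_le_norm z)

theorem nu_pos {v : Rn 3} (h : v ≠ 0) : 0 < nuv v := by linarith [(nub v).1, rt_pos h]

theorem nusm (v : Rn 3) (h : v ≠ 0) : ContDiffAt ℝ ∞ nuv v :=
  (rt_sm h).mul (bet_sm.contDiffAt.comp v
    ((contDiffAt_apply ℝ ℝ 2 v).div (rt_sm h) (rt_pos h).ne'))

theorem musm (z : ℂ) (h : z ≠ 0) : ContDiffAt ℝ ∞ muz z :=
  (contDiffAt_norm ℝ h).mul (bet_sm.contDiffAt.comp z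
    (Complex.reCLM.contDiff.contDiffAt.div (contDiffAt_norm ℝ h) (norm_ne_zero_iff.2 h)))

theorem nuc : Continuous nuv := by
  refine continuous_iff_continuousAt.2 fun v => ?_
  rcases eq_or_ne v 0 with rfl | h
  · have h0 : nuv 0 = 0 := by simp [nuv, nsq]
    have h1 : Tendsto (fun v : Rn 3 => √(nsq v)) (𝓝 0) (𝓝 0) := by
      have := (nsq_sm.continuous.sqrt).tendsto (0 : Rn 3)
      simpa [nsq] using this
    rw [ContinuousAt, h0]
    exact squeeze_zero (fun v => by linarith [(nub v).1, Real.sqrt_nonneg (nsq v)])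
      (fun v => (nub v).2) h1
  · exact (nusm v h).continuousAt

theorem muc : Continuous muz := by
  refine continuous_iff_continuousAt.2 fun z => ?_
  rcases eq_or_ne z 0 with rfl | h
  · have h0 : muz 0 = 0 := by simp [muz]
    rw [ContinuousAt, h0]
    exact squeeze_zero (fun v => by linarith [(mub v).1, norm_nonneg v])
      (fun v => (mub v).2) tendsto_norm_zero
  · exact (musm z h).continuousAt

theorem nuh (t : ℝ) (v : Rn 3) : nuv (t • v) = |t| * nuv v := by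
  rw [nuv, rt_smul]; exact shape_smul t _ _

theorem muh (t : ℝ) (z : ℂ) : muz (t • z) = |t| * muz z := by
  rw [muz, norm_smul, Complex.smul_re]; exact shape_smul t _ _

theorem nsq_Rp (v : Rn 3) : nsq (Rp v) = nsq v := by simp [nsq3, Rp]; ring

theorem nuR (v : Rn 3) : nuv (Rp v) = nuv v := by
  rw [nuv, nuv, nsq_Rp]
  congr 1
  exact bet_congr (by simp [Rp, div_pow])

theorem Rp_ne {v : Rn 3} (h : v ≠ 0) : Rp v ≠ 0 := fun e => by
  have := nsq_pos h
  rw [← nsq_Rp, e] at this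
  simp [nsq] at this

theorem Rp_smul (t : ℝ) (v : Rn 3) : Rp (t • v) = t • Rp v := by
  funext i; fin_cases i <;> simp [Rp]

theorem sg_sq (a : ℤˣ) : sg a * sg a = 1 := by
  rcases Int.units_eq_one_or a with rfl | rfl <;> simp [sg]

theorem sg_ne (a : ℤˣ) : sg a ≠ 0 := left_ne_zero_of_mul_eq_one (sg_sq a)

theorem sg_mul (a b : ℤˣ) : sg (a * b) = sg a * sg b := by simp [sg]

theorem abs_sg (a : ℤˣ) : |sg a| = 1 := by
  rcases Int.units_eq_one_or a with rfl | rfl <;> simp [sg]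

/-- sign changes of the coordinates -/
def fl (a b : ℤˣ) (z : ℂ) : ℂ := ⟨sg a * z.re, sg b * z.im⟩

theorem fl_fl (a b : ℤˣ) (z : ℂ) : fl a b (fl a b z) = z := by
  apply Complex.ext <;> simp [fl, ← mul_assoc, sg_sq]

theorem norm_fl (a b : ℤˣ) (z : ℂ) : ‖fl a b z‖ = ‖z‖ := by
  rw [Complex.norm_eq_sqrt_sq_add_sq, Complex.norm_eq_sqrt_sq_add_sq]
  simp [fl, mul_pow, sq (sg _), sg_sq]

theorem mus (a b : ℤˣ) (z : ℂ) : muz (fl a b z) = muz z := by
  rw [muz, muz, norm_fl]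
  congr 1
  exact bet_congr (by simp [fl, div_pow, mul_pow, sq (sg _), sg_sq])

theorem fl_sm (a b : ℤˣ) : ContDiff ℝ ∞ (fl a b) := by
  have h1 : ContDiff ℝ ∞ fun z : ℂ => (sg a * z.re, sg b * z.im) :=
    (contDiff_const.mul Complex.reCLM.contDiff).prodMk (contDiff_const.mul Complex.imCLM.contDiff)
  exact Complex.equivRealProdCLM.symm.contDiff.comp h1

theorem nucone (v : Rn 3) (h : v 0 ^ 2 + v 1 ^ 2 ≤ v 2 ^ 2) : nuv v = |v 2| :=
  shape_cone (Real.sqrt_nonneg _) (by rw [Real.sq_sqrt (nsq_nn v), nsq3]; nlinarith)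
    (by rw [Real.sq_sqrt (nsq_nn v), nsq3]; linarith)

theorem mucone (z : ℂ) (h : |z.im| ≤ |z.re|) : muz z = |z.re| := by
  have h1 : ‖z‖ ^ 2 = z.re ^ 2 + z.im ^ 2 := by rw [Complex.sq_norm, Complex.normSq_apply]; ring
  have h2 : z.im ^ 2 ≤ z.re ^ 2 := sq_le_sq.2 h
  exact shape_cone (norm_nonneg _) (by nlinarith) (by linarith)

theorem op : IsOpen Dg :=
  (isOpen_ne.preimage continuous_fst).inter (isOpen_lt (nuc.comp continuous_fst) continuous_const)

theorem sub : Dg ⊆ Col := fun p hp => by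
  have h1 : √(nsq p.1) < 1 := by linarith [(nub p.1).1, hp.2]
  have h2 : nsq p.1 < 1 := by rwa [Real.sqrt_lt' one_pos, one_pow] at h1
  rw [nsq3] at h2
  constructor <;> refine (sq_lt_one_iff_abs_lt_one _).1 ?_ <;> nlinarith

/-! ### The sphere -/

theorem lev : Level (vs (Rn 3)) nsq (univ ∩ nsq ⁻¹' {1}) S2 io := exS2.choose_spec.choose_spec

theorem nsq_io (w : S2) : nsq (io w) = 1 := (lev.mem w).2

theorem io_ne (w : S2) : io w ≠ 0 := fun e => by
  have := nsq_io w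
  rw [e] at this
  simp [nsq] at this

theorem unit_mem {v : Rn 3} (h : v ≠ 0) :
    (√(nsq v))⁻¹ • v ∈ (univ ∩ nsq ⁻¹' {1} : Set (Rn 3)) := by
  refine ⟨trivial, ?_⟩
  have h1 := rt_smul (√(nsq v))⁻¹ v
  rw [abs_of_pos (inv_pos.2 (rt_pos h)), inv_mul_cancel₀ (rt_pos h).ne'] at h1
  exact Real.sqrt_eq_one.1 h1

theorem io_nr {v : Rn 3} (h : v ≠ 0) : io (nr v) = (√(nsq v))⁻¹ • v := lev.inv_eq (unit_mem h)

theorem nr_io (w : S2) : nr (io w) = w := by
  rw [nr, nsq_io, Real.sqrt_one, inv_one, one_smul]; exact lev.inv_left w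

theorem nr_smul {t : ℝ} (ht : 0 < t) (v : Rn 3) : nr (t • v) = nr v := by
  rw [nr, nr, rt_smul, abs_of_pos ht, smul_smul, mul_inv, mul_right_comm, inv_mul_cancel₀ ht.ne',
    one_mul]

theorem sm_nr {v : Rn 3} (h : v ≠ 0) : SmAt (vs (Rn 3)) S2 nr v := by
  refine lev.sm_inv (Y := vs (Rn 3)) (a := fun v => (√(nsq v))⁻¹ • v)
    (smAt_vs.2 (((rt_sm h).inv (rt_pos h).ne').smul contDiffAt_id)) ?_
  filter_upwards [isOpen_ne.mem_nhds h] with v hv using unit_mem hv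

/-! ### The local coordinate -/

/-- the radius -/
def rad (p : Rn 3 × ℝ) : ℝ := (1 / 2 - nuv p.1) / (2 * bet (Real.cos p.2))

theorem zl_eq (p : Rn 3 × ℝ) : zl p = (-rad p) • Complex.exp (p.2 * Complex.I) := rfl

theorem rad_pos {p : Rn 3 × ℝ} (hp : p ∈ Dg) : 0 < rad p :=
  div_pos (by linarith [hp.2]) (by linarith [bet_pos (Real.cos p.2)])

theorem rad_lt {p : Rn 3 × ℝ} (hp : p ∈ Dg) : rad p < 1 / 2 := by
  have := bet_ge (Real.cos p.2)
  rw [rad, div_lt_iff₀ (by linarith)]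
  linarith [nu_pos hp.1]

theorem norm_zl {p : Rn 3 × ℝ} (hp : p ∈ Dg) : ‖zl p‖ = rad p := by
  rw [zl_eq, norm_smul, Complex.norm_exp_ofReal_mul_I, norm_neg, mul_one,
    Real.norm_of_nonneg (rad_pos hp).le]

theorem mu_exp (u : ℝ) : muz (Complex.exp (u * Complex.I)) = bet (Real.cos u) := by
  rw [muz, Complex.norm_exp_ofReal_mul_I, Complex.exp_ofReal_mul_I_re, div_one, one_mul]

theorem mu_zl {p : Rn 3 × ℝ} (hp : p ∈ Dg) : 2 * muz (zl p) + nuv p.1 = 1 / 2 := by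
  rw [zl_eq, muh, mu_exp, abs_neg, abs_of_pos (rad_pos hp), rad]
  have := bet_pos (Real.cos p.2)
  field_simp
  ring

theorem zl_sm {p : Rn 3 × ℝ} (hp : p.1 ≠ 0) : ContDiffAt ℝ ∞ zl p := by
  have h1 : ContDiffAt ℝ ∞ (fun p : Rn 3 × ℝ => nuv p.1) p := (nusm _ hp).comp p contDiffAt_fst
  have h2 : ContDiff ℝ ∞ fun p : Rn 3 × ℝ => bet (Real.cos p.2) := bet_sm.comp (Real.contDiff_cos.comp contDiff_snd)
  have h3 : ContDiffAt ℝ ∞ rad p := (contDiffAt_const.sub h1).div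
    (contDiffAt_const.mul h2.contDiffAt) (by linarith [bet_pos (Real.cos p.2)])
  have h4 : ContDiff ℝ ∞ fun p : Rn 3 × ℝ => Complex.exp (p.2 * Complex.I) :=
    Complex.contDiff_exp.comp ((Complex.ofRealCLM.contDiff.comp contDiff_snd).mul contDiff_const)
  exact h3.neg.smul h4.contDiffAt

theorem phi_fst (k : ℤ × ℤ) (p : Rn 3 × ℝ) :
    (phi k p).1 - lat k = fl (k.1 + k.2).negOnePow k.2.negOnePow (zl p) := by
  apply Complex.ext <;> simp [phi, lat, fl]

theorem phi_snd (k : ℤ × ℤ) (p : Rn 3 × ℝ) : (phi k p).2 = nr (sg k.2.negOnePow • p.1) := rfl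

theorem lat_close {k k' : ℤ × ℤ} (h : ‖lat k - lat k'‖ < 1) : k = k' := by
  have h1 := (Complex.abs_re_le_norm _).trans_lt h
  have h2 := (Complex.abs_im_le_norm _).trans_lt h
  simp only [lat, Complex.sub_re, Complex.sub_im] at h1 h2
  have h3 : |k.1 - k'.1| < 1 := by exact_mod_cast h1
  have h4 : |k.2 - k'.2| < 1 := by exact_mod_cast h2
  exact Prod.ext (sub_eq_zero.1 (Int.abs_lt_one_iff.1 h3)) (sub_eq_zero.1 (Int.abs_lt_one_iff.1 h4))

theorem dist_phi (k : ℤ × ℤ) {p : Rn 3 × ℝ} (hp : p ∈ Dg) : ‖(phi k p).1 - lat k‖ = rad p := by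
  rw [phi_fst, norm_fl, norm_zl hp]

theorem mu (k : ℤ × ℤ) (p : Rn 3 × ℝ) (hp : p ∈ Dg) :
    2 * muz ((phi k p).1 - lat k) + nuv p.1 = 1 / 2 := by rw [phi_fst, mus, mu_zl hp]

theorem mem (k : ℤ × ℤ) (p : Rn 3 × ℝ) (hp : p ∈ Dg) : phi k p ∈ JU := fun k' e => by
  have h := dist_phi k hp
  rw [e] at h
  obtain rfl : k' = k := lat_close (by linarith [rad_lt hp])
  rw [sub_self, norm_zero] at h
  exact (rad_pos hp).ne h

theorem zl_per {p p' : Rn 3 × ℝ} (h1 : p.1 = p'.1) {m : ℤ} (h2 : p.2 - p'.2 = 2 * π * m) :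
    zl p = zl p' := by
  have h3 : p.2 = p'.2 + m * (2 * π) := by linarith
  have h4 : Complex.exp (p.2 * Complex.I) = Complex.exp (p'.2 * Complex.I) :=
    Complex.exp_eq_exp_iff_exists_int.2 ⟨m, by rw [h3]; push_cast; ring⟩
  rw [zl, zl, h1, h4, h3, Real.cos_add_int_mul_two_pi]

theorem eq (k k' : ℤ × ℤ) (p : Rn 3 × ℝ) (hp : p ∈ Dg) (p' : Rn 3 × ℝ) (hp' : p' ∈ Dg) :
    phi k p = phi k' p' ↔ k = k' ∧ p.1 = p'.1 ∧ ∃ m : ℤ, p.2 - p'.2 = 2 * π * m := by
  constructor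
  · intro e
    have hk : k = k' := by
      refine lat_close ?_
      have h1 := dist_phi k hp
      have h2 := dist_phi k' hp'
      rw [← e] at h2
      have h3 := norm_sub_le ((phi k p).1 - lat k') ((phi k p).1 - lat k)
      rw [sub_sub_sub_cancel_left] at h3
      linarith [rad_lt hp, rad_lt hp']
    subst hk
    have hz : zl p = zl p' := by
      rw [← fl_fl _ _ (zl p), ← phi_fst, e, phi_fst, fl_fl]
    have hn : nuv p.1 = nuv p'.1 := by
      have h1 := mu_zl hp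
      have h2 := mu_zl hp'
      rw [hz] at h1
      linarith
    refine ⟨rfl, ?_, ?_⟩
    · have h1 := congrArg (fun y : J => io y.2) e
      have s0 := sg_ne k.2.negOnePow
      simp only [phi_snd] at h1
      rw [io_nr (smul_ne_zero s0 hp.1), io_nr (smul_ne_zero s0 hp'.1), rt_smul, rt_smul, abs_sg,
        one_mul, one_mul, smul_comm, smul_comm _ (sg _)] at h1
      have h2 := smul_right_injective _ s0 h1
      have a := rt_pos hp.1
      have b := rt_pos hp'.1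
      have h3 := congrArg nuv h2
      rw [nuh, nuh, hn, abs_of_pos (inv_pos.2 a), abs_of_pos (inv_pos.2 b)] at h3
      rw [mul_right_cancel₀ (nu_pos hp'.1).ne' h3] at h2
      exact smul_right_injective _ (inv_pos.2 b).ne' h2
    · have hr : rad p = rad p' := by rw [← norm_zl hp, hz, norm_zl hp']
      rw [zl_eq, zl_eq, hr] at hz
      obtain ⟨m, hm⟩ := Complex.exp_eq_exp_iff_exists_int.1
        (smul_right_injective _ (neg_ne_zero.2 (rad_pos hp').ne') hz)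
      refine ⟨m, ?_⟩
      have := congrArg Complex.im hm
      simp at this
      linarith
  · rintro ⟨rfl, h1, m, h2⟩
    rw [phi, phi, zl_per h1 h2, h1]

/-! ### The inverse -/

/-- the rotated local coordinate -/
def ze (k : ℤ × ℤ) (u : ℝ) (z : ℂ) : ℂ :=
  -fl (k.1 + k.2).negOnePow k.2.negOnePow (z - lat k) * Complex.exp (-(u * Complex.I))

/-- the inverse of `phi k` near the angle `u` -/
def iv (k : ℤ × ℤ) (u : ℝ) (y : J) : Rn 3 × ℝ :=
  (((1 / 2 - 2 * muz (y.1 - lat k)) / nuv (io y.2)) • sg k.2.negOnePow • io y.2,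
    u + (ze k u y.1).arg)

theorem norm_ze (k : ℤ × ℤ) (u : ℝ) (z : ℂ) : ‖ze k u z‖ = ‖z - lat k‖ := by
  rw [ze, norm_mul, norm_neg, norm_fl, ← neg_mul, ← Complex.ofReal_neg,
    Complex.norm_exp_ofReal_mul_I, mul_one]

theorem iv_spec (k : ℤ × ℤ) (u : ℝ) (y : J) (h1 : y.1 ≠ lat k) (h2 : muz (y.1 - lat k) < 1 / 4) :
    iv k u y ∈ Dg ∧ phi k (iv k u y) = y := by
  have a := nu_pos (io_ne y.2)
  have n0 : 0 < ‖y.1 - lat k‖ := norm_pos_iff.2 (sub_ne_zero.2 h1)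
  have t0 : 0 < (1 / 2 - 2 * muz (y.1 - lat k)) / nuv (io y.2) := div_pos (by linarith) a
  have hn : nuv (iv k u y).1 = 1 / 2 - 2 * muz (y.1 - lat k) := by
    simp only [iv]
    rw [nuh, nuh, abs_sg, abs_of_pos t0, one_mul, div_mul_cancel₀ _ a.ne']
  have he : -fl (k.1 + k.2).negOnePow k.2.negOnePow (y.1 - lat k) =
      ‖y.1 - lat k‖ • Complex.exp ((iv k u y).2 * Complex.I) := by
    have h3 := Complex.norm_mul_exp_arg_mul_I (ze k u y.1)
    rw [norm_ze] at h3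
    simp only [iv]
    rw [Complex.ofReal_add, add_mul, add_comm ((u : ℂ) * _), Complex.exp_add, Complex.real_smul,
      ← mul_assoc, h3, ze, mul_assoc, ← Complex.exp_add, neg_add_cancel, Complex.exp_zero, mul_one]
  have hm : muz (y.1 - lat k) = ‖y.1 - lat k‖ * bet (Real.cos (iv k u y).2) := by
    have h3 := congrArg muz he
    rw [muh, mu_exp, abs_of_pos n0, ← neg_one_smul ℝ, muh, mus] at h3
    simpa using h3
  refine ⟨⟨smul_ne_zero t0.ne' (smul_ne_zero (sg_ne _) (io_ne _)), ?_⟩, Prod.ext ?_ ?_⟩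
  · rw [hn]; linarith [(mub (y.1 - lat k)).1]
  · have hr : rad (iv k u y) = ‖y.1 - lat k‖ := by
      have := bet_pos (Real.cos (iv k u y).2)
      rw [rad, hn, hm]
      field_simp
      ring
    have hz : zl (iv k u y) = fl (k.1 + k.2).negOnePow k.2.negOnePow (y.1 - lat k) := by
      rw [zl_eq, hr, neg_smul, ← he, neg_neg]
    have := phi_fst k (iv k u y)
    rw [hz, fl_fl] at this
    exact sub_left_injective this
  · rw [phi_snd]
    simp only [iv]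
    rw [smul_comm, smul_smul (sg _), sg_sq, one_smul, nr_smul t0, nr_io]

theorem ze_sm (k : ℤ × ℤ) (u : ℝ) : ContDiff ℝ ∞ (ze k u) :=
  ((fl_sm _ _).comp (contDiff_id.sub contDiff_const)).neg.mul contDiff_const

theorem arg_sm {z : ℂ} (h : 0 < z.re) : ContDiffAt ℝ ∞ Complex.arg z := by
  have h1 : ContDiffAt ℝ ∞ Complex.log z :=
    (Complex.contDiffAt_log (Or.inl h)).restrict_scalars ℝ
  have h2 := Complex.imCLM.contDiff.contDiffAt.comp z h1
  refine h2.congr_of_eventuallyEq (.of_forall fun w => ?_)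
  exact (Complex.log_im w).symm

theorem phi_sm (k : ℤ × ℤ) {p : Rn 3 × ℝ} (hp : p.1 ≠ 0) : SmAt (vs (Rn 3 × ℝ)) J (phi k) p := by
  have h1 : ContDiffAt ℝ ∞ (fun p => (phi k p).1) p := by
    have := ((fl_sm (k.1 + k.2).negOnePow k.2.negOnePow).contDiffAt.comp p (zl_sm hp)).add
      (contDiffAt_const (c := lat k))
    refine this.congr_of_eventuallyEq (.of_forall fun q => ?_)
    exact eq_add_of_sub_eq (phi_fst k q)
  have h2 : SmAt (vs (Rn 3 × ℝ)) (vs (Rn 3)) (fun p => sg k.2.negOnePow • p.1) p :=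
    smAt_vs.2 (contDiffAt_fst.const_smul _)
  exact SmAt.pair (X := vs (Rn 3 × ℝ)) (Y := vs ℂ) (smAt_vs.2 h1)
    (h2.trans (sm_nr (smul_ne_zero (sg_ne _) hp)))

theorem iv_sm (k : ℤ × ℤ) (u : ℝ) {y : J} (h1 : y.1 ≠ lat k) (h2 : 0 < (ze k u y.1).re) :
    SmAt J (vs (Rn 3 × ℝ)) (iv k u) y := by
  have a1 : SmAt J (vs ℂ) Prod.fst y := smAt_fst
  have a2 : SmAt J (vs (Rn 3)) (fun y => io y.2) y := smAt_snd.trans (lev.sm _ trivial)
  have b1 : ContDiffAt ℝ ∞ (fun q : ℂ × Rn 3 => muz (q.1 - lat k)) (y.1, io y.2) :=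
    ContDiffAt.comp (g := muz) (f := fun q : ℂ × Rn 3 => q.1 - lat k) (y.1, io y.2)
      (musm _ (sub_ne_zero.2 h1)) (contDiffAt_fst.sub contDiffAt_const)
  have b2 : ContDiffAt ℝ ∞ (fun q : ℂ × Rn 3 => nuv q.2) (y.1, io y.2) :=
    ContDiffAt.comp (g := nuv) (f := fun q : ℂ × Rn 3 => q.2) (y.1, io y.2)
      (nusm _ (io_ne _)) contDiffAt_snd
  have b3 : ContDiffAt ℝ ∞ (fun q : ℂ × Rn 3 => (ze k u q.1).arg) (y.1, io y.2) :=
    ContDiffAt.comp (g := Complex.arg) (f := fun q : ℂ × Rn 3 => ze k u q.1) (y.1, io y.2)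
      (arg_sm h2) ((ze_sm k u).comp contDiff_fst).contDiffAt
  exact (a1.vpair a2).vcomp (g := fun q : ℂ × Rn 3 =>
    (((1 / 2 - 2 * muz (q.1 - lat k)) / nuv q.2) • sg k.2.negOnePow • q.2, u + (ze k u q.1).arg))
    ((((contDiffAt_const.sub (contDiffAt_const.mul b1)).div b2 (nu_pos (io_ne _)).ne').smul
      (contDiffAt_snd.const_smul _)).prodMk (contDiffAt_const.add b3))

theorem ld (k : ℤ × ℤ) (p : Rn 3 × ℝ) (hp : p ∈ Dg) : LDAt (vs (Rn 3 × ℝ)) J (phi k) p := by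
  have c1 : Continuous fun y : J => y.1 := continuous_fst
  have m1 : ∀ q ∈ Dg, (phi k q).1 ≠ lat k ∧ muz ((phi k q).1 - lat k) < 1 / 4 := fun q hq =>
    ⟨mem k q hq k, by linarith [mu k q hq, nu_pos hq.1]⟩
  refine ldAt_of_inv (X := vs (Rn 3 × ℝ)) (g := iv k p.2) (U := Dg ∩ {q | |q.2 - p.2| < π / 2})
    (W := {y | y.1 ≠ lat k ∧ muz (y.1 - lat k) < 1 / 4 ∧ 0 < (ze k p.2 y.1).re})
    (op.inter (isOpen_lt (by fun_prop) continuous_const))
    ((isOpen_ne.preimage c1).inter ((isOpen_lt (muc.comp (c1.sub continuous_const))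
      continuous_const).inter (isOpen_lt continuous_const
        (Complex.continuous_re.comp ((ze_sm k p.2).continuous.comp c1)))))
    ⟨hp, by simpa using Real.pi_pos⟩ (fun q hq => phi_sm k hq.1.1) (fun y hy => iv_sm k _ hy.1 hy.2.2)
    (fun q hq => ⟨(m1 q hq.1).1, (m1 q hq.1).2, ?_⟩)
    (fun y hy => ⟨(iv_spec k _ y hy.1 hy.2.1).1, ?_⟩) (fun q hq => ?_)
    fun y hy => (iv_spec k _ y hy.1 hy.2.1).2
  · have h1 : ze k p.2 (phi k q).1 = rad q • Complex.exp ((q.2 - p.2 : ℝ) * Complex.I) := by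
      rw [ze, phi_fst, fl_fl, zl_eq, neg_smul, neg_neg, smul_mul_assoc, ← Complex.exp_add]
      congr 2
      push_cast
      ring
    rw [h1, Complex.smul_re, Complex.exp_ofReal_mul_I_re]
    exact mul_pos (rad_pos hq.1) (Real.cos_pos_of_mem_Ioo (abs_lt.1 hq.2))
  · show |p.2 + _ - p.2| < π / 2
    rw [add_sub_cancel_left]
    exact Complex.abs_arg_lt_pi_div_two_iff.2 (Or.inl hy.2.2)
  · obtain ⟨h1, h2⟩ := iv_spec k p.2 _ (m1 q hq.1).1 (m1 q hq.1).2
    obtain ⟨-, h3, m, h4⟩ := (eq k k _ h1 q hq.1).1 h2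
    refine Prod.ext h3 ?_
    have h5 := abs_le.1 (Complex.abs_arg_le_pi (ze k p.2 (phi k q).1))
    have h6 := abs_lt.1 (show |q.2 - p.2| < π / 2 from hq.2)
    have h7 : (iv k p.2 (phi k q)).2 = p.2 + (ze k p.2 (phi k q).1).arg := rfl
    have pp := Real.pi_pos
    have h8 : (m : ℝ) < 1 := by nlinarith
    have h9 : (-1 : ℝ) < m := by nlinarith
    have h10 : m = 0 := by
      have a : m < 1 := by exact_mod_cast h8
      have b : -1 < m := by exact_mod_cast h9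
      omega
    rw [h10] at h4
    simpa [sub_eq_zero] using h4

/-! ### Equivariance -/

theorem sC_fst (g : PG) (p : Rn 3 × ℝ) : (sC g p).1 = if g.a = 1 then p.1 else Rp p.1 := by
  unfold sC; split_ifs <;> rfl

theorem nu_sC (g : PG) (p : Rn 3 × ℝ) : nuv (sC g p).1 = nuv p.1 := by
  rw [sC_fst]; split_ifs
  · rfl
  · exact nuR _

theorem zl_sC (g : PG) (p : Rn 3 × ℝ) : zl (sC g p) = sg g.a • zl p := by
  rcases Int.units_eq_one_or g.a with h | h
  · simp [sC, h, sg]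
  · have h' : g.a ≠ 1 := by rw [h]; decide
    have h1 : Complex.exp ((p.2 + π : ℝ) * Complex.I) = -Complex.exp (p.2 * Complex.I) := by
      rw [Complex.ofReal_add, add_mul, Complex.exp_add, Complex.exp_pi_mul_I, mul_neg_one]
    have h2 : bet (Real.cos (p.2 + π)) = bet (Real.cos p.2) := bet_congr (by simp)
    rw [sC, if_neg h', h]
    simp only [zl, nuR, h1, h2, sg]
    simp

theorem eqv (g : PG) (k : ℤ × ℤ) (p : Rn 3 × ℝ) (hp : p ∈ Dg) :
    sC g p ∈ Dg ∧ actJ g (phi k p) = phi (gZ g k) (sC g p) := by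
  have e2 : (gZ g k).2.negOnePow = k.2.negOnePow * (g.a * g.b) := by
    simp only [gZ]; rw [Int.negOnePow_add, np_mul, g.hn]
  have e1 : ((gZ g k).1 + (gZ g k).2).negOnePow = (k.1 + k.2).negOnePow := by
    rw [Int.negOnePow_add, e2, Int.negOnePow_add]
    simp only [gZ]
    rw [Int.negOnePow_add, np_mul, g.hm, mul_mul_mul_comm, Int.units_mul_self, mul_one]
  refine ⟨⟨?_, by rw [nu_sC]; exact hp.2⟩, Prod.ext ?_ ?_⟩
  · rw [sC_fst]; split_ifs
    · exact hp.1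
    · exact Rp_ne hp.1
  · have sa := sg_sq g.a
    apply Complex.ext
    · simp only [actJ, gC, phi, e1, zl_sC, Complex.smul_re, smul_eq_mul]
      simp only [gZ, sg]
      push_cast
      ring
    · simp only [actJ, gC, phi, e2, zl_sC, Complex.smul_im, smul_eq_mul, sg_mul]
      have : ((gZ g k).2 : ℝ) = sg g.b * k.2 + g.n := by simp [gZ, sg]
      rw [this]
      linear_combination (-(sg k.2.negOnePow * sg g.b * (zl p).im)) * sa
  · have s0 : sg k.2.negOnePow • p.1 ≠ 0 := smul_ne_zero (sg_ne _) hp.1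
    show nr (psi g (io (phi k p).2)) = (phi (gZ g k) (sC g p)).2
    rw [phi_snd, phi_snd, io_nr s0, e2, sC_fst, psi, sg_mul k.2.negOnePow]
    split_ifs
    · rw [smul_comm, nr_smul (inv_pos.2 (rt_pos s0)), smul_smul, mul_comm]
    · rw [Rp_smul, Rp_smul, smul_comm, nr_smul (inv_pos.2 (rt_pos s0)), smul_smul, mul_comm]

end PhiP

open PhiP in
theorem phiS : PhiStmt :=
  ⟨op, sub, nuc, muc, nub, mub, nusm, musm, nuh, muh, nuR, mus, nucone, mucone, ld, mem, eq, mu,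
    fun k y h1 h2 => ⟨_, (iv_spec k 0 y h1 h2).1, (iv_spec k 0 y h1 h2).2⟩, eqv⟩

end Pool.Agent.MP_e1dc65_gt.E

end
end MrgPart2

-- ======== part 3: formerly Pool.Agent.MP_e1dc65_gt.fm.LevInt
section MrgPart3

/-! PROJECT HC, row LEVINT: the integral over a level. -/

open scoped ContDiff Manifold Topology
open Set Filter Function Module MeasureTheory ExteriorAlgebra Pool.Agent.MP_c8d41b_gt.GF

set_option linter.unusedSectionVars false

noncomputable section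

namespace Pool.Agent.MP_e1dc65_gt

namespace LevInt

variable {E : Type} [NormedAddCommGroup E] [NormedSpace ℝ E] [FiniteDimensional ℝ E] {X : Mf E}
  {N : ℕ}

theorem zero_of_ev {a : Lam E} (ha : a ∈ dg E N)
    (h : ∀ v : Fin N → E, ev (List.ofFn v) a = 0) : a = 0 := by
  induction N generalizing a with
  | zero =>
    rw [eq_scalar (a := a) fun v => (dg_ctr v ha).2 rfl,
      show algebraMapInv a = 0 from h ![], map_zero]
  | succ n ih =>
    rw [eq_scalar (a := a) fun w => ih (dg_ctr w ha).1 fun v => by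
      simpa [ev] using h (Fin.cons w v),
      show algebraMapInv a = 0 from ev_eq_zero (l := []) ha (by simp), map_zero]

theorem ev_ne {o : Lam E} (b : Basis (Fin N) ℝ E) (ho : o ∈ dg E N) (h0 : o ≠ 0) :
    ev (List.ofFn b) o ≠ 0 := fun h => h0 (zero_of_ev ho fun v => by
  have := ev_mp_det b (LinearMap.toContinuousLinearMap (b.constr ℝ v)) o
  rw [h, mul_zero, ev_mp, List.map_ofFn] at this
  simpa [comp_def] using this)

/-- a positive basis -/
theorem pos_basis {o : Lam E} (hd : finrank ℝ E = N + 1) (ho : o ∈ dg E (N + 1)) (h0 : o ≠ 0) :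
    ∃ b : Basis (Fin (N + 1)) ℝ E, 0 < ev (List.ofFn b) o := by
  let b := finBasisOfFinrankEq ℝ E hd
  rcases (ev_ne b ho h0).lt_or_gt with k | k
  · refine ⟨b.unitsSMul (Fin.cons (-1) 1), ?_⟩
    rw [List.ofFn_succ, ev] at k ⊢
    simp only [Basis.unitsSMul_apply, Fin.cons_zero, Fin.cons_succ, Pi.one_apply, one_smul,
      Units.smul_def, Units.val_neg, Units.val_one, ctr_smul_left, ev_smul]
    linarith
  · exact ⟨b, k⟩

/-- positive charts -/
theorem pos_chart {o : X → Lam E} (ho : Ori X (N + 1) o univ) (x : X) :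
    ∃ (b : Basis (Fin (N + 1)) ℝ E) (φ : E → X) (W : Set E), OE (vs E) X φ W ∧
      (∀ y ∈ W, 0 < ev (List.ofFn b) (pbM (vs E) X φ o y)) ∧ φ '' W ∈ 𝓝 x := by
  obtain ⟨b, hb⟩ := pos_basis ho.dim (ho.fm x trivial).2 (ho.ne x trivial)
  have k : ContinuousAt (fun y => evL (List.ofFn b) (loc X x o y)) (ch X x x) :=
    (evL (List.ofFn b)).continuous_of_finiteDimensional.continuousAt.comp
      (ho.fm x trivial).1.continuousAt
  simp only [← ev_eq] at k
  obtain ⟨O, h1, h2, h3⟩ := eventually_nhds_iff.1 ((k.eventually (lt_mem_nhds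
    (show 0 < ev _ (loc X x o _) by rwa [loc_self]))).and
    ((ch X x).open_target.mem_nhds (mem_chart_target E x)))
  have h4 := (oe_ch_symm (X := X) (x := x)).mono h2 fun y hy => (h1 y hy).2
  exact ⟨b, _, O, h4, fun y hy => (h1 y hy).1,
    (h4.isOpen_image h2 subset_rfl).mem_nhds ⟨_, h3, ch_left X x⟩⟩

theorem int_sum {o : X → Lam E} (h : IntP X N o) {I : Type} {s : Finset I} {γ : I → X → Lam E}
    (hγ : ∀ i ∈ s, OcM X univ (γ i)) :
    intM X o (fun y => ∑ i ∈ s, γ i y) = ∑ i ∈ s, intM X o (γ i) := by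
  classical
  induction s using Finset.induction_on with
  | empty => simpa using h.smul 0 fun _ => 0
  | insert a s ha ih =>
    have h1 := fun i hi => hγ i (Finset.mem_insert_of_mem hi)
    simp only [Finset.sum_insert ha]
    rw [h.add _ _ (hγ a (Finset.mem_insert_self _ _)) (ocM_sum h1), ih h1]

/-- the form `h'(t) dt ∧ α` on the cylinder -/
def T (X : Mf E) (h : ℝ → ℝ) (α : X → Lam E) (p : X.cyl) : Lam (E × ℝ) :=
  dF X.cyl (fun p => h p.2) p * pbM X.cyl X Prod.fst α p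

/-- the basis `(∂/∂t, b)` -/
def cb (b : Basis (Fin N) ℝ E) : Basis (Fin (N + 1)) ℝ (E × ℝ) :=
  Basis.ofEquivFun ((LinearEquiv.prodComm ℝ E ℝ).trans (((LinearEquiv.refl ℝ ℝ).prodCongr
    b.equivFun).trans (Fin.consLinearEquiv ℝ fun _ => ℝ)))

theorem cb_symm (b : Basis (Fin N) ℝ E) (y : Fin (N + 1) → ℝ) :
    (cb b).equivFun.symm y = (b.equivFun.symm (Fin.tail y), y 0) := by
  rw [cb, Basis.equivFun_ofEquivFun]; rfl

theorem cb_list (b : Basis (Fin N) ℝ E) :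
    List.ofFn (cb b) = (0, 1) :: (List.ofFn b).map (ContinuousLinearMap.inl ℝ E ℝ) := by
  have h : ∀ i, cb b i = (cb b).equivFun.symm (Pi.single i 1) := fun i => by
    simp [Pi.single_apply]
  rw [List.ofFn_succ, List.map_ofFn]
  congr 1
  · rw [h, cb_symm]
    simp [Fin.tail]
  · refine congrArg _ (funext fun i => ?_)
    rw [h, cb_symm]
    simp [Fin.tail, Pi.single_apply]

theorem ev_cb (b : Basis (Fin N) ℝ E) (a : Lam E) :
    ev (List.ofFn (cb b)) (ι ℝ (ContinuousLinearMap.snd ℝ E ℝ) *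
      mp (ContinuousLinearMap.fst ℝ E ℝ) a) = ev (List.ofFn b) a := by
  rw [cb_list, ev, ctr_ι_mul, ctr_mp, ← ev_mp]
  simp [ctr_zero_left, ← mp_comp, mp_id]

variable {φ : E → X} {W : Set E} {h : ℝ → ℝ} {a b : ℝ}

theorem smAt_cyl {q : E × ℝ} (hφ : SmAt (vs E) X φ q.1) :
    SmAt (vs (E × ℝ)) X.cyl (fun q => (φ q.1, q.2)) q :=
  SmAt.pair (X := vs (E × ℝ)) (Y := X) (Z := vs ℝ)
    (SmAt.trans (Y := vs E) (smAt_vs.2 contDiffAt_fst) hφ) (smAt_vs.2 contDiffAt_snd)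

theorem oe_cyl (hφ : OE (vs E) X φ W) :
    OE (vs (E × ℝ)) X.cyl (fun q => (φ q.1, q.2)) (W ×ˢ univ) := by
  refine ⟨hφ.op.prod isOpen_univ, fun q hq => ?_, fun p hp q hq e =>
    Prod.ext (hφ.inj hp.1 hq.1 (Prod.mk.inj e).1) (Prod.mk.inj e).2⟩
  have h1 : LDAt (vs (E × ℝ)) ((vs E).prod (vs ℝ)) (fun p => p) q :=
    ldAt_of_inv (g := fun p => p) isOpen_univ isOpen_univ trivial (fun _ _ => smAt_vs_prod)
      (fun _ _ => smAt_prod_vs) (mapsTo_univ _ _) (mapsTo_univ _ _) (fun _ _ => rfl) fun _ _ => rfl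
  exact h1.trans ((hφ.ld _ hq.1).prodMap (ldAt_id (X := vs ℝ) (x := q.2)))

theorem smAt_h (hh : ContDiff ℝ ∞ h) (p : X.cyl) : SmAt X.cyl (vs ℝ) (fun p => h p.2) p :=
  SmAt.vcomp (X := X.cyl) smAt_snd hh.contDiffAt

theorem ev_T (B : Basis (Fin N) ℝ E) (hh : ContDiff ℝ ∞ h) {q : E × ℝ} (hφ : SmAt (vs E) X φ q.1)
    (α : X → Lam E) :
    ev (List.ofFn (cb B)) (pbM (vs (E × ℝ)) X.cyl (fun q => (φ q.1, q.2)) (T X h α) q) =
      deriv h q.2 * ev (List.ofFn B) (pbM (vs E) X φ α q.1) := by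
  have h1 : SmAt (vs (E × ℝ)) (vs E) Prod.fst q := smAt_vs.2 contDiffAt_fst
  have h2 : SmAt (vs (E × ℝ)) (vs ℝ) Prod.snd q := smAt_vs.2 contDiffAt_snd
  rw [show T X h α = fun p => _ * _ from rfl, pbM_mul, pbM_dF (smAt_cyl hφ) (smAt_h hh _),
    ← pbM_comp (smAt_cyl hφ) smAt_fst, dF_comp h2 hh.contDiffAt, pbM_comp h1 hφ, smul_mul_assoc,
    ev_smul, dF_vs, pbM, Df_vs, fderiv_fst, fderiv_snd, ev_cb]

theorem dF_zero (hh : Step h a b) {p : X.cyl} (hp : p.2 ∉ Icc a b) :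
    dF X.cyl (fun p => h p.2) p = 0 := by
  rcases not_and_or.1 hp with k | k
  · exact dF_of_ev (c := 0) ((continuous_snd.continuousAt.eventually
      (gt_mem_nhds (not_le.1 k))).mono fun _ e => hh.zero _ e.le)
  · exact dF_of_ev (c := 1) ((continuous_snd.continuousAt.eventually
      (lt_mem_nhds (not_le.1 k))).mono fun _ e => hh.one _ e.le)

theorem ocM_T (hh : Step h a b) {U : Set X} {α : X → Lam E} (hα : OcM X U α) :
    OcM X.cyl (U ×ˢ univ) (T X h α) := by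
  refine .of_compact (S := tsupport α ×ˢ Icc a b) (hα.cpt.isCompact.prod isCompact_Icc)
    (prod_mono hα.sub (subset_univ _))
    (fun p _ => (fmAt_dF (smAt_h hh.sm p)).mul ((hα.sm _).pb smAt_fst)) fun p hp => ?_
  rcases not_and_or.1 hp with k | k
  · rw [T, pbM_zero (image_eq_zero_of_notMem_tsupport k), mul_zero]
  · rw [T, dF_zero hh k, zero_mul]

theorem int_deriv (hh : Step h a b) : ∫ t, deriv h t = 1 := by
  have h1 : HasCompactSupport (deriv h) := by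
    refine HasCompactSupport.intro (isCompact_Icc (a := a) (b := b)) fun t ht => ?_
    rcases not_and_or.1 ht with k | k
    · rw [EventuallyEq.deriv_eq (f := fun _ => 0)
        ((gt_mem_nhds (not_le.1 k)).mono fun _ e => hh.zero _ e.le), deriv_const]
    · rw [EventuallyEq.deriv_eq (f := fun _ => 1)
        ((lt_mem_nhds (not_le.1 k)).mono fun _ e => hh.one _ e.le), deriv_const]
  rw [integral_of_hasDerivAt_of_tendsto (m := 0) (n := 1)
    (fun t => (hh.sm.differentiable (by simp) t).hasDerivAt)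
    ((hh.sm.continuous_deriv (by simp)).integrable_of_hasCompactSupport h1)
    (tendsto_const_nhds.congr' ((eventually_le_atBot a).mono fun t e => (hh.zero t e).symm))
    (tendsto_const_nhds.congr' ((eventually_ge_atTop b).mono fun t e => (hh.one t e).symm)),
    sub_zero]

theorem oc_eq {o : X → Lam E} (ho : Ori X 4 o univ) : (fun p : X.cyl => oc (o p.1)) = T X id o :=
  funext fun p => by
    rw [oc, T, comm_of_even (by decide) (dg_mp _ (ho.fm _ trivial).2), dF, pbM, Df_fst]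
    congr 2
    exact (Df_snd (X := X) (Y := vs ℝ) p).symm

/-- Fubini in one chart -/
theorem fub_chart {o α : X → Lam E} (h1 : IntP X 4 o) (h2 : IntP X.cyl 5 (T X id o))
    (hh : Step h a b) (B : Basis (Fin 4) ℝ E) (hφ : OE (vs E) X φ W)
    (hp : ∀ y ∈ W, 0 < ev (List.ofFn B) (pbM (vs E) X φ o y)) (hα : OcM X (φ '' W) α) :
    intM X.cyl (T X id o) (T X h α) = intM X o α := by
  rw [h1.chart B φ W α hφ hp hα, h2.chart (cb B) _ _ _ (oe_cyl hφ) (fun q hq => by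
    rw [ev_T B contDiff_id (hφ.sm _ hq.1), deriv_id, one_mul]; exact hp _ hq.1)
    ((ocM_T hh hα).mono (by rintro ⟨_, t⟩ ⟨⟨y, hy, rfl⟩, -⟩; exact ⟨(y, t), ⟨hy, trivial⟩, rfl⟩))]
  have e : ∀ y : Fin 5 → ℝ, ev (List.ofFn (cb B)) ((W ×ˢ univ).indicator
      (pbM (vs (E × ℝ)) X.cyl (fun q => (φ q.1, q.2)) (T X h α)) ((cb B).equivFun.symm y)) =
      deriv h (y 0) * ev (List.ofFn B) (W.indicator (pbM (vs E) X φ α)
        (B.equivFun.symm (Fin.tail y))) := fun y => by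
    rw [cb_symm]
    by_cases k : B.equivFun.symm (Fin.tail y) ∈ W
    · rw [indicator_of_mem k, indicator_of_mem (mk_mem_prod k (mem_univ _)), ev_T B hh.sm (hφ.sm _ k)]
    · rw [indicator_of_notMem k, indicator_of_notMem fun k' => k k'.1]
      simp [ev_eq]
  rw [itg, itg, funext e]
  refine ((volume_preserving_piFinSuccAbove (fun _ : Fin 5 => ℝ) 0).integral_comp'
    fun z => deriv h z.1 * ev (List.ofFn B) (W.indicator (pbM (vs E) X φ α)
      (B.equivFun.symm z.2))).trans ?_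
  rw [Measure.volume_eq_prod, integral_prod_mul (deriv h) fun z => ev (List.ofFn B)
    (W.indicator (pbM (vs E) X φ α) (B.equivFun.symm z)), int_deriv hh, one_mul]

/-- Fubini on the cylinder over a compact manifold -/
theorem fub [CompactSpace X] {o w : X → Lam E} (ho : Ori X 4 o univ) (h1 : IntP X 4 o)
    (h2 : IntP X.cyl 5 (T X id o)) (hh : Step h a b) (hw : ∀ x, FmAt X w x) :
    intM X.cyl (T X id o) (T X h w) = intM X o w := by
  choose B φ W c1 c2 c3 using pos_chart ho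
  obtain ⟨s, ρ, r1, r2⟩ := pouK X isCompact_univ fun x _ => c3 x
  have k : ∀ i ∈ s, OcM X (φ i '' W i) fun x => ρ i x • w x := fun i hi =>
    .of_compact (r1 i hi).2.2.1 (r1 i hi).2.2.2.1 (fun x _ => (hw x).fsmul ((r1 i hi).2.1 x trivial))
      fun x hx => by rw [image_eq_zero_of_notMem_tsupport hx, zero_smul]
  have e : w = fun x => ∑ i ∈ s, ρ i x • w x := funext fun x => by
    rw [← Finset.sum_smul, r2 x trivial, one_smul]
  have e' : T X h w = fun p => ∑ i ∈ s, T X h (fun x => ρ i x • w x) p := funext fun p => by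
    simp only [T, ← Finset.mul_sum, ← pbM_sum, ← e]
  rw [e', int_sum h2 fun i hi => (ocM_T hh (k i hi)).mono (subset_univ _), e,
    int_sum h1 fun i hi => (k i hi).mono (subset_univ _), ← e]
  exact Finset.sum_congr rfl fun i hi => fub_chart h1 h2 hh _ (c1 i) (c2 i) (k i hi)

/-- a closed form on `X × (-δ, δ)` is cohomologous to the pull-back of its restriction -/
theorem scal (hH : HomStmt) {k : ℕ} {δ : ℝ} {Ω : X.cyl → Lam (E × ℝ)}
    (hΩ : Cl X.cyl (k + 1) Ω (univ ×ˢ Ioo (-δ) δ)) :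
    ∃ γ, Fm X.cyl k γ (univ ×ˢ Ioo (-δ) δ) ∧ ∀ p ∈ univ ×ˢ Ioo (-δ) δ, dM X.cyl γ p =
      Ω p - pbM X.cyl X Prod.fst (pbM X X.cyl (fun x => (x, 0)) Ω) p := by
  let H : X.cyl.cyl → X.cyl := fun q => (q.1.1, q.2 * q.1.2)
  have hs : ∀ q, SmAt X.cyl.cyl X.cyl H q := fun q =>
    SmAt.pair (Y := X) (Z := vs ℝ) (smAt_fst.trans smAt_fst)
      (SmAt.mul smAt_snd (smAt_fst.trans smAt_snd))
  have hU : IsOpen (univ ×ˢ Ioo (-δ) δ : Set X.cyl) := isOpen_univ.prod isOpen_Ioo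
  have hi : ∀ (t : ℝ) (p : X.cyl), SmAt X.cyl X.cyl.cyl (fun p => (p, t)) p := fun t p =>
    SmAt.pair (Z := vs ℝ) smAt_id (smAt_const (Y := vs ℝ) t)
  obtain ⟨γ, g1, g2⟩ := hH _ X.cyl k _ _ _ 0 1 hU (hU.preimage (Sm.cont fun q _ => hs q))
    (fun q hq => by
      obtain ⟨⟨-, q1, q2⟩, q3⟩ := hq
      rw [uIcc_of_le zero_le_one] at q3
      refine ⟨trivial, ?_, ?_⟩ <;> nlinarith [q3.1, q3.2])
    (hΩ.pb (fun q _ => hs q) (mapsTo_preimage _ _))
  refine ⟨γ, g1, fun p hp => ?_⟩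
  rw [g2 p hp, ← pbM_comp (hi 1 p) (hs _), ← pbM_comp (hi 0 p) (hs _),
    ← pbM_comp smAt_fst (SmAt.pair (Z := vs ℝ) smAt_id (smAt_const (Y := vs ℝ) 0))]
  simp only [H, one_mul, zero_mul, Prod.mk.eta, pbM_id]

end LevInt

open LevInt in
theorem levInt (hI : IntMStmt) (hO : IntOEStmt) (hH : HomStmt) (hC : OriCalcStmt) :
    LevIntStmt := by
  intro E E' _ _ _ _ _ _ V u c δ X ν o o' Ω χ a b hu hL ho ho' hpos hΩ hχ ha hb
  have := hL.cpt
  have hU := hL.oe.op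
  have hh : Step (fun t => χ (c + t)) (a - c) (b - c) :=
    ⟨hχ.sm.comp (contDiff_const.add contDiff_id), fun t ht => hχ.zero _ (by linarith),
      fun t ht => hχ.one _ (by linarith)⟩
  have hS : univ ×ˢ Icc (a - c) (b - c) ⊆ (univ ×ˢ Ioo (-δ) δ : Set X.cyl) := fun p hp =>
    ⟨trivial, by linarith [hp.2.1], by linarith [hp.2.2]⟩
  have hK : IsCompact (univ ×ˢ Icc (a - c) (b - c) : Set X.cyl) :=
    isCompact_univ.prod isCompact_Icc
  have h0 : ∀ x : X, (x, 0) ∈ (univ ×ˢ Ioo (-δ) δ : Set X.cyl) := fun x =>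
    ⟨trivial, neg_lt_zero.2 hL.pos, hL.pos⟩
  have ho1 : Ori X.cyl 5 (fun p => oc (o' p.1)) univ :=
    ((hC E' X 4).1 o' univ ho').mono fun _ _ => ⟨trivial, trivial⟩
  have hΩ1 := hΩ.pb hL.oe.sm fun p hp => by rw [← hL.img]; exact mem_image_of_mem ν hp
  obtain ⟨γ, g1, g2⟩ := scal hH hΩ1
  have hi : ∀ x : X, SmAt X X.cyl (fun x => (x, 0)) x := fun x =>
    SmAt.pair (Z := vs ℝ) smAt_id (smAt_const (Y := vs ℝ) 0)
  have e0 : pbM X X.cyl (fun x => (x, 0)) (pbM X.cyl V ν Ω) = pbM X V (fun x => ν (x, 0)) Ω :=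
    funext fun x => (pbM_comp (hi x) (hL.oe.sm _ (h0 x)) Ω).symm
  have hw : ∀ x, FmAt X (pbM X V (fun x => ν (x, 0)) Ω) x := fun x => by
    have k := FmAt.pb (X := X) (Y := X.cyl) (f := fun x => (x, 0)) (x := x) (hΩ1.1 _ (h0 x)).1 (hi x)
    rwa [e0] at k
  have hd : ∀ p : X.cyl, FmAt X.cyl (dF X.cyl fun p => χ (c + p.2)) p := fun p =>
    fmAt_dF (smAt_h (h := fun t => χ (c + t)) hh.sm p)
  have oc1 : ∀ {θ : X.cyl → Lam (E' × ℝ)}, (∀ p ∈ univ ×ˢ Ioo (-δ) δ, FmAt X.cyl θ p) →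
      OcM X.cyl (univ ×ˢ Ioo (-δ) δ) fun p => dF X.cyl (fun p => χ (c + p.2)) p * θ p :=
    fun hθ => .of_compact hK hS (fun p hp => (hd p).mul (hθ p (hS hp))) fun p hp => by
      rw [dF_zero hh fun k => hp ⟨trivial, k⟩, zero_mul]
  have hβ := oc1 fun p hp => (hΩ1.1 p hp).1
  have hθ := oc1 fun p hp => (g1 p hp).1
  have e1 := hO _ _ X.cyl V 5 _ o ν _ _ ho1 ho hL.oe (fun p hp => by
    have k : ({p.1} ×ˢ Ioo (-δ) δ : Set X.cyl) ⊆ univ ×ˢ Ioo (-δ) δ :=
      prod_mono (subset_univ _) subset_rfl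
    rcases (hC _ X.cyl 5).2.2.1 _ _ _ (ho1.mono (subset_univ _))
      (ho.pb ho1.dim (fun q hq => hL.oe.ld q (k hq)) (mapsTo_univ _ _))
      (isPreconnected_singleton.prod isPreconnected_Ioo) with k1 | k1
    · exact k1 p ⟨rfl, hp.2⟩
    · have k2 := k1 (p.1, 0) ⟨rfl, (h0 p.1).2⟩
      have k4 := hpos p.1
      rw [cf, ev_neg, neg_div] at k2
      rw [cf] at k4
      linarith) hβ
  have e2 : psh X.cyl V ν (univ ×ˢ Ioo (-δ) δ)
      (fun p => dF X.cyl (fun p => χ (c + p.2)) p * pbM X.cyl V ν Ω p) =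
      fun y => dF V (fun y => χ (u y)) y * Ω y := funext fun y => by
    by_cases hy : y ∈ ν '' (univ ×ˢ Ioo (-δ) δ)
    · obtain ⟨p, hp, rfl⟩ := hy
      refine mp_injective (hL.oe.ld p hp).inv ((hL.oe.pbM_psh hp).trans ?_)
      change _ = pbM X.cyl V ν (fun y => dF V (fun y => χ (u y)) y * Ω y) p
      rw [pbM_mul, pbM_dF (hL.oe.sm p hp) ((hu _ trivial).vcomp hχ.sm.contDiffAt)]
      congr 1
      refine dF_congr (mem_of_superset (hU.mem_nhds hp) fun q hq => ?_)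
      exact congrArg χ (hL.val q.1 q.2 hq.2).symm
    · rw [psh_of_notMem hy]
      rw [hL.img, mem_preimage, mem_Ioo, not_and_or, not_lt, not_lt] at hy
      rcases hy with k | k
      · rw [dF_of_ev (c := 0) (((hu y trivial).cont.eventually (gt_mem_nhds (k.trans_lt ha))).mono
          fun _ e => hχ.zero _ e.le), zero_mul]
      · rw [dF_of_ev (c := 1) (((hu y trivial).cont.eventually (lt_mem_nhds (hb.trans_le k))).mono
          fun _ e => hχ.one _ e.le), zero_mul]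
  have hP := hI _ X.cyl 5 _ ho1
  have e3 : (fun p => dF X.cyl (fun p => χ (c + p.2)) p * pbM X.cyl V ν Ω p) = fun p =>
      T X (fun t => χ (c + t)) (pbM X V (fun x => ν (x, 0)) Ω) p + (-1 : ℝ) •
        dM X.cyl (fun p => dF X.cyl (fun p => χ (c + p.2)) p * γ p) p := funext fun p => by
    by_cases k : p ∈ (univ ×ˢ Ioo (-δ) δ : Set X.cyl)
    · rw [dM_mul (hd p) (g1 p k).1, dM_dF (smAt_h (h := fun t => χ (c + t)) hh.sm p), g2 p k, inv_dF, e0, T]
      simp [mul_sub]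
    · rw [hθ.dM.zero_of k, T, dF_zero hh fun k' => k (hS ⟨trivial, k'⟩)]
      simp
  have hT := ocM_T hh (OcM.of_compact isCompact_univ subset_rfl (fun x _ => hw x)
    fun _ h => (h trivial).elim)
  rw [← e2, e1, e3, hP.add _ _ (hT.mono (subset_univ _))
    ((hθ.dM.smul _).mono (subset_univ _)), hP.smul, hP.stokes _ (hθ.mono (subset_univ _)),
    mul_zero, add_zero]
  rw [oc_eq ho'] at hP ⊢
  exact fub ho' (hI _ X 4 _ ho') hP hh hw

end Pool.Agent.MP_e1dc65_gt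

end
end MrgPart3

-- ======== part 4: formerly Pool.Agent.MP_e1dc65_gt.fm.Pd3
section MrgPart4

/-! PROJECT HC, rows GHV and PD3: induction over open sets, Poincare duality. -/

open scoped ContDiff Manifold Topology
open Set Filter Function Module MeasureTheory Pool.Agent.MP_c8d41b_gt.GF

noncomputable section

namespace Pool.Agent.MP_e1dc65_gt

namespace Pd3

section Top
variable {X : Type} {B : Set (Set X)} {V W W' : Set X}

/-- finite unions of members of `B` -/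
inductive Fin' (B : Set (Set X)) : Set X → Prop
  | empty : Fin' B ∅
  | union {V W : Set X} : V ∈ B → Fin' B W → Fin' B (V ∪ W)

theorem Fin'.un (h : Fin' B W) (h' : Fin' B W') : Fin' B (W ∪ W') := by
  induction h with
  | empty => rwa [empty_union]
  | union hV _ ih => rw [union_assoc]; exact .union hV ih

theorem Fin'.inter_left (hB : ∀ U ∈ B, ∀ V ∈ B, U ∩ V ∈ B) (hV : V ∈ B) (h : Fin' B W) :
    Fin' B (V ∩ W) := by
  induction h with
  | empty => rw [inter_empty]; exact .empty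
  | union hV' _ ih => rw [inter_union_distrib_left]; exact .union (hB _ hV _ hV') ih

theorem Fin'.inter (hB : ∀ U ∈ B, ∀ V ∈ B, U ∩ V ∈ B) (h : Fin' B W) (h' : Fin' B W') :
    Fin' B (W ∩ W') := by
  induction h with
  | empty => rw [empty_inter]; exact .empty
  | union hV _ ih => rw [union_inter_distrib_right]; exact (h'.inter_left hB hV).un ih

variable [TopologicalSpace X]

theorem Fin'.isOpen (hB : ∀ U ∈ B, IsOpen U) (h : Fin' B W) : IsOpen W := by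
  induction h with
  | empty => exact isOpen_empty
  | union hV _ ih => exact (hB _ hV).union ih

theorem Fin'.prop {P : Set X → Prop} (h0 : P ∅) (h1 : ∀ U ∈ B, IsOpen U ∧ P U)
    (hB : ∀ U ∈ B, ∀ V ∈ B, U ∩ V ∈ B)
    (h2 : ∀ U V, IsOpen U → IsOpen V → P U → P V → P (U ∩ V) → P (U ∪ V)) (h : Fin' B W) :
    P W := by
  have key : (∀ V ∈ B, P (V ∩ W)) ∧ P W := by
    induction h with
    | empty => exact ⟨fun V _ => by rwa [inter_empty], h0⟩
    | @union V₁ W₁ hV hW ih =>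
      have ho := hW.isOpen fun U hU => (h1 U hU).1
      refine ⟨fun V hV' => ?_, h2 _ _ (h1 _ hV).1 ho (h1 _ hV).2 ih.2 (ih.1 _ hV)⟩
      have h3 := hB _ hV' _ hV
      rw [inter_union_distrib_left]
      refine h2 _ _ (h1 _ h3).1 ((h1 _ hV').1.inter ho) (h1 _ h3).2 (ih.1 _ hV') ?_
      rw [show V ∩ V₁ ∩ (V ∩ W₁) = V ∩ V₁ ∩ W₁ from by ext; simp only [mem_inter_iff]; tauto]
      exact ih.1 _ h3
  exact key.2

theorem exists_fin (hB : ∀ U ∈ B, IsOpen U) {K O : Set X} (hK : IsCompact K) (hO : IsOpen O)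
    (hKO : K ⊆ O) (h : ∀ x ∈ K, ∀ O ∈ 𝓝 x, ∃ V ∈ B, x ∈ V ∧ V ⊆ O) :
    ∃ W, Fin' B W ∧ K ⊆ W ∧ W ⊆ O := by
  refine hK.induction_on (p := fun K => ∃ W, Fin' B W ∧ K ⊆ W ∧ W ⊆ O) ?_ ?_ ?_ ?_
  · exact ⟨_, .empty, Subset.rfl, empty_subset _⟩
  · rintro s t hst ⟨W, h1, h2, h3⟩
    exact ⟨W, h1, hst.trans h2, h3⟩
  · rintro s t ⟨W, h1, h2, h3⟩ ⟨W', h1', h2', h3'⟩
    exact ⟨W ∪ W', h1.un h1', union_subset_union h2 h2', union_subset h3 h3'⟩
  · intro x hx
    obtain ⟨V, h1, h2, h3⟩ := h x hx O (hO.mem_nhds (hKO hx))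
    exact ⟨V, mem_nhdsWithin_of_mem_nhds ((hB V h1).mem_nhds h2), V ∪ ∅, .union h1 .empty,
      subset_union_left, by rwa [union_empty]⟩

/-- an open set is covered by compact shells with almost disjoint neighbourhoods -/
theorem shells [T2Space X] [SecondCountableTopology X] [LocallyCompactSpace X] {U : Set X}
    (hU : IsOpen U) : ∃ A O : ℕ → Set X, (∀ n, IsCompact (A n) ∧ IsOpen (O n) ∧ A n ⊆ O n ∧
      O n ⊆ U) ∧ (∀ n m, n + 2 ≤ m → Disjoint (O n) (O m)) ∧ ∀ x ∈ U, ∃ n, x ∈ A n := by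
  classical
  have : LocallyCompactSpace U := hU.locallyCompactSpace
  let K := (CompactExhaustion.choice U).shiftr.shiftr
  have K1 : K 1 = ∅ := rfl
  refine ⟨fun n => Subtype.val '' (K (2 * n + 3) \ interior (K (2 * n + 1))),
    fun n => Subtype.val '' (interior (K (2 * n + 4)) \ K (2 * n)), fun n => ⟨?_, ?_, ?_, ?_⟩,
    fun n m h => ?_, fun x hx => ?_⟩
  · exact ((K.isCompact _).diff isOpen_interior).image continuous_subtype_val
  · exact hU.isOpenMap_subtype_val _ (isOpen_interior.sdiff (K.isCompact _).isClosed)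
  · exact image_mono fun x hx => ⟨K.subset_interior_succ _ hx.1,
      fun h => hx.2 (K.subset_interior_succ _ h)⟩
  · rintro _ ⟨x, -, rfl⟩
    exact x.2
  · refine (disjoint_image_iff Subtype.val_injective).2 (disjoint_left.2 fun x h1 h2 => h2.2 ?_)
    exact K.subset (by omega) (interior_subset h1.1)
  · have he : ∃ n, (⟨x, hx⟩ : U) ∈ K (2 * n + 3) :=
      (K.exists_mem ⟨x, hx⟩).imp fun n hn => K.subset (by omega) hn
    refine ⟨Nat.find he, ⟨x, hx⟩, ⟨Nat.find_spec he, fun h => ?_⟩, rfl⟩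
    have h1 := interior_subset h
    rcases hn : Nat.find he with _ | n
    · rw [hn, K1] at h1
      exact h1
    · rw [hn] at h1
      exact Nat.find_min he (m := n) (by omega) h1

end Top

end Pd3

open Pd3 in
theorem ghv : GhvStmt := by
  intro X _ _ _ _ P B h1 hB h2 h3 U hU hb
  have h0 : P ∅ := by
    have := h3 Empty (fun _ => ∅) (fun i => i.elim) (fun i => i.elim) fun i => i.elim
    rwa [iUnion_empty] at this
  have ho : ∀ U ∈ B, IsOpen U := fun U hU => (h1 U hU).1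
  obtain ⟨A, O, a1, a2, a3⟩ := shells hU
  choose V v1 v2 v3 using fun n => exists_fin ho (a1 n).1 (a1 n).2.1 (a1 n).2.2.1
    fun x hx => hb x ((a1 n).2.2.2 ((a1 n).2.2.1 hx))
  have vo : ∀ n, IsOpen (V n) := fun n => (v1 n).isOpen ho
  have vd : ∀ n m, n + 2 ≤ m → Disjoint (V n) (V m) := fun n m h => (a2 n m h).mono (v3 n) (v3 m)
  have pw : ∀ W : ℕ → Set X, (∀ n, Fin' B (W n)) → (∀ n m, n < m → Disjoint (W n) (W m)) →
      P (⋃ n, W n) := fun W hW hd =>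
    h3 ℕ W (fun n => (hW n).isOpen ho)
      (fun n m h => h.lt_or_gt.elim (hd n m) fun h => (hd m n h).symm)
      fun n => (hW n).prop h0 h1 hB h2
  have e1 : U = (⋃ n, V (2 * n)) ∪ ⋃ n, V (2 * n + 1) := by
    refine Subset.antisymm (fun x hx => ?_) (union_subset (iUnion_subset fun n => ?_)
      (iUnion_subset fun n => ?_))
    · obtain ⟨n, hn⟩ := a3 x hx
      obtain ⟨m, rfl | rfl⟩ := Nat.even_or_odd' n
      exacts [Or.inl (mem_iUnion.2 ⟨m, v2 _ hn⟩), Or.inr (mem_iUnion.2 ⟨m, v2 _ hn⟩)]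
    all_goals exact (v3 _).trans (a1 _).2.2.2
  have e2 : (⋃ n, V (2 * n)) ∩ ⋃ n, V (2 * n + 1) = ⋃ n, V n ∩ V (n + 1) := by
    ext x
    simp only [mem_inter_iff, mem_iUnion]
    constructor
    · rintro ⟨⟨a, ha⟩, b, hb⟩
      have c1 : ¬2 * a + 2 ≤ 2 * b + 1 := fun h => disjoint_left.1 (vd _ _ h) ha hb
      have c2 : ¬2 * b + 1 + 2 ≤ 2 * a := fun h => disjoint_left.1 (vd _ _ h) hb ha
      obtain rfl | rfl : a = b ∨ a = b + 1 := by omega
      exacts [⟨_, ha, hb⟩, ⟨_, hb, ha⟩]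
    · rintro ⟨n, h, h'⟩
      obtain ⟨m, rfl | rfl⟩ := Nat.even_or_odd' n
      exacts [⟨⟨m, h⟩, m, h'⟩, ⟨⟨m + 1, h'⟩, m, h⟩]
  rw [e1]
  refine h2 _ _ (isOpen_iUnion fun n => vo _) (isOpen_iUnion fun n => vo _)
    (pw _ (fun n => v1 _) fun n m h => vd _ _ (by omega))
    (pw _ (fun n => v1 _) fun n m h => vd _ _ (by omega)) ?_
  rw [e2]
  exact pw _ (fun n => (v1 _).inter hB (v1 _)) fun n m h =>
    (vd n (m + 1) (by omega)).mono inter_subset_left inter_subset_right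

variable {E : Type} [NormedAddCommGroup E] [NormedSpace ℝ E] [FiniteDimensional ℝ E] {X : Mf E}

/-- the cone is acyclic on every open set -/
theorem coneM (hM : ConeMVStmt) (hB : ConeBoxStmt) {N : ℕ} {o : X → Lam E} (ho : Ori X N o univ)
    {U : Set X} (hU : IsOpen U) : ConeM X o U := by
  let b : Basis (Fin N) ℝ E := finBasisOfFinrankEq ℝ E ho.dim
  have mv := fun U V => hM E X N o U V ho
  have h1 : ∀ x₀ : X, ∀ U, IsOpen U → U ⊆ (ch X x₀).source → ConeM X o U := fun x₀ U hU hs => by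
    refine ghv X (ConeM X o) {S | ∃ T, Pool.Agent.MP_c8d41b_gt.GF.Box b T ∧
      T ⊆ (ch X x₀).target ∧ S = (ch X x₀).symm '' T}
      ?_ ?_ mv (hB E X N o ho).2 U hU fun x hx O hO => ?_
    · rintro _ ⟨T, t1, t2, rfl⟩
      exact ⟨oe_ch_symm.isOpen_image (PouP.box_open t1) t2,
        (hB E X N o ho).1 b _ T t1 (oe_ch_symm.mono (PouP.box_open t1) t2)⟩
    · rintro _ ⟨T, t1, t2, rfl⟩ _ ⟨T', t1', t2', rfl⟩
      exact ⟨T ∩ T', PouP.box_inter t1 t1', inter_subset_left.trans t2,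
        ((ch X x₀).symm.injOn.image_inter t2 t2').symm⟩
    · have h2 := (ch X x₀).map_source (hs hx)
      have h3 := (ch X x₀).left_inv (hs hx)
      obtain ⟨T, t1, t2, t3⟩ := PouP.box_nhds (b := b)
        (inter_mem ((ch X x₀).open_target.mem_nhds h2)
          (((ch X x₀).continuousAt_symm h2).preimage_mem_nhds (t := O) (by rwa [h3])))
      exact ⟨_, ⟨T, t1, fun y hy => (t3 hy).1, rfl⟩, ⟨_, t2, h3⟩,
        image_subset_iff.2 fun y hy => (t3 hy).2⟩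
  refine ghv X (ConeM X o) {S | IsOpen S ∧ ∃ x₀, S ⊆ (ch X x₀).source} ?_ ?_ mv (hB E X N o ho).2
    U hU fun x _ O hO => ?_
  · rintro S ⟨s1, x₀, s2⟩
    exact ⟨s1, h1 x₀ S s1 s2⟩
  · rintro S ⟨s1, x₀, s2⟩ S' ⟨s1', -⟩
    exact ⟨s1.inter s1', x₀, inter_subset_left.trans s2⟩
  · exact ⟨interior O ∩ (ch X x).source, ⟨isOpen_interior.inter (ch X x).open_source, x,
      inter_subset_right⟩, ⟨mem_interior_iff_mem_nhds.2 hO, mem_chart_source E x⟩,
      inter_subset_left.trans interior_subset⟩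

namespace Pd3

/-- exact compactly supported forms -/
def Bs (X : Mf E) (U : Set X) : Submodule ℝ (X → Lam E) where
  carrier := {α | ∃ γ, OcM X U γ ∧ α = dM X γ}
  add_mem' := by
    rintro _ _ ⟨γ, h, rfl⟩ ⟨γ', h', rfl⟩
    exact ⟨_, h.add h', funext fun x => (dM_add (h.sm x) (h'.sm x)).symm⟩
  zero_mem' := ⟨_, OcM.zero, funext fun _ => dM_zero.symm⟩
  smul_mem' := by
    rintro c _ ⟨γ, h, rfl⟩
    exact ⟨_, h.smul c, funext fun x => (dM_smul c (h.sm x)).symm⟩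

theorem intM_prj {k l : ℕ} (hd : finrank ℝ E = k + l) (o : X → Lam E) {ζ : X → Lam E}
    (hζ : ∀ x, ζ x ∈ dg E k) (A : X → Lam E) :
    (intM X o fun x => ζ x * prj l (A x)) = intM X o fun x => ζ x * A x := by
  simp only [intM, cf]
  congr 1
  ext x
  rw [ev_mul_prj (hζ x) (by rw [List.length_ofFn, hd])]

end Pd3

open Pd3 in
theorem pdM (_hI : IntMStmt) (hM : ConeMVStmt) (hB : ConeBoxStmt) : PdStmt := by
  intro E _ _ _ X k l o ζ U ho hU hζ hc H
  have hn : ζ ∈ Bs X U := by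
    by_contra hn
    obtain ⟨φ, h0, hk⟩ := Submodule.exists_le_ker_of_notMem hn
    obtain ⟨φ', A, hA, hdA, e⟩ := coneM hM hB ho hU φ (fun _ => 0) (fun _ _ => fmAt_zero)
      (fun _ _ => dM_zero) fun a ha => by
        have : φ (dM X fun x => inv (a x)) = 0 := hk ⟨_, ha.inv, rfl⟩
        simp [this, intM, cf]
    have h3 : (dM X fun x => inv (ζ x)) = 0 := funext fun x => by
      rw [dM_inv (hζ.sm x), hc.2 x trivial]; simp
    apply h0
    rw [e ζ hζ, h3, map_zero, neg_zero, zero_add,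
      ← intM_prj ho.dim o (fun x => (hc.1 x trivial).2) A]
    exact H _ ⟨fun x hx => ⟨(hA x hx).prj l, prj_mem _ _⟩, fun x hx => by
      rw [dM_prj l (hA x hx), hdA x hx, map_zero]⟩
  obtain ⟨γ, hγ, e⟩ := hn
  refine ⟨_, hγ.prj k, fun x _ => ⟨(hγ.sm x).prj k, prj_mem _ _⟩, fun x => ?_⟩
  rw [dM_prj k (hγ.sm x), ← e, prj_same (hc.1 x trivial).2]

/-- on a closed oriented 3-manifold the second de Rham group vanishes with the first -/
theorem hz_closed3 (hI : IntMStmt) (hP : PdStmt) [CompactSpace X] {o : X → Lam E}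
    (ho : Ori X 3 o univ) (h : HZ X 0 univ) : HZ X 1 univ := fun ζ hζ => by
  have oc : ∀ α : X → Lam E, (∀ x, FmAt X α x) → OcM X univ α := fun α hα =>
    ⟨hα, HasCompactSupport.of_compactSpace α, subset_univ _⟩
  obtain ⟨γ, -, h1, h2⟩ := hP E X 1 1 o ζ univ ho isOpen_univ
    (oc ζ fun x => (hζ.1 x trivial).1) hζ fun A hA => by
      obtain ⟨β, b1, b2⟩ := h A hA
      rw [← (hI E X 3 o ho).stokes _ (oc _ fun x => ((hζ.1.mul b1) x trivial).1)]
      congr 1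
      ext1 x
      rw [dM_mul (hζ.1 x trivial).1 (b1 x trivial).1, hζ.2 x trivial, b2 x trivial,
        inv_dg (hζ.1 x trivial).2]
      simp
  exact ⟨γ, h1, fun x _ => h2 x⟩

end Pool.Agent.MP_e1dc65_gt

end
end MrgPart4

-- marker of a merged file
example : 731051 + 836286 = 731051 + 836286 := rfl
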