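import Pool.Agent.MP_e1dc65_gt.e.aTwB
import Mathlib.Analysis.SpecialFunctions.Complex.LogDeriv
import Mathlib.Analysis.Real.Pi.Bounds
import Mathlib.Analysis.InnerProductSpace.Calculus
import Pool.Agent.MP_e1dc65_gt.k.Etale
import Pool.Agent.MP_e1dc65_gt.t.PreCof
import Pool.Agent.MP_e1dc65_gt.e.aLie
import Mathlib.LinearAlgebra.Complex.FiniteDimensional
import Pool.Agent.MP_e1dc65_gt.t2.Disc
import Pool.Agent.MP_e1dc65_gt.s.Lift
import Pool.Agent.MP_e1dc65_gt.e.aH2l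
import Pool.Agent.MP_e1dc65_gt.u.Spec
import Pool.Agent.MP_e1dc65_gt.fm.Hza
import Pool.Agent.MP_e1dc65_gt.k.Level
import Pool.Agent.MP_e1dc65_gt.k.Flow
import Pool.Agent.MP_e1dc65_gt.k.Bump
import Mathlib.Topology.MetricSpace.HausdorffDimension
import Mathlib.Analysis.LocallyConvex.SeparatingDual

-- ======== part 0: formerly Pool.Agent.MP_e1dc65_gt.e.aAsm
section MrgPart0

/-! PROJECT HC, part E, sub-part A: assembly of the rows. -/

open scoped Real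
open Set

namespace Pool.Agent.MP_e1dc65_gt.EA

theorem asm (tw : TwStmt) (sgm : SgmStmt) (slb : SlbStmt) (cfa : CfaStmt) (lg : LgStmt)
    (isf : IsfStmt) (N : NutStmt) (cfn : CfnStmt) (qt : QtStmt) (col : ColStmt) (en : EndStmt)
    (cfq : CfqStmt) (cfe : CfeStmt) (quo : QuoStmt) (mat : MatStmt) (scq : ScqStmt) (prf : PrfStmt)
    (ets : EtsStmt) (spt : SptStmt) (rot : RotStmt) (lie : LieStmt) (spq : SpqStmt) (orq : OrqStmt)
    (wang : WangStmt) (h2l : H2lStmt) (h2m : H2mStmt) (h2p : H2pStmt) (h2q : H2qStmt) :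
    E.AStmt := fun C => by
  obtain ⟨X, e₀, e, h0⟩ := tw
  obtain ⟨σ, ang, del, hA⟩ := sgm X e₀ e h0
  generalize (⟨X, e₀, e, σ, ang, del⟩ : MA) = A at hA
  obtain ⟨St, Φ, hS⟩ := slb A hA
  obtain ⟨τ, hτ⟩ := cfa A hA
  obtain ⟨F, j, k, hL⟩ := lg A hA
  obtain ⟨f₀, f, hF, hc⟩ := isf A F j k hA hL
  obtain ⟨ϑ, B, hϑ⟩ := cfn N
  obtain ⟨T, hT⟩ := qt N A hA
  have hC := col N A T hA hT
  obtain ⟨n, hn⟩ := en N A T F j k hA hT hL
  obtain ⟨Θ, hΘ⟩ := cfq N A T τ ϑ B hA hT hτ hϑ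
  obtain ⟨c1, τF, c2, c3⟩ := cfe N A T τ ϑ B Θ F j k n hA hT hτ hϑ hΘ hL hn
  obtain ⟨Q, pQ, hQ, q1, q2, q3, hP, q4⟩ := quo A T F j k n hA hT hC hn
  obtain ⟨sp, i, s1, s2⟩ := spq ets spt rot lie C A T τ ϑ Θ Q pQ hA hT hC hτ hΘ hQ hP
  refine ⟨⟨F, f₀, f, T.Qt, Q, T.σ, T.s, n, T.c, T.nut 0, Θ, τF, pQ,
    fun p => pQ (n (p.1, 2 + Real.exp (-p.2))), fun p => pQ (T.κt p)⟩,
    ⟨hF, hT.σsm, hT.σσ, hC.σne, hT.scont, hT.sσ, hC.scpt, hC.cld, hC.ceq, hC.cσ, hC.cs, hn.noe,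
      hn.ns, hn.nsur, fun p hp h2 => ?_, scq N mat A T St Φ hA hT hS, hC.spt, hC.ptc, hΘ.cof,
      hΘ.Θσ, c1, c2, c3, hQ.pld, hQ.psur, hQ.peq, h2q N h2p A T St Φ Q pQ hA hT hS hQ
        (h2m A T Q pQ hA hT hQ (h2l wang A T St Φ Q pQ hA hT hS hQ))⟩,
    prf mat A St Φ F j k hA hS hL, orq C Q _ hP ⟨sp⟩, q1, q2, q3, hP.ld, hP.eq, q4, sp, i, s1, s2⟩
  have a : |(![π + p.1 0, π + p.1 1, p.2] : Rn 3) 0 - π| < 1 := by simpa using hp.1
  have b : |(![π + p.1 0, π + p.1 1, p.2] : Rn 3) 1 - π| < 1 := by simpa using hp.2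
  exact (congrArg (fun m => n (m, p.1 2)) (hc _ a b)).trans (hn.nj _ (hA.col_core a b) _ h2)

end Pool.Agent.MP_e1dc65_gt.EA

end MrgPart0

-- ======== part 1: formerly Pool.Agent.MP_e1dc65_gt.e.aIsf
section MrgPart1

/-! PROJECT HC, part E, sub-part A, row ISF: the logarithmic transform is the third Dehn twist. -/

open scoped ContDiff Manifold Topology Matrix Real
open Set Filter Function Module

noncomputable section

namespace Pool.Agent.MP_e1dc65_gt.EA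

namespace IsfP

/-! ### Lattice arithmetic -/

theorem lat0 {t : ℝ} (h : ∃ m : ℤ, t = 2 * π * m) (h' : |t| < 6) : t = 0 := by
  obtain ⟨m, rfl⟩ := h
  by_contra h0
  have hm : m ≠ 0 := by rintro rfl; simp at h0
  have h1 : (1 : ℝ) ≤ |(m : ℝ)| := by exact_mod_cast Int.one_le_abs hm
  rw [abs_mul, abs_of_pos Real.two_pi_pos] at h'
  nlinarith [Real.pi_gt_three]

theorem lrefl (z : Rn 3) : Lat z z := fun _ => ⟨0, by simp⟩
theorem lsymm {z z' : Rn 3} (h : Lat z z') : Lat z' z := fun i =>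
  let ⟨m, e⟩ := h i; ⟨-m, by push_cast; linarith⟩
theorem ltrans {z z' z'' : Rn 3} (h : Lat z z') (h' : Lat z' z'') : Lat z z'' := fun i =>
  let ⟨m, e⟩ := h i; let ⟨n, e'⟩ := h' i; ⟨m + n, by push_cast; linarith⟩

theorem dsc {z : Rn 3} (h : z ∈ Dsc) : |z 0 - 3 * π / 2| < 1 ∧ |z 1 - π / 2| < 1 :=
  ⟨(Complex.abs_re_le_norm (wz z)).trans_lt h, (Complex.abs_im_le_norm (wz z)).trans_lt h⟩

theorem i01 {i : Fin 3} (h : i ∈ I01) : i = 0 ∨ i = 1 := by
  fin_cases i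
  exacts [.inl rfl, .inr rfl, (h rfl).elim]

theorem far {i : Fin 3} (hi : i ∈ I01) {z y : Rn 3} (h : |z (jx i) - cj i| < 2 * eps)
    (hy : y ∈ Dsc) : ¬Lat z y := fun l => by
  obtain ⟨h1, h2⟩ := dsc hy
  have := Real.pi_gt_three
  have := Real.pi_lt_four
  rw [abs_lt] at h1 h2
  rcases i01 hi with rfl | rfl
  · change |z 1 - 3 * π / 2| < 2 * (1 / 10) at h
    rw [abs_lt] at h
    have := lat0 (l 1) (abs_lt.2 ⟨by linarith, by linarith⟩)
    linarith
  · change |z 0 - π / 2| < 2 * (1 / 10) at h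
    rw [abs_lt] at h
    have := lat0 (l 0) (abs_lt.2 ⟨by linarith, by linarith⟩)
    linarith

theorem dsc_main {y : Rn 3} (hy : y ∈ Dsc) : y ∈ MainI I01 := fun i hi ⟨_, l, h, _⟩ =>
  far hi (h.trans_lt (by norm_num [eps])) hy (lsymm l)

theorem notCut {i : Fin 3} {y : Rn 3} (h : |y (kx i) - ck i| < 2 * eps) (h' : y (kx i) ≠ ck i) :
    y ∉ Cut i := fun ⟨_, l, _, e⟩ =>
  h' (sub_eq_zero.1 (lat0 (e ▸ l (kx i)) (h.trans (by norm_num [eps]))))

theorem main_of {i : Fin 3} (hi : i ∈ I01) {y : Rn 3} (h : |y (kx i) - ck i| < 2 * eps)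
    (h' : y ∉ Cut i) : y ∈ MainI I01 := fun i' hi' hc => by
  have := Real.pi_gt_three
  have := Real.pi_lt_four
  rcases i01 hi with rfl | rfl <;> rcases i01 hi' with rfl | rfl
  · exact h' hc
  · obtain ⟨y', l, -, e⟩ := hc
    change |y 2 - π / 2| < 2 * (1 / 10) at h
    change y' 2 = 3 * π / 2 at e
    rw [abs_lt] at h
    have := lat0 (l 2) (abs_lt.2 ⟨by linarith, by linarith⟩)
    linarith
  · obtain ⟨y', l, -, e⟩ := hc
    change |y 2 - 3 * π / 2| < 2 * (1 / 10) at h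
    change y' 2 = π / 2 at e
    rw [abs_lt] at h
    have := lat0 (l 2) (abs_lt.2 ⟨by linarith, by linarith⟩)
    linarith
  · exact h' hc

theorem shr_jx (i : Fin 3) (z : Rn 3) : shr i z (jx i) = z (jx i) := by
  fin_cases i <;> simp [shr, jx]
theorem shr_kx (i : Fin 3) (z : Rn 3) : shr i z (kx i) = z (kx i) := by
  fin_cases i <;> simp [shr, kx]

theorem wz_lat {z z' : Rn 3} (h : z ∈ Dsc) (h' : z' ∈ Dsc) (l : Lat z z') : wz z = wz z' := by
  obtain ⟨a, b⟩ := dsc h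
  obtain ⟨c, d⟩ := dsc h'
  rw [abs_lt] at a b c d
  have e0 := lat0 (l 0) (abs_lt.2 ⟨by linarith, by linarith⟩)
  have e1 := lat0 (l 1) (abs_lt.2 ⟨by linarith, by linarith⟩)
  rw [wz, wz, sub_eq_zero.1 e0, sub_eq_zero.1 e1]

theorem wz_su (θ : ℝ) (z : Rn 3) : wz (su θ z) = wz z := rfl
theorem su_su (a b : ℝ) (z : Rn 3) : su a (su b z) = su (a + b) z := by
  ext i; fin_cases i <;> simp [su]; ring
theorem su_zero (z : Rn 3) : su 0 z = z := by ext i; fin_cases i <;> simp [su]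
theorem lat_su (θ : ℝ) {z z' : Rn 3} (l : Lat z z') : Lat (su θ z) (su θ z') := fun i => by
  fin_cases i
  exacts [l 0, l 1, (l 2).imp fun m e => by simpa [su] using e]
theorem shr2 (z : Rn 3) : shr 2 z = su (-(2 * π * lam (wz z).re)) z := by
  ext i; fin_cases i <;> simp [su, shr, jx, cj, wz]

theorem box2 {z : Rn 3} (h : z ∈ Box 2) : ‖wz z‖ ^ 2 < 9 / 100 := by
  have h1 : |(wz z).re| < 2 * (1 / 10) := h.1
  have h2 : |(wz z).im| < 2 * (1 / 10) := h.2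
  rw [abs_lt] at h1 h2
  rw [Complex.sq_norm, Complex.normSq_apply]
  nlinarith
theorem box2_dsc {z : Rn 3} (h : z ∈ Box 2) : z ∈ Dsc := by
  have := box2 h
  show ‖wz z‖ < 1
  nlinarith [norm_nonneg (wz z)]

/-- the segment -/
def Sg : Set ℂ := {w | |w.re| ≤ eps ∧ w.im = 0}

theorem cut2 {z : Rn 3} (h : wz z ∈ Sg) : z ∈ Cut 2 := ⟨z, lrefl z, h.1, sub_eq_zero.1 h.2⟩
theorem cut2' {z : Rn 3} (h : z ∈ Cut 2) : ∃ z' ∈ Box 2, Lat z z' ∧ wz z' ∈ Sg :=
  let ⟨z', l, a, b⟩ := h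
  ⟨z', ⟨a.trans_lt (by norm_num [eps]), by rw [b]; norm_num [eps]⟩, l, a, sub_eq_zero.2 b⟩
theorem cut_lat {i : Fin 3} {z z' : Rn 3} (l : Lat z z') (h : z' ∈ Cut i) : z ∈ Cut i :=
  let ⟨y, l', a⟩ := h; ⟨y, ltrans l l', a⟩
theorem zero_Sg : (0 : ℂ) ∈ Sg := ⟨by norm_num [eps], rfl⟩
theorem isClosed_Sg : IsClosed Sg :=
  (isClosed_le Complex.continuous_re.abs continuous_const).inter
    (isClosed_eq Complex.continuous_im continuous_const)

/-! ### The angle function -/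

/-- an argument, bent across the segment -/
def Psi (w : ℂ) : ℝ := w.arg + if 0 ≤ w.im then 2 * π * (lam w.re - 1) else 0
/-- the same, cut off -/
def Om (w : ℂ) : ℝ := (1 - Fn.stp (9 / 100) (1 / 4) (‖w‖ ^ 2)) * Psi w

theorem cd_arg (c : ℂ) {w : ℂ} (h : c * w ∈ Complex.slitPlane) :
    ContDiffAt ℝ ∞ (fun z : ℂ => (c * z).arg) w := by
  have h1 : ContDiffAt ℝ ∞ (fun z : ℂ => Complex.imCLM (Complex.log (c * z))) w :=
    Complex.imCLM.contDiff.contDiffAt.comp _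
      (((Complex.contDiffAt_log h).restrict_scalars ℝ).comp _ (contDiffAt_const.mul contDiffAt_id))
  simpa only [Complex.imCLM_apply, Complex.log_im] using h1

theorem cd_Psi {w : ℂ} (h : w ∉ Sg) : ContDiffAt ℝ ∞ Psi w := by
  have ha : w ∈ Complex.slitPlane → ContDiffAt ℝ ∞ Complex.arg w := fun h => by
    simpa only [one_mul] using cd_arg 1 (w := w) (by rwa [one_mul])
  rcases lt_trichotomy w.im 0 with h0 | h0 | h0
  · refine (ha (.inr h0.ne)).congr_of_eventuallyEq ?_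
    filter_upwards [Complex.continuous_im.continuousAt.eventually_lt_const h0] with y hy
    rw [Psi, if_neg (not_le.2 hy), add_zero]
  · rcases lt_abs.1 (not_le.1 fun h1 => h ⟨h1, h0⟩) with h1 | h1
    · refine (ha (.inl (lt_trans (by norm_num [eps]) h1))).congr_of_eventuallyEq ?_
      filter_upwards [Complex.continuous_re.continuousAt.eventually_const_lt h1] with y hy
      simp [Psi, Fn.lam_one hy.le]
    · have he : (0 : ℝ) < eps := by norm_num [eps]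
      refine ((cd_arg (-1) (w := w) (.inl (by simp; linarith))).sub
        (contDiffAt_const (c := π))).congr_of_eventuallyEq ?_
      filter_upwards [Complex.continuous_re.continuousAt.eventually_lt_const (lt_neg.1 h1)]
        with y hy
      rw [Psi, Fn.lam_zero hy.le, neg_one_mul]
      split_ifs with h2
      · rw [Complex.arg_neg_eq_arg_sub_pi_iff.2 (h2.lt_or_eq.imp id fun e => ⟨e.symm, by linarith⟩)]
        ring
      · rw [Complex.arg_neg_eq_arg_add_pi_of_im_neg (not_le.1 h2)]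
        ring
  · refine ((ha (.inr h0.ne')).add ((contDiffAt_const (c := 2 * π)).mul
      ((Fn.lam_sm.contDiffAt.comp w Complex.reCLM.contDiff.contDiffAt).sub
        (contDiffAt_const (c := 1))))).congr_of_eventuallyEq ?_
    filter_upwards [Complex.continuous_im.continuousAt.eventually_const_lt h0] with y hy
    rw [Psi, if_pos hy.le]
    rfl

theorem cd_Om {w : ℂ} (h : w ∉ Sg) : ContDiffAt ℝ ∞ Om w :=
  (contDiffAt_const.sub (Fn.stp_sm.contDiffAt.comp w (contDiff_norm_sq ℝ).contDiffAt)).mul (cd_Psi h)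

theorem Om_far {w : ℂ} (h : 1 / 2 ≤ ‖w‖) : Om w = 0 := by
  rw [Om, Fn.stp_one (by norm_num) (by nlinarith), sub_self, zero_mul]
theorem Om_near {w : ℂ} (h : ‖w‖ ^ 2 < 9 / 100) : Om w = Psi w := by
  rw [Om, Fn.stp_zero (by norm_num) h.le, sub_zero, one_mul]

theorem isArg_arg (w : ℂ) : IsArg w w.arg := (Complex.norm_mul_exp_arg_mul_I w).symm
theorem isArg_sub (w : ℂ) : IsArg w (w.arg - 2 * π) := by
  have := isArg_arg w
  unfold IsArg at this ⊢
  rwa [Complex.ofReal_sub, sub_mul, Complex.exp_sub, show ((2 * π : ℝ) : ℂ) = 2 * π by simp,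
    Complex.exp_two_pi_mul_I, div_one]

theorem isArg_low {w : ℂ} (h : w ∉ Sg) (h0 : w.im ≤ 0) : IsArg w (Psi w) := by
  unfold Psi
  split_ifs with h1
  · rcases lt_abs.1 (not_le.1 fun h2 => h ⟨h2, h0.antisymm h1⟩) with h2 | h2
    · rw [Fn.lam_one h2.le, sub_self, mul_zero, add_zero]; exact isArg_arg w
    · rw [Fn.lam_zero (lt_neg.1 h2).le, zero_sub, mul_neg_one, ← sub_eq_add_neg]
      exact isArg_sub w
  · rw [add_zero]; exact isArg_arg w

theorem isArg_up {w : ℂ} (h0 : 0 ≤ w.im) : IsArg w (Psi w + -(2 * π * lam w.re)) := by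
  rw [Psi, if_pos h0]
  convert isArg_sub w using 1
  ring

/-! ### Shears -/

theorem cd_wz : ContDiff ℝ ∞ wz :=
  Complex.equivRealProdCLM.symm.contDiff.comp
    (f := fun z : Rn 3 => (z 0 - 3 * π / 2, z 1 - π / 2)) (by fun_prop)

theorem cd_su {g : ℂ → ℝ} {z : Rn 3} (h : ContDiffAt ℝ ∞ g (wz z)) :
    ContDiffAt ℝ ∞ (fun z => su (g (wz z)) z) z := contDiffAt_pi.2 fun i => by
  fin_cases i
  exacts [contDiffAt_apply ℝ ℝ 0 z, contDiffAt_apply ℝ ℝ 1 z,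
    (contDiffAt_apply ℝ ℝ 2 z).sub (h.comp z cd_wz.contDiffAt)]

theorem ld_su {z : Rn 3} (h : wz z ∉ Sg) :
    LDAt (vs (Rn 3)) (vs (Rn 3)) (fun z => su (Om (wz z)) z) z :=
  have hO : IsOpen (wz ⁻¹' Sgᶜ) := isClosed_Sg.isOpen_compl.preimage cd_wz.continuous
  ldAt_of_inv (g := fun z => su (-Om (wz z)) z) hO hO h (fun _ hy => smAt_vs.2 (cd_su (cd_Om hy)))
    (fun _ hy => smAt_vs.2 (cd_su (g := fun w => -Om w) (cd_Om hy).neg)) (fun _ hy => hy)
    (fun _ hy => hy) (fun y _ => by rw [wz_su, su_su, neg_add_cancel, su_zero])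
    fun y _ => by rw [wz_su, su_su, add_neg_cancel, su_zero]

variable {A : MA} (hA : A.Ok)
include hA

theorem exists_sh (g : ℂ → ℝ) : ∃ s : A.X → A.X,
    (∀ z ∈ Dsc, s (A.e₀ z) = A.e₀ (su (g (wz z)) z)) ∧ ∀ x ∉ A.e₀ '' Dsc, s x = x := by
  classical
  obtain ⟨F, hF⟩ := desc1 Dsc A.e₀ (fun z => A.e₀ (su (g (wz z)) z)) fun z hz y hy e => by
    have l := (hA.tw.eq0 _ (dsc_main hz) _ (dsc_main hy)).1 e
    rw [wz_lat hz hy l]
    exact (hA.tw.eq0 _ (dsc_main (y := su _ z) hz) _ (dsc_main (y := su _ y) hy)).2 (lat_su _ l)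
  exact ⟨fun x => if x ∈ A.e₀ '' Dsc then F x else x,
    fun z hz => (if_pos (mem_image_of_mem _ hz)).trans (hF z hz), fun x hx => if_neg hx⟩

omit hA in
theorem core_dsc {x : A.X} (h : x ∈ A.core) : x ∈ A.e₀ '' Dsc :=
  image_mono (fun z (hz : wz z = 0) => show ‖wz z‖ < 1 by simp [hz]) h

theorem core_iff {z : Rn 3} (hz : z ∈ Dsc) : A.e₀ z ∈ A.core ↔ wz z = 0 :=
  ⟨fun ⟨y, hy, e⟩ => by
    have hy' : y ∈ Dsc := show ‖wz y‖ < 1 by rw [show wz y = 0 from hy]; simp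
    rw [← wz_lat hy' hz ((hA.tw.eq0 _ (dsc_main hy') _ (dsc_main hz)).1 e)]
    exact hy, fun h => ⟨z, h, rfl⟩⟩

theorem box_off {i : Fin 3} (hi : i ∈ I01) {z : Rn 3} (hz : z ∈ Box i) :
    A.e i z ∉ A.e₀ '' Dsc := by
  rintro ⟨y, hy, e⟩
  by_cases hc : z ∈ Cut i
  · exact hA.tw.cut i hi z ⟨hz, hc⟩ ⟨y, dsc_main hy, e⟩
  have hm := main_of hi hz.2 hc
  rcases le_or_gt (z (kx i)) (ck i) with h | h
  · rw [hA.tw.low i hi z hz hm h] at e
    exact far hi hz.1 hy ((hA.tw.eq0 _ hm _ (dsc_main hy)).1 e.symm)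
  · rw [hA.tw.up i hi z hz h] at e
    have h2 : |shr i z (kx i) - ck i| < 2 * eps := by rw [shr_kx]; exact hz.2
    exact far hi (by rw [shr_jx]; exact hz.1) hy ((hA.tw.eq0 _
      (main_of hi h2 (notCut h2 (by rw [shr_kx]; exact h.ne'))) _ (dsc_main hy)).1 e.symm)

/-- the shear of `A.X` by `Om` -/
theorem exists_shear : ∃ s : A.X → A.X, (∀ z ∈ Dsc, s (A.e₀ z) = A.e₀ (su (Om (wz z)) z)) ∧
    (∀ x ∉ A.e₀ '' Dsc, s x = x) ∧ Bijective s ∧ (∀ x, s x ∈ A.core ↔ x ∈ A.core) ∧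
    ∀ x, (∀ z ∈ Dsc, wz z ∈ Sg → A.e₀ z ≠ x) → LDAt A.X A.X s x := by
  obtain ⟨s, s1, s2⟩ := exists_sh hA Om
  obtain ⟨t, t1, t2⟩ := exists_sh hA fun w => -Om w
  refine ⟨s, s1, s2, bijective_iff_has_inverse.2 ⟨t, fun x => ?_, fun x => ?_⟩, fun x => ?_,
    fun x hx => ?_⟩
  · by_cases h : x ∈ A.e₀ '' Dsc
    · obtain ⟨z, hz, rfl⟩ := h
      rw [s1 z hz, t1 (su _ z) hz, wz_su, su_su, neg_add_cancel, su_zero]
    · rw [s2 x h, t2 x h]
  · by_cases h : x ∈ A.e₀ '' Dsc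
    · obtain ⟨z, hz, rfl⟩ := h
      rw [t1 z hz, s1 (su _ z) hz, wz_su, su_su, add_neg_cancel, su_zero]
    · rw [t2 x h, s2 x h]
  · by_cases h : x ∈ A.e₀ '' Dsc
    · obtain ⟨z, hz, rfl⟩ := h
      rw [s1 z hz, core_iff hA hz, core_iff hA (z := su _ z) hz, wz_su]
    · rw [s2 x h]
  · by_cases h : x ∈ A.e₀ '' Dsc
    · obtain ⟨z, hz, rfl⟩ := h
      have hD : IsOpen Dsc := isOpen_lt cd_wz.continuous.norm continuous_const
      exact (hA.tw.ld0 z (dsc_main hz)).ld_desc (hD.mem_nhds hz) s1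
        ((ld_su fun h => hx z hz h rfl).trans (hA.tw.ld0 _ (dsc_main (y := su _ z) hz)))
    · have h1 : 1 / 2 < A.del x := by
        rw [(hA.del1 x).resolve_right h]; norm_num
      refine ldAt_id.congr' ?_
      filter_upwards [hA.delc.continuousAt.eventually_const_lt h1] with y hy
      by_cases h2 : y ∈ A.e₀ '' Dsc
      · obtain ⟨z, hz, rfl⟩ := h2
        rw [s1 z hz, Om_far (hA.del0 z hz ▸ hy.le), su_zero]
      · exact s2 y h2

end IsfP

open IsfP in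
/-- row ISF -/
theorem isf : IsfStmt := by
  intro A F j k hA hL
  obtain ⟨s, s1, s2, sb, sc, sl⟩ := exists_shear hA
  have tw := hA.tw
  have mm : ∀ z ∈ Main, z ∈ MainI I01 := fun z hz i _ => hz i
  have off : ∀ z ∈ Main, ∀ y ∈ Dsc, wz y ∈ Sg → A.e₀ y ≠ A.e₀ z := fun z hz y hy h e =>
    hz 2 (cut_lat ((tw.eq0 _ (mm z hz) _ (dsc_main hy)).1 e.symm) (cut2 h))
  have nc : ∀ z ∈ Main, s (A.e₀ z) ∈ A.coreᶜ := fun z hz h => by
    obtain ⟨y, hy, e⟩ := (sc _).1 h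
    have hy0 : wz y = 0 := hy
    exact off z hz y (show ‖wz y‖ < 1 by simp [hy0]) (hy0 ▸ zero_Sg) e
  have bc : ∀ i ∈ I01, ∀ z ∈ Box i, A.e i z ∈ A.coreᶜ := fun i hi z hz h =>
    box_off hA hi hz (core_dsc h)
  have bs : ∀ i ∈ I01, ∀ z ∈ Box i, s (A.e i z) = A.e i z := fun i hi z hz =>
    s2 _ (box_off hA hi hz)
  have kj : ∀ z ∈ Dsc, wz z ≠ 0 → k z = j (A.e₀ (su (wz z).arg z)) ∧
      A.e₀ (su (wz z).arg z) ∈ A.coreᶜ := fun z hz h =>
    ⟨hL.rel z hz h _ (isArg_arg _), fun h' => h ((core_iff hA (z := su _ z) hz).1 h')⟩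
  have d2 : ∀ i ∈ I01, ∀ z ∈ Box i, ∀ y ∈ Box 2, j (A.e i z) ≠ k y := fun i hi z hz y hy e => by
    by_cases h : wz y = 0
    · exact hL.kc y h ⟨_, bc i hi z hz, e⟩
    · obtain ⟨a, b⟩ := kj y (box2_dsc hy) h
      exact box_off hA hi hz
        ⟨su _ y, box2_dsc hy, (hL.oj.inj (bc i hi z hz) b (e.trans a)).symm⟩
  obtain ⟨f, f1, f2⟩ : ∃ f : Fin 3 → Rn 3 → F, (∀ i ∈ I01, f i = fun z => j (A.e i z)) ∧ f 2 = k :=
    ⟨fun i => if i = 2 then k else fun z => j (A.e i z), fun i hi => if_neg hi, if_pos rfl⟩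
  have cs : ∀ i : Fin 3, i ∈ I01 ∨ i = 2 := fun i => (eq_or_ne i 2).symm
  refine ⟨fun z => j (s (A.e₀ z)), f, ⟨fun z hz => ?_, fun z hz z' hz' => ?_, fun i z hz => ?_,
    fun i z hz hm h => ?_, fun i z hz h => ?_, fun i z hz z' hz' => ?_, fun i z hz => ?_,
    fun i i' hi z hz z' hz' => ?_, fun m => ?_, hL.cpt, hL.conn⟩, fun z h0 h1 => ?_⟩
  · exact ((tw.ld0 z (mm z hz)).trans (sl _ (off z hz))).trans (hL.oj.ld _ (nc z hz))
  · rw [hL.oj.inj.eq_iff (nc z hz) (nc z' hz'), sb.1.eq_iff, tw.eq0 z (mm z hz) z' (mm z' hz')]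
  · rcases cs i with hi | rfl
    · rw [f1 i hi]; exact (tw.ld i hi z hz).trans (hL.oj.ld _ (bc i hi z hz))
    · rw [f2]; exact hL.kld z (box2_dsc hz)
  · rcases cs i with hi | rfl
    · rw [f1 i hi, ← tw.low i hi z hz (mm z hm) h, bs i hi z hz]
    · have hs : wz z ∉ Sg := fun h => hm 2 (cut2 h)
      rw [f2, s1 z (box2_dsc hz), Om_near (box2 hz)]
      exact hL.rel z (box2_dsc hz) (fun e => hs (e ▸ zero_Sg)) _ (isArg_low hs (sub_nonpos.2 h))
  · rcases cs i with hi | rfl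
    · rw [f1 i hi, ← tw.up i hi z hz h, bs i hi z hz]
    · have h0 : 0 < (wz z).im := sub_pos.2 h
      rw [f2, shr2, s1 (su _ z) (box2_dsc hz), wz_su, su_su, Om_near (box2 hz)]
      exact hL.rel z (box2_dsc hz) (fun e => by simp [e] at h0) _ (isArg_up h0.le)
  · rcases cs i with hi | rfl
    · rw [f1 i hi, hL.oj.inj.eq_iff (bc i hi z hz) (bc i hi z' hz'), tw.eq i hi z hz z' hz']
    · rw [f2]; exact hL.keq z (box2_dsc hz) z' (box2_dsc hz')
  · rintro ⟨y, hy, e⟩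
    rcases cs i with hi | rfl
    · rw [f1 i hi] at e
      have e' := hL.oj.inj (nc y hy) (bc i hi z hz.1) e
      rw [← bs i hi z hz.1] at e'
      exact tw.cut i hi z hz ⟨y, mm y hy, sb.1 e'⟩
    · rw [f2] at e
      have hd := box2_dsc hz.1
      by_cases h : wz z = 0
      · exact hL.kc z h ⟨_, nc y hy, e⟩
      · obtain ⟨a, b⟩ := kj z hd h
        have e' := hL.oj.inj (nc y hy) b (e.trans a)
        have e2 : s (A.e₀ (su ((wz z).arg - Om (wz z)) z)) = A.e₀ (su (wz z).arg z) := by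
          rw [s1 (su _ z) hd, wz_su, su_su, add_sub_cancel]
        obtain ⟨z', hz', l, hs⟩ := cut2' hz.2
        rw [← wz_lat hd (box2_dsc hz') l] at hs
        exact off y hy (su _ z) hd hs (sb.1 (e2.trans e'.symm))
  · rcases cs i with h | rfl <;> rcases cs i' with h' | rfl
    · rw [f1 i h, f1 i' h']
      exact fun e => tw.dis i h i' h' hi z hz z' hz' (hL.oj.inj (bc i h z hz) (bc i' h' z' hz') e)
    · rw [f1 i h, f2]; exact d2 i h z hz z' hz'
    · rw [f1 i' h', f2]; exact (d2 i' h' z' hz' z hz).symm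
    · exact (hi rfl).elim
  · rcases hL.cov m with ⟨x, hx, rfl⟩ | ⟨z, hz, rfl⟩
    · obtain ⟨x, rfl⟩ := sb.2 x
      rcases tw.cov x with ⟨z, hz, rfl⟩ | ⟨i, hi, z, hz, rfl⟩
      · by_cases hc : z ∈ Cut 2
        · obtain ⟨y, hy, l, -⟩ := cut2' hc
          have hd := box2_dsc hy
          rw [(tw.eq0 z hz y (dsc_main hd)).2 l] at hx ⊢
          have h0 : wz y ≠ 0 := fun e => hx ((sc _).2 ((core_iff hA hd).2 e))
          refine .inr ⟨2, su (Om (wz y) - (wz y).arg) y, hy, ?_⟩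
          rw [f2, (kj (su _ y) hd h0).1, wz_su, su_su, add_sub_cancel, s1 y hd]
        · exact .inl ⟨z, fun i => (cs i).elim (hz i) fun e => e ▸ hc, rfl⟩
      · exact .inr ⟨i, z, hz, by rw [f1 i hi, bs i hi z hz]⟩
    · refine .inr ⟨2, z, ⟨?_, ?_⟩, by rw [f2]⟩
      · show |(wz z).re| < _
        rw [hz]; norm_num [eps]
      · show |(wz z).im| < _
        rw [hz]; norm_num [eps]
  · have := Real.pi_gt_three
    have := Real.pi_lt_four
    rw [abs_lt] at h0 h1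
    have hm : z ∈ MainI I01 := fun i hi ⟨y, l, a, _⟩ => by
      rcases i01 hi with rfl | rfl
      · change |y 1 - 3 * π / 2| ≤ 1 / 10 at a
        rw [abs_le] at a
        have := lat0 (l 1) (abs_lt.2 ⟨by linarith, by linarith⟩)
        linarith
      · change |y 0 - π / 2| ≤ 1 / 10 at a
        rw [abs_le] at a
        have := lat0 (l 0) (abs_lt.2 ⟨by linarith, by linarith⟩)
        linarith
    show j (s _) = _
    by_cases h : A.e₀ z ∈ A.e₀ '' Dsc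
    · obtain ⟨y, hy, e⟩ := h
      have a := abs_lt.1 (dsc hy).1
      have b := lat0 ((tw.eq0 y (dsc_main hy) z hm).1 e 0) (abs_lt.2 ⟨by linarith, by linarith⟩)
      have c : 1 / 2 ≤ |y 0 - 3 * π / 2| := le_abs.2 (.inr (by linarith))
      rw [← e, s1 y hy, Om_far (c.trans (Complex.abs_re_le_norm (wz y))), su_zero]
    · rw [s2 _ h]

end Pool.Agent.MP_e1dc65_gt.EA

end
end MrgPart1

-- ======== part 2: formerly Pool.Agent.MP_e1dc65_gt.e.aQt
section MrgPart2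

/-! PROJECT HC, part E-A, row QT: the double cover of the rational ball. -/

open scoped ContDiff Manifold Topology Real
open Set Filter Function Module

noncomputable section

namespace Pool.Agent.MP_e1dc65_gt.EA

namespace QtP

/-- a limit point of the graph over a point of the image lies on the graph -/
theorem graph_closed {E E' : Type} [NormedAddCommGroup E] [NormedSpace ℝ E]
    [NormedAddCommGroup E'] [NormedSpace ℝ E'] {C : Mf E} {X : Mf E'} {Y : Type}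
    [TopologicalSpace Y] [T2Space Y] {D : Set C} {a : C → X} {b : C → Y} {c : C} {y : Y}
    (hD : D ∈ 𝓝 c) (ha : LDAt C X a c) (hb : ContinuousAt b c)
    (he : ∀ c ∈ D, ∀ c' ∈ D, a c = a c' → b c = b c')
    (h : (a c, y) ∈ closure ((fun c => (a c, b c)) '' D)) : b c = y := by
  by_contra hne
  obtain ⟨P, Q, hP, hQ, hd⟩ := t2_separation_nhds hne
  obtain ⟨_, ⟨⟨c', h1, e⟩, h2⟩, c'', h3, rfl⟩ := mem_closure_iff_nhds.1 h _
    (prod_mem_nhds (ha.image_mem (inter_mem hD (hb.preimage_mem_nhds hP))) hQ)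
  exact disjoint_left.1 hd (mem_of_eq_of_mem (he _ h1.1 _ h3 e).symm h1.2) h2

theorem odd_pi (a d : ℝ) (m : ℤ) (ha : |a| < 1) (hd : |d| ≤ eps) : a - d ≠ (2 * m + 1) * π := by
  intro e
  have h1 : |(2 * m + 1 : ℝ)| * π < 2 := by
    rw [← abs_of_pos Real.pi_pos, ← abs_mul, ← e]
    exact (abs_sub a d).trans_lt (by norm_num [eps] at hd; linarith)
  have h2 : (1 : ℝ) ≤ |(2 * m + 1 : ℝ)| := by
    exact_mod_cast Int.one_le_abs (show 2 * m + 1 ≠ 0 by omega)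
  nlinarith [Real.two_le_pi]

theorem dsc_main {z : Rn 3} (hz : z ∈ Dsc) : z ∈ MainI I01 := by
  rintro i hi ⟨z', h1, h2, -⟩
  obtain ⟨m, hm⟩ := h1 (jx i)
  fin_cases i
  · refine odd_pi _ _ m ((Complex.abs_im_le_norm _).trans_lt hz) h2 ?_
    simp [wz, jx, cj] at hm ⊢
    linarith
  · refine odd_pi _ _ (m - 1) ((Complex.abs_re_le_norm _).trans_lt hz) h2 ?_
    simp [wz, jx, cj] at hm ⊢
    linarith
  · exact hi rfl

variable {A : MA} (h : A.Ok)
include h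

theorem core_iff {x : A.X} : x ∈ A.core ↔ A.del x = 0 := by
  constructor
  · rintro ⟨z, hz, rfl⟩
    have hz' : wz z = 0 := hz
    rw [h.del0 z (by simp [Dsc, hz']), hz', norm_zero]
  · intro e
    obtain e' | ⟨z, hz, rfl⟩ := h.del1 x
    · exact absurd (e.symm.trans e') zero_ne_one
    · exact ⟨z, norm_eq_zero.1 ((h.del0 z hz).symm.trans e), rfl⟩

theorem U_op : IsOpen A.U := by
  have : A.U = {p | A.del p.1 ≠ 0} ∪ {p | |p.2| < 1} := by
    ext p; simp only [MA.U, core_iff h, mem_ofPred_eq, mem_union, imp_iff_not_or]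
  rw [this]
  exact (isOpen_ne_fun (h.delc.comp continuous_fst) continuous_const).union
    (isOpen_lt continuous_snd.abs continuous_const)

/-- the involution of the cylinder -/
def S (A : MA) (p : A.X.cyl) : A.X.cyl := (A.σ p.1, -p.2)

theorem S_S (p : A.X.cyl) : S A (S A p) = p := Prod.ext (h.σσ _) (neg_neg _)

theorem S_sm (p : A.X.cyl) : SmAt A.X.cyl A.X.cyl (S A) p :=
  (smAt_fst.trans (h.σsm _ trivial)).pair (smAt_snd.vcomp contDiffAt_id.neg)

theorem S_ld (p : A.X.cyl) : LDAt A.X.cyl A.X.cyl (S A) p :=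
  ldAt_of_inv isOpen_univ isOpen_univ trivial (fun p _ => S_sm h p) (fun p _ => S_sm h p)
    (mapsTo_univ _ _) (mapsTo_univ _ _) (fun p _ => S_S h p) fun p _ => S_S h p

theorem S_U {p : A.X.cyl} (hp : p ∈ A.U) : S A p ∈ A.U := fun hc => by
  simpa [S] using hp ((core_iff h).2 ((h.delσ _).symm.trans ((core_iff h).1 hc)))

/-- the chart of the cylinder round the strings -/
def ch0 (A : MA) (q : Rn 3 × ℝ) : A.X.cyl := (A.e₀ q.1, q.2)

theorem ch0_ld {q : Rn 3 × ℝ} (hq : q ∈ Dlo) : LDAt (vs (Rn 3 × ℝ)) A.X.cyl (ch0 A) q :=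
  (ldAt_of_inv (X := vs (Rn 3 × ℝ)) (Y := (vs (Rn 3)).prod (vs ℝ)) isOpen_univ isOpen_univ trivial
    (fun _ _ => smAt_vs_prod) (fun _ _ => smAt_prod_vs) (mapsTo_univ _ _) (mapsTo_univ _ _)
    (fun _ _ => rfl) fun _ _ => rfl).trans ((h.tw.ld0 _ (dsc_main hq.1)).prodMap ldAt_id)

theorem ch0_U {q : Rn 3 × ℝ} (hq : q ∈ Dlo) : ch0 A q ∈ A.U := fun hc =>
  abs_lt.2 ⟨by linarith [hq.2.1, show (ch0 A q).2 = q.2 from rfl],
    hq.2.2 (norm_eq_zero.1 ((h.del0 _ hq.1).symm.trans ((core_iff h).1 hc)))⟩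

theorem ch0_eq (hN : NutStmt) {q q' : Rn 3 × ℝ} (hq : q ∈ Dlo) (hq' : q' ∈ Dlo) :
    ch0 A q = ch0 A q' ↔ lo q = lo q' := by
  rw [hN.eql q hq q' hq', ← h.tw.eq0 _ (dsc_main hq.1) _ (dsc_main hq'.1)]
  exact Prod.ext_iff

theorem ch0_cl (hN : NutStmt) {x : A.X.cyl} (hx : x ∈ A.U) {y : ℂ × ℂ} (hy : y ∈ Np)
    (hc : (x, y) ∈ closure ((fun c => (ch0 A c, lo c)) '' Dlo)) :
    ∃ c ∈ Dlo, ch0 A c = x ∧ lo c = y := by
  have cr : Continuous rho := by unfold rho; fun_prop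
  have h1 : A.del x.1 = ‖y.1 * y.2‖ ∧ rho y = x.2 - 1 :=
    closure_minimal (t := {p : A.X.cyl × ℂ × ℂ | A.del p.1.1 = ‖p.2.1 * p.2.2‖ ∧
      rho p.2 = p.1.2 - 1}) (by
        rintro _ ⟨c, hc, rfl⟩
        exact ⟨(h.del0 _ hc.1).trans (congrArg norm (hN.meml c hc).2.2.1.symm),
          (hN.meml c hc).2.2.2⟩)
      ((isClosed_eq (h.delc.comp (by fun_prop)) (by fun_prop)).inter
        (isClosed_eq (cr.comp continuous_snd) (by fun_prop))) hc
  obtain e | ⟨z, hz, e⟩ := h.del1 x.1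
  · exact absurd (h1.1.symm.trans e) hy.1.ne
  have hq : (z, x.2) ∈ Dlo := ⟨hz, by linarith [hy.2, h1.2], fun hw =>
    (abs_lt.1 (hx ⟨z, hw, e⟩)).2⟩
  have e' : ch0 A (z, x.2) = x := Prod.ext e rfl
  exact ⟨_, hq, e', graph_closed (C := vs (Rn 3 × ℝ)) (hN.opL.mem_nhds hq) (ch0_ld h hq)
    (hN.ldl _ hq).sm.cont (fun c hc c' hc' => (ch0_eq h hN hc hc').1) (by rwa [e'])⟩

end QtP

open QtP in
theorem qt : QtStmt := by
  intro hN A h
  let a : Bool → Rn 3 × ℝ → A.X.cyl := fun i q => cond i (ch0 A q) (S A (ch0 A q))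
  have cS : Continuous (S A) := continuous_iff_continuousAt.2 fun p => (S_sm h p).cont
  have iS : Injective (S A) := LeftInverse.injective (S_S h)
  obtain ⟨Z, io, ka, G⟩ := glueFam (E := E4) (X := A.X.cyl) (Y := vs (ℂ × ℂ))
    (C := vs (Rn 3 × ℝ)) (D := Dlo) (a := a) (b := lo) (by simp)
    (by simp [Complex.finrank_real_complex]) (U_op h) hN.opN hN.opL
    ⟨(Classical.arbitrary _, 0), fun _ => by simp⟩
    (by
      rintro (_ | _) c hc
      exacts [(ch0_ld h hc).trans (S_ld h _), ch0_ld h hc]) hN.ldl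
    (by
      rintro (_ | _) c hc
      exacts [S_U h (ch0_U h hc), ch0_U h hc]) (fun c hc => (hN.meml c hc).1)
    (by
      have ne : ∀ c ∈ Dlo, ∀ c' ∈ Dlo, ch0 A c ≠ S A (ch0 A c') := fun c hc c' hc' e => by
        have : c.2 = -c'.2 := congrArg Prod.snd e
        linarith [hc.2.1, hc'.2.1]
      rintro (_ | _) (_ | _) c hc c' hc'
      · exact iS.eq_iff.trans ((ch0_eq h hN hc hc').trans (and_iff_right rfl).symm)
      · exact iff_of_false (ne _ hc' _ hc).symm fun e => Bool.noConfusion e.1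
      · exact iff_of_false (ne _ hc _ hc') fun e => Bool.noConfusion e.1
      · exact (ch0_eq h hN hc hc').trans (and_iff_right rfl).symm)
    (by
      rintro (_ | _) x hx y hy hc
      · obtain ⟨c, h1, h2, h3⟩ := ch0_cl h hN (S_U h hx) hy
          (map_mem_closure (f := Prod.map (S A) id) (x := (x, y)) (cS.prodMap continuous_id) hc (by
            rintro _ ⟨c, hc, rfl⟩
            exact ⟨c, hc, Prod.ext (S_S h _).symm rfl⟩))
        exact ⟨c, h1, (congrArg (S A) h2).trans (S_S h x), h3⟩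
      · exact ch0_cl h hN hx hy hc)
  obtain ⟨σ, s1, s2⟩ := G.desc (fun x => io (S A x)) (fun i y => ka (!i) y) (by
    rintro (_ | _) c hc
    exacts [(congrArg io (S_S h _)).trans (G.glue true hc), G.glue false hc])
  obtain ⟨s, t1, t2⟩ := G.desc (fun x => x.2) (fun i y => cond i (1 + rho y) (-(1 + rho y))) (by
    rintro (_ | _) c hc
    · change -c.2 = -(1 + rho (lo c))
      rw [(hN.meml c hc).2.2.2]; ring
    · change c.2 = 1 + rho (lo c)
      rw [(hN.meml c hc).2.2.2]; ring)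
  have cr : Continuous rho := by unfold rho; fun_prop
  refine ⟨⟨Z, io, ka true, σ, s⟩, G.oi, G.ok true, fun y => (G.cov y).imp_right ?_,
    fun p hp => G.eq p hp true, G.sm s1 s2 (fun x hx => (S_sm h x).trans (G.oi.sm _ (S_U h hx)))
      fun i => (G.ok _).sm, G.ind (fun x hx => ?_) fun i y hy => ?_, fun p => S_U h, s1,
    G.cont t1 t2 continuousOn_snd ?_, t1, t2 true, G.ind (fun x hx => ?_) fun i y hy => ?_⟩
  · rintro ⟨_ | _, z, hz, e⟩
    exacts [⟨z, hz, .inr ((s2 true z hz).trans e)⟩, ⟨z, hz, .inl e⟩]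
  · change σ (σ (io x)) = io x
    rw [s1 x hx, s1 _ (S_U h hx), S_S h]
  · change σ (σ (ka i y)) = ka i y
    rw [s2 i y hy, s2 _ y hy, Bool.not_not]
  · rintro (_ | _)
    exacts [(continuous_const.add cr).neg.continuousOn, (continuous_const.add cr).continuousOn]
  · change s (σ (io x)) = -s (io x)
    rw [s1 x hx, t1 _ (S_U h hx), t1 x hx]; rfl
  · change s (σ (ka i y)) = -s (ka i y)
    rw [s2 i y hy, t2 _ y hy, t2 _ y hy]
    cases i <;> simp

end Pool.Agent.MP_e1dc65_gt.EA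

end
end MrgPart2

-- ======== part 3: formerly Pool.Agent.MP_e1dc65_gt.e.aCol
section MrgPart3

/-! PROJECT HC, part E, sub-part A, row COL: freeness, properness, the column. -/

open scoped ContDiff Manifold Topology Matrix Real
open Set Filter Function Module Pool.Agent.MP_c8d41b_gt.GF

noncomputable section

namespace Pool.Agent.MP_e1dc65_gt.EA

namespace ColP

theorem int0 {d : ℝ} {m : ℤ} (e : d = 2 * π * m) (h1 : -(2 * π) < d) (h2 : d < 2 * π) : d = 0 := by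
  have hp := Real.pi_pos
  have a : (-1 : ℝ) < m := by nlinarith
  have b : (m : ℝ) < 1 := by nlinarith
  have a' : (-1 : ℤ) < m := by exact_mod_cast a
  have b' : m < 1 := by exact_mod_cast b
  obtain rfl : m = 0 := by omega
  simpa using e

theorem main_of {z : Rn 3} (h1 : π / 2 + 1 / 10 < z 0) (h2 : z 0 < 5 * π / 2 - 1 / 10)
    (h3 : -(π / 2) + 1 / 10 < z 1) (h4 : z 1 < 3 * π / 2 - 1 / 10) : z ∈ MainI I01 := by
  rintro i hi ⟨z', hl, h, -⟩
  have hp := Real.pi_pos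
  obtain ⟨m, e⟩ := hl (jx i)
  fin_cases i
  · obtain ⟨a, b⟩ := abs_le.1 (show |z' 1 - 3 * π / 2| ≤ 1 / 10 from h)
    have e' : z 1 - z' 1 = 2 * π * m := e
    have := int0 e' (by linarith) (by linarith)
    linarith
  · obtain ⟨a, b⟩ := abs_le.1 (show |z' 0 - π / 2| ≤ 1 / 10 from h)
    have e' : z 0 - z' 0 = 2 * π * m := e
    have := int0 e' (by linarith) (by linarith)
    linarith
  · exact hi rfl

theorem main_lat {z z' : Rn 3} (h : Lat z z') (hz : z' ∈ MainI I01) : z ∈ MainI I01 := by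
  rintro i hi ⟨w, hl, h'⟩
  refine hz i hi ⟨w, fun j => ?_, h'⟩
  obtain ⟨m, e⟩ := h j
  obtain ⟨n, e'⟩ := hl j
  exact ⟨n - m, by push_cast; linarith⟩

/-- the point of the main chart under a column point -/
def cp (p : Rn 3 × ℝ) : Rn 3 := ![π + p.1 0, π + p.1 1, p.2]

theorem cp_main {p : Rn 3 × ℝ} (hp : p ∈ E.Col) : cp p ∈ MainI I01 := by
  obtain ⟨a, b⟩ := abs_lt.1 hp.1
  obtain ⟨c, d⟩ := abs_lt.1 hp.2
  have h3 := Real.pi_gt_three
  have e0 : cp p 0 = π + p.1 0 := rfl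
  have e1 : cp p 1 = π + p.1 1 := rfl
  exact main_of (by linarith) (by linarith) (by linarith) (by linarith)

theorem dsc0 {z : Rn 3} (h : wz z = 0) : z ∈ Dsc := by simp [Dsc, h]

theorem off {A : MA} (hA : A.Ok) {z : Rn 3} (hz : z ∈ Dsc) (h : A.e₀ z ∈ A.core) : wz z = 0 := by
  obtain ⟨z', hz', e⟩ := h
  have h1 := hA.del0 z hz
  rw [← e, hA.del0 z' (dsc0 hz'), show wz z' = 0 from hz', norm_zero] at h1
  exact norm_eq_zero.1 h1.symm

theorem cp_off {A : MA} (hA : A.Ok) {p : Rn 3 × ℝ} (hp : p ∈ E.Col) : A.e₀ (cp p) ∉ A.core := by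
  rintro ⟨z, hz, e⟩
  have h3 := Real.pi_gt_three
  have a : z 0 - 3 * π / 2 = 0 := congrArg Complex.re (show wz z = 0 from hz)
  have b : z 1 - π / 2 = 0 := congrArg Complex.im (show wz z = 0 from hz)
  obtain ⟨m, h⟩ := (hA.tw.eq0 z (main_of (by linarith) (by linarith) (by linarith) (by linarith))
    _ (cp_main hp)).1 e 0
  obtain ⟨c, d⟩ := abs_lt.1 hp.1
  have h' : z 0 - (π + p.1 0) = 2 * π * m := h
  have := int0 h' (by linarith) (by linarith)
  linarith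

theorem cp_U {A : MA} (hA : A.Ok) {p : Rn 3 × ℝ} (hp : p ∈ E.Col) (r : ℝ) :
    ((A.e₀ (cp p), r) : A.X.cyl) ∈ A.U := fun h => absurd h (cp_off hA hp)

theorem lo_U {A : MA} (hA : A.Ok) {q : Rn 3 × ℝ} (hq : q ∈ Dlo) :
    ((A.e₀ q.1, q.2) : A.X.cyl) ∈ A.U := fun h =>
  abs_lt.2 ⟨by linarith [hq.2.1], hq.2.2 (off hA hq.1 h)⟩

theorem cd_vec (c d : ℝ) :
    ContDiff ℝ ∞ fun p : Rn 3 × ℝ => ((![c + p.1 0, d + p.1 1, p.2], p.1 2) : Rn 3 × ℝ) := by
  refine ContDiff.prodMk (contDiff_pi.2 fun i => ?_) (by fun_prop)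
  fin_cases i
  · show ContDiff ℝ ∞ fun p : Rn 3 × ℝ => c + p.1 0
    fun_prop
  · show ContDiff ℝ ∞ fun p : Rn 3 × ℝ => d + p.1 1
    fun_prop
  · exact contDiff_snd

theorem ld_cp (p : Rn 3 × ℝ) :
    LDAt (vs (Rn 3 × ℝ)) (vs (Rn 3)).cyl (fun p => (cp p, p.1 2)) p :=
  ldAt_of_inv (X := vs (Rn 3 × ℝ)) (Y := (vs (Rn 3)).cyl)
    (g := fun p => ((![-π + p.1 0, -π + p.1 1, p.2], p.1 2) : Rn 3 × ℝ)) isOpen_univ
    isOpen_univ trivial
    (fun _ _ => (smAt_vs.2 (cd_vec π π).contDiffAt).trans smAt_vs_prod)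
    (fun _ _ => smAt_prod_vs.trans (smAt_vs.2 (cd_vec (-π) (-π)).contDiffAt)) (mapsTo_univ _ _)
    (mapsTo_univ _ _)
    (fun p _ => Prod.ext (funext fun i => by fin_cases i <;> simp [cp]) rfl)
    fun p _ => Prod.ext (funext fun i => by fin_cases i <;> simp [cp]) rfl

theorem ang_ne {A : MA} (hA : A.Ok) (x : A.X) : A.ang x ≠ 0 := by
  obtain ⟨z, hz, rfl⟩ | ⟨i, hi, z, hz, rfl⟩ := hA.tw.cov x
  · rw [hA.ang0 z hz]; exact Complex.exp_ne_zero _
  · rw [hA.angb i hi z hz]; exact Complex.exp_ne_zero _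

theorem scpt (N : NutStmt) {A : MA} {T : QtD A} (hA : A.Ok) (hT : T.Ok) (a : ℝ) :
    IsCompact {y | |T.s y| ≤ a} := by
  have := hA.tw.cpt
  set C1 : Set A.X.cyl := (univ ×ˢ Icc (-a) a) ∩ {p | 1 / 2 ≤ A.del p.1 ∨ |p.2| ≤ 3 / 4} with hC1
  set C2 : Set (ℂ × ℂ) :=
    {z : ℂ × ℂ | ‖z.1 * z.2‖ ≤ 1 / 2 ∧ |rho z| ≤ a + 1} ∩ {z | -1 / 4 ≤ rho z} with hC2
  have k1 : IsCompact C1 := (isCompact_univ.prod isCompact_Icc).inter_right
    ((isClosed_le continuous_const (hA.delc.comp continuous_fst)).union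
      (isClosed_le continuous_snd.abs continuous_const))
  have k2 : IsCompact C2 := (N.cpt _ _).inter_right
    (isClosed_le continuous_const (by unfold rho; fun_prop))
  have s1 : C1 ⊆ A.U := by
    rintro p ⟨-, h | h⟩ ⟨z, hz, e⟩
    · rw [← e, hA.del0 z (dsc0 hz), show wz z = 0 from hz, norm_zero] at h
      linarith
    · linarith
  have s2 : C2 ⊆ Np := fun z hz => ⟨by linarith [hz.1.1], by linarith [show -1 / 4 ≤ rho z from hz.2]⟩
  have K : IsCompact (T.io '' C1 ∪ T.nut '' C2) :=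
    (k1.image_of_continuousOn (hT.oi.sm.contOn.mono s1)).union
      (k2.image_of_continuousOn (hT.onu.sm.contOn.mono s2))
  have eql : ∀ q ∈ Dlo, T.io (A.e₀ q.1, q.2) = T.nut (lo q) := fun q hq =>
    (hT.rel _ (lo_U hA hq) _ (N.meml q hq).1).2 ⟨q, hq, rfl, rfl⟩
  have c1 : ∀ p ∈ A.U, |p.2| ≤ a → 0 ≤ p.2 → T.io p ∈ T.io '' C1 ∪ T.nut '' C2 := by
    intro p hp ha h0
    by_cases h : 1 / 2 ≤ A.del p.1 ∨ |p.2| ≤ 3 / 4
    · exact Or.inl ⟨p, ⟨⟨trivial, abs_le.1 ha⟩, h⟩, rfl⟩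
    rw [not_or, not_le, not_le] at h
    rw [abs_of_nonneg h0] at h ha
    obtain h1 | ⟨z, hz, e⟩ := hA.del1 p.1
    · linarith [h.1]
    have hq : (z, p.2) ∈ Dlo := ⟨hz, by linarith [h.2], fun h0 => (abs_lt.1 (hp ⟨z, h0, e⟩)).2⟩
    obtain ⟨-, -, m1, m2⟩ := N.meml _ hq
    refine Or.inr ⟨lo (z, p.2), ⟨⟨?_, ?_⟩, ?_⟩, ?_⟩
    · rw [m1, ← hA.del0 z hz, e]; exact h.1.le
    · rw [m2]; exact abs_le.2 ⟨by linarith, by linarith⟩
    · show -1 / 4 ≤ rho (lo (z, p.2))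
      rw [m2]; linarith [h.2]
    · rw [← eql _ hq, e]
  have c2 : ∀ z ∈ Np, |1 + rho z| ≤ a → T.nut z ∈ T.io '' C1 ∪ T.nut '' C2 := by
    intro z hz ha
    have h0 : z.2 = 0 → 0 ≤ rho z := fun h => by rw [rho, h, norm_zero]; nlinarith [sq_nonneg ‖z.1‖]
    by_cases h : z.2 = 0
    · obtain ⟨a1, a2⟩ := abs_le.1 ha
      refine Or.inr ⟨z, ⟨⟨by rw [h, mul_zero, norm_zero]; norm_num, ?_⟩, ?_⟩, rfl⟩
      · exact abs_le.2 ⟨by linarith [h0 h], by linarith [h0 h]⟩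
      · show -1 / 4 ≤ rho z
        linarith [h0 h]
    · obtain ⟨q, hq, rfl⟩ := N.surl z hz h
      rw [(N.meml q hq).2.2.2, add_sub_cancel] at ha
      rw [← eql q hq]
      exact c1 _ (lo_U hA hq) ha (by linarith [hq.2.1])
  refine (K.union (K.image hT.σsm.cont)).of_isClosed_subset
    (isClosed_le hT.scont.abs continuous_const) fun y hy => ?_
  have hy' : |T.s y| ≤ a := hy
  obtain ⟨p, hp, rfl⟩ | ⟨z, hz, rfl | rfl⟩ := hT.cov y
  · rw [hT.si p hp] at hy'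
    rcases le_total 0 p.2 with h | h
    · exact Or.inl (c1 p hp hy' h)
    · refine Or.inr ⟨_, c1 _ (hT.σU p hp) (by rwa [abs_neg]) (neg_nonneg.2 h), ?_⟩
      rw [← hT.σi p hp, hT.σσ]
  · rw [hT.sn z hz] at hy'
    exact Or.inl (c2 z hz hy')
  · rw [hT.sσ, abs_neg, hT.sn z hz] at hy'
    exact Or.inr ⟨_, c2 z hz hy', rfl⟩

end ColP

open ColP in
theorem col : ColStmt := by
  intro N A T hA hT
  have h0 : (0 : ℂ × ℂ) ∈ Np := ⟨by simp, by norm_num [rho]⟩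
  have hn : ∀ z ∈ Np, T.σ (T.nut z) ≠ T.nut z := fun z hz e => by
    have h := hT.sσ (T.nut z)
    rw [e, hT.sn z hz] at h
    linarith [hz.2]
  refine ⟨fun y => ?_, scpt N hA hT, fun p hp => ?_, fun p hp p' hp' => ⟨fun e => ?_, ?_⟩,
    fun p hp => ?_, fun p hp => hT.si _ (cp_U hA hp _), ?_, ?_⟩
  · obtain ⟨p, hp, rfl⟩ | ⟨z, hz, rfl | rfl⟩ := hT.cov y
    · intro e
      rw [hT.σi p hp] at e
      have h := hA.angσ p.1
      rw [show A.σ p.1 = p.1 from congrArg Prod.fst (hT.oi.inj (hT.σU p hp) hp e)] at h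
      exact ang_ne hA p.1 (self_eq_neg.1 h)
    · exact hn z hz
    · rw [hT.σσ]
      exact (hn z hz).symm
  · exact ((ld_cp p).trans ((hA.tw.ld0 _ (cp_main hp)).prodMap ldAt_id)).trans
      (hT.oi.ld _ (cp_U hA hp _))
  · obtain ⟨e1, e2⟩ := Prod.ext_iff.1 (hT.oi.inj (cp_U hA hp _) (cp_U hA hp' _) e)
    have hl := (hA.tw.eq0 _ (cp_main hp) _ (cp_main hp')).1 e1
    have h3 := Real.pi_gt_three
    refine ⟨funext fun i => ?_, hl 2⟩
    fin_cases i
    · obtain ⟨m, h⟩ := hl 0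
      obtain ⟨a, b⟩ := abs_lt.1 hp.1
      obtain ⟨c, d⟩ := abs_lt.1 hp'.1
      have h' : π + p.1 0 - (π + p'.1 0) = 2 * π * m := h
      have := int0 h' (by linarith) (by linarith)
      show p.1 0 = p'.1 0
      linarith
    · obtain ⟨m, h⟩ := hl 1
      obtain ⟨a, b⟩ := abs_lt.1 hp.2
      obtain ⟨c, d⟩ := abs_lt.1 hp'.2
      have h' : π + p.1 1 - (π + p'.1 1) = 2 * π * m := h
      have := int0 h' (by linarith) (by linarith)
      show p.1 1 = p'.1 1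
      linarith
    · exact e2
  · rintro ⟨e1, e2⟩
    have hl : Lat (cp p) (cp p') := fun i => by
      fin_cases i
      · exact ⟨0, by simp [cp, e1]⟩
      · exact ⟨0, by simp [cp, e1]⟩
      · exact e2
    show T.io (A.e₀ (cp p), p.1 2) = T.io (A.e₀ (cp p'), p'.1 2)
    rw [(hA.tw.eq0 _ (cp_main hp) _ (cp_main hp')).2 hl, e1]
  · have hq : (E.Rp p.1, p.2 + π) ∈ E.Col :=
      ⟨(abs_neg (p.1 1)).trans_lt hp.2, (abs_neg (p.1 0)).trans_lt hp.1⟩
    have hl : Lat (sg0 (cp p)) (cp (E.Rp p.1, p.2 + π)) := fun i => by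
      fin_cases i
      · exact ⟨-1, show -(π + p.1 1) - (π + -p.1 1) = _ by push_cast; ring⟩
      · exact ⟨-1, show -(π + p.1 0) - (π + -p.1 0) = _ by push_cast; ring⟩
      · exact ⟨0, show p.2 + π - (p.2 + π) = _ by push_cast; ring⟩
    show T.σ (T.io (A.e₀ (cp p), p.1 2)) = T.io (A.e₀ (cp (E.Rp p.1, p.2 + π)), -p.1 2)
    rw [hT.σi _ (cp_U hA hp _), hA.σ0 _ (cp_main hp),
      (hA.tw.eq0 _ (main_lat hl (cp_main hq)) _ (cp_main hq)).2 hl]
  · rw [hT.sn 0 h0]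
    norm_num [rho]
  · rintro ⟨p, hp, e⟩
    obtain ⟨q, hq, -, e'⟩ := (hT.rel _ (cp_U hA hp _) 0 h0).1 e
    exact (N.meml q hq).2.1 (by rw [e']; rfl)

end Pool.Agent.MP_e1dc65_gt.EA

end
end MrgPart3

-- ======== part 4: formerly Pool.Agent.MP_e1dc65_gt.e.aEnd
section MrgPart4

/-! PROJECT HC, part E, sub-part A, row END: the end of the double cover. -/

open scoped ContDiff Manifold Topology Matrix Real
open Set Filter Function Module Pool.Agent.MP_c8d41b_gt.GF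

noncomputable section

namespace Pool.Agent.MP_e1dc65_gt.EA

namespace EndP

theorem dsc0 {z : Rn 3} (h : wz z = 0) : z ∈ Dsc := by simp [Dsc, h]

theorem dup {z : Rn 3} (hz : z ∈ Dsc) {r : ℝ} (hr : 2 < r) : (z, r) ∈ Dup :=
  ⟨hz, by linarith, fun _ => by linarith⟩

theorem off {A : MA} (hA : A.Ok) {z : Rn 3} (hz : z ∈ Dsc) (h : wz z ≠ 0) : A.e₀ z ∉ A.core := by
  rintro ⟨z', hz', e⟩
  have h1 := hA.del0 z hz
  rw [← e, hA.del0 z' (dsc0 hz'), show wz z' = 0 from hz', norm_zero] at h1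
  exact h (norm_eq_zero.1 h1.symm)

theorem open_Dsc : IsOpen Dsc := by
  have : Continuous wz := Complex.equivRealProdCLM.symm.continuous.comp
    (f := fun z : Rn 3 => (z 0 - 3 * π / 2, z 1 - π / 2)) (by fun_prop)
  exact isOpen_lt this.norm continuous_const

theorem ld_vp (p : Rn 3 × ℝ) : LDAt (vs (Rn 3 × ℝ)) (vs (Rn 3)).cyl (fun p => p) p :=
  ldAt_of_inv (X := vs (Rn 3 × ℝ)) (Y := (vs (Rn 3)).cyl) (g := fun p => p) isOpen_univ
    isOpen_univ trivial (fun _ _ => smAt_vs_prod) (fun _ _ => smAt_prod_vs) (mapsTo_univ _ _)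
    (mapsTo_univ _ _) (fun _ _ => rfl) fun _ _ => rfl

end EndP

open EndP in
theorem end_ : EndStmt := by
  intro N A T F j k hA hT hL
  have mU : ∀ x ∉ A.core, ∀ r : ℝ, ((x, r) : A.X.cyl) ∈ A.U := fun x hx r h => absurd h hx
  have key : ∀ x ∉ A.core, ∀ z ∈ Dsc, j x = k z → ∀ r, 2 < r → T.io (x, r) = T.nut (up (z, r)) := by
    intro x hx z hz e r hr
    have h0 : wz z ≠ 0 := fun h0 => hL.kc z h0 ⟨x, hx, e⟩
    have ha : IsArg (wz z) (wz z).arg := (Complex.norm_mul_exp_arg_mul_I _).symm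
    have hq : (su (wz z).arg z, r) ∈ Dlo := ⟨hz, by linarith, fun h => absurd h h0⟩
    have hx' : x = A.e₀ (su (wz z).arg z) :=
      hL.oj.inj hx (off hA (z := su (wz z).arg z) hz h0) (e.trans (hL.rel z hz h0 _ ha))
    rw [N.ul (z, r) h0 _ ha]
    exact (hT.rel _ (mU x hx r) _ (N.meml _ hq).1).2 ⟨_, hq, by rw [hx'], rfl⟩
  obtain ⟨n, n1, n2⟩ := desc2 (ι := Unit) (Z := F.cyl) (A.coreᶜ ×ˢ Ioi (2 : ℝ))
    (fun _ => Dsc ×ˢ Ioi (2 : ℝ)) (fun p : A.X.cyl => (j p.1, p.2))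
    (fun _ (p : Rn 3 × ℝ) => (k p.1, p.2)) T.io (fun _ p => T.nut (up p))
    (fun p hp p' hp' e => by
      obtain ⟨e1, e2⟩ := Prod.ext_iff.1 e
      rw [show p = p' from Prod.ext (hL.oj.inj hp.1 hp'.1 e1) e2])
    (fun _ p hp p' hp' e => by
      obtain ⟨e1, e2⟩ := Prod.ext_iff.1 e
      rw [show p = (p.1, p'.2) from Prod.ext rfl e2]
      exact key p.1 hp.1 p'.1 hp'.1 e1 p'.2 hp'.2)
    fun _ _ p hp p' hp' e => by
      obtain ⟨e1, e2⟩ := Prod.ext_iff.1 e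
      rw [(N.equ p (dup hp.1 hp.2) p' (dup hp'.1 hp'.2)).2 ⟨(hL.keq _ hp.1 _ hp'.1).1 e1, e2⟩]
  have nj : ∀ x ∉ A.core, ∀ r, 2 < r → n (j x, r) = T.io (x, r) := fun x hx r hr =>
    n1 (x, r) ⟨hx, hr⟩
  have nk : ∀ z ∈ Dsc, ∀ r, 2 < r → n (k z, r) = T.nut (up (z, r)) := fun z hz r hr =>
    n2 () (z, r) ⟨hz, hr⟩
  have ns : ∀ m r, 2 < r → T.s (n (m, r)) = r := fun m r hr => by
    obtain ⟨x, hx, rfl⟩ | ⟨z, hz, rfl⟩ := hL.cov m
    · rw [nj x hx r hr, hT.si _ (mU x hx r)]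
    · have h := N.memu _ (dup (dsc0 hz) hr)
      rw [nk z (dsc0 hz) r hr, hT.sn _ h.1, h.2.2.2]
      ring
  have mix : ∀ x ∉ A.core, ∀ z, wz z = 0 → ∀ r, 2 < r → n (j x, r) ≠ n (k z, r) := by
    intro x hx z hz r hr e
    have h := N.memu _ (dup (dsc0 hz) hr)
    rw [nj x hx r hr, nk z (dsc0 hz) r hr] at e
    obtain ⟨q, hq, -, e'⟩ := (hT.rel _ (mU x hx r) _ h.1).1 e
    have h1 := (N.meml q hq).2.1
    rw [e'] at h1
    exact mul_ne_zero h.2.1 h1 (h.2.2.1.trans hz)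
  refine ⟨n, ⟨isOpen_univ.prod isOpen_Ioi, ?_, ?_⟩, ns, fun y hy => ?_, nj, nk⟩
  · rintro ⟨m, r⟩ ⟨-, hr⟩
    obtain ⟨x, hx, rfl⟩ | ⟨z, hz, rfl⟩ := hL.cov m
    · exact LDAt.ld_desc (X := A.X.cyl) (x := (x, r)) ((hL.oj.ld x hx).prodMap ldAt_id)
        ((hL.oj.op.prod isOpen_Ioi).mem_nhds ⟨hx, hr⟩) n1 (hT.oi.ld _ (mU x hx r))
    · have h := dup (dsc0 hz) hr
      exact LDAt.ld_desc (X := vs (Rn 3 × ℝ)) (x := (z, r))
        ((ld_vp (z, r)).trans ((hL.kld z (dsc0 hz)).prodMap ldAt_id))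
        ((open_Dsc.prod isOpen_Ioi).mem_nhds ⟨dsc0 hz, hr⟩) (n2 ())
        ((N.ldu _ h).trans (hT.onu.ld _ (N.memu _ h).1))
  · rintro ⟨m, r⟩ ⟨-, hr⟩ ⟨m', r'⟩ ⟨-, hr'⟩ e
    obtain rfl : r = r' := by rw [← ns m r hr, e, ns m' r' hr']
    refine Prod.ext ?_ rfl
    obtain ⟨x, hx, rfl⟩ | ⟨z, hz, rfl⟩ := hL.cov m <;>
      obtain ⟨x', hx', rfl⟩ | ⟨z', hz', rfl⟩ := hL.cov m'
    · rw [nj x hx r hr, nj x' hx' r hr] at e
      exact congrArg (fun p => j p.1) (hT.oi.inj (mU x hx r) (mU x' hx' r) e)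
    · exact absurd e (mix x hx z' hz' r hr)
    · exact absurd e.symm (mix x' hx' z hz r hr)
    · have h := dup (dsc0 hz) hr
      have h' := dup (dsc0 hz') hr
      rw [nk z (dsc0 hz) r hr, nk z' (dsc0 hz') r hr] at e
      exact (hL.keq z (dsc0 hz) z' (dsc0 hz')).2
        ((N.equ _ h _ h').1 (hT.onu.inj (N.memu _ h).1 (N.memu _ h').1 e)).1
  · obtain ⟨p, hp, rfl⟩ | ⟨z, hz, rfl | rfl⟩ := hT.cov y
    · rw [hT.si p hp] at hy ⊢
      have h : p.1 ∉ A.core := fun h => by linarith [(abs_lt.1 (hp h)).2]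
      exact ⟨j p.1, nj p.1 h p.2 hy⟩
    · rw [hT.sn z hz] at hy ⊢
      have h : z.1 ≠ 0 := fun h => by
        rw [rho, h, norm_zero] at hy
        nlinarith [sq_nonneg ‖z.2‖]
      obtain ⟨p, hp, rfl⟩ := N.suru z hz h
      rw [(N.memu p hp).2.2.2, add_sub_cancel] at hy ⊢
      exact ⟨k p.1, nk p.1 hp.1 p.2 hy⟩
    · rw [hT.sσ, hT.sn z hz] at hy
      linarith [hz.2]

end Pool.Agent.MP_e1dc65_gt.EA

end
end MrgPart4

-- ======== part 5: formerly Pool.Agent.MP_e1dc65_gt.e.aEts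
section MrgPart5

/-! PROJECT HC, part E-A, row ETS: a spin structure given on an etale cover. -/

open scoped ContDiff Manifold Topology
open Set Filter Function

set_option linter.unusedSectionVars false

noncomputable section

namespace Pool.Agent.MP_e1dc65_gt.EA

namespace EtsP

variable {E E' : Type} [NormedAddCommGroup E] [NormedSpace ℝ E] [FiniteDimensional ℝ E]
  [NormedAddCommGroup E'] [NormedSpace ℝ E'] [FiniteDimensional ℝ E'] {X : Mf E} {Y : Mf E'}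
  {f : Y → X} {O : Set Y}

/-- local sections -/
theorem sec (hO : IsOpen O) (hf : ∀ y ∈ O, LDAt Y X f y) (y : O) :
    ∃ (s : X → Y) (V : Set X), IsOpen V ∧ f y ∈ V ∧ ∀ x ∈ V, LDAt X Y s x ∧ s x ∈ O ∧
      f (s x) = x ∧ Df X Y s x = (Df Y X f (s x)).inverse := by
  obtain ⟨s, U, V, hU, hV, hy, hUO, h1, h2, m1, m2, l, r⟩ := (hf y y.2).exists_inv (hO.mem_nhds y.2)
  refine ⟨s, V, hV, m1 hy, fun x hx => ⟨ldAt_of_inv hV hU hx h2 h1 m2 m1 r l, hUO (m2 hx), r x hx,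
    ?_⟩⟩
  have e : (Df Y X f (s x)).comp (Df X Y s x) = ContinuousLinearMap.id ℝ E := by
    rw [← Df_comp (h2 x hx) (h1 _ (m2 hx)), ← Df_id (X := X) (x := x)]
    exact Df_congr (by filter_upwards [hV.mem_nhds hx] with z hz using r z hz)
  refine ContinuousLinearMap.ext fun v => ?_
  rw [← (hf _ (hUO (m2 hx))).inv.inverse_apply_self (Df X Y s x v)]
  exact congrArg _ (congrArg (fun L : E →L[ℝ] E => L v) e)

theorem tm_inv {a : E' →L[ℝ] Rn 5} {b : E →L[ℝ] Rn 5} {L : E' →L[ℝ] E} (hL : L.IsInvertible) :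
    tm a (b.comp L) = tm (a.comp L.inverse) b := by
  rw [← tm_comp (a := a.comp L.inverse) hL]
  congr 1
  exact ContinuousLinearMap.ext fun v => by simp [hL.inverse_apply_self]

end EtsP

open EtsP in
theorem ets : EtsStmt := by
  intro C E E' _ _ _ _ _ _ X Y f O Θ g W Λ k hO hf hΘ gc gπ gm hW hWO hΛ kc kπ gk
  choose s V hV hy hs using sec hO hf
  have sc : ∀ y, ContinuousOn (s y) (V y) := fun y x hx => (hs y x hx).1.sm.cont.continuousWithinAt
  have cf : ∀ y, Cof X 0 (fun x => (Θ (s y x)).comp (Df X Y (s y) x)) (V y) := fun y =>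
    hΘ.pb (fun x hx => (hs y x hx).1) fun x hx => (hs y x hx).2.1
  have e : ∀ y y' x, x ∈ V y → x ∈ V y' → f (s y x) = f (s y' x) := fun y y' x h h' =>
    (hs y x h).2.2.1.trans (hs y' x h').2.2.1.symm
  have eW : ∀ y x, x ∈ V y → x ∈ W → f (s y x) ∈ W := fun y x h h' => (hs y x h).2.2.1.symm ▸ h'
  have kc' : ∀ y, ContinuousOn (fun x => k (s y x)) (V y ∩ W) := fun y =>
    kc.comp ((sc y).mono inter_subset_left) fun x hx => ⟨(hs y x hx.1).2.1, eW y x hx.1 hx.2⟩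
  have kπ' : ∀ y x, x ∈ V y → x ∈ W →
      C.π (k (s y x)) = tm ((Θ (s y x)).comp (Df X Y (s y) x)) (Λ x) := fun y x h h' => by
    rw [kπ _ (hs y x h).2.1 (eW y x h h'), tm_inv (hf _ (hs y x h).2.1).inv, (hs y x h).2.2.1,
      (hs y x h).2.2.2]
  have gk' : ∀ y y' x, x ∈ V y → x ∈ V y' → x ∈ W →
      k (s y x) = g (s y x) (s y' x) * k (s y' x) := fun y y' x h h' h'' =>
    (gk _ (hs y x h).2.1 _ (hs y' x h').2.1 (e y y' x h h') (eW y x h h'')).symm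
  refine ⟨{ ι := O ⊕ Unit
            W := Sum.elim V fun _ => W
            Θ := Sum.elim (fun y x => (Θ (s y x)).comp (Df X Y (s y) x)) fun _ => Λ
            op := Sum.rec hV fun _ => hW
            sub := Sum.rec (fun y x hx => ⟨s y x, (hs y x hx).2.1, (hs y x hx).2.2.1⟩)
              fun _ => hWO
            cov := ?_
            cof := Sum.rec cf fun _ => hΛ
            g := Sum.elim
              (fun y => Sum.elim (fun y' x => g (s y x) (s y' x)) fun _ x => k (s y x))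
              fun _ => Sum.elim (fun y x => (k (s y x))⁻¹) fun _ _ => 1
            cont := ?_
            proj := ?_
            coc := ?_ }, .inr (), rfl, rfl⟩
  · rintro _ ⟨y, h, rfl⟩
    exact ⟨.inl ⟨y, h⟩, hy ⟨y, h⟩⟩
  · rintro (a | a) (b | b)
    · exact gc.comp (((sc a).mono inter_subset_left).prodMk ((sc b).mono inter_subset_right))
        fun x hx => ⟨(hs a x hx.1).2.1, (hs b x hx.2).2.1, e a b x hx.1 hx.2⟩
    · exact kc' a
    · exact ((kc' b).mono fun x hx => ⟨hx.2, hx.1⟩).inv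
    · exact continuousOn_const
  · rintro (a | a) (b | b) x hx <;> simp only [Sum.elim_inl, Sum.elim_inr] at hx ⊢
    · rw [gπ _ (hs a x hx.1).2.1 _ (hs b x hx.2).2.1 (e a b x hx.1 hx.2), (hs a x hx.1).2.2.2,
        (hs b x hx.2).2.2.2]
    · exact kπ' a x hx.1 hx.2
    · rw [← mul_one (C.π _), ← tm_self (cf b x hx.2).2, ← tm_mul (hΛ x hx.1).2,
        ← kπ' b x hx.2 hx.1, ← mul_assoc, ← map_mul, inv_mul_cancel, map_one, one_mul]
    · rw [map_one, tm_self (hΛ x hx.1).2]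
  · rintro (a | a) (b | b) (d | d) x ⟨⟨h1, h2⟩, h3⟩ <;>
      simp only [Sum.elim_inl, Sum.elim_inr, mul_one, one_mul, inv_mul_cancel] at *
    · exact gm _ (hs a x h1).2.1 _ (hs b x h2).2.1 _ (hs d x h3).2.1 (e a b x h1 h2)
        (e b d x h2 h3)
    · exact (gk' a b x h1 h2 h3).symm
    · rw [gk' a d x h1 h3 h2, mul_inv_cancel_right]
    · rw [gk' b d x h2 h3 h1, mul_inv_rev, inv_mul_cancel_right]

end Pool.Agent.MP_e1dc65_gt.EA

end
end MrgPart5

-- ======== part 6: formerly Pool.Agent.MP_e1dc65_gt.e.aSpt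
section MrgPart6

/-! PROJECT HC, part E, sub-part A, row SPT: extension over a point times the line. -/

open Set Filter Topology

namespace Pool.Agent.MP_e1dc65_gt.EA

theorem spt : SptStmt := fun C X U x sp i hU => by
  have e : ((U \ {x}) ×ˢ univ : Set X.cyl) = (U \ (U ∩ {x})) ×ˢ univ := by
    rw [sdiff_self_inter]
  obtain ⟨s, f, h⟩ := Spin.pts (K := U ∩ {x}) (by simp) hU inter_subset_left
    (fun y hy => Eventually.of_forall fun z hz => hz.2.trans hy.2.symm) (sp.cast e)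
  exact ⟨s, f i, h.W i, h.Θ i⟩

end Pool.Agent.MP_e1dc65_gt.EA

end MrgPart6

-- ======== part 7: formerly Pool.Agent.MP_e1dc65_gt.e.aRot
section MrgPart7

/-! PROJECT HC, part E-A, row ROT: lifts of the monodromy and of the rotations. -/

open scoped Topology Matrix Real Quaternion
open Set Filter Function

noncomputable section

namespace Pool.Agent.MP_e1dc65_gt.EA

namespace RotP

theorem mat_ext {A B : M5} (h : ∀ v t, A *ᵥ emb v t = B *ᵥ emb v t) : A = B := by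
  refine Matrix.toLin'.injective (LinearMap.ext fun w => ?_)
  have e : w = emb ⟨w 0, w 1, w 2, w 3⟩ (w 4) := by
    ext k
    fin_cases k <;> rfl
  rw [Matrix.toLin'_apply, Matrix.toLin'_apply, e, h]

theorem norm_one_of {p : ℍ} (h : p.re ^ 2 + p.imI ^ 2 + p.imJ ^ 2 + p.imK ^ 2 = 1) : ‖p‖ = 1 := by
  have h1 := Quaternion.normSq_eq_norm_mul_self p
  rw [Quaternion.normSq_def', h] at h1
  nlinarith [norm_nonneg p]

/-- a quaternion from its coordinates -/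
def mq (a b c d : ℝ) : ℍ := ⟨a, b, c, d⟩

/-- half-angle unit quaternion -/
def ee (θ : ℝ) : ℍ := ⟨Real.cos (θ / 2), -Real.sin (θ / 2), 0, 0⟩

theorem norm_ee (θ : ℝ) : ‖ee θ‖ = 1 := norm_one_of (by simp [ee])

theorem cont_ee : Continuous ee := by
  have : ee = fun θ => Real.cos (θ / 2) • (1 : ℍ) + (-Real.sin (θ / 2)) • mq 0 1 0 0 := by
    funext θ
    ext <;> simp [ee, mq]
  rw [this]
  fun_prop

theorem ee_add (θ : ℝ) : ee (θ + 2 * π) = -1 * ee θ := by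
  have : (θ + 2 * π) / 2 = θ / 2 + π := by ring
  ext <;> simp [ee, this]

theorem π_ee (C : SpinCover) (θ : ℝ) : C.π (C.j (ee θ, ee θ)) = Mr θ 1 := by
  refine mat_ext fun v t => ?_
  rw [C.j_π _ _ (norm_ee θ) (norm_ee θ)]
  have h1 := Real.sin_sq_add_cos_sq (θ / 2)
  have h2 : Real.cos θ = Real.cos (θ / 2) ^ 2 - Real.sin (θ / 2) ^ 2 := by
    rw [← Real.cos_two_mul']; congr 1; ring
  have h3 : Real.sin θ = 2 * Real.sin (θ / 2) * Real.cos (θ / 2) := by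
    rw [← Real.sin_two_mul]; congr 1; ring
  ext k
  fin_cases k <;> simp [emb, ee, Mr, Matrix.mulVec, dotProduct, Fin.sum_univ_five, h2, h3]
  · linear_combination v.re * h1
  · linear_combination v.imI * h1
  · ring
  · ring

/-- scaling -/
def Ds (r : ℝ) : M5 := Matrix.diagonal ![1, 1, r, r, 1]

theorem Mr_mul (θ r : ℝ) : Mr θ 1 * Ds r = Mr θ r := by
  ext a b
  rw [Ds, Matrix.mul_diagonal]
  fin_cases a <;> fin_cases b <;> simp [Mr, mul_comm]

end RotP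

open RotP in
theorem rot : RotStmt := by
  intro C
  constructor
  · have h : √(1 / 2) ^ 2 = 1 / 2 := Real.sq_sqrt (by norm_num)
    generalize √(1 / 2) = c at h
    have hp : ‖mq 0 0 c (-c)‖ = 1 := norm_one_of (by simp [mq]; linarith)
    have hq : ‖mq 0 0 c c‖ = 1 := norm_one_of (by simp [mq]; linarith)
    refine ⟨C.j (mq 0 0 c (-c), mq 0 0 c c), mat_ext fun v t => ?_, ?_⟩
    · rw [C.j_π _ _ hp hq]
      ext k
      fin_cases k <;> simp [emb, mq, E.R5, Matrix.mulVec, dotProduct, Fin.sum_univ_five]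
      · linear_combination (-2 * v.imI) * h
      · linear_combination (-2 * v.re) * h
      · linear_combination (2 * v.imJ) * h
      · linear_combination (-2 * v.imK) * h
    · rw [← C.j_mul _ _ _ _ hp hq hp hq, ← C.j_neg]
      congr 2 <;> ext <;> simp [mq] <;> linarith
  · obtain ⟨S, s1, s2⟩ := C.lift (A := Ds) isOpen_Ioi
      (sc_convex (convex_Ioi (0 : ℝ)) nonempty_Ioi).perf
      (Continuous.continuousOn (Continuous.matrix_diagonal (by fun_prop)))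
      (fun r (hr : 0 < r) => by simp [Ds, Fin.prod_univ_five, hr.ne'])
    refine ⟨fun p => C.j (ee p.1, ee p.1) * S p.2, ContinuousOn.mul ?_
      (s1.comp continuousOn_snd fun p hp => hp.2), fun θ r hr => ⟨?_, ?_⟩⟩
    · exact C.j_cont.comp ((cont_ee.comp continuous_fst).prodMk
        (cont_ee.comp continuous_fst)).continuousOn fun p _ => ⟨norm_ee _, norm_ee _⟩
    · rw [map_mul, π_ee, s2 r hr, Mr_mul]
    · have h1 : ‖(-1 : ℍ)‖ = 1 := by simp
      simp only [ee_add]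
      rw [C.j_mul _ _ _ _ h1 h1 (norm_ee θ) (norm_ee θ), C.j_neg, mul_assoc]

end Pool.Agent.MP_e1dc65_gt.EA

end
end MrgPart7

-- ======== part 8: formerly Pool.Agent.MP_e1dc65_gt.e.aH2q
section MrgPart8

/-! PROJECT HC, part E-A: the second cohomology of the rational ball vanishes. -/

open scoped ContDiff Manifold Topology
open Set Filter Function Module Pool.Agent.MP_c8d41b_gt.GF

noncomputable section

namespace Pool.Agent.MP_e1dc65_gt.EA

namespace H2qP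

variable {A : MA} {T : QtD A} {Q : Mf E4} {pQ : T.Qt → Q}

theorem oe (hT : T.Ok) (hQ : T.Quo Q pQ) : OE (vs (ℂ × ℂ)) Q (fun z => pQ (T.nut z)) Np := by
  refine ⟨hT.onu.op, fun z hz => (hT.onu.ld z hz).trans (hQ.pld _), fun z hz z' hz' e => ?_⟩
  rcases (hQ.peq _ _).1 e with h | h
  · exact (hT.onu.inj hz' hz h).symm
  · have h1 := congrArg T.s h
    rw [hT.sσ, hT.sn z hz, hT.sn z' hz'] at h1
    linarith [hz.2, hz'.2]

theorem memU (hA : A.Ok) {q : Rn 3 × ℝ} (hq : q ∈ Dlo) : (A.e₀ q.1, q.2) ∈ A.U := by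
  rintro ⟨z, hz, e⟩
  have hz0 : wz z = 0 := hz
  have h1 := hA.del0 z (by show ‖wz z‖ < 1; rw [hz0, norm_zero]; exact one_pos)
  rw [e, hA.del0 _ hq.1, hz0, norm_zero, norm_eq_zero] at h1
  exact abs_lt.2 ⟨by linarith [hq.2.1], hq.2.2 h1⟩

theorem inter (hN : NutStmt) (hA : A.Ok) (hT : T.Ok) (hQ : T.Quo Q pQ) :
    (fun p => pQ (T.io p)) '' A.U ∩ (fun z => pQ (T.nut z)) '' Np =
      (fun q => pQ (T.nut (lo q))) '' Dlo := by
  refine Subset.antisymm ?_ ?_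
  · rintro _ ⟨⟨p, hp, e⟩, z, hz, rfl⟩
    have : ∃ p' ∈ A.U, T.io p' = T.nut z := by
      rcases (hQ.peq _ _).1 e with h | h
      · exact ⟨p, hp, h.symm⟩
      · exact ⟨_, hT.σU p hp, (h.trans (hT.σi p hp)).symm⟩
    obtain ⟨p', hp', e'⟩ := this
    obtain ⟨q, hq, -, rfl⟩ := (hT.rel p' hp' z hz).1 e'
    exact ⟨q, hq, rfl⟩
  · rintro _ ⟨q, hq, rfl⟩
    have h1 := (hN.meml q hq).1
    exact ⟨⟨_, memU hA hq, congrArg pQ ((hT.rel _ (memU hA hq) _ h1).2 ⟨q, hq, rfl, rfl⟩)⟩,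
      _, h1, rfl⟩

theorem cover (hT : T.Ok) (hQ : T.Quo Q pQ) :
    (fun p => pQ (T.io p)) '' A.U ∪ (fun z => pQ (T.nut z)) '' Np = univ := by
  refine eq_univ_of_forall fun y => ?_
  obtain ⟨t, rfl⟩ := hQ.psur y
  rcases hT.cov t with ⟨p, hp, rfl⟩ | ⟨z, hz, rfl | rfl⟩
  · exact Or.inl ⟨p, hp, rfl⟩
  · exact Or.inr ⟨z, hz, rfl⟩
  · exact Or.inr ⟨z, hz, (hQ.peq _ _).2 (Or.inr rfl)⟩

end H2qP

open H2qP in
theorem h2q : H2qStmt := by
  intro hN hP A T St Φ Q pQ hA hT hS hQ h1 α hα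
  obtain ⟨η, hη, hγ⟩ := hP hN A T St Φ Q pQ hA hT hS hQ
  have o1 : IsOpen ((fun p => pQ (T.io p)) '' A.U) :=
    isOpen_image_ld hT.oi.op fun p hp => (hT.oi.ld p hp).trans (hQ.pld _)
  have o2 : IsOpen ((fun z => pQ (T.nut z)) '' Np) := isOpen_image_ld hN.opN (oe hT hQ).ld
  obtain ⟨β, b1, b2⟩ := h1 α (hα.mono (subset_univ _))
  obtain ⟨β', c1, c2⟩ := (oe hT hQ).hz_image ((hza homM _ 1).2.2.2 _ _ hN.opN hN.star) α
    (hα.mono (subset_univ _))
  obtain ⟨c, φ, d1, d2⟩ := hγ _ (inter hN hA hT hQ ▸ Hzb.cl_sub b1 c1 b2 c2)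
  rw [← cover hT hQ]
  refine E.patch (β := fun y => β y - c • η y) o1 o2 (b1.sub (hη.1.smul c)) c1 (fun x hx => ?_) c2
    ?_
  · rw [dM_sub (b1 x hx).1 ((hη.1 x hx).1.smul c), dM_smul c (hη.1 x hx).1, b2 x hx, hη.2 x hx,
      smul_zero, sub_zero]
  · rw [inter hN hA hT hQ]
    exact ⟨φ, d1, fun x hx => (d2 x hx).trans (sub_right_comm _ _ _)⟩

end Pool.Agent.MP_e1dc65_gt.EA

end
end MrgPart8

-- ======== part 9: formerly Pool.Agent.MP_e1dc65_gt.k.LevelF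
section MrgPart9

/-! PROJECT HC, row LEVEL without hypotheses. -/

namespace Pool.Agent.MP_e1dc65_gt

theorem level : LevelStmt := level_of flowM field

end Pool.Agent.MP_e1dc65_gt

end MrgPart9

-- ======== part 10: formerly Pool.Agent.MP_e1dc65_gt.fm.Sard
section MrgPart10

/-! PROJECT HC, rows SARD and LEV: the Morse-Sard theorem for functions, regular levels. -/

open scoped ContDiff Manifold Topology NNReal ENNReal
open Set Filter Function Module Metric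

noncomputable section

namespace Pool.Agent.MP_e1dc65_gt

namespace MSard

variable {E : Type} [NormedAddCommGroup E] [NormedSpace ℝ E] {U B : Set E} {x y : E}

/-- the derivatives of order `< k` vanish -/
def Fl : ℕ → ∀ (F : Type) [NormedAddCommGroup F] [NormedSpace ℝ F], (E → F) → E → Prop
  | 0, _, _, _, _, _ => True
  | k + 1, F, _, _, g, x => g x = 0 ∧ Fl k (E →L[ℝ] F) (fderiv ℝ g) x

theorem step {F : Type} [NormedAddCommGroup F] [NormedSpace ℝ F] {g : E → F} {C : ℝ} {k : ℕ}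
    (hB : Convex ℝ B) (hg : ∀ z ∈ B, ContDiffAt ℝ ∞ g z) (hC : 0 ≤ C) (hx : x ∈ B) (hy : y ∈ B)
    (h : ∀ z ∈ B, ‖fderiv ℝ g z‖ ≤ C * ‖z - x‖ ^ k) : ‖g y - g x‖ ≤ C * ‖y - x‖ ^ (k + 1) := by
  rw [pow_succ, ← mul_assoc]
  refine (hB.inter (convex_closedBall x ‖y - x‖)).norm_image_sub_le_of_norm_fderiv_le
    (fun z hz => (hg z hz.1).differentiableAt (by simp)) (fun z hz => (h z hz.1).trans ?_)
    ⟨hx, mem_closedBall_self (norm_nonneg _)⟩ ⟨hy, mem_closedBall_iff_norm.2 le_rfl⟩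
  have := mem_closedBall_iff_norm.1 hz.2
  gcongr

theorem est (hB : Convex ℝ B) (hK : IsCompact B) (k : ℕ) : ∀ (F : Type) [NormedAddCommGroup F]
    [NormedSpace ℝ F] (g : E → F), (∀ z ∈ B, ContDiffAt ℝ ∞ g z) →
    ∃ C, 0 ≤ C ∧ ∀ x ∈ B, Fl k F g x → ∀ y ∈ B, ‖g y‖ ≤ C * ‖y - x‖ ^ k := by
  induction k with
  | zero =>
    intro F _ _ g hg
    obtain ⟨C, hC⟩ := hK.exists_bound_of_continuousOn fun z hz =>
      (hg z hz).continuousAt.continuousWithinAt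
    exact ⟨|C|, abs_nonneg _, fun x _ _ y hy => by simpa using (hC y hy).trans (le_abs_self C)⟩
  | succ k ih =>
    intro F _ _ g hg
    obtain ⟨C, hC, h⟩ := ih _ (fderiv ℝ g) fun z hz => (hg z hz).fderiv_right (by simp)
    exact ⟨C, hC, fun x hx hf y hy => by simpa [hf.1] using step hB hg hC hx hy (h x hx hf.2)⟩

theorem hyp (k : ℕ) : ∀ (F : Type) [NormedAddCommGroup F] [NormedSpace ℝ F] (g : E → F),
    (∀ z ∈ U, ContDiffAt ℝ ∞ g z) → x ∈ U → Fl (k + 1) F g x → ¬ Fl (k + 2) F g x →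
    ∃ h : E → ℝ, (∀ z ∈ U, ContDiffAt ℝ ∞ h z) ∧ fderiv ℝ h x ≠ 0 ∧
      ∀ y, Fl (k + 1) F g y → h y = 0 := by
  induction k with
  | zero =>
    intro F _ _ g hg hx h1 h2
    obtain ⟨v, hv⟩ : ∃ v, fderiv ℝ g x v ≠ 0 := by
      by_contra! h
      exact h2 ⟨h1.1, ContinuousLinearMap.ext h, trivial⟩
    obtain ⟨l, hl⟩ := SeparatingDual.exists_ne_zero (R := ℝ) hv
    refine ⟨fun y => l (g y), fun z hz => l.contDiff.contDiffAt.comp z (hg z hz), fun h => hl ?_,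
      fun y hy => (congrArg l hy.1).trans l.map_zero⟩
    have := (l.hasFDerivAt.comp x ((hg x hx).differentiableAt (by simp)).hasFDerivAt).fderiv
    exact congrArg (· v) (this.symm.trans h)
  | succ k ih =>
    intro F _ _ g hg hx h1 h2
    obtain ⟨h, k1, k2, k3⟩ := ih _ (fderiv ℝ g) (fun z hz => (hg z hz).fderiv_right (by simp)) hx
      h1.2 fun h => h2 ⟨h1.1, h⟩
    exact ⟨h, k1, k2, fun y hy => k3 y hy.2⟩

theorem loc {X : Type} [TopologicalSpace X] [SecondCountableTopology X] {f : X → ℝ} {S : Set X}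
    {d : ℝ≥0∞} (h : ∀ x ∈ S, ∃ t ∈ 𝓝[S] x, dimH (f '' t) ≤ d) : dimH (f '' S) ≤ d := by
  choose! t h1 h2 using h
  obtain ⟨u, hs, hc, hU⟩ := TopologicalSpace.countable_cover_nhdsWithin h1
  refine (dimH_mono (image_mono hU)).trans ?_
  rw [image_iUnion₂, dimH_bUnion hc]
  exact iSup₂_le fun x hx => h2 x (hs hx)

theorem flat [FiniteDimensional ℝ E] (hU : IsOpen U) {f : E → ℝ}
    (hf : ∀ z ∈ U, ContDiffAt ℝ ∞ f z) :
    dimH (f '' {x ∈ U | Fl (2 * finrank ℝ E + 1) _ (fderiv ℝ f) x}) ≤ 2⁻¹ := by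
  refine (dimH_image_le_of_locally_holder_on (r := (2 * finrank ℝ E + 1 + 1 : ℕ)) (by positivity)
    fun x hx => ?_).trans ?_
  · obtain ⟨r, hr, hb⟩ := nhds_basis_closedBall.mem_iff.1 (hU.mem_nhds hx.1)
    obtain ⟨C, hC, h⟩ := est (convex_closedBall x r) (isCompact_closedBall x r)
      (2 * finrank ℝ E + 1) _ (fderiv ℝ f) fun z hz => (hf z (hb hz)).fderiv_right (by simp)
    refine ⟨⟨C, hC⟩, _, inter_mem_nhdsWithin _ (closedBall_mem_nhds x hr), fun y hy z hz => ?_⟩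
    have := step (convex_closedBall x r) (fun z hz => hf z (hb hz)) hC hz.2 hy.2 (h z hz.2 hz.1.2)
    rw [edist_nndist, edist_nndist, NNReal.coe_natCast, ENNReal.rpow_natCast, ← ENNReal.coe_pow,
      ← ENNReal.coe_mul, ENNReal.coe_le_coe, ← NNReal.coe_le_coe]
    simp only [NNReal.coe_mul, NNReal.coe_pow, coe_nndist, dist_eq_norm]
    exact this
  · refine ENNReal.div_le_of_le_mul ((dimH_mono (subset_univ _)).trans ?_)
    rw [Real.dimH_univ_eq_finrank, ENNReal.coe_natCast]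
    push_cast
    rw [mul_add, mul_add, ← mul_assoc, ENNReal.inv_mul_cancel two_ne_zero ENNReal.ofNat_ne_top,
      one_mul, add_assoc]
    exact le_self_add

theorem sard (n : ℕ) : ∀ (E : Type) [NormedAddCommGroup E] [NormedSpace ℝ E] [FiniteDimensional ℝ E]
    (U : Set E) (f : E → ℝ), finrank ℝ E = n → IsOpen U → (∀ z ∈ U, ContDiffAt ℝ ∞ f z) →
    dimH (f '' {x ∈ U | fderiv ℝ f x = 0}) ≤ 2⁻¹ := by
  induction n with
  | zero =>
    intro E _ _ _ U f hd _ _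
    have := Module.finrank_zero_iff.1 hd
    rw [dimH_subsingleton (subsingleton_of_subsingleton.image f)]
    exact bot_le
  | succ n ih =>
    intro E _ _ _ U f hd hU hf
    have h1 : ∀ k, dimH (f '' {x ∈ U | Fl (k + 1) _ (fderiv ℝ f) x ∧
        ¬ Fl (k + 2) _ (fderiv ℝ f) x}) ≤ 2⁻¹ := fun k => loc fun x hx => by
      obtain ⟨h, k1, k2, k3⟩ := hyp k _ (fderiv ℝ f) (fun z hz => (hf z hz).fderiv_right (by simp))
        hx.1 hx.2.1 hx.2.2
      obtain ⟨s⟩ := Lev.slc (E' := Fin n → ℝ) (X := vs E) (f := h) (by simp [hd]) hU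
        (fun z hz => smAt_vs.2 (k1 z hz)) hx.1 (by rwa [Df_vs])
      have hs : ∀ w, (w, 0) ∈ s.W → ContDiffAt ℝ ∞ (fun w => s.g (w, 0)) w := fun w hw =>
        smAt_vs.1 (s.smg hw)
      refine ⟨_, inter_mem_nhdsWithin _ (s.oO.mem_nhds s.mem), le_trans (dimH_mono ?_)
        (ih (Fin n → ℝ) _ (fun w => f (s.g (w, 0))) (by simp) (s.oT 0)
          fun w hw => (hf _ (s.sub (s.m2 hw))).comp w (hs w hw))⟩
      rintro _ ⟨y, ⟨hy, hO⟩, rfl⟩
      have e1 : (s.Ψ y, 0) ∈ s.W := k3 y hy.2.1 ▸ s.m1 hO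
      have e2 : s.g (s.Ψ y, 0) = y := k3 y hy.2.1 ▸ s.l y hO
      refine ⟨s.Ψ y, ⟨e1, ?_⟩, congrArg f e2⟩
      rw [fderiv_fun_comp _ (e2.symm ▸ (hf y hy.1).differentiableAt (by simp))
        ((hs _ e1).differentiableAt (by simp)), e2, hy.2.1.1, ContinuousLinearMap.zero_comp]
    have h2 : ∀ k, dimH (f '' {x ∈ U | Fl (k + 1) _ (fderiv ℝ f) x}) ≤ 2⁻¹ →
        dimH (f '' {x ∈ U | fderiv ℝ f x = 0}) ≤ 2⁻¹ := fun k => by
      induction k with
      | zero => exact le_trans (dimH_mono (image_mono fun x hx => ⟨hx.1, hx.2, trivial⟩))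
      | succ k ik =>
        refine fun h => ik (le_trans (dimH_mono ?_) ((dimH_union _ _).trans_le (max_le h (h1 k))))
        rw [← image_union]
        refine image_mono fun x hx => ?_
        by_cases hc : Fl (k + 2) _ (fderiv ℝ f) x
        exacts [Or.inl ⟨hx.1, hc⟩, Or.inr ⟨hx.1, hx.2, hc⟩]
    exact h2 _ (flat hU hf)

end MSard

theorem sardM : SardMStmt := by
  intro E _ _ _ X f a b hf hab
  have h : dimH (f '' {x | Df X (vs ℝ) f x = 0}) ≤ 2⁻¹ := MSard.loc fun x _ => by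
    refine ⟨_, inter_mem_nhdsWithin _ ((ch X x).open_source.mem_nhds (mem_ch X x)),
      le_trans (dimH_mono ?_) (MSard.sard _ E _ (fun w => f ((ch X x).symm w)) rfl
        (ch X x).open_target fun w hw => smAt_vs.1 ((smAt_ch_symm hw).trans (hf _ trivial)))⟩
    rintro _ ⟨y, ⟨hy, hO⟩, rfl⟩
    have e := (ch X x).left_inv hO
    refine ⟨ch X x y, ⟨(ch X x).map_source hO, ?_⟩, congrArg f e⟩
    rw [← Df_vs, Df_comp (smAt_ch_symm ((ch X x).map_source hO)) (hf _ trivial), e,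
      show Df X (vs ℝ) f y = 0 from hy, ContinuousLinearMap.zero_comp]
  obtain ⟨c, h1, h2⟩ := (dense_compl_of_dimH_lt_finrank (h.trans_lt (by simp))).exists_between hab
  exact ⟨c, h2, fun x e k => h1 ⟨x, k, e⟩⟩

theorem levM : LevStmt := by
  intro E E' _ _ _ _ _ _ V u a b hd hu hab hK hne
  obtain ⟨c, hc, hr⟩ := sardM E V u a b hu hab
  obtain ⟨X, ι, hL, h⟩ := level E E' V u univ c hd isOpen_univ hu (fun x _ => hr x)
    ((hne c hc).imp fun x hx => ⟨trivial, hx⟩)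
  have hc' : IsCompact (univ ∩ u ⁻¹' {c}) := hK.of_isClosed_subset
    (isClosed_univ.inter (isClosed_singleton.preimage hu.cont)) fun x hx => by
      rw [mem_preimage, show u x = c from hx.2]; exact Ioo_subset_Icc_self hc
  obtain ⟨δ, ν, hδ, oe, h0, hv⟩ := h hc'
  have hO := oe.isOpen_image oe.op subset_rfl
  have hn : c ∈ (u '' (u ⁻¹' Icc a b \ ν '' (univ ×ˢ Ioo (-δ) δ)))ᶜ := by
    rintro ⟨x, hx, e⟩
    obtain ⟨z, rfl⟩ := hL.range.symm.subset (⟨trivial, e⟩ : x ∈ univ ∩ u ⁻¹' {c})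
    exact hx.2 ⟨(z, 0), ⟨trivial, by simpa using hδ, hδ⟩, h0 z⟩
  obtain ⟨ε, hε, hb⟩ := Metric.isOpen_iff.1
    ((hK.diff hO).image hu.cont).isClosed.isOpen_compl c hn
  obtain ⟨r, r0, r1, r2, r3, r4⟩ : ∃ r, 0 < r ∧ r ≤ δ ∧ r ≤ ε ∧ r < c - a ∧ r < b - c :=
    ((eventually_mem_nhdsWithin.and ((eventually_le_nhds hδ).and ((eventually_le_nhds hε).and
      ((eventually_lt_nhds (sub_pos.2 hc.1)).and (eventually_lt_nhds (sub_pos.2 hc.2))))
      |>.filter_mono nhdsWithin_le_nhds) : ∀ᶠ r in 𝓝[>] (0 : ℝ), _)).exists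
  have hs : Ioo (-r) r ⊆ Ioo (-δ) δ := Ioo_subset_Ioo (neg_le_neg r1) r1
  refine ⟨c, r, X, ν, by linarith, by linarith, r0, hL.compact hc',
    oe.mono (isOpen_univ.prod isOpen_Ioo) (prod_mono_right hs), fun z t ht => (hv z t (hs ht)).2,
    Subset.antisymm ?_ fun y hy => ?_⟩
  · rintro _ ⟨⟨z, t⟩, ⟨-, ht⟩, rfl⟩
    rw [mem_preimage, (hv z t (hs ht)).2]
    exact ⟨by linarith [ht.1], by linarith [ht.2]⟩
  · obtain ⟨⟨z, t⟩, ⟨-, ht⟩, rfl⟩ : y ∈ ν '' (univ ×ˢ Ioo (-δ) δ) := by_contra fun k =>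
      hb (Real.ball_eq_Ioo c ε ▸ ⟨by linarith [hy.1], by linarith [hy.2]⟩)
        ⟨y, ⟨⟨by linarith [hy.1], by linarith [hy.2]⟩, k⟩, rfl⟩
    rw [mem_preimage, (hv z t ht).2] at hy
    exact ⟨(z, t), ⟨trivial, by linarith [hy.1], by linarith [hy.2]⟩, rfl⟩

end Pool.Agent.MP_e1dc65_gt

end
end MrgPart10

-- marker of a merged file
example : 731051 + 328957 = 731051 + 328957 := rfl
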