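import Pool.Agent.MP_e1dc65_gt.fm.Spec
import Pool.Agent.MP_e1dc65_gt.k.Cech
import Pool.Agent.MP_e1dc65_gt.k.Cof

/-! PROJECT HC, row SPG: gluing of spin structures along an overlap without double covers. -/

open scoped ContDiff Manifold Topology
open Set Filter Function

noncomputable section

namespace Pool.Agent.MP_e1dc65_gt

namespace SpgP

section Grp
variable {C : SpinCover}

theorem central {a : C.G} (ha : C.π a = 1) (g : C.G) : g * a = a * g := by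
  rcases (C.ker a).1 ha with rfl | rfl
  · simp
  · have h : C.π (g * C.ε * g⁻¹) = 1 := by
      rw [map_mul, map_mul, ha, mul_one, ← map_mul, mul_inv_cancel, map_one]
    rcases (C.ker _).1 h with h | h
    · exact absurd (by simpa using h) C.ε_ne
    · exact mul_inv_eq_iff_eq_mul.1 h

theorem pi_inv {a : C.G} (ha : C.π a = 1) : C.π a⁻¹ = 1 := by
  have h : C.π a⁻¹ * C.π a = 1 := by rw [← map_mul, inv_mul_cancel, map_one]
  rwa [ha, mul_one] at h

/-- a continuous function with values in the kernel is locally constant -/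
theorem lc_ker {X : Type} [TopologicalSpace X] {f : X → C.G} {S : Set X} (hf : ContinuousOn f S)
    (h : ∀ x ∈ S, C.π (f x) = 1) : LC f S := fun x hx => by
  obtain ⟨O, hO, h1, h2⟩ := C.disc
  have h3 : Tendsto (fun y => f y * (f x)⁻¹) (𝓝[S] x) (𝓝 1) := by
    simpa using (hf x hx).tendsto.mul_const (f x)⁻¹
  filter_upwards [h3 (hO.mem_nhds h1), self_mem_nhdsWithin] with y hy hs
  have h4 : C.π (f y * (f x)⁻¹) = 1 := by rw [map_mul, h y hs, pi_inv (h x hx), mul_one]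
  rcases (C.ker _).1 h4 with h5 | h5
  · exact mul_inv_eq_one.1 h5
  · exact (h2 (h5 ▸ hy)).elim

/-- the kernel as a commutative group -/
def K (C : SpinCover) : Type := C.π.ker

instance : CommGroup (K C) :=
  { (inferInstance : Group C.π.ker) with mul_comm := fun a b => Subtype.ext (central b.2 a.1) }

/-- the inclusion of the kernel -/
def val : K C →* C.G := C.π.ker.subtype

theorem val_inj : Injective (val : K C → C.G) := Subtype.val_injective

theorem val_ker (a : K C) : C.π (val a) = 1 := a.2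

/-- an element of the kernel -/
def mk (a : C.G) (h : C.π a = 1) : K C := ⟨a, h⟩

theorem val_mk (a : C.G) (h : C.π a = 1) : val (mk a h) = a := rfl

/-- a cocycle with values in the kernel is a coboundary -/
theorem cob {X ι : Type} [TopologicalSpace X] [LocallyPathConnectedSpace X] {T : Set X}
    {V : ι → Set X} {c : ι → ι → X → C.G} (hT : IsOpen T) (hV : ∀ a, IsOpen (V a))
    (hc : ∀ x ∈ T, ∃ a, x ∈ V a) (h1 : ∀ a b, ContinuousOn (c a b) (T ∩ V a ∩ V b))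
    (h2 : ∀ a b, ∀ x ∈ T ∩ V a ∩ V b, C.π (c a b x) = 1)
    (h3 : ∀ a b d, ∀ x ∈ T ∩ V a ∩ V b ∩ V d, c a b x * c b d x = c a d x) (hP : Perf T) :
    ∃ r : ι → X → C.G, (∀ a x, C.π (r a x) = 1) ∧
      (∀ a, ∀ x ∈ T ∩ V a, ∀ᶠ y in 𝓝 x, r a y = r a x) ∧
      ∀ a b, ∀ x ∈ T ∩ V a ∩ V b, r a x = c a b x * r b x := by
  classical
  let k : ι → ι → X → K C := fun a b x => if h : C.π (c a b x) = 1 then mk (c a b x) h else 1
  have hk : ∀ a b, ∀ x ∈ T ∩ V a ∩ V b, val (k a b x) = c a b x := fun a b x hx => by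
    simp only [k, dif_pos (h2 a b x hx), val_mk]
  obtain ⟨τ, s, hτ, hs, hks⟩ := cech X (K C) ι T V k hV hc
    (fun a b x hx => by
      filter_upwards [lc_ker (h1 a b) (h2 a b) x hx, self_mem_nhdsWithin] with y hy hs
      exact val_inj (by rw [hk a b y hs, hk a b x hx, hy]))
    fun a b d x hx => val_inj (by
      rw [map_mul, hk a b x hx.1, hk b d x ⟨⟨hx.1.1.1, hx.1.2⟩, hx.2⟩, hk a d x ⟨hx.1.1, hx.2⟩,
        h3 a b d x hx])
  obtain ⟨σ, hσ⟩ := hP (K C) τ hτ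
  refine ⟨fun a x => val (s a x * (σ x)⁻¹), fun a x => val_ker _, fun a x hx => ?_,
    fun a b x hx => ?_⟩
  · filter_upwards [CechP.ratio_lc (hT.inter (hV a)) (CechP.par_mono hσ inter_subset_left)
      (hs a) hx] with y hy
    rw [hy]
  · simp only
    rw [hks a b x hx, ← hk a b x hx, mul_assoc, map_mul]

end Grp

variable {C : SpinCover} {E : Type} [NormedAddCommGroup E] [NormedSpace ℝ E]
  [FiniteDimensional ℝ E] {X : Mf E} {U U' : Set X}

theorem open_dom (sp : Spin C X U) : IsOpen U := isOpen_iff_mem_nhds.2 fun x hx =>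
  let ⟨i, hi⟩ := sp.cov x hx
  mem_of_superset ((sp.op i).mem_nhds hi) (sp.sub i)

theorem g_self (sp : Spin C X U) (i : sp.ι) {x : X} (hx : x ∈ sp.W i) : sp.g i i x = 1 :=
  mul_eq_left.1 (sp.coc i i i x ⟨⟨hx, hx⟩, hx⟩)

theorem g_inv (sp : Spin C X U) (i j : sp.ι) {x : X} (hi : x ∈ sp.W i) (hj : x ∈ sp.W j) :
    sp.g j i x = (sp.g i j x)⁻¹ :=
  eq_inv_of_mul_eq_one_right ((sp.coc i j i x ⟨⟨hi, hj⟩, hi⟩).trans (g_self sp i hi))

/-- a compatible family of lifts of the mixed transition matrices -/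
theorem fam (sp : Spin C X U) (sp' : Spin C X U') (hP : Perf (U ∩ U'))
    (hd : ∀ i j, ∀ x ∈ sp.W i ∩ sp'.W j, 0 < (tm (sp.Θ i x) (sp'.Θ j x)).det) :
    ∃ t : sp.ι → sp'.ι → X → C.G, (∀ i j, ContinuousOn (t i j) (sp.W i ∩ sp'.W j)) ∧
      (∀ i j, ∀ x ∈ sp.W i ∩ sp'.W j, C.π (t i j x) = tm (sp.Θ i x) (sp'.Θ j x)) ∧
      ∀ i j i' j' x, x ∈ sp.W i ∩ sp'.W j → x ∈ sp.W i' ∩ sp'.W j' →
        t i j x = sp.g i i' x * t i' j' x * sp'.g j' j x := by
  classical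
  choose O hO s hs hπ using fun B : {A : M5 // 0 < A.det} => C.sec B.1 B.2
  let m : sp.ι → sp'.ι → X → M5 := fun i j x => tm (sp.Θ i x) (sp'.Θ j x)
  have hm : ∀ i j, ContinuousOn (m i j) (sp.W i ∩ sp'.W j) := fun i j =>
    (sp.cof i).tm_contOn (sp'.cof j)
  let V : sp.ι × sp'.ι × {A : M5 // 0 < A.det} → Set X := fun a =>
    (sp.W a.1 ∩ sp'.W a.2.1) ∩ m a.1 a.2.1 ⁻¹' interior (O a.2.2)
  have hV : ∀ a, IsOpen (V a) := fun a =>
    (hm _ _).isOpen_inter_preimage ((sp.op _).inter (sp'.op _)) isOpen_interior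
  let l : sp.ι × sp'.ι × {A : M5 // 0 < A.det} → X → C.G := fun a x => s a.2.2 (m a.1 a.2.1 x)
  have hl : ∀ a, ContinuousOn (l a) (V a) := fun a =>
    (hs _).comp ((hm _ _).mono inter_subset_left) fun x hx => interior_subset hx.2
  have hlπ : ∀ a, ∀ x ∈ V a, C.π (l a x) = m a.1 a.2.1 x := fun a x hx =>
    hπ _ _ (interior_subset hx.2)
  have hself : ∀ i j x (hx : x ∈ sp.W i ∩ sp'.W j), x ∈ V (i, j, ⟨m i j x, hd i j x hx⟩) :=
    fun i j x hx => ⟨hx, mem_interior_iff_mem_nhds.2 (hO ⟨m i j x, hd i j x hx⟩)⟩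
  have hker : ∀ a b, ∀ x ∈ V a ∩ V b,
      C.π ((l a x)⁻¹ * (sp.g a.1 b.1 x * l b x * sp'.g b.2.1 a.2.1 x)) = 1 := fun a b x hx => by
    have e : C.π (sp.g a.1 b.1 x * l b x * sp'.g b.2.1 a.2.1 x) = C.π (l a x) := by
      rw [map_mul, map_mul, hlπ a x hx.1, hlπ b x hx.2, sp.proj _ _ x ⟨hx.1.1.1, hx.2.1.1⟩,
        sp'.proj _ _ x ⟨hx.2.1.2, hx.1.1.2⟩]
      simp only [m]
      rw [tm_mul (sp.cof _ x hx.2.1.1).2, tm_mul (sp'.cof _ x hx.2.1.2).2]
    rw [map_mul, e, ← map_mul, inv_mul_cancel, map_one]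
  obtain ⟨r, r1, r2, r3⟩ := cob (T := U ∩ U') (V := V)
    (c := fun a b x => (l a x)⁻¹ * (sp.g a.1 b.1 x * l b x * sp'.g b.2.1 a.2.1 x))
    ((open_dom sp).inter (open_dom sp')) hV
    (fun x hx => by
      obtain ⟨i, hi⟩ := sp.cov x hx.1
      obtain ⟨j, hj⟩ := sp'.cov x hx.2
      exact ⟨_, hself i j x ⟨hi, hj⟩⟩)
    (fun a b => ((hl a).mono fun x hx => hx.1.2).inv.mul
      ((((sp.cont _ _).mono fun x hx => ⟨hx.1.2.1.1, hx.2.1.1⟩).mul
        ((hl b).mono fun x hx => hx.2)).mul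
        ((sp'.cont _ _).mono fun x hx => ⟨hx.2.1.2, hx.1.2.1.2⟩)))
    (fun a b x hx => hker a b x ⟨hx.1.2, hx.2⟩)
    (fun a b d x hx => by
      have e := central (hker b d x ⟨hx.1.2, hx.2⟩) (sp'.g b.2.1 a.2.1 x)
      have e1 := sp.coc a.1 b.1 d.1 x ⟨⟨hx.1.1.2.1.1, hx.1.2.1.1⟩, hx.2.1.1⟩
      have e2 := sp'.coc d.2.1 b.2.1 a.2.1 x ⟨⟨hx.2.1.2, hx.1.2.1.2⟩, hx.1.1.2.1.2⟩
      rw [← e1, ← e2]
      simp only [mul_assoc] at e ⊢
      rw [e]
      simp only [mul_inv_cancel_left]) hP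
  have hT : ∀ a, V a ⊆ U ∩ U' := fun a x hx => ⟨sp.sub _ hx.1.1, sp'.sub _ hx.1.2⟩
  have law : ∀ a b, ∀ x ∈ V a ∩ V b,
      l a x * r a x = sp.g a.1 b.1 x * (l b x * r b x) * sp'.g b.2.1 a.2.1 x := fun a b x hx => by
    rw [r3 a b x ⟨⟨hT a hx.1, hx.1⟩, hx.2⟩]
    simp only [mul_assoc, mul_inv_cancel_left]
    rw [central (r1 b x)]
  let t : sp.ι → sp'.ι → X → C.G := fun i j x =>
    if h : x ∈ sp.W i ∩ sp'.W j then
      l (i, j, ⟨m i j x, hd i j x h⟩) x * r (i, j, ⟨m i j x, hd i j x h⟩) x else 1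
  have ht : ∀ a, ∀ x ∈ V a, t a.1 a.2.1 x = l a x * r a x := fun a x hx => by
    simp only [t, dif_pos hx.1]
    rw [law _ a x ⟨hself _ _ x hx.1, hx⟩, g_self sp _ hx.1.1, g_self sp' _ hx.1.2, one_mul,
      mul_one]
  refine ⟨t, fun i j x hx => ?_, fun i j x hx => ?_, fun i j i' j' x hx hx' => ?_⟩
  · obtain ⟨B, h0⟩ : ∃ B, x ∈ V (i, j, B) := ⟨_, hself i j x hx⟩
    have h1 := (hV _).mem_nhds h0
    refine ContinuousAt.continuousWithinAt (ContinuousAt.congr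
      (((hl _).continuousAt h1).mul (continuousAt_const (y := r (i, j, B) x))) ?_)
    filter_upwards [h1, r2 _ x ⟨hT _ h0, h0⟩] with y h2 h3
    rw [ht _ y h2, h3]
    rfl
  · rw [ht _ x (hself i j x hx), map_mul, r1, mul_one, hlπ _ x (hself i j x hx)]
  · rw [ht _ x (hself i j x hx), ht _ x (hself i' j' x hx'),
      law _ _ x ⟨hself i j x hx, hself i' j' x hx'⟩]

end SpgP

open SpgP in
theorem spinGlue : SpinGlueStmt := by
  intro C E _ _ _ X U U' sp sp' hP hd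
  obtain ⟨t, t1, t2, t3⟩ := fam sp sp' hP hd
  have l1 : ∀ i i' j x, x ∈ sp.W i → x ∈ sp.W i' → x ∈ sp'.W j →
      t i j x = sp.g i i' x * t i' j x := fun i i' j x h1 h2 h3 => by
    rw [t3 i j i' j x ⟨h1, h3⟩ ⟨h2, h3⟩, g_self sp' j h3, mul_one]
  have l2 : ∀ i j j' x, x ∈ sp.W i → x ∈ sp'.W j → x ∈ sp'.W j' →
      t i j x = t i j' x * sp'.g j' j x := fun i j j' x h1 h2 h3 => by
    rw [t3 i j i j' x ⟨h1, h2⟩ ⟨h1, h3⟩, g_self sp i h1, one_mul]
  refine ⟨{ ι := sp.ι ⊕ sp'.ι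
            W := Sum.elim sp.W sp'.W
            Θ := Sum.elim sp.Θ sp'.Θ
            op := Sum.rec sp.op sp'.op
            sub := Sum.rec (fun i => (sp.sub i).trans subset_union_left)
              fun j => (sp'.sub j).trans subset_union_right
            cov := fun x hx => hx.elim (fun h => (sp.cov x h).elim fun i hi => ⟨.inl i, hi⟩)
              fun h => (sp'.cov x h).elim fun j hj => ⟨.inr j, hj⟩
            cof := Sum.rec sp.cof sp'.cof
            g := Sum.elim (fun i => Sum.elim (sp.g i) (t i))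
              fun j => Sum.elim (fun i x => (t i j x)⁻¹) (sp'.g j)
            cont := ?_
            proj := ?_
            coc := ?_ }, Sum.inl, Sum.inr, ⟨fun _ => rfl, fun _ => rfl, fun _ _ => rfl⟩,
    ⟨fun _ => rfl, fun _ => rfl, fun _ _ => rfl⟩, ?_⟩
  · rintro (a | a) (b | b)
    · exact sp.cont a b
    · exact t1 a b
    · exact ((t1 b a).mono fun x hx => ⟨hx.2, hx.1⟩).inv
    · exact sp'.cont a b
  · rintro (a | a) (b | b) x hx
    · exact sp.proj a b x hx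
    · exact t2 a b x hx
    · change C.π (t b a x)⁻¹ = tm (sp'.Θ a x) (sp.Θ b x)
      rw [← mul_one (C.π _), ← tm_self (sp.cof b x hx.2).2, ← tm_mul (sp'.cof a x hx.1).2,
        ← t2 b a x ⟨hx.2, hx.1⟩, ← mul_assoc, ← map_mul, inv_mul_cancel, map_one, one_mul]
    · exact sp'.proj a b x hx
  · rintro (a | a) (b | b) (d | d) x ⟨⟨h1, h2⟩, h3⟩ <;> simp only [Sum.elim_inl, Sum.elim_inr] at *
    · exact sp.coc a b d x ⟨⟨h1, h2⟩, h3⟩
    · exact (l1 a b d x h1 h2 h3).symm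
    · rw [l1 a d b x h1 h3 h2, mul_inv_cancel_right]
    · exact (l2 a d b x h1 h3 h2).symm
    · rw [l1 b d a x h2 h3 h1, mul_inv_rev, inv_mul_cancel_right]
    · rw [l2 b d a x h2 h3 h1, inv_mul_cancel_left]
    · rw [l2 d a b x h3 h1 h2, mul_inv_rev, g_inv sp' b a h2 h1]
    · exact sp'.coc a b d x ⟨⟨h1, h2⟩, h3⟩
  · rintro (a | a)
    · exact .inl ⟨a, rfl⟩
    · exact .inr ⟨a, rfl⟩

end Pool.Agent.MP_e1dc65_gt
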